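import Mathlib

/-!
# Comparison of a function with a power by a monotone quotient (helper41)
-/

set_option autoImplicit false

open Set

namespace Pool.Agent.H41.Beur

theorem cmp (K e V : ℝ) (hK : 0 < K) (he : 0 < e) (h h' : ℝ → ℝ) (h0 : h 0 = 0)
    (hd : ∀ μ, 0 < 1 + K * μ → HasDerivAt h (h' μ) μ)
    (hneg : ∀ μ, 0 < 1 + K * μ → μ < 0 → (1 / K + μ) * h' μ - 1 - e * h μ ≤ 0)
    (hpos : ∀ μ, 0 < μ → K * μ < V → 0 ≤ (1 / K + μ) * h' μ - 1 - e * h μ) :
    ∀ μ, 0 < 1 + K * μ → K * μ ≤ V → (1 + K * μ) ^ e ≤ 1 + e * h μ := by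
  obtain ⟨G, hG⟩ : ∃ G : ℝ → ℝ, G = fun μ => (1 + e * h μ) * (1 + K * μ) ^ (-e) := ⟨_, rfl⟩
  have hdG : ∀ μ, 0 < 1 + K * μ → HasDerivAt G
      (e * K * (1 + K * μ) ^ (-e - 1) * ((1 / K + μ) * h' μ - 1 - e * h μ)) μ := by
    intro μ hμ
    have e1 : HasDerivAt (fun μ => 1 + e * h μ) (e * h' μ) μ :=
      (((hd μ hμ).const_mul e).const_add 1)
    have e2 : HasDerivAt (fun μ : ℝ => 1 + K * μ) K μ := by
      simpa using ((hasDerivAt_id μ).const_mul K).const_add 1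
    have e3 := e2.rpow_const (p := -e) (Or.inl hμ.ne')
    rw [hG]
    refine (e1.mul e3).congr_deriv ?_
    have e4 : (1 + K * μ) ^ (-e) = (1 + K * μ) ^ (-e - 1) * (1 + K * μ) := by
      rw [← Real.rpow_add_one hμ.ne']
      congr 1
      ring
    rw [e4]
    generalize (1 + K * μ) ^ (-e - 1) = w
    field_simp
    ring
  have hG0 : G 0 = 1 := by
    rw [hG]
    simp [h0]
  have key : ∀ μ, 0 < 1 + K * μ → K * μ ≤ V → 1 ≤ G μ := by
    intro μ hμ hV
    rcases le_total μ 0 with hm | hm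
    · have hanti : AntitoneOn G (Icc μ 0) := by
        have hin : ∀ t ∈ Icc μ 0, 0 < 1 + K * t := by
          intro t ht
          have : K * μ ≤ K * t := mul_le_mul_of_nonneg_left ht.1 hK.le
          linarith
        apply antitoneOn_of_deriv_nonpos (convex_Icc _ _)
        · intro t ht
          exact (hdG t (hin t ht)).continuousAt.continuousWithinAt
        · intro t ht
          exact (hdG t (hin t (interior_subset ht))).differentiableAt.differentiableWithinAt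
        · intro t ht
          have ht' := hin t (interior_subset ht)
          rw [(hdG t ht').deriv]
          rw [interior_Icc] at ht
          have e1 := hneg t ht' ht.2
          have e2 : 0 ≤ e * K * (1 + K * t) ^ (-e - 1) :=
            mul_nonneg (mul_nonneg he.le hK.le) (Real.rpow_nonneg ht'.le _)
          exact mul_nonpos_of_nonneg_of_nonpos e2 e1
      have := hanti ⟨le_rfl, hm⟩ ⟨hm, le_rfl⟩ hm
      rwa [hG0] at this
    · have hmono : MonotoneOn G (Icc 0 μ) := by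
        have hin : ∀ t ∈ Icc 0 μ, 0 < 1 + K * t := by
          intro t ht
          have : 0 ≤ K * t := mul_nonneg hK.le ht.1
          linarith
        apply monotoneOn_of_deriv_nonneg (convex_Icc _ _)
        · intro t ht
          exact (hdG t (hin t ht)).continuousAt.continuousWithinAt
        · intro t ht
          exact (hdG t (hin t (interior_subset ht))).differentiableAt.differentiableWithinAt
        · intro t ht
          have ht' := hin t (interior_subset ht)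
          rw [(hdG t ht').deriv]
          rw [interior_Icc] at ht
          have e0 : K * t < V := lt_of_lt_of_le (mul_lt_mul_of_pos_left ht.2 hK) hV
          have e1 := hpos t ht.1 e0
          have e2 : 0 ≤ e * K * (1 + K * t) ^ (-e - 1) :=
            mul_nonneg (mul_nonneg he.le hK.le) (Real.rpow_nonneg ht'.le _)
          exact mul_nonneg e2 e1
      have := hmono ⟨le_rfl, hm⟩ ⟨hm, le_rfl⟩ hm
      rwa [hG0] at this
  intro μ hμ hV
  have h1 := key μ hμ hV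
  rw [hG] at h1
  simp only at h1
  rw [Real.rpow_neg hμ.le, ← div_eq_mul_inv, le_div_iff₀ (Real.rpow_pos_of_pos hμ _), one_mul] at h1
  exact h1

/-- one step of the elimination -/
theorem step (w ρ μ h g g' : ℝ) (hρ : 0 < ρ) (hC : 0 < w * (1 + μ * ρ) + h) :
    (w ^ 2 * (1 + ρ) ^ 2 * μ / ρ + w * h * (1 + μ / ρ)) / (w * (1 + μ * ρ) + h) * g ^ 2
      ≤ w * ((g - g') ^ 2 + μ / ρ * (g + ρ * g') ^ 2) + h * g' ^ 2 := by
  rw [div_mul_eq_mul_div, div_le_iff₀ hC]
  have : (w * ((g - g') ^ 2 + μ / ρ * (g + ρ * g') ^ 2) + h * g' ^ 2) * (w * (1 + μ * ρ) + h)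
      - (w ^ 2 * (1 + ρ) ^ 2 * μ / ρ + w * h * (1 + μ / ρ)) * g ^ 2
      = (w * (μ - 1) * g + (w * (1 + μ * ρ) + h) * g') ^ 2 := by
    field_simp
    ring
  nlinarith [sq_nonneg (w * (μ - 1) * g + (w * (1 + μ * ρ) + h) * g')]

/-- Cauchy-Schwarz for three terms with weights -/
theorem cs3 (k0 k1 k2 a0 a1 a2 y0 y1 y2 : ℝ) (h0 : 0 < k0) (h1 : 0 < k1) (h2 : 0 < k2) :
    (a0 * y0 + a1 * y1 + a2 * y2) ^ 2 ≤
      (k0 * y0 ^ 2 + k1 * y1 ^ 2 + k2 * y2 ^ 2) * (a0 ^ 2 / k0 + a1 ^ 2 / k1 + a2 ^ 2 / k2) := by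
  have : (k0 * y0 ^ 2 + k1 * y1 ^ 2 + k2 * y2 ^ 2) * (a0 ^ 2 / k0 + a1 ^ 2 / k1 + a2 ^ 2 / k2)
      - (a0 * y0 + a1 * y1 + a2 * y2) ^ 2 =
      (k0 * y0 * a1 - k1 * y1 * a0) ^ 2 / (k0 * k1) + (k0 * y0 * a2 - k2 * y2 * a0) ^ 2 / (k0 * k2)
      + (k1 * y1 * a2 - k2 * y2 * a1) ^ 2 / (k1 * k2) := by
    field_simp
    ring
  have h3 : 0 ≤ (k0 * y0 * a1 - k1 * y1 * a0) ^ 2 / (k0 * k1) +
      (k0 * y0 * a2 - k2 * y2 * a0) ^ 2 / (k0 * k2)
      + (k1 * y1 * a2 - k2 * y2 * a1) ^ 2 / (k1 * k2) := by positivity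
  linarith

/-- `(1 + c/p + (c/p)^2/2)^(p/2) ≤ 100` for `c = 46/5` -/
theorem powbd (p b : ℝ) (hp : 0 < p) (hb : 0 ≤ b)
    (h : b ≤ 1 + 46 / (5 * p) + (46 / (5 * p)) ^ 2 / 2) : b ^ (p / 2) ≤ 100 := by
  have h1 : b ≤ Real.exp (46 / (5 * p)) :=
    h.trans (Real.quadratic_le_exp_of_nonneg (by positivity))
  have h2 : b ^ (p / 2) ≤ Real.exp (46 / (5 * p)) ^ (p / 2) :=
    Real.rpow_le_rpow hb h1 (by positivity)
  rw [← Real.exp_mul] at h2
  have h3 : 46 / (5 * p) * (p / 2) = 23 / 5 := by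
    field_simp
    norm_num
  rw [h3] at h2
  refine h2.trans ?_
  have h4 : Real.exp (23 / 5) ^ 5 ≤ (100 : ℝ) ^ 5 := by
    rw [← Real.exp_nat_mul]
    have h5 : ((5 : ℕ) : ℝ) * (23 / 5) = ((23 : ℕ) : ℝ) * 1 := by norm_num
    rw [h5, Real.exp_nat_mul]
    have h6 := Real.exp_one_lt_d9
    have h7 : Real.exp 1 ^ 23 ≤ 2.7182818286 ^ 23 :=
      pow_le_pow_left₀ (Real.exp_pos 1).le h6.le 23
    refine h7.trans ?_
    norm_num
  exact le_of_pow_le_pow_left₀ (by norm_num) (by norm_num) h4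

end Pool.Agent.H41.Beur
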