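import Pool.Agent.H41.Beur.A
import Pool.Agent.H41.Beur.B3
import Pool.Graph.R_seed8.Y282.RB.Stm

/-!
# The case n = 3 : elimination and comparison (helper41)
-/

set_option autoImplicit false

open Set

namespace Pool.Agent.H41.Beur.C3

open Pool.Agent.H41.Beur Pool.Agent.H41.Beur.B3 Pool.Agent.Y282.RB

noncomputable def NN (p μ : ℝ) : ℝ := n1 p * μ + n2 p * μ ^ 2 + n3 p * μ ^ 3
noncomputable def DD (p μ : ℝ) : ℝ := d0 p + d1 p * μ + d2 p * μ ^ 2 + d3 p * μ ^ 3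

theorem ident (p μ : ℝ) : (d0 p + n1 p * μ) * ((n1 p + 2 * n2 p * μ + 3 * n3 p * μ ^ 2) * DD p μ -
    NN p μ * (d1 p + 2 * d2 p * μ + 3 * d3 p * μ ^ 2)) * p - n1 p * p * (DD p μ) ^ 2 -
    (p - 2) * n1 p * NN p μ * DD p μ =
    μ * (q0 p + q1 p * μ + q2 p * μ ^ 2 + q3 p * μ ^ 3 + q4 p * μ ^ 4 + q5 p * μ ^ 5) := by
  unfold NN DD n1 n2 n3 d0 d1 d2 d3 q0 q1 q2 q3 q4 q5
  ring

theorem coefs (p : ℝ) (hp : 10 ≤ p) : 0 < n1 p ∧ 0 < d0 p ∧ 0 < d1 p ∧ 0 < d2 p ∧ 0 < d3 p ∧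
    0 < n1 p - d1 p ∧ 0 < n1 p * d2 p - d3 p * d0 p := by
  obtain ⟨u, rfl⟩ : ∃ u, p = 10 + u := ⟨p - 10, by ring⟩
  have hu : 0 ≤ u := by linarith
  refine ⟨?_, ?_, ?_, ?_, ?_, ?_, ?_⟩
  · unfold n1; ring_nf; positivity
  · unfold d0; ring_nf; positivity
  · unfold d1; ring_nf; positivity
  · unfold d2; ring_nf; positivity
  · unfold d3; ring_nf; positivity
  · unfold n1 d1; ring_nf; positivity
  · unfold n1 d2 d3 d0; ring_nf; positivity

theorem DD_pos (p μ : ℝ) (hp : 10 ≤ p) (hμ : 0 ≤ d0 p + n1 p * μ) : 0 < DD p μ := by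
  obtain ⟨h1, h2, h3, h4, h5, h6, h7⟩ := coefs p hp
  unfold DD
  have e1 : 0 < n1 p * (d0 p + d1 p * μ) := by
    have : n1 p * (d0 p + d1 p * μ) = d0 p * (n1 p - d1 p) + d1 p * (d0 p + n1 p * μ) := by ring
    rw [this]
    have := mul_pos h2 h6
    have := mul_nonneg h3.le hμ
    linarith
  have e2 : 0 < n1 p * (d2 p + d3 p * μ) := by
    have : n1 p * (d2 p + d3 p * μ) = (n1 p * d2 p - d3 p * d0 p) + d3 p * (d0 p + n1 p * μ) := by
      ring
    rw [this]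
    have := mul_nonneg h5.le hμ
    linarith
  have e3 : 0 < d0 p + d1 p * μ := pos_of_mul_pos_right e1 h1.le
  have e4 : 0 < d2 p + d3 p * μ := pos_of_mul_pos_right e2 h1.le
  have e5 : 0 ≤ (d2 p + d3 p * μ) * μ ^ 2 := by positivity
  nlinarith

theorem Q_neg (p μ : ℝ) (hp : 10 ≤ p) (hμ : 0 ≤ d0 p + n1 p * μ) (hm : μ < 0) :
    0 ≤ q0 p + q1 p * μ + q2 p * μ ^ 2 + q3 p * μ ^ 3 + q4 p * μ ^ 4 + q5 p * μ ^ 5 := by
  obtain ⟨h1, h2, h3, h4, h5, h6, h7⟩ := coefs p hp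
  obtain ⟨u, rfl⟩ : ∃ u, p = 10 + u := ⟨p - 10, by ring⟩
  have hu : 0 ≤ u := by linarith
  have a0 := q0_pos u hu
  have a1 := q1_pos u hu
  have a2 := q2_pos u hu
  have a3 := q3_pos u hu
  have a4 := q4_pos u hu
  have a5 := q5_neg u hu
  have a01 := c01 u hu
  have a23 := c23 u hu
  generalize (10 + u) = p at *
  have e1 : 0 < q0 p + q1 p * μ := by
    refine pos_of_mul_pos_right (a := n1 p) ?_ h1.le
    have : n1 p * (q0 p + q1 p * μ) = (n1 p * q0 p - d0 p * q1 p) + q1 p * (d0 p + n1 p * μ) := by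
      ring
    rw [this]
    have := mul_nonneg a1.le hμ
    linarith
  have e2 : 0 < q2 p + q3 p * μ := by
    refine pos_of_mul_pos_right (a := n1 p) ?_ h1.le
    have : n1 p * (q2 p + q3 p * μ) = (n1 p * q2 p - d0 p * q3 p) + q3 p * (d0 p + n1 p * μ) := by
      ring
    rw [this]
    have := mul_nonneg a3.le hμ
    linarith
  have e3 : 0 ≤ (q2 p + q3 p * μ) * μ ^ 2 := by positivity
  have e4 : 0 ≤ q4 p * μ ^ 4 := by positivity
  have e5 : 0 ≤ (-q5 p) * (μ ^ 4 * (-μ)) :=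
    mul_nonneg a5.le (mul_nonneg (by positivity) (by linarith))
  nlinarith

theorem Q_pos (p μ : ℝ) (hp : 10 ≤ p) (hm : 0 ≤ μ) (hV : n1 p * μ ≤ 100 * d0 p) :
    0 ≤ q0 p + q1 p * μ + q2 p * μ ^ 2 + q3 p * μ ^ 3 + q4 p * μ ^ 4 + q5 p * μ ^ 5 := by
  obtain ⟨h1, h2, h3, h4, h5, h6, h7⟩ := coefs p hp
  obtain ⟨u, rfl⟩ : ∃ u, p = 10 + u := ⟨p - 10, by ring⟩
  have hu : 0 ≤ u := by linarith
  have a0 := q0_pos u hu
  have a1 := q1_pos u hu
  have a2 := q2_pos u hu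
  have a3 := q3_pos u hu
  have a4 := q4_pos u hu
  have a5 := q5_neg u hu
  have a45 := c45 u hu
  generalize (10 + u) = p at *
  have e2 : 0 < q4 p + q5 p * μ := by
    refine pos_of_mul_pos_right (a := n1 p) ?_ h1.le
    have : n1 p * (q4 p + q5 p * μ) = (n1 p * q4 p + 100 * (d0 p * q5 p)) +
        (-q5 p) * (100 * d0 p - n1 p * μ) := by
      ring
    rw [this]
    have := mul_nonneg a5.le (sub_nonneg.mpr hV)
    linarith
  have e3 : 0 ≤ (q4 p + q5 p * μ) * μ ^ 4 := by positivity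
  have e4 : 0 ≤ q1 p * μ + q2 p * μ ^ 2 + q3 p * μ ^ 3 := by positivity
  nlinarith

/-- comparison with the power function -/
theorem star (p : ℝ) (hp : 10 ≤ p) (s : ℝ) (hs : 0 < s) (hs1 : s ≤ 100) :
    s ^ (1 - 2 / p) ≤ 1 + (1 - 2 / p) * (NN p ((s - 1) * (d0 p / n1 p)) /
      DD p ((s - 1) * (d0 p / n1 p))) := by
  obtain ⟨h1, h2, h3, h4, h5, h6, h7⟩ := coefs p hp
  have hp0 : 0 < p := by linarith
  have hK : 0 < n1 p / d0 p := by positivity
  have he : 0 < 1 - 2 / p := by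
    rw [sub_pos, div_lt_one hp0]
    linarith
  have hin : ∀ μ, 0 < 1 + n1 p / d0 p * μ → 0 < d0 p + n1 p * μ := by
    intro μ hμ
    have e := mul_pos h2 hμ
    have : d0 p * (1 + n1 p / d0 p * μ) = d0 p + n1 p * μ := by
      field_simp
    rwa [this] at e
  have hF : ∀ μ, 0 < d0 p + n1 p * μ →
      (1 / (n1 p / d0 p) + μ) * (((n1 p + 2 * n2 p * μ + 3 * n3 p * μ ^ 2) * DD p μ -
        NN p μ * (d1 p + 2 * d2 p * μ + 3 * d3 p * μ ^ 2)) / (DD p μ) ^ 2) - 1 -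
        (1 - 2 / p) * (NN p μ / DD p μ) = μ * ((q0 p + q1 p * μ + q2 p * μ ^ 2 + q3 p * μ ^ 3 +
          q4 p * μ ^ 4 + q5 p * μ ^ 5) / (n1 p * p * (DD p μ) ^ 2)) := by
    intro μ hμ
    have hD := DD_pos p μ hp hμ.le
    rw [← mul_div_assoc μ, ← ident p μ]
    generalize n1 p + 2 * n2 p * μ + 3 * n3 p * μ ^ 2 = N'
    generalize d1 p + 2 * d2 p * μ + 3 * d3 p * μ ^ 2 = D'
    generalize NN p μ = N
    generalize DD p μ = D at *
    field_simp
  have key := cmp (n1 p / d0 p) (1 - 2 / p) 100 hK he (fun μ => NN p μ / DD p μ)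
    (fun μ => ((n1 p + 2 * n2 p * μ + 3 * n3 p * μ ^ 2) * DD p μ -
        NN p μ * (d1 p + 2 * d2 p * μ + 3 * d3 p * μ ^ 2)) / (DD p μ) ^ 2)
    (by unfold NN; simp)
    (by
      intro μ hμ
      have hD := DD_pos p μ hp (hin μ hμ).le
      have e1 : HasDerivAt (fun μ => NN p μ) (n1 p + 2 * n2 p * μ + 3 * n3 p * μ ^ 2) μ := by
        unfold NN
        refine ((((hasDerivAt_id μ).const_mul (n1 p)).add
          ((hasDerivAt_pow 2 μ).const_mul (n2 p))).add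
          ((hasDerivAt_pow 3 μ).const_mul (n3 p))).congr_deriv ?_
        norm_num
        ring
      have e2 : HasDerivAt (fun μ => DD p μ) (d1 p + 2 * d2 p * μ + 3 * d3 p * μ ^ 2) μ := by
        unfold DD
        refine (((((hasDerivAt_id μ).const_mul (d1 p)).const_add (d0 p)).add
          ((hasDerivAt_pow 2 μ).const_mul (d2 p))).add
          ((hasDerivAt_pow 3 μ).const_mul (d3 p))).congr_deriv ?_
        norm_num
        ring
      exact e1.div e2 hD.ne')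
    (by
      intro μ hμ hm
      have hμ' := hin μ hμ
      have hD := DD_pos p μ hp hμ'.le
      rw [hF μ hμ']
      exact mul_nonpos_of_nonpos_of_nonneg hm.le
        (div_nonneg (Q_neg p μ hp hμ'.le hm) (by positivity)))
    (by
      intro μ hm hμ
      have hμ' : 0 < d0 p + n1 p * μ := by positivity
      have hD := DD_pos p μ hp hμ'.le
      rw [hF μ hμ']
      have hV : n1 p * μ ≤ 100 * d0 p := by
        have : n1 p / d0 p * μ = n1 p * μ / d0 p := by ring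
        rw [this, div_lt_iff₀ h2] at hμ
        exact hμ.le
      exact mul_nonneg hm.le
        (div_nonneg (Q_pos p μ hp hm.le hV) (by positivity)))
  have e1 : n1 p / d0 p * ((s - 1) * (d0 p / n1 p)) = s - 1 := by
    field_simp
  have := key ((s - 1) * (d0 p / n1 p)) (by rw [e1]; linarith) (by rw [e1]; linarith)
  rw [e1] at this
  simpa using this

end Pool.Agent.H41.Beur.C3
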