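import Pool.Agent.H41.Beur.C3
import Pool.Graph.R_seed8.Y282.RB.C0

/-!
# The case n = 3 : the pointwise inequality for `p ≥ 10` (helper41)
-/

set_option autoImplicit false

open Set

namespace Pool.Agent.H41.Beur.E3

open Pool.Agent.H41.Beur Pool.Agent.H41.Beur.B3 Pool.Agent.H41.Beur.C3 Pool.Agent.Y282.RB

/-- first denominator -/
noncomputable def E2 (p μ : ℝ) : ℝ := (3 * p - 1) + μ * (2 * p + 1)
noncomputable def E1 (p μ : ℝ) : ℝ :=
  (2 * p - 1 + μ * (p + 1)) * (2 * p + 1) * E2 p μ + 15 * p ^ 2 * μ * (2 * p - 1)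
noncomputable def F1 (p μ : ℝ) : ℝ :=
  3 * (2 * p + 1) * E2 p μ + 5 * (2 * p - 1) * (p + 1 + μ * (2 * p - 1))

theorem E2_pos (p μ : ℝ) (hp : 10 ≤ p) (hμ : 0 ≤ d0 p + n1 p * μ) : 0 < E2 p μ := by
  obtain ⟨h1, -⟩ := coefs p hp
  have e : 0 < n1 p * (3 * p - 1) - (2 * p + 1) * d0 p := by
    obtain ⟨u, rfl⟩ : ∃ u, p = 10 + u := ⟨p - 10, by ring⟩
    have hu : 0 ≤ u := by linarith
    unfold n1 d0; ring_nf; positivity
  refine pos_of_mul_pos_right (a := n1 p) ?_ h1.le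
  have : n1 p * E2 p μ = (n1 p * (3 * p - 1) - (2 * p + 1) * d0 p) +
      (2 * p + 1) * (d0 p + n1 p * μ) := by unfold E2; ring
  rw [this]
  have := mul_nonneg (show 0 ≤ 2 * p + 1 by linarith) hμ
  linarith

theorem E1_pos (p μ : ℝ) (hp : 10 ≤ p) (hμ : 0 ≤ d0 p + n1 p * μ) : 0 < E1 p μ := by
  obtain ⟨h1, -⟩ := coefs p hp
  have e : 0 < n1 p * ((2 * p - 1) * (2 * p + 1) * (3 * p - 1)) -
      ((p + 1) * (2 * p + 1) * (3 * p - 1) + (2 * p - 1) * (2 * p + 1) ^ 2 +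
        15 * p ^ 2 * (2 * p - 1)) * d0 p := by
    obtain ⟨u, rfl⟩ : ∃ u, p = 10 + u := ⟨p - 10, by ring⟩
    have hu : 0 ≤ u := by linarith
    unfold n1 d0; ring_nf; positivity
  refine pos_of_mul_pos_right (a := n1 p) ?_ h1.le
  have e1 : 0 < (p + 1) * (2 * p + 1) * (3 * p - 1) + (2 * p - 1) * (2 * p + 1) ^ 2 +
        15 * p ^ 2 * (2 * p - 1) := by
    have : 0 < 2 * p - 1 := by linarith
    have : 0 < 3 * p - 1 := by linarith
    positivity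
  have : n1 p * E1 p μ = (n1 p * ((2 * p - 1) * (2 * p + 1) * (3 * p - 1)) -
      ((p + 1) * (2 * p + 1) * (3 * p - 1) + (2 * p - 1) * (2 * p + 1) ^ 2 +
        15 * p ^ 2 * (2 * p - 1)) * d0 p) +
      ((p + 1) * (2 * p + 1) * (3 * p - 1) + (2 * p - 1) * (2 * p + 1) ^ 2 +
        15 * p ^ 2 * (2 * p - 1)) * (d0 p + n1 p * μ) +
      n1 p * ((p + 1) * (2 * p + 1) ^ 2 * μ ^ 2) := by unfold E1 E2; ring
  rw [this]
  have e2 := mul_nonneg e1.le hμ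
  have e3 : 0 ≤ n1 p * ((p + 1) * (2 * p + 1) ^ 2 * μ ^ 2) := by positivity
  linarith

theorem DD_eq (p μ : ℝ) :
    DD p μ = (p - 1 + μ) * (p + 1) * E1 p μ + (p - 1) * p ^ 2 * μ * F1 p μ := by
  unfold DD E1 F1 E2 d0 d1 d2 d3
  ring

theorem NN_eq (p μ : ℝ) :
    NN p μ = p ^ 2 * μ * ((p + 1) * E1 p μ + (p - 1) * (1 + μ * (p - 1)) * F1 p μ) := by
  unfold NN E1 F1 E2 n1 n2 n3
  ring

theorem minT (p μ x y z w : ℝ) (hp : 10 ≤ p) (hμ : 0 ≤ d0 p + n1 p * μ) :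
    NN p μ / DD p μ * x ^ 2 ≤
      1 * ((x - y) ^ 2 + μ / (1 / (p - 1)) * (x + 1 / (p - 1) * y) ^ 2) +
      (1 / 3 * ((y - z) ^ 2 + μ / ((p + 1) / (2 * p - 1)) * (y + (p + 1) / (2 * p - 1) * z) ^ 2) +
      (1 / 5 * ((z - w) ^ 2 +
        μ / ((2 * p + 1) / (3 * p - 1)) * (z + (2 * p + 1) / (3 * p - 1) * w) ^ 2) + 0 * w ^ 2)) := by
  have hE2 := E2_pos p μ hp hμ
  have hE1 := E1_pos p μ hp hμ
  have hD := DD_pos p μ hp hμ
  have a1 : 0 < p - 1 := by linarith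
  have a2 : 0 < 2 * p - 1 := by linarith
  have a3 : 0 < 3 * p - 1 := by linarith
  have b1 : p - 1 ≠ 0 := a1.ne'
  have b2 : p * 2 - 1 ≠ 0 := by rw [mul_comm]; exact a2.ne'
  have b3 : p * 3 - 1 ≠ 0 := by rw [mul_comm]; exact a3.ne'
  have a4 : 0 < p + 1 := by linarith
  have a5 : 0 < 2 * p + 1 := by linarith
  have a0 : 0 < p := by linarith
  -- step 2
  have c2 : 1 / 5 * (1 + μ * ((2 * p + 1) / (3 * p - 1))) + 0 = E2 p μ / (5 * (3 * p - 1)) := by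
    unfold E2
    field_simp
    ring
  have s2 := step (1 / 5) ((2 * p + 1) / (3 * p - 1)) μ 0 z w (by positivity)
    (by rw [c2]; positivity)
  rw [c2] at s2
  have t2 : ((1 / 5 : ℝ) ^ 2 * (1 + (2 * p + 1) / (3 * p - 1)) ^ 2 * μ / ((2 * p + 1) / (3 * p - 1)) +
      1 / 5 * 0 * (1 + μ / ((2 * p + 1) / (3 * p - 1)))) / (E2 p μ / (5 * (3 * p - 1))) =
      5 * p ^ 2 * μ / ((2 * p + 1) * E2 p μ) := by
    generalize E2 p μ = E at *
    have : 1 + (2 * p + 1) / (3 * p - 1) = 5 * p / (3 * p - 1) := by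
      field_simp
      ring
    rw [this]
    field_simp
    ring
  rw [t2] at s2
  -- step 1
  have c1 : 1 / 3 * (1 + μ * ((p + 1) / (2 * p - 1))) + 5 * p ^ 2 * μ / ((2 * p + 1) * E2 p μ) =
      E1 p μ / (3 * (2 * p - 1) * (2 * p + 1) * E2 p μ) := by
    unfold E1
    generalize E2 p μ = E at *
    field_simp
    ring
  have s1 := step (1 / 3) ((p + 1) / (2 * p - 1)) μ (5 * p ^ 2 * μ / ((2 * p + 1) * E2 p μ)) y z
    (by positivity) (by rw [c1]; positivity)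
  rw [c1] at s1
  have t1 : ((1 / 3 : ℝ) ^ 2 * (1 + (p + 1) / (2 * p - 1)) ^ 2 * μ / ((p + 1) / (2 * p - 1)) +
      1 / 3 * (5 * p ^ 2 * μ / ((2 * p + 1) * E2 p μ)) * (1 + μ / ((p + 1) / (2 * p - 1)))) /
      (E1 p μ / (3 * (2 * p - 1) * (2 * p + 1) * E2 p μ)) =
      p ^ 2 * μ * F1 p μ / ((p + 1) * E1 p μ) := by
    have : 1 + (p + 1) / (2 * p - 1) = 3 * p / (2 * p - 1) := by
      field_simp
      ring
    rw [this]
    unfold F1
    generalize E2 p μ = E at *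
    generalize E1 p μ = E' at *
    field_simp
  rw [t1] at s1
  -- step 0
  have c0 : 1 * (1 + μ * (1 / (p - 1))) + p ^ 2 * μ * F1 p μ / ((p + 1) * E1 p μ) =
      DD p μ / ((p - 1) * (p + 1) * E1 p μ) := by
    rw [DD_eq]
    generalize E1 p μ = E' at *
    generalize F1 p μ = F at *
    field_simp
  have s0 := step 1 (1 / (p - 1)) μ (p ^ 2 * μ * F1 p μ / ((p + 1) * E1 p μ)) x y
    (by positivity) (by rw [c0]; positivity)
  rw [c0] at s0
  have t0 : ((1 : ℝ) ^ 2 * (1 + 1 / (p - 1)) ^ 2 * μ / (1 / (p - 1)) +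
      1 * (p ^ 2 * μ * F1 p μ / ((p + 1) * E1 p μ)) * (1 + μ / (1 / (p - 1)))) /
      (DD p μ / ((p - 1) * (p + 1) * E1 p μ)) = NN p μ / DD p μ := by
    have : 1 + 1 / (p - 1) = p / (p - 1) := by
      field_simp
      ring
    rw [this, NN_eq]
    generalize DD p μ = D at *
    generalize E1 p μ = E' at *
    generalize F1 p μ = F at *
    field_simp
  rw [t0] at s0
  linarith

theorem kk_three (p : ℝ) (hp : 10 ≤ p) : kk (1 / p) 0 = p ^ 2 / (p - 1) ∧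
    kk (1 / p) 1 = 3 * p ^ 2 / ((p + 1) * (2 * p - 1)) ∧
    kk (1 / p) 2 = 5 * p ^ 2 / ((2 * p + 1) * (3 * p - 1)) := by
  have a1 : 0 < p - 1 := by linarith
  have a2 : 0 < 2 * p - 1 := by linarith
  have a3 : 0 < 3 * p - 1 := by linarith
  have b1 : p - 1 ≠ 0 := a1.ne'
  have b2 : p * 2 - 1 ≠ 0 := by rw [mul_comm]; exact a2.ne'
  have b3 : p * 3 - 1 ≠ 0 := by rw [mul_comm]; exact a3.ne'
  have a0 : 0 < p := by linarith
  refine ⟨?_, ?_, ?_⟩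
  · unfold kk
    have : ((0 : ℕ) : ℝ) + 1 - 1 / p = (p - 1) / p := by push_cast; field_simp; ring
    rw [this]
    push_cast
    field_simp
    ring
  · unfold kk
    have : ((1 : ℕ) : ℝ) + 1 - 1 / p = (2 * p - 1) / p := by push_cast; field_simp; ring
    rw [this]
    push_cast
    field_simp
    ring
  · unfold kk
    have : ((2 : ℕ) : ℝ) + 1 - 1 / p = (3 * p - 1) / p := by push_cast; field_simp; ring
    rw [this]
    push_cast
    field_simp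
    ring

theorem KK_three (p : ℝ) (hp : 10 ≤ p) : KK (1 / p) 3 = n1 p / d0 p := by
  obtain ⟨e0, e1, e2⟩ := kk_three p hp
  have a1 : 0 < p - 1 := by linarith
  have a2 : 0 < 2 * p - 1 := by linarith
  have a3 : 0 < 3 * p - 1 := by linarith
  have b1 : p - 1 ≠ 0 := a1.ne'
  have b2 : p * 2 - 1 ≠ 0 := by rw [mul_comm]; exact a2.ne'
  have b3 : p * 3 - 1 ≠ 0 := by rw [mul_comm]; exact a3.ne'
  have a0 : 0 < p := by linarith
  have hd : d0 p = (p - 1) * (p + 1) * (2 * p - 1) * (2 * p + 1) * (3 * p - 1) := by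
    unfold d0; ring
  unfold KK
  rw [Finset.sum_range_succ, Finset.sum_range_succ, Finset.sum_range_one, e0, e1, e2, hd]
  unfold n1
  field_simp
  ring

theorem yy_three (p : ℝ) (hp : 10 ≤ p) (γ : ℕ → ℝ) :
    yy (1 / p) γ 0 = ((p - 1) * γ 0 + γ 1) / p ∧
    yy (1 / p) γ 1 = ((2 * p - 1) * γ 1 + (p + 1) * γ 2) / (3 * p) ∧
    yy (1 / p) γ 2 = ((3 * p - 1) * γ 2 + (2 * p + 1) * γ 3) / (5 * p) := by
  have a0 : 0 < p := by linarith
  refine ⟨?_, ?_, ?_⟩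
  · unfold yy th
    push_cast
    field_simp
    ring
  · unfold yy th
    push_cast
    field_simp
    ring
  · unfold yy th
    push_cast
    field_simp
    ring

theorem tt_three (γ : ℕ → ℝ) : TT 3 γ = (γ 0 - γ 1) ^ 2 + (γ 1 - γ 2) ^ 2 / 3 +
    (γ 2 - γ 3) ^ 2 / 5 := by
  unfold TT
  rw [Finset.sum_range_succ, Finset.sum_range_succ, Finset.sum_range_one]
  norm_num

/-- the minimum of `T + ν Λ` -/
theorem low (p ν : ℝ) (hp : 10 ≤ p) (hν : -1 ≤ ν) (γ : ℕ → ℝ) :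
    NN p (ν * (d0 p / n1 p)) / DD p (ν * (d0 p / n1 p)) * γ 0 ^ 2 ≤
      TT 3 γ + ν * Lam (1 / p) 3 γ := by
  obtain ⟨h1, h2, -⟩ := coefs p hp
  obtain ⟨e0, e1, e2⟩ := kk_three p hp
  obtain ⟨y0, y1, y2⟩ := yy_three p hp γ
  have a1 : 0 < p - 1 := by linarith
  have a2 : 0 < 2 * p - 1 := by linarith
  have a3 : 0 < 3 * p - 1 := by linarith
  have b1 : p - 1 ≠ 0 := a1.ne'
  have b2 : p * 2 - 1 ≠ 0 := by rw [mul_comm]; exact a2.ne'
  have b3 : p * 3 - 1 ≠ 0 := by rw [mul_comm]; exact a3.ne'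
  have a0 : 0 < p := by linarith
  have hm := minT p (ν * (d0 p / n1 p)) (γ 0) (γ 1) (γ 2) (γ 3) hp (by
    have : d0 p + n1 p * (ν * (d0 p / n1 p)) = d0 p * (1 + ν) := by
      field_simp
    rw [this]
    exact mul_nonneg h2.le (by linarith))
  refine hm.trans (le_of_eq ?_)
  rw [tt_three]
  unfold Lam
  rw [Finset.sum_range_succ, Finset.sum_range_succ, Finset.sum_range_one, KK_three p hp, e0, e1, e2,
    y0, y1, y2]
  generalize n1 p = N at *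
  generalize d0 p = D at *
  field_simp
  ring

/-- the bound for `γ 0` -/
theorem up (p : ℝ) (hp : 10 ≤ p) (γ : ℕ → ℝ) (h0 : 0 ≤ γ 0) (h3 : γ 3 ^ 2 ≤ γ 0 ^ 2)
    (hΛ : Lam (1 / p) 3 γ = 1) : γ 0 ^ 2 ≤ 1 + 46 / (5 * p) + (46 / (5 * p)) ^ 2 / 2 := by
  obtain ⟨h1, h2, -⟩ := coefs p hp
  obtain ⟨e0, e1, e2⟩ := kk_three p hp
  obtain ⟨y0, y1, y2⟩ := yy_three p hp γ
  have a1 : 0 < p - 1 := by linarith
  have a2 : 0 < 2 * p - 1 := by linarith
  have a3 : 0 < 3 * p - 1 := by linarith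
  have b1 : p - 1 ≠ 0 := a1.ne'
  have b2 : p * 2 - 1 ≠ 0 := by rw [mul_comm]; exact a2.ne'
  have b3 : p * 3 - 1 ≠ 0 := by rw [mul_comm]; exact a3.ne'
  have a0 : 0 < p := by linarith
  have k0 : 0 < kk (1 / p) 0 := by rw [e0]; positivity
  have k1 : 0 < kk (1 / p) 1 := by rw [e1]; positivity
  have k2 : 0 < kk (1 / p) 2 := by rw [e2]; positivity
  have hL : kk (1 / p) 0 * yy (1 / p) γ 0 ^ 2 + kk (1 / p) 1 * yy (1 / p) γ 1 ^ 2 +
      kk (1 / p) 2 * yy (1 / p) γ 2 ^ 2 = n1 p / d0 p := by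
    have hK : 0 < n1 p / d0 p := by positivity
    unfold Lam at hΛ
    rw [Finset.sum_range_succ, Finset.sum_range_succ, Finset.sum_range_one, KK_three p hp,
      div_eq_one_iff_eq hK.ne'] at hΛ
    exact hΛ
  have hcs := cs3 (kk (1 / p) 0) (kk (1 / p) 1) (kk (1 / p) 2) 1 (-(3 / (2 * p - 1)))
    (5 * (p + 1) / ((2 * p - 1) * (3 * p - 1))) (yy (1 / p) γ 0) (yy (1 / p) γ 1)
    (yy (1 / p) γ 2) k0 k1 k2
  rw [hL] at hcs
  -- the linear combination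
  have hlin : 1 * yy (1 / p) γ 0 + -(3 / (2 * p - 1)) * yy (1 / p) γ 1 +
      5 * (p + 1) / ((2 * p - 1) * (3 * p - 1)) * yy (1 / p) γ 2 =
      ((p - 1) * (2 * p - 1) * (3 * p - 1) * γ 0 + (p + 1) * (2 * p + 1) * γ 3) /
        (p * (2 * p - 1) * (3 * p - 1)) := by
    rw [y0, y1, y2]
    field_simp
    ring
  rw [hlin] at hcs
  obtain ⟨x, hx⟩ : ∃ x, x = γ 0 := ⟨_, rfl⟩
  obtain ⟨w, hw⟩ : ∃ w, w = γ 3 := ⟨_, rfl⟩
  rw [← hx, ← hw] at hcs h3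
  rw [← hx] at h0 ⊢
  have hw1 : |w| ≤ x := abs_le_of_sq_le_sq h3 h0
  obtain ⟨hw2, hw3⟩ := abs_le.mp hw1
  have hsq : ((6 * p ^ 3 - 13 * p ^ 2 + 3 * p - 2) * x) ^ 2 ≤
      ((p - 1) * (2 * p - 1) * (3 * p - 1) * x + (p + 1) * (2 * p + 1) * w) ^ 2 := by
    have e : ((p - 1) * (2 * p - 1) * (3 * p - 1) * x + (p + 1) * (2 * p + 1) * w) ^ 2 -
        ((6 * p ^ 3 - 13 * p ^ 2 + 3 * p - 2) * x) ^ 2 =
        ((p + 1) * (2 * p + 1) * (w + x)) *
        (2 * (6 * p ^ 3 - 13 * p ^ 2 + 3 * p - 2) * x + (p + 1) * (2 * p + 1) * (w + x)) := by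
      ring
    have e' : 0 ≤ 6 * p ^ 3 - 13 * p ^ 2 + 3 * p - 2 := by
      obtain ⟨u, rfl⟩ : ∃ u, p = 10 + u := ⟨p - 10, by ring⟩
      have hu : 0 ≤ u := by linarith
      ring_nf; positivity
    have e'' : 0 ≤ w + x := by linarith
    have : 0 ≤ ((p + 1) * (2 * p + 1) * (w + x)) *
        (2 * (6 * p ^ 3 - 13 * p ^ 2 + 3 * p - 2) * x + (p + 1) * (2 * p + 1) * (w + x)) := by
      positivity
    linarith
  rw [div_pow, div_le_iff₀ (by positivity)] at hcs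
  have hfin := hsq.trans hcs
  rw [e0, e1, e2] at hfin
  have hd : d0 p = (p - 1) * (p + 1) * (2 * p - 1) * (2 * p + 1) * (3 * p - 1) := by
    unfold d0; ring
  have hR : n1 p / d0 p * (1 ^ 2 / (p ^ 2 / (p - 1)) +
      (-(3 / (2 * p - 1))) ^ 2 / (3 * p ^ 2 / ((p + 1) * (2 * p - 1))) +
      (5 * (p + 1) / ((2 * p - 1) * (3 * p - 1))) ^ 2 / (5 * p ^ 2 / ((2 * p + 1) * (3 * p - 1)))) *
      (p * (2 * p - 1) * (3 * p - 1)) ^ 2 = n1 p * (12 * p ^ 4 + 51 * p ^ 2 + 9) * (3 * p - 1) /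
        d0 p := by
    generalize n1 p = N at *
    generalize d0 p = D at *
    field_simp
    ring
  rw [hR, le_div_iff₀ h2] at hfin
  have hpoly : 0 ≤ (25 * p ^ 2 + 230 * p + 1058) * d0 p * (6 * p ^ 3 - 13 * p ^ 2 + 3 * p - 2) ^ 2 -
      25 * p ^ 2 * (n1 p * (12 * p ^ 4 + 51 * p ^ 2 + 9) * (3 * p - 1)) := by
    obtain ⟨u, rfl⟩ : ∃ u, p = 10 + u := ⟨p - 10, by ring⟩
    have hu : 0 ≤ u := by linarith
    unfold n1 d0
    ring_nf; positivity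
  have hB : 0 < 6 * p ^ 3 - 13 * p ^ 2 + 3 * p - 2 := by
    obtain ⟨u, rfl⟩ : ∃ u, p = 10 + u := ⟨p - 10, by ring⟩
    have hu : 0 ≤ u := by linarith
    ring_nf; positivity
  have hrw : 1 + 46 / (5 * p) + (46 / (5 * p)) ^ 2 / 2 =
      (25 * p ^ 2 + 230 * p + 1058) / (25 * p ^ 2) := by
    field_simp
    ring
  rw [hrw, le_div_iff₀ (by positivity)]
  have hX : 0 < d0 p * (6 * p ^ 3 - 13 * p ^ 2 + 3 * p - 2) ^ 2 := by positivity
  have h9 : x ^ 2 * (25 * p ^ 2) * (d0 p * (6 * p ^ 3 - 13 * p ^ 2 + 3 * p - 2) ^ 2) ≤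
      (25 * p ^ 2 + 230 * p + 1058) * (d0 p * (6 * p ^ 3 - 13 * p ^ 2 + 3 * p - 2) ^ 2) := by
    have h10 := mul_le_mul_of_nonneg_left hfin (show 0 ≤ 25 * p ^ 2 by positivity)
    have h11 : 25 * p ^ 2 * (((6 * p ^ 3 - 13 * p ^ 2 + 3 * p - 2) * x) ^ 2 * d0 p) =
        x ^ 2 * (25 * p ^ 2) * (d0 p * (6 * p ^ 3 - 13 * p ^ 2 + 3 * p - 2) ^ 2) := by ring
    rw [h11] at h10
    linarith
  exact le_of_mul_le_mul_right h9 hX

theorem main (p : ℝ) (hp : 10 ≤ p) : Star 3 p := by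
  refine C0.main 3 p (by norm_num) (by linarith) ?_
  intro γ hΛ hγ0 hor
  have hp0 : 0 < p := by linarith
  have hT : ∀ ν : ℝ, -1 ≤ ν →
      NN p (ν * (d0 p / n1 p)) / DD p (ν * (d0 p / n1 p)) * γ 0 ^ 2 - ν ≤ TT 3 γ := by
    intro ν hν
    have := low p ν hp hν γ
    rw [hΛ] at this
    linarith
  obtain ⟨r, hr⟩ : ∃ r, r = p / 2 := ⟨_, rfl⟩
  have hr5 : 5 ≤ r := by rw [hr]; linarith
  rw [← hr]
  obtain ⟨b, hb⟩ : ∃ b, b = γ 0 ^ 2 := ⟨_, rfl⟩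
  rw [← hb]
  have hb0 : 0 ≤ b := by rw [hb]; positivity
  simp only [← hb] at hT
  rcases hb0.eq_or_lt with hz | hpos
  · have h1 := hT (-1) le_rfl
    rw [← hz, mul_zero] at h1
    rw [← hz]
    unfold ph
    rw [Real.zero_rpow (by linarith)]
    have : (r - 1) * 1 ≤ (r - 1) * TT 3 γ := mul_le_mul_of_nonneg_left (by linarith) (by linarith)
    linarith
  · have hs : 0 < b ^ r := Real.rpow_pos_of_pos hpos r
    have hs100 : b ^ r ≤ 100 := by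
      rcases hor with h | h
      · have hb1 : b ≤ 1 := by rw [hb]; nlinarith
        have := Real.rpow_le_one hb0 hb1 (show 0 ≤ r by linarith)
        linarith
      · have := up p hp γ hγ0 h hΛ
        rw [← hb] at this
        rw [hr]
        exact powbd p b hp0 hb0 this
    have h2 := star p hp (b ^ r) hs hs100
    have h3 := hT (b ^ r - 1) (by linarith)
    generalize NN p ((b ^ r - 1) * (d0 p / n1 p)) / DD p ((b ^ r - 1) * (d0 p / n1 p)) = H at h2 h3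
    have hr1 : r * (1 - 2 / p) = r - 1 := by
      rw [hr]
      field_simp
    rw [← Real.rpow_mul hb0, hr1] at h2
    have h5 : b * b ^ (r - 1) = b ^ r := by
      rw [mul_comm, ← Real.rpow_add_one hpos.ne']
      congr 1
      ring
    have h6 : r * (b ^ r - b) ≤ (r - 1) * (b * H) := by
      calc r * (b ^ r - b) = r * b * (b ^ (r - 1) - 1) := by rw [← h5]; ring
        _ ≤ r * b * ((1 - 2 / p) * H) :=
            mul_le_mul_of_nonneg_left (by linarith) (by positivity)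
        _ = (r * (1 - 2 / p)) * (b * H) := by ring
        _ = _ := by rw [hr1]
    have h7 : (r - 1) * (H * b - (b ^ r - 1)) ≤ (r - 1) * TT 3 γ :=
      mul_le_mul_of_nonneg_left h3 (by linarith)
    unfold ph
    linarith

end Pool.Agent.H41.Beur.E3
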