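import Pool.Graph.R_seed8.R223.RX.Fin
import Pool.Graph.R_seed8.Y282.RB.Fin
import Pool.Graph.R_seed8.Y282.RB.K
import Pool.Graph.R_seed8.Y282.RB.K2

/-!
# From the pointwise inequality to all functions of one angular frequency (helper41)
-/

set_option autoImplicit false

open MeasureTheory

namespace Pool.Agent.H41.Beur.G

open Pool.Agent Pool.Agent.Y282.RB

theorem cpos (n : ℕ) (p : ℝ) (hp : 2 ≤ p) : 0 < Cn p n := by
  unfold Cn
  refine Finset.prod_pos (fun j _ => ?_)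
  have h1 : (1 : ℝ) / p < 1 := by
    rw [div_lt_one (by linarith)]; linarith
  have h2 : (0 : ℝ) < 1 / p := by positivity
  have h3 : (0 : ℝ) ≤ (j : ℝ) := Nat.cast_nonneg j
  apply div_pos <;> linarith

theorem upper (n : ℕ) (p : ℝ) (hn : 1 ≤ n) (hp : 2 ≤ p) (hS : Star n p) (k : ℤ)
    (f : SchwartzMap ℂ ℂ) (hf : ∀ a z : ℂ, ‖a‖ = 1 → f (a * z) = a ^ k * f z) :
    eLpNorm (Tn n f) (ENNReal.ofReal p) (volume : Measure ℂ)
      ≤ ENNReal.ofReal (Cn p n) * eLpNorm (⇑f) (ENNReal.ofReal p) (volume : Measure ℂ) := by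
  by_cases hk : k = 2 * n
  · subst hk
    refine Y282.RB.K.main n p (Cn p n) hn hp (cpos n p hp).le
      (fun g hg hs => Y282.RB.Fin.plane n p hn hp hS g hg hs) f (fun a z ha => ?_)
    rw [hf a z ha]
    norm_cast
  · exact Pool.Agent.R223.RX.Fin.boundC n hn k hk p hp f hf

theorem lower (n : ℕ) (p C : ℝ) (hn : 1 ≤ n) (hp : 2 ≤ p) (hC0 : 0 ≤ C)
    (hCf : ∀ (k : ℤ) (f : SchwartzMap ℂ ℂ),
      (∀ a z : ℂ, ‖a‖ = 1 → f (a * z) = a ^ k * f z) →
      eLpNorm (Tn n f) (ENNReal.ofReal p) (volume : Measure ℂ)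
        ≤ ENNReal.ofReal C * eLpNorm f (ENNReal.ofReal p) (volume : Measure ℂ)) :
    Cn p n ≤ C := by
  by_contra hlt
  rw [not_le] at hlt
  obtain ⟨g, hg, hs, hlt'⟩ := Y282.RB.Fin.sharp n p C hn (by linarith) hC0 hlt
  obtain ⟨f, hf1, hf2, _⟩ := Y282.RB.K2.main n g hg hs
  have h5 := hCf (2 * n) f (fun a z ha => by
    rw [hf2 a z ha]
    norm_cast)
  rw [hf1] at h5
  exact absurd h5 (not_le.2 hlt')

end Pool.Agent.H41.Beur.G
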