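import Pool.Agent.H41.Beur.P1

/-!
# General n, `p ≥ 4 n ^ 2` : small and large values of the first variable (helper41)
-/

set_option autoImplicit false

open Finset

namespace Pool.Agent.H41.Beur.P

open Pool.Agent.Y282.RB

section
variable {σ : ℝ} (h0 : 0 < σ) (h1 : σ < 1)
include h0 h1

omit h0 h1 in
/-- the deviation from the first variable -/
theorem dev (γ : ℕ → ℝ) (n j : ℕ) (hj : j ≤ n) : (γ j - γ 0) ^ 2 ≤ (j : ℝ) ^ 2 * TT n γ := by
  have hcs := sum_sq_le_sum_mul_sum_of_sq_le_mul (range j)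
    (r := fun i => (γ i - γ (i + 1)))
    (f := fun i => (2 * (i : ℝ) + 1))
    (g := fun i => (γ i - γ (i + 1)) ^ 2 / (2 * (i : ℝ) + 1))
    (fun i _ => by positivity) (fun i _ => by positivity)
    (fun i _ => by
      have c : (2 * (i : ℝ) + 1) ≠ 0 := by positivity
      rw [mul_div_cancel₀ _ c])
  rw [sum_range_sub', sum_odd] at hcs
  have hT : ∑ i ∈ range j, (γ i - γ (i + 1)) ^ 2 / (2 * (i : ℝ) + 1) = TT j γ := rfl
  rw [hT] at hcs
  have : (γ j - γ 0) ^ 2 = (γ 0 - γ j) ^ 2 := by ring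
  rw [this]
  exact hcs.trans (mul_le_mul_of_nonneg_left (TT_mono γ hj) (by positivity))

theorem dev2 (γ : ℕ → ℝ) (n : ℕ) : ∑ j ∈ range n, kk σ j * (yy σ γ j - γ 0) ^ 2 ≤
    ((n : ℝ) ^ 2 + n * (σ / (1 - σ))) * TT n γ := by
  have h2 : 0 < 1 - σ := by linarith
  have hT0 : 0 ≤ TT n γ := by
    unfold TT
    exact sum_nonneg fun i _ => by positivity
  have key : ∀ j ∈ range n, kk σ j * (yy σ γ j - γ 0) ^ 2 ≤
      (2 * (j : ℝ) + 1 + σ / (1 - σ)) * TT n γ := by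
    intro j hj
    have hjn := mem_range.mp hj
    obtain ⟨a, b⟩ := den_pos h0 h1 j
    obtain ⟨t0, t1⟩ := th_mem h0 h1 j
    have hk := kk_pos h0 h1 j
    have hj0 : (0 : ℝ) ≤ j := Nat.cast_nonneg j
    have d1 := dev γ n j hjn.le
    have d2 := dev γ n (j + 1) hjn
    push_cast at d2
    have e1 : (yy σ γ j - γ 0) ^ 2 ≤ th σ j * (γ j - γ 0) ^ 2 +
        (1 - th σ j) * (γ (j + 1) - γ 0) ^ 2 := by
      have : yy σ γ j = th σ j * γ j + (1 - th σ j) * γ (j + 1) := rfl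
      rw [this]
      have : th σ j * (γ j - γ 0) ^ 2 + (1 - th σ j) * (γ (j + 1) - γ 0) ^ 2 -
          (th σ j * γ j + (1 - th σ j) * γ (j + 1) - γ 0) ^ 2 =
          th σ j * (1 - th σ j) * (γ j - γ (j + 1)) ^ 2 := by ring
      have : 0 ≤ th σ j * (1 - th σ j) * (γ j - γ (j + 1)) ^ 2 := by positivity
      linarith
    have e2 : kk σ j * (yy σ γ j - γ 0) ^ 2 ≤ 1 / ((j : ℝ) + σ) * (γ j - γ 0) ^ 2 +
        1 / ((j : ℝ) + 1 - σ) * (γ (j + 1) - γ 0) ^ 2 := by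
      rw [← kk_th h0 h1, ← kk_th' h0 h1]
      have := mul_le_mul_of_nonneg_left e1 hk.le
      linarith
    refine e2.trans ?_
    have e3 : 1 / ((j : ℝ) + σ) * (γ j - γ 0) ^ 2 ≤ (j : ℝ) * TT n γ := by
      rw [one_div, inv_mul_le_iff₀ a]
      refine d1.trans ?_
      have : 0 ≤ σ * ((j : ℝ) * TT n γ) := by positivity
      nlinarith
    have e4 : 1 / ((j : ℝ) + 1 - σ) * (γ (j + 1) - γ 0) ^ 2 ≤
        ((j : ℝ) + 1 + σ / (1 - σ)) * TT n γ := by
      rw [one_div, inv_mul_le_iff₀ b]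
      refine d2.trans ?_
      have e5 : ((j : ℝ) + 1) ^ 2 ≤ ((j : ℝ) + 1 - σ) * ((j : ℝ) + 1 + σ / (1 - σ)) := by
        have : ((j : ℝ) + 1 - σ) * ((j : ℝ) + 1 + σ / (1 - σ)) - ((j : ℝ) + 1) ^ 2 =
            σ ^ 2 * j / (1 - σ) := by
          have := h2.ne'
          field_simp
          ring
        have : 0 ≤ σ ^ 2 * j / (1 - σ) := by positivity
        linarith
      have := mul_le_mul_of_nonneg_right e5 hT0
      linarith
    linarith
  refine (sum_le_sum key).trans ?_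
  rw [← sum_mul, sum_add_distrib, sum_odd]
  simp

/-- the case `γ 0 ≤ 1` -/
theorem small (γ : ℕ → ℝ) (n : ℕ) (hn : 1 ≤ n) (hL : Lam σ n γ = 1)
    (hσ : 4 * (n : ℝ) ^ 2 * σ ≤ 1) (r : ℝ) (hr : 2 * σ * r = 1)
    (t : ℝ) (ht1 : t ≤ 1 - γ 0 ^ 2) (ht2 : t ≤ r / 2 * (1 - γ 0 ^ 2) ^ 2) : t ≤ TT n γ := by
  by_contra hcon
  push Not at hcon
  have h2 : 0 < 1 - σ := by linarith
  have hs : 0 < σ * (1 - σ) := mul_pos h0 h2
  have hT0 : 0 ≤ TT n γ := by
    unfold TT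
    exact sum_nonneg fun i _ => by positivity
  have hK := KK_ge h0 h1 n hn
  have hK0 : 0 < KK σ n := lt_of_lt_of_le (by positivity) hK
  have hK1 : 1 ≤ σ * (1 - σ) * KK σ n := by
    rw [div_le_iff₀ hs] at hK
    linarith
  have hn1 : (1 : ℝ) ≤ (n : ℝ) := by exact_mod_cast hn
  have hsum : ∑ j ∈ range n, kk σ j * (yy σ γ j) ^ 2 = KK σ n := by
    unfold Lam at hL
    rwa [div_eq_one_iff_eq hK0.ne'] at hL
  have hW := W h0 h1 γ n
  have hQ := Qle h0 h1 γ n hn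
  have hD := dev2 h0 h1 γ n
  obtain ⟨Q, hQd⟩ : ∃ Q, Q = ∑ i ∈ range n, nn σ n i * (γ i - γ (i + 1)) := ⟨_, rfl⟩
  rw [← hQd] at hW hQ
  obtain ⟨x, hx⟩ : ∃ x, x = γ 0 := ⟨_, rfl⟩
  rw [← hx] at hW hD ht1 ht2
  obtain ⟨T, hTd⟩ : ∃ T, T = TT n γ := ⟨_, rfl⟩
  rw [← hTd] at hT0 hQ hD hcon
  have e1 : ∑ j ∈ range n, kk σ j * (yy σ γ j - x) ^ 2 =
      KK σ n * (1 - x ^ 2) + 2 * x * Q := by
    have : ∑ j ∈ range n, kk σ j * (yy σ γ j - x) ^ 2 =
        ∑ j ∈ range n, kk σ j * (yy σ γ j) ^ 2 - 2 * x * ∑ j ∈ range n, kk σ j * yy σ γ j +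
          x ^ 2 * KK σ n := by
      unfold KK
      rw [mul_sum, mul_sum, ← sum_sub_distrib, ← sum_add_distrib]
      refine sum_congr rfl fun j _ => ?_
      ring
    rw [this, hsum]
    linear_combination (-2 * x) * hW
  rw [e1] at hD
  -- multiply by `σ (1 - σ)`
  have hb : 0 ≤ 1 - x ^ 2 := by linarith
  have e2 : 1 - x ^ 2 ≤ σ * (1 - σ) * KK σ n * (1 - x ^ 2) := by nlinarith
  have e3 : σ * (1 - σ) * (KK σ n * (1 - x ^ 2) + 2 * x * Q) ≤
      σ * (1 - σ) * (((n : ℝ) ^ 2 + n * (σ / (1 - σ))) * T) := mul_le_mul_of_nonneg_left hD hs.le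
  have e4 : σ * (1 - σ) * (((n : ℝ) ^ 2 + n * (σ / (1 - σ))) * T) ≤ (n : ℝ) ^ 2 * σ * T := by
    have : σ * (1 - σ) * (((n : ℝ) ^ 2 + n * (σ / (1 - σ))) * T) =
        (n : ℝ) ^ 2 * σ * T - σ ^ 2 * (n * (n - 1)) * T := by
      have := h2.ne'
      field_simp
      ring
    rw [this]
    have : 0 ≤ σ ^ 2 * (n * ((n : ℝ) - 1)) * T := by
      have : 0 ≤ (n : ℝ) - 1 := by linarith
      positivity
    linarith
  have e5 : (n : ℝ) ^ 2 * σ * T ≤ 1 / 4 * T := by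
    apply mul_le_mul_of_nonneg_right _ hT0
    linarith
  -- the cross term
  have e6 : (2 * x * σ * ((1 - σ) * Q)) ^ 2 ≤ (3 / 4 * (1 - x ^ 2)) ^ 2 := by
    have f1 : (2 * x * σ * ((1 - σ) * Q)) ^ 2 = 4 * x ^ 2 * σ ^ 2 * ((1 - σ) * Q) ^ 2 := by ring
    have f2 : 4 * x ^ 2 * σ ^ 2 * ((1 - σ) * Q) ^ 2 ≤
        4 * x ^ 2 * σ ^ 2 * ((2 * (n : ℝ) ^ 2 - 1) * T) :=
      mul_le_mul_of_nonneg_left hQ (by positivity)
    have f3 : 4 * x ^ 2 * σ ^ 2 * ((2 * (n : ℝ) ^ 2 - 1) * T) ≤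
        4 * 1 * σ ^ 2 * ((2 * (n : ℝ) ^ 2) * (r / 2 * (1 - x ^ 2) ^ 2)) := by
      have g1 : x ^ 2 ≤ 1 := by linarith
      have g2 : T ≤ r / 2 * (1 - x ^ 2) ^ 2 := hcon.le.trans ht2
      have g3 : 2 * (n : ℝ) ^ 2 - 1 ≤ 2 * (n : ℝ) ^ 2 := by linarith
      have g4 : 0 ≤ 2 * (n : ℝ) ^ 2 - 1 := by nlinarith
      gcongr
    have f4 : 4 * 1 * σ ^ 2 * ((2 * (n : ℝ) ^ 2) * (r / 2 * (1 - x ^ 2) ^ 2)) =
        (4 * (n : ℝ) ^ 2 * σ) * (σ * r) * (1 - x ^ 2) ^ 2 := by ring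
    have f5 : σ * r = 1 / 2 := by linarith
    rw [f5] at f4
    have f6 : (4 * (n : ℝ) ^ 2 * σ) * (1 / 2) * (1 - x ^ 2) ^ 2 ≤ 1 * (1 / 2) * (1 - x ^ 2) ^ 2 := by
      gcongr
    have f7 : 0 ≤ (1 - x ^ 2) ^ 2 := by positivity
    have f8 : (3 / 4 * (1 - x ^ 2)) ^ 2 = 9 / 16 * (1 - x ^ 2) ^ 2 := by ring
    rw [f1, f8]
    linarith
  have e7 := abs_le_of_sq_le_sq e6 (by linarith)
  have e8 := (abs_le.mp e7).1
  have e9 : -(3 / 4 * (1 - x ^ 2)) ≤ 2 * x * σ * ((1 - σ) * Q) := e8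
  have e10 : σ * (1 - σ) * (KK σ n * (1 - x ^ 2) + 2 * x * Q) =
      σ * (1 - σ) * KK σ n * (1 - x ^ 2) + 2 * x * σ * ((1 - σ) * Q) := by ring
  linarith

end

/-! ### the bound for `γ 0` -/

/-- the coefficients of the alternating sum -/
noncomputable def cc (σ : ℝ) : ℕ → ℝ
  | 0 => 1 - σ
  | (j + 1) => cc σ j * (((j : ℝ) + σ) / ((j : ℝ) + 1 - σ))

section
variable {σ : ℝ} (h0 : 0 < σ) (h1 : σ < 1)
include h0 h1

theorem cc_pos (j : ℕ) : 0 < cc σ j := by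
  induction j with
  | zero => unfold cc; linarith
  | succ j ih =>
    obtain ⟨a, b⟩ := den_pos h0 h1 j
    unfold cc
    positivity

omit h0 in
theorem cc_one : cc σ 1 = σ := by
  have : (1 - σ) ≠ 0 := by linarith
  simp only [cc]
  rw [Nat.cast_zero, zero_add, zero_add, mul_div_cancel₀ _ this]

theorem th_pos (j : ℕ) : 0 < th σ j := by
  obtain ⟨a, b⟩ := den_pos h0 h1 j
  unfold th
  positivity

theorem alt (γ : ℕ → ℝ) (J : ℕ) : ∑ j ∈ range J, (-1) ^ j * (cc σ j / th σ j) * yy σ γ j =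
    cc σ 0 * γ 0 - (-1) ^ J * cc σ J * γ J := by
  induction J with
  | zero => simp
  | succ J ih =>
    rw [sum_range_succ, ih]
    have e : yy σ γ J = th σ J * γ J + (1 - th σ J) * γ (J + 1) := rfl
    have hth := th_pos h0 h1 J
    have e2 : cc σ J / th σ J * (1 - th σ J) = cc σ (J + 1) := by
      obtain ⟨a, b⟩ := den_pos h0 h1 J
      have b' := b.ne'
      have c : (2 * (J : ℝ) + 1) ≠ 0 := by positivity
      have e3 : cc σ (J + 1) = cc σ J * (((J : ℝ) + σ) / ((J : ℝ) + 1 - σ)) := rfl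
      rw [e3]
      unfold th
      field_simp
      ring
    rw [e]
    have e4 : cc σ J / th σ J * th σ J = cc σ J := div_mul_cancel₀ _ hth.ne'
    calc _ = cc σ 0 * γ 0 - (-1) ^ J * cc σ J * γ J +
          ((-1) ^ J * (cc σ J / th σ J * th σ J) * γ J +
          (-1) ^ J * (cc σ J / th σ J * (1 - th σ J)) * γ (J + 1)) := by ring
      _ = _ := by
        rw [e4, e2, pow_succ]
        ring

theorem cc_le (n : ℕ) (hn : 2 ≤ n) (hσ : 4 * (n : ℝ) ^ 2 * σ ≤ 1) (J : ℕ) (hJ : 1 ≤ J)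
    (hJn : J ≤ n) : cc σ J ≤ σ * (1 + 1 / (2 * n)) / (J + 1 / (2 * n)) := by
  have hn2 : (2 : ℝ) ≤ (n : ℝ) := by exact_mod_cast hn
  have hn0 : (0 : ℝ) < (n : ℝ) := by linarith
  induction J, hJ using Nat.le_induction with
  | base =>
    rw [cc_one h1]
    have : (0 : ℝ) < 1 + 1 / (2 * n) := by positivity
    rw [le_div_iff₀ (by push_cast; exact this)]
    push_cast
    exact le_rfl
  | succ J hJ ih =>
    have ih' := ih (by omega)
    obtain ⟨a, b⟩ := den_pos h0 h1 J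
    have hJ0 : (1 : ℝ) ≤ (J : ℝ) := by exact_mod_cast hJ
    have hJn' : (J : ℝ) + 1 ≤ (n : ℝ) := by exact_mod_cast hJn
    have e3 : cc σ (J + 1) = cc σ J * (((J : ℝ) + σ) / ((J : ℝ) + 1 - σ)) := rfl
    rw [e3]
    obtain ⟨c, hc⟩ : ∃ c : ℝ, c = 1 / (2 * n) := ⟨_, rfl⟩
    rw [← hc] at ih' ⊢
    have hc0 : 0 < c := by rw [hc]; positivity
    have hcn : 2 * n * c = 1 := by rw [hc]; field_simp
    have e4 : ((J : ℝ) + σ) / ((J : ℝ) + 1 - σ) ≤ ((J : ℝ) + c) / ((J : ℝ) + 1 + c) := by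
      rw [div_le_div_iff₀ b (by positivity)]
      have f1 : σ * (2 * J + 1 + 2 * c) ≤ c := by
        have f2 : σ * (2 * J + 1 + 2 * c) ≤ σ * (2 * n) := by
          apply mul_le_mul_of_nonneg_left _ h0.le
          have : 2 * c ≤ 1 := by
            have : 2 * c * 1 ≤ 2 * c * n := by nlinarith
            linarith
          linarith
        have f3 : σ * (2 * n) ≤ c := by
          have : (4 * (n : ℝ) ^ 2 * σ) * c ≤ 1 * c := mul_le_mul_of_nonneg_right hσ hc0.le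
          have e : (4 * (n : ℝ) ^ 2 * σ) * c = σ * (2 * n) * (2 * n * c) := by ring
          rw [e, hcn] at this
          linarith
        linarith
      nlinarith
    calc cc σ J * (((J : ℝ) + σ) / ((J : ℝ) + 1 - σ))
        ≤ (σ * (1 + c) / (J + c)) * (((J : ℝ) + c) / ((J : ℝ) + 1 + c)) := by
          have := (cc_pos h0 h1 J).le
          gcongr
      _ = σ * (1 + c) / (((J + 1 : ℕ) : ℝ) + c) := by
          push_cast
          field_simp

/-- the bound for `γ 0`, first form -/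
theorem bm1 (γ : ℕ → ℝ) (n : ℕ) (hn3 : 3 ≤ n) (hσ : 4 * (n : ℝ) ^ 2 * σ ≤ 1)
    (hL : Lam σ n γ = 1) (hx0 : 0 ≤ γ 0) (hxn : γ n ^ 2 ≤ γ 0 ^ 2) :
    ((1 - 3 / 2 * σ) * γ 0) ^ 2 ≤ (1 / (σ * (1 - σ)) + 2 * la n 1) *
      (σ * (1 - σ) + σ ^ 2 * (1 + 1 / (2 * n)) ^ 2 * (2 * la n 1)) := by
  have hn : 2 ≤ n := by omega
  have hn2 : (3 : ℝ) ≤ (n : ℝ) := by exact_mod_cast hn3
  have hn0 : (0 : ℝ) < (n : ℝ) := by linarith
  have h2 : 0 < 1 - σ := by linarith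
  have hs : 0 < σ * (1 - σ) := mul_pos h0 h2
  have hK0 : 0 < KK σ n := lt_of_lt_of_le (by positivity) (KK_ge h0 h1 n (by omega))
  have hsum : ∑ j ∈ range n, kk σ j * (yy σ γ j) ^ 2 = KK σ n := by
    unfold Lam at hL
    rwa [div_eq_one_iff_eq hK0.ne'] at hL
  have halt := alt h0 h1 γ n
  have hcs := sum_sq_le_sum_mul_sum_of_sq_le_mul (range n)
    (r := fun j => (-1) ^ j * (cc σ j / th σ j) * yy σ γ j)
    (f := fun j => kk σ j * (yy σ γ j) ^ 2)
    (g := fun j => (cc σ j / th σ j) ^ 2 / kk σ j)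
    (fun j _ => mul_nonneg (kk_pos h0 h1 j).le (sq_nonneg _))
    (fun j _ => div_nonneg (sq_nonneg _) (kk_pos h0 h1 j).le)
    (fun j _ => by
      have := (kk_pos h0 h1 j).ne'
      have e : ((-1 : ℝ) ^ j) ^ 2 = 1 := by rw [← pow_mul, mul_comm, pow_mul]; norm_num
      have e2 : ((-1) ^ j * (cc σ j / th σ j) * yy σ γ j) ^ 2 =
          ((-1 : ℝ) ^ j) ^ 2 * ((cc σ j / th σ j) ^ 2 * yy σ γ j ^ 2) := by ring
      rw [e2, e]
      apply le_of_eq
      field_simp)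
  rw [halt, hsum] at hcs
  -- the sum of the squares
  have hB : ∑ j ∈ range n, (cc σ j / th σ j) ^ 2 / kk σ j ≤
      σ * (1 - σ) + σ ^ 2 * (1 + 1 / (2 * n)) ^ 2 * (2 * la n 1) := by
    rw [← sum_range_add_sum_Ico _ (show 1 ≤ n by omega), sum_range_one]
    apply add_le_add
    · apply le_of_eq
      rw [kk_zero]
      have e1 : cc σ 0 = 1 - σ := rfl
      have e2 : th σ 0 = 1 - σ := by unfold th; norm_num
      rw [e1, e2, div_self h2.ne']
      field_simp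
    · unfold la
      rw [mul_div_cancel₀ _ (two_ne_zero), mul_sum]
      refine sum_le_sum fun j hj => ?_
      obtain ⟨hj1, hjn⟩ := mem_Ico.mp hj
      obtain ⟨a, b⟩ := den_pos h0 h1 j
      have hj0 : (1 : ℝ) ≤ (j : ℝ) := by exact_mod_cast hj1
      have hj00 : (0 : ℝ) < (j : ℝ) := by linarith
      have hcc := cc_le h0 h1 n hn hσ j hj1 hjn.le
      have hcc0 := cc_pos h0 h1 j
      obtain ⟨c, hc⟩ : ∃ c : ℝ, c = 1 / (2 * n) := ⟨_, rfl⟩
      rw [← hc] at hcc ⊢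
      have hc0 : 0 < c := by rw [hc]; positivity
      have hσc : σ ≤ c := by
        rw [hc, le_div_iff₀ (by positivity)]
        nlinarith
      have e1 : (cc σ j / th σ j) ^ 2 / kk σ j =
          cc σ j ^ 2 * ((2 * (j : ℝ) + 1) * (((j : ℝ) + σ) / ((j : ℝ) + 1 - σ))) := by
        have b' := b.ne'
        have a' := a.ne'
        have c' : (2 * (j : ℝ) + 1) ≠ 0 := by positivity
        unfold th kk
        field_simp
      rw [e1]
      have e4 : ((j : ℝ) + σ) / ((j : ℝ) + 1 - σ) ≤ ((j : ℝ) + c) / ((j : ℝ)) := by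
        apply div_le_div₀ (by positivity) (by linarith) hj00 (by linarith)
      have e5 : cc σ j ^ 2 ≤ (σ * (1 + c) / (j + c)) ^ 2 := by gcongr
      have e6 : ((j : ℝ) + σ) / ((j : ℝ) + 1 - σ) ≤ ((j : ℝ) + c) / ((j : ℝ) + 1 + c) := by
        rw [div_le_div_iff₀ b (by positivity)]
        have hjn' : (j : ℝ) + 1 ≤ (n : ℝ) := by exact_mod_cast hjn
        have hcn : 2 * n * c = 1 := by rw [hc]; field_simp
        have f1 : σ * (2 * j + 1 + 2 * c) ≤ c := by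
          have f2 : σ * (2 * j + 1 + 2 * c) ≤ σ * (2 * n) := by
            apply mul_le_mul_of_nonneg_left _ h0.le
            have : 2 * c ≤ 1 := by
              have : 2 * c * 1 ≤ 2 * c * n := by nlinarith
              linarith
            linarith
          have f3 : σ * (2 * n) ≤ c := by
            have : (4 * (n : ℝ) ^ 2 * σ) * c ≤ 1 * c := mul_le_mul_of_nonneg_right hσ hc0.le
            have e : (4 * (n : ℝ) ^ 2 * σ) * c = σ * (2 * n) * (2 * n * c) := by ring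
            rw [e, hcn] at this
            linarith
          linarith
        nlinarith
      calc cc σ j ^ 2 * ((2 * (j : ℝ) + 1) * (((j : ℝ) + σ) / ((j : ℝ) + 1 - σ)))
          ≤ (σ * (1 + c) / (j + c)) ^ 2 *
            ((2 * (j : ℝ) + 1) * (((j : ℝ) + c) / ((j : ℝ) + 1 + c))) := by
            have : 0 ≤ ((j : ℝ) + σ) / ((j : ℝ) + 1 - σ) := by positivity
            gcongr
        _ = σ ^ 2 * (1 + c) ^ 2 * ((2 * (j : ℝ) + 1) / (((j : ℝ) + c) * ((j : ℝ) + 1 + c))) := by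
            field_simp
        _ ≤ σ ^ 2 * (1 + c) ^ 2 * dd j := by
            apply mul_le_mul_of_nonneg_left _ (by positivity)
            have : dd j = (2 * (j : ℝ) + 1) / ((j : ℝ) * ((j : ℝ) + 1)) := by
              unfold dd
              field_simp
              ring
            rw [this]
            apply div_le_div_of_nonneg_left (by positivity) (by positivity)
            exact mul_le_mul (by linarith) (by linarith) (by positivity) (by positivity)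
  have hla : 0 ≤ la n 1 := by
    unfold la
    have : 0 ≤ ∑ j ∈ Ico 1 n, dd j := sum_nonneg fun j _ => by unfold dd; positivity
    positivity
  have hKn : KK σ n ≤ 1 / (σ * (1 - σ)) + 2 * la n 1 := by
    have := KK_le h0 h1 n 1 le_rfl (by omega)
    rwa [KK_one h0 h1] at this
  -- the left side
  have hcn := cc_le h0 h1 n hn hσ n (by omega) le_rfl
  have hcn2 : cc σ n ≤ σ / 2 := by
    refine hcn.trans ?_
    have h3 : 1 / (2 * (n : ℝ)) ≤ 1 / 2 := by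
      apply one_div_le_one_div_of_le (by norm_num)
      linarith
    have h4 : 0 < 1 / (2 * (n : ℝ)) := by positivity
    rw [div_le_iff₀ (by positivity)]
    have h5 : 1 + 1 / (2 * (n : ℝ)) ≤ 1 / 2 * (n + 1 / (2 * (n : ℝ))) := by linarith
    have h6 := mul_le_mul_of_nonneg_left h5 h0.le
    calc _ ≤ σ * (1 / 2 * (n + 1 / (2 * (n : ℝ)))) := h6
      _ = _ := by ring
  have hcn0 := cc_pos h0 h1 n
  have hc0 : cc σ 0 = 1 - σ := rfl
  rw [hc0] at hcs
  have hg : |γ n| ≤ γ 0 := abs_le_of_sq_le_sq hxn hx0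
  have hg2 : (-1) ^ n * cc σ n * γ n ≤ σ / 2 * γ 0 := by
    refine (le_abs_self _).trans ?_
    rw [abs_mul, abs_mul, abs_pow, abs_neg, abs_one, one_pow, one_mul, abs_of_pos hcn0]
    exact mul_le_mul hcn2 hg (abs_nonneg _) (by positivity)
  have h3 : 4 * (9 : ℝ) * σ ≤ 1 := by
    have : (9 : ℝ) ≤ (n : ℝ) ^ 2 := by nlinarith
    nlinarith
  have hfin : ((1 - 3 / 2 * σ) * γ 0) ^ 2 ≤ ((1 - σ) * γ 0 - (-1) ^ n * cc σ n * γ n) ^ 2 := by
    have e1 : 0 ≤ (1 - 3 / 2 * σ) * γ 0 := mul_nonneg (by linarith) hx0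
    have e2 : (1 - 3 / 2 * σ) * γ 0 ≤ (1 - σ) * γ 0 - (-1) ^ n * cc σ n * γ n := by linarith
    gcongr
  refine hfin.trans (hcs.trans ?_)
  have hS0 : 0 ≤ ∑ j ∈ range n, (cc σ j / th σ j) ^ 2 / kk σ j :=
    sum_nonneg fun j _ => div_nonneg (sq_nonneg _) (kk_pos h0 h1 j).le
  have : 0 ≤ 1 / (σ * (1 - σ)) + 2 * la n 1 := by positivity
  exact mul_le_mul hKn hB hS0 this

end

end Pool.Agent.H41.Beur.P
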