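import Pool.Agent.H41.Beur.A
import Pool.Agent.H41.Beur.P2
import Pool.Graph.R_seed8.Y282.RB.C0

/-!
# Tools for small n (helper41)
-/

set_option autoImplicit false

open Finset

namespace Pool.Agent.H41.Beur.Gen

open Pool.Agent.H41.Beur Pool.Agent.Y282.RB

/-- one step of the elimination, in integers -/
theorem gstep (w p a b μ N D g g' : ℝ) (hw : 0 < w) (ha : 0 < a) (hb : 0 < b)
    (hab : a + b = w * p) (hD : 0 < D) (hE : 0 < (a + μ * b) * D + w * a * N) :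
    (w * μ * p ^ 2 * D + a * N * (b + μ * a)) / (b * ((a + μ * b) * D + w * a * N)) * g ^ 2 ≤
      1 / w * ((g - g') ^ 2 + μ * (a / b) * (g + b / a * g') ^ 2) + N / D * g' ^ 2 := by
  have hC : 1 / w * (1 + μ * (b / a)) + N / D = ((a + μ * b) * D + w * a * N) / (w * a * D) := by
    field_simp
  have h := step (1 / w) (b / a) μ (N / D) g g' (by positivity) (by rw [hC]; positivity)
  rw [hC] at h
  have hp : p = (a + b) / w := by rw [hab]; field_simp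
  have e : ((1 / w) ^ 2 * (1 + b / a) ^ 2 * μ / (b / a) + 1 / w * (N / D) * (1 + μ / (b / a))) /
      (((a + μ * b) * D + w * a * N) / (w * a * D)) =
      (w * μ * p ^ 2 * D + a * N * (b + μ * a)) / (b * ((a + μ * b) * D + w * a * N)) := by
    rw [hp]
    generalize (a + μ * b) * D + w * a * N = E at *
    field_simp
  rw [e] at h
  have e2 : μ / (b / a) = μ * (a / b) := by field_simp
  rw [e2] at h
  exact h

theorem kk_p (p : ℝ) (hp : 2 < p) (j : ℕ) : kk (1 / p) j =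
    (2 * (j : ℝ) + 1) * p ^ 2 / (((j : ℝ) * p + 1) * (((j : ℝ) + 1) * p - 1)) := by
  have hj : (0 : ℝ) ≤ j := Nat.cast_nonneg j
  have h1 : 0 < ((j : ℝ) + 1) * p - 1 := by nlinarith
  have h2 : 0 < (j : ℝ) * p + 1 := by positivity
  have h3 : (j : ℝ) + 1 / p = (j * p + 1) / p := by field_simp
  have h4 : (j : ℝ) + 1 - 1 / p = ((j + 1) * p - 1) / p := by field_simp
  unfold kk
  rw [h3, h4]
  generalize ((j : ℝ) + 1) * p - 1 = a at *
  field_simp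

theorem kky (p : ℝ) (hp : 2 < p) (γ : ℕ → ℝ) (j : ℕ) : kk (1 / p) j * yy (1 / p) γ j ^ 2 =
    1 / (2 * (j : ℝ) + 1) * ((((j : ℝ) + 1) * p - 1) / ((j : ℝ) * p + 1) *
      (γ j + ((j : ℝ) * p + 1) / (((j : ℝ) + 1) * p - 1) * γ (j + 1)) ^ 2) := by
  have hj : (0 : ℝ) ≤ j := Nat.cast_nonneg j
  have hp0 : 0 < p := by linarith
  have h1 : 0 < ((j : ℝ) + 1) * p - 1 := by nlinarith
  have h2 : 0 < (j : ℝ) * p + 1 := by positivity
  have hy : yy (1 / p) γ j = ((((j : ℝ) + 1) * p - 1) * γ j + ((j : ℝ) * p + 1) * γ (j + 1)) /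
      ((2 * (j : ℝ) + 1) * p) := by
    unfold yy th
    field_simp
    ring
  rw [kk_p p hp, hy]
  generalize ((j : ℝ) + 1) * p - 1 = a at *
  generalize (j : ℝ) * p + 1 = b at *
  field_simp

theorem lowgen (p : ℝ) (hp : 2 < p) (n : ℕ) (ν : ℝ) (γ : ℕ → ℝ) :
    TT n γ + ν * Lam (1 / p) n γ = ∑ j ∈ range n, 1 / (2 * (j : ℝ) + 1) *
      ((γ j - γ (j + 1)) ^ 2 + ν / KK (1 / p) n * ((((j : ℝ) + 1) * p - 1) / ((j : ℝ) * p + 1)) *
      (γ j + ((j : ℝ) * p + 1) / (((j : ℝ) + 1) * p - 1) * γ (j + 1)) ^ 2) := by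
  unfold TT Lam
  rw [mul_div_assoc', mul_sum, sum_div, ← sum_add_distrib]
  refine sum_congr rfl fun j _ => ?_
  rw [kky p hp]
  ring

/-- Cauchy-Schwarz for the alternating sum -/
theorem bm0 (σ : ℝ) (h0 : 0 < σ) (h1 : σ < 1) (γ : ℕ → ℝ) (n : ℕ) (hn : 1 ≤ n)
    (hL : Lam σ n γ = 1) (hx0 : 0 ≤ γ 0) (hxn : γ n ^ 2 ≤ γ 0 ^ 2)
    (hc : P.cc σ n ≤ P.cc σ 0) :
    ((P.cc σ 0 - P.cc σ n) * γ 0) ^ 2 ≤ KK σ n * ∑ j ∈ range n,
      P.cc σ j ^ 2 * ((2 * (j : ℝ) + 1) * (((j : ℝ) + σ) / ((j : ℝ) + 1 - σ))) := by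
  have h2 : 0 < 1 - σ := by linarith
  have hs : 0 < σ * (1 - σ) := mul_pos h0 h2
  have hK0 : 0 < KK σ n := lt_of_lt_of_le (by positivity) (P.KK_ge h0 h1 n hn)
  have hsum : ∑ j ∈ range n, kk σ j * (yy σ γ j) ^ 2 = KK σ n := by
    unfold Lam at hL
    rwa [div_eq_one_iff_eq hK0.ne'] at hL
  have halt := P.alt h0 h1 γ n
  have hcs := sum_sq_le_sum_mul_sum_of_sq_le_mul (range n)
    (r := fun j => (-1) ^ j * (P.cc σ j / th σ j) * yy σ γ j)
    (f := fun j => kk σ j * (yy σ γ j) ^ 2)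
    (g := fun j => (P.cc σ j / th σ j) ^ 2 / kk σ j)
    (fun j _ => mul_nonneg (P.kk_pos h0 h1 j).le (sq_nonneg _))
    (fun j _ => div_nonneg (sq_nonneg _) (P.kk_pos h0 h1 j).le)
    (fun j _ => by
      have := (P.kk_pos h0 h1 j).ne'
      have e : ((-1 : ℝ) ^ j) ^ 2 = 1 := by rw [← pow_mul, mul_comm, pow_mul]; norm_num
      have e2 : ((-1) ^ j * (P.cc σ j / th σ j) * yy σ γ j) ^ 2 =
          ((-1 : ℝ) ^ j) ^ 2 * ((P.cc σ j / th σ j) ^ 2 * yy σ γ j ^ 2) := by ring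
      rw [e2, e]
      apply le_of_eq
      field_simp)
  rw [halt, hsum] at hcs
  have hB : ∑ j ∈ range n, (P.cc σ j / th σ j) ^ 2 / kk σ j = ∑ j ∈ range n,
      P.cc σ j ^ 2 * ((2 * (j : ℝ) + 1) * (((j : ℝ) + σ) / ((j : ℝ) + 1 - σ))) := by
    refine sum_congr rfl fun j _ => ?_
    obtain ⟨a, b⟩ := P.den_pos h0 h1 j
    have b' := b.ne'
    have a' := a.ne'
    have c' : (2 * (j : ℝ) + 1) ≠ 0 := by positivity
    unfold th kk
    field_simp
  rw [hB] at hcs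
  have hcn0 := P.cc_pos h0 h1 n
  have hg : |γ n| ≤ γ 0 := abs_le_of_sq_le_sq hxn hx0
  have hg2 : (-1) ^ n * P.cc σ n * γ n ≤ P.cc σ n * γ 0 := by
    refine (le_abs_self _).trans ?_
    rw [abs_mul, abs_mul, abs_pow, abs_neg, abs_one, one_pow, one_mul, abs_of_pos hcn0]
    exact mul_le_mul_of_nonneg_left hg hcn0.le
  refine le_trans ?_ hcs
  have e1 : 0 ≤ (P.cc σ 0 - P.cc σ n) * γ 0 := mul_nonneg (by linarith) hx0
  have e2 : (P.cc σ 0 - P.cc σ n) * γ 0 ≤ P.cc σ 0 * γ 0 - (-1) ^ n * P.cc σ n * γ n := by linarith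
  gcongr

theorem frac_p (p : ℝ) (hp : 2 < p) (j : ℕ) : ((j : ℝ) + 1 / p) / ((j : ℝ) + 1 - 1 / p) =
    ((j : ℝ) * p + 1) / (((j : ℝ) + 1) * p - 1) := by
  have hj : (0 : ℝ) ≤ j := Nat.cast_nonneg j
  have hp0 : 0 < p := by linarith
  have h3 : (j : ℝ) + 1 / p = (j * p + 1) / p := by field_simp
  have h4 : (j : ℝ) + 1 - 1 / p = ((j + 1) * p - 1) / p := by field_simp
  rw [h3, h4, div_div_div_cancel_right₀ hp0.ne']

theorem cc_step (p : ℝ) (hp : 2 < p) (j : ℕ) : P.cc (1 / p) (j + 1) =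
    P.cc (1 / p) j * (((j : ℝ) * p + 1) / (((j : ℝ) + 1) * p - 1)) := by
  rw [← frac_p p hp j]
  rfl

theorem pairpos (e0 e1 q μ : ℝ) (hq : 0 < q) (h : 0 < q * e0 - e1) (he : 0 ≤ e1)
    (hμ : 0 ≤ 1 + q * μ) : 0 < e0 + e1 * μ := by
  refine pos_of_mul_pos_right (a := q) ?_ hq.le
  have : q * (e0 + e1 * μ) = (q * e0 - e1) + e1 * (1 + q * μ) := by ring
  rw [this]
  have := mul_nonneg he hμ
  linarith

/-- powers of a number close to one -/
theorem powbd' (p b c : ℝ) (hp : 0 < p) (hb : 0 ≤ b) (hc : 0 ≤ c)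
    (h : b ≤ 1 + c / p + (c / p) ^ 2 / 2) : b ^ (p / 2) ≤ Real.exp (c / 2) := by
  have h1 : b ≤ Real.exp (c / p) :=
    h.trans (Real.quadratic_le_exp_of_nonneg (by positivity))
  have h2 : b ^ (p / 2) ≤ Real.exp (c / p) ^ (p / 2) :=
    Real.rpow_le_rpow hb h1 (by positivity)
  rw [← Real.exp_mul] at h2
  have h3 : c / p * (p / 2) = c / 2 := by
    field_simp
  rw [h3] at h2
  exact h2

theorem stargen (p n1 d0 V : ℝ) (N D N' D' Q : ℝ → ℝ) (hp : 2 < p) (h1 : 0 < n1) (h2 : 0 < d0)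
    (hN0 : N 0 = 0) (hdN : ∀ μ, HasDerivAt N (N' μ) μ) (hdD : ∀ μ, HasDerivAt D (D' μ) μ)
    (hD : ∀ μ, 0 ≤ d0 + n1 * μ → 0 < D μ)
    (hid : ∀ μ, (d0 + n1 * μ) * (N' μ * D μ - N μ * D' μ) * p - n1 * p * D μ ^ 2 -
      (p - 2) * n1 * N μ * D μ = μ * Q μ)
    (hneg : ∀ μ, 0 ≤ d0 + n1 * μ → μ < 0 → 0 ≤ Q μ)
    (hpos : ∀ μ, 0 ≤ μ → n1 * μ ≤ V * d0 → 0 ≤ Q μ) (s : ℝ) (hs : 0 < s) (hs1 : s ≤ V) :
    s ^ (1 - 2 / p) ≤ 1 + (1 - 2 / p) * (N ((s - 1) * (d0 / n1)) / D ((s - 1) * (d0 / n1))) := by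
  have hp0 : 0 < p := by linarith
  have hK : 0 < n1 / d0 := by positivity
  have he : 0 < 1 - 2 / p := by
    rw [sub_pos, div_lt_one hp0]
    linarith
  have hin : ∀ μ, 0 < 1 + n1 / d0 * μ → 0 < d0 + n1 * μ := by
    intro μ hμ
    have e := mul_pos h2 hμ
    have : d0 * (1 + n1 / d0 * μ) = d0 + n1 * μ := by
      field_simp
    rwa [this] at e
  have hF : ∀ μ, 0 < d0 + n1 * μ →
      (1 / (n1 / d0) + μ) * ((N' μ * D μ - N μ * D' μ) / (D μ) ^ 2) - 1 -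
        (1 - 2 / p) * (N μ / D μ) = μ * (Q μ / (n1 * p * (D μ) ^ 2)) := by
    intro μ hμ
    have hDμ := hD μ hμ.le
    rw [← mul_div_assoc μ, ← hid μ]
    generalize N' μ = N1
    generalize D' μ = D1
    generalize N μ = N0
    generalize D μ = D0 at *
    field_simp
  have key := cmp (n1 / d0) (1 - 2 / p) V hK he (fun μ => N μ / D μ)
    (fun μ => (N' μ * D μ - N μ * D' μ) / (D μ) ^ 2)
    (by simp [hN0])
    (fun μ hμ => (hdN μ).div (hdD μ) (hD μ (hin μ hμ).le).ne')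
    (by
      intro μ hμ hm
      have hμ' := hin μ hμ
      have hDμ := hD μ hμ'.le
      rw [hF μ hμ']
      exact mul_nonpos_of_nonpos_of_nonneg hm.le
        (div_nonneg (hneg μ hμ'.le hm) (by positivity)))
    (by
      intro μ hm hμ
      have hμ' : 0 < d0 + n1 * μ := by positivity
      have hDμ := hD μ hμ'.le
      rw [hF μ hμ']
      have hV : n1 * μ ≤ V * d0 := by
        have : n1 / d0 * μ = n1 * μ / d0 := by ring
        rw [this, div_lt_iff₀ h2] at hμ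
        exact hμ.le
      exact mul_nonneg hm.le
        (div_nonneg (hpos μ hm.le hV) (by positivity)))
  have e1 : n1 / d0 * ((s - 1) * (d0 / n1)) = s - 1 := by
    field_simp
  have := key ((s - 1) * (d0 / n1)) (by rw [e1]; linarith) (by rw [e1]; linarith)
  rw [e1] at this
  simpa using this

/-- the assembly -/
theorem fin (n : ℕ) (hn : 1 ≤ n) (p V : ℝ) (hp : 4 ≤ p) (hV : 1 ≤ V) (H : ℝ → ℝ)
    (hlow : ∀ (γ : ℕ → ℝ) (ν : ℝ), -1 ≤ ν → H ν * γ 0 ^ 2 ≤ TT n γ + ν * Lam (1 / p) n γ)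
    (hstar : ∀ s : ℝ, 0 < s → s ≤ V → s ^ (1 - 2 / p) ≤ 1 + (1 - 2 / p) * H (s - 1))
    (hup : ∀ γ : ℕ → ℝ, 0 ≤ γ 0 → γ n ^ 2 ≤ γ 0 ^ 2 → Lam (1 / p) n γ = 1 →
      (γ 0 ^ 2) ^ (p / 2) ≤ V) : Star n p := by
  refine C0.main n p hn (by linarith) ?_
  intro γ hΛ hγ0 hor
  have hp0 : 0 < p := by linarith
  have hT : ∀ ν : ℝ, -1 ≤ ν → H ν * γ 0 ^ 2 - ν ≤ TT n γ := by
    intro ν hν
    have := hlow γ ν hν
    rw [hΛ] at this
    linarith
  obtain ⟨r, hr⟩ : ∃ r, r = p / 2 := ⟨_, rfl⟩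
  have hr5 : 2 ≤ r := by rw [hr]; linarith
  rw [← hr]
  obtain ⟨b, hb⟩ : ∃ b, b = γ 0 ^ 2 := ⟨_, rfl⟩
  rw [← hb]
  have hb0 : 0 ≤ b := by rw [hb]; positivity
  simp only [← hb] at hT
  rcases hb0.eq_or_lt with hz | hpos
  · have h1 := hT (-1) le_rfl
    rw [← hz, mul_zero] at h1
    rw [← hz]
    unfold ph
    rw [Real.zero_rpow (by linarith)]
    have : (r - 1) * 1 ≤ (r - 1) * TT n γ := mul_le_mul_of_nonneg_left (by linarith) (by linarith)
    linarith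
  · have hs : 0 < b ^ r := Real.rpow_pos_of_pos hpos r
    have hs100 : b ^ r ≤ V := by
      rcases hor with h | h
      · have hb1 : b ≤ 1 := by rw [hb]; nlinarith
        have := Real.rpow_le_one hb0 hb1 (show 0 ≤ r by linarith)
        linarith
      · have := hup γ hγ0 h hΛ
        rw [← hb, ← hr] at this
        exact this
    have h2 := hstar (b ^ r) hs hs100
    have h3 := hT (b ^ r - 1) (by linarith)
    generalize H (b ^ r - 1) = H0 at h2 h3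
    have hr1 : r * (1 - 2 / p) = r - 1 := by
      rw [hr]
      field_simp
    rw [← Real.rpow_mul hb0, hr1] at h2
    have h5 : b * b ^ (r - 1) = b ^ r := by
      rw [mul_comm, ← Real.rpow_add_one hpos.ne']
      congr 1
      ring
    have h6 : r * (b ^ r - b) ≤ (r - 1) * (b * H0) := by
      calc r * (b ^ r - b) = r * b * (b ^ (r - 1) - 1) := by rw [← h5]; ring
        _ ≤ r * b * ((1 - 2 / p) * H0) :=
            mul_le_mul_of_nonneg_left (by linarith) (by positivity)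
        _ = (r * (1 - 2 / p)) * (b * H0) := by ring
        _ = _ := by rw [hr1]
    have h7 : (r - 1) * (H0 * b - (b ^ r - 1)) ≤ (r - 1) * TT n γ :=
      mul_le_mul_of_nonneg_left h3 (by linarith)
    unfold ph
    linarith

end Pool.Agent.H41.Beur.Gen
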