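import Pool.Agent.H41.Beur.Gen
import Pool.Graph.R_seed8.Y282.RB.C1

/-!
# Tools for small n, two multipliers (helper41)
-/

set_option autoImplicit false

open Finset Set

namespace Pool.Agent.H41.Beur.Gen2

open Pool.Agent.H41.Beur Pool.Agent.Y282.RB

/-- comparison of a quotient with a power -/
theorem cmpW (e x : ℝ) (s A B s' A' B' : ℝ → ℝ) (hs0 : s 0 = 1) (h0 : B 0 = A 0)
    (hs : ∀ t ∈ uIcc 0 x, 0 < s t) (hA : ∀ t ∈ uIcc 0 x, 0 < A t)
    (ds : ∀ t, HasDerivAt s (s' t) t) (dA : ∀ t, HasDerivAt A (A' t) t)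
    (dB : ∀ t, HasDerivAt B (B' t) t)
    (hQ : ∀ t ∈ uIcc 0 x, 0 ≤ t * ((A' t * B t - A t * B' t) * s t + e * (A t * B t * s' t))) :
    B x ≤ A x * s x ^ e := by
  obtain ⟨W, hW⟩ : ∃ W : ℝ → ℝ, W = fun t => B t * s t ^ (-e) / A t := ⟨_, rfl⟩
  have hdW : ∀ t ∈ uIcc 0 x, HasDerivAt W
      (-(s t ^ (-e - 1) / A t ^ 2 *
        ((A' t * B t - A t * B' t) * s t + e * (A t * B t * s' t)))) t := by
    intro t ht
    have e3 := (ds t).rpow_const (p := -e) (Or.inl (hs t ht).ne')
    have e5 := ((dB t).mul e3).div (dA t) (hA t ht).ne'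
    rw [hW]
    refine e5.congr_deriv ?_
    have e4 : s t ^ (-e) = s t ^ (-e - 1) * s t := by
      rw [← Real.rpow_add_one (hs t ht).ne']
      congr 1
      ring
    have hA0 := (hA t ht).ne'
    simp only [Pi.mul_apply]
    rw [e4]
    generalize s t ^ (-e - 1) = w
    generalize A t = A0 at *
    generalize A' t = A1 at *
    generalize B t = B0 at *
    generalize B' t = B1 at *
    generalize s t = S0 at *
    generalize s' t = S1 at *
    field_simp
    ring
  have hW0 : W 0 = 1 := by
    rw [hW]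
    simp only [hs0, h0, Real.one_rpow, mul_one]
    exact div_self (hA 0 left_mem_uIcc).ne'
  have key : W x ≤ 1 := by
    rcases le_total x 0 with hx | hx
    · have hU : uIcc 0 x = Icc x 0 := uIcc_of_ge hx
      rw [hU] at hdW hQ hs
      have hmono : MonotoneOn W (Icc x 0) := by
        apply monotoneOn_of_deriv_nonneg (convex_Icc _ _)
        · intro t ht
          exact (hdW t ht).continuousAt.continuousWithinAt
        · intro t ht
          exact (hdW t (interior_subset ht)).differentiableAt.differentiableWithinAt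
        · intro t ht
          have ht1 := interior_subset ht
          rw [interior_Icc] at ht
          rw [(hdW t ht1).deriv]
          have h1 := hQ t ht1
          have h2 : (A' t * B t - A t * B' t) * s t + e * (A t * B t * s' t) ≤ 0 := by
            by_contra hc
            push Not at hc
            have := mul_neg_of_neg_of_pos ht.2 hc
            linarith
          have h3 : 0 ≤ s t ^ (-e - 1) / A t ^ 2 :=
            div_nonneg (Real.rpow_nonneg (hs t ht1).le _) (sq_nonneg _)
          have := mul_nonpos_of_nonneg_of_nonpos h3 h2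
          linarith
      have := hmono ⟨le_rfl, hx⟩ ⟨hx, le_rfl⟩ hx
      rwa [hW0] at this
    · have hU : uIcc 0 x = Icc 0 x := uIcc_of_le hx
      rw [hU] at hdW hQ hs
      have hanti : AntitoneOn W (Icc 0 x) := by
        apply antitoneOn_of_deriv_nonpos (convex_Icc _ _)
        · intro t ht
          exact (hdW t ht).continuousAt.continuousWithinAt
        · intro t ht
          exact (hdW t (interior_subset ht)).differentiableAt.differentiableWithinAt
        · intro t ht
          have ht1 := interior_subset ht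
          rw [interior_Icc] at ht
          rw [(hdW t ht1).deriv]
          have h1 := hQ t ht1
          have h2 : 0 ≤ (A' t * B t - A t * B' t) * s t + e * (A t * B t * s' t) := by
            by_contra hc
            push Not at hc
            have := mul_neg_of_pos_of_neg ht.1 hc
            linarith
          have h3 : 0 ≤ s t ^ (-e - 1) / A t ^ 2 :=
            div_nonneg (Real.rpow_nonneg (hs t ht1).le _) (sq_nonneg _)
          have := mul_nonneg h3 h2
          linarith
      have := hanti ⟨le_rfl, hx⟩ ⟨hx, le_rfl⟩ hx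
      rwa [hW0] at this
  rw [hW] at key
  simp only at key
  have hsx := hs x right_mem_uIcc
  have hAx := hA x right_mem_uIcc
  rw [div_le_one hAx, Real.rpow_neg hsx.le, ← div_eq_mul_inv,
    div_le_iff₀ (Real.rpow_pos_of_pos hsx _)] at key
  exact key

/-- the tangent bound with two multipliers -/
theorem tang (r a m : ℝ) (hr : 2 ≤ r) (ha : 0 ≤ a) (hm : 0 ≤ 1 + (r - 1) / r * m) :
    r * a + (r - 1) * m * a - (r - 1) * (1 + (m + m ^ 2 / r)) ≤ a ^ r := by
  obtain ⟨τ, hτ⟩ : ∃ τ, τ = 1 + (r - 1) / r * m := ⟨_, rfl⟩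
  rw [← hτ] at hm
  have hr0 : 0 < r := by linarith
  have hr1 : 0 < r - 1 := by linarith
  have hq : Real.HolderConjugate r (r / (r - 1)) := by
    rw [Real.holderConjugate_iff]
    refine ⟨by linarith, ?_⟩
    field_simp
    ring
  have hy := Real.young_inequality_of_nonneg ha hm hq
  have hb : τ ^ (r / (r - 1)) ≤ 1 + (m + m ^ 2 / r) := by
    have h1 : r / (r - 1) = 1 + 1 / (r - 1) := by
      field_simp
      ring
    rcases hm.eq_or_lt with h | h
    · rw [← h, Real.zero_rpow (by positivity)]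
      have h2 : 0 ≤ (m + r / 2) ^ 2 := sq_nonneg _
      have h3 : 1 + (m + m ^ 2 / r) = ((m + r / 2) ^ 2 + r * (4 - r) / 4) / r := by
        field_simp
        ring
      have h4 : m = - (r / (r - 1)) := by
        have : (r - 1) / r * m = -1 := by linarith
        field_simp at this
        rw [eq_neg_iff_add_eq_zero]
        field_simp
        linarith
      rw [h4]
      have h5 : 1 + (-(r / (r - 1)) + (-(r / (r - 1))) ^ 2 / r) = 1 / (r - 1) ^ 2 := by
        field_simp
        ring
      rw [h5]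
      positivity
    · rw [h1, Real.rpow_add h, Real.rpow_one]
      have h2 := rpow_one_add_le_one_add_mul_self (s := τ - 1) (p := 1 / (r - 1))
        (by linarith) (by positivity) (by rw [div_le_one hr1]; linarith)
      rw [show 1 + (τ - 1) = τ by ring] at h2
      have h3 : τ * τ ^ (1 / (r - 1)) ≤ τ * (1 + 1 / (r - 1) * (τ - 1)) :=
        mul_le_mul_of_nonneg_left h2 h.le
      refine h3.trans ?_
      have h4 : 1 / (r - 1) * (τ - 1) = m / r := by
        rw [hτ]
        field_simp
        ring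
      rw [h4, hτ]
      have h5 : (1 + (r - 1) / r * m) * (1 + m / r) = 1 + (m + m ^ 2 / r) - m ^ 2 / r ^ 2 := by
        field_simp
        ring
      rw [h5]
      have : 0 ≤ m ^ 2 / r ^ 2 := by positivity
      linarith
  have h1 : r * (a * τ) ≤ a ^ r + (r - 1) * τ ^ (r / (r - 1)) := by
    have h2 := mul_le_mul_of_nonneg_left hy hr0.le
    have h3 : r * (a ^ r / r + τ ^ (r / (r - 1)) / (r / (r - 1))) =
        a ^ r + (r - 1) * τ ^ (r / (r - 1)) := by
      generalize τ ^ (r / (r - 1)) = w
      field_simp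
    rwa [h3] at h2
  have h2 : (r - 1) * τ ^ (r / (r - 1)) ≤ (r - 1) * (1 + (m + m ^ 2 / r)) :=
    mul_le_mul_of_nonneg_left hb hr1.le
  have h3 : r * (a * τ) = r * a + (r - 1) * m * a := by
    rw [hτ]
    field_simp
  linarith

/-- the assembly -/
theorem fin2 (n : ℕ) (hn : 1 ≤ n) (p V : ℝ) (hp : 4 ≤ p)
    (hex : ∀ s : ℝ, 0 ≤ s → s ≤ V → ∃ H ν m : ℝ,
      (∀ γ : ℕ → ℝ, H * γ 0 ^ 2 ≤ TT n γ + ν * Lam (1 / p) n γ + m * γ n ^ 2) ∧
      0 ≤ 1 + (p - 2) / p * m ∧
      2 * s + (p - 2) * (1 + ν + (m + 2 * m ^ 2 / p)) ≤ ((p - 2) * H + p) * s ^ (2 / p))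
    (hV : 1 ≤ V)
    (hup : ∀ γ : ℕ → ℝ, 0 ≤ γ 0 → γ n ^ 2 ≤ γ 0 ^ 2 → Lam (1 / p) n γ = 1 →
      (γ 0 ^ 2) ^ (p / 2) ≤ V) : Star n p := by
  refine C1.main n p hn (by linarith) ?_
  intro γ hΛ hγ0
  right
  have hp0 : 0 < p := by linarith
  have hT := C0.TT_nonneg n γ
  obtain ⟨r, hr⟩ : ∃ r, r = p / 2 := ⟨_, rfl⟩
  have hr2 : 2 ≤ r := by rw [hr]; linarith
  rw [C0.ident n p (by linarith) γ, C0.rpow_sq, C0.rpow_sq, ← hr]
  obtain ⟨b, hb⟩ : ∃ b, b = γ 0 ^ 2 := ⟨_, rfl⟩
  obtain ⟨a, ha⟩ : ∃ a, a = γ n ^ 2 := ⟨_, rfl⟩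
  rw [← hb, ← ha]
  have hb0 : 0 ≤ b := by rw [hb]; positivity
  have ha0 : 0 ≤ a := by rw [ha]; positivity
  by_cases hc : b ^ r ≤ V
  · obtain ⟨H, ν, m, h1, h2, h3⟩ := hex (b ^ r) (Real.rpow_nonneg hb0 _) hc
    have h4 := h1 γ
    rw [hΛ, ← hb, ← ha] at h4
    have h5 : (b ^ r) ^ (2 / p) = b := by
      rw [← Real.rpow_mul hb0, hr, show p / 2 * (2 / p) = 1 by field_simp, Real.rpow_one]
    rw [h5] at h3
    have h6 : (p - 2) / p = (r - 1) / r := by
      rw [hr]
      field_simp
    have h7 := tang r a m hr2 ha0 (by rw [← h6]; exact h2)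
    have h8 : m ^ 2 / r = 2 * m ^ 2 / p := by
      rw [hr]
      field_simp
    rw [h8] at h7
    have hp' : p = 2 * r := by rw [hr]; ring
    have h9 : b ^ r + (r - 1) * (1 + ν + (m + 2 * m ^ 2 / p)) ≤ ((r - 1) * H + r) * b := by
      generalize m + 2 * m ^ 2 / p = u at *
      generalize b ^ r = s at *
      rw [hp'] at h3
      linarith
    generalize m + 2 * m ^ 2 / p = u at *
    generalize b ^ r = s at *
    generalize a ^ r = a' at *
    have h10 : (r - 1) * (H * b) ≤ (r - 1) * (TT n γ + ν * 1 + m * a) :=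
      mul_le_mul_of_nonneg_left h4 (by linarith)
    linarith
  · push Not at hc
    have hab : b < a := by
      by_contra hcon
      push Not at hcon
      have := hup γ hγ0 (by rw [← ha, ← hb]; exact hcon) hΛ
      rw [← hb, ← hr] at this
      linarith
    have hb1 : 1 < b := by
      by_contra hcon
      push Not at hcon
      have := Real.rpow_le_one hb0 hcon (show 0 ≤ r by linarith)
      linarith
    have hbp : 0 < b := by linarith
    have hr1 : 1 ≤ r := by linarith
    have h1 := one_add_mul_self_le_rpow_one_add (s := a / b - 1)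
      (by have : 0 ≤ a / b := by positivity
          linarith) hr1
    rw [show 1 + (a / b - 1) = a / b by ring, Real.div_rpow ha0 hb0] at h1
    have hbr : 0 < b ^ r := Real.rpow_pos_of_pos hbp _
    rw [le_div_iff₀ hbr] at h1
    have h2 : b ≤ b ^ r := by
      have := Real.rpow_le_rpow_of_exponent_le hb1.le hr1
      rwa [Real.rpow_one] at this
    have h3 : 0 ≤ a / b - 1 := by
      rw [sub_nonneg, le_div_iff₀ hbp]; linarith
    have h4 : r * (a - b) ≤ r * (a / b - 1) * b ^ r := by
      have h5 : r * (a - b) = r * (a / b - 1) * b := by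
        field_simp
      rw [h5]
      exact mul_le_mul_of_nonneg_left h2 (mul_nonneg (by linarith) h3)
    have h6 : 0 ≤ (r - 1) * TT n γ := mul_nonneg (by linarith) hT
    nlinarith

end Pool.Agent.H41.Beur.Gen2
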