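import Pool.Graph.R_seed8.Y282.RB.Stm

/-!
# General n, `p ≥ 4 n ^ 2` : sums and Cauchy-Schwarz (helper41)
-/

set_option autoImplicit false

open Finset

namespace Pool.Agent.H41.Beur.P

open Pool.Agent.Y282.RB

/-- `1/j + 1/(j+1)` -/
noncomputable def dd (j : ℕ) : ℝ := 1 / (j : ℝ) + 1 / ((j : ℝ) + 1)

noncomputable def bb (J i : ℕ) : ℝ := 1 / ((i : ℝ) + 1) + ∑ j ∈ Ico (i + 1) J, dd j

noncomputable def nn (σ : ℝ) (J i : ℕ) : ℝ :=
  1 / ((i : ℝ) + 1 - σ) + ∑ j ∈ Ico (i + 1) J, kk σ j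

/-- half of the sum of `1/j + 1/(j+1)` over `m ≤ j < n` -/
noncomputable def la (n m : ℕ) : ℝ := (∑ j ∈ Ico m n, dd j) / 2

theorem bb_succ (J i : ℕ) (h : i < J) : bb (J + 1) i = bb J i + dd J := by
  unfold bb
  rw [sum_Ico_succ_top (by omega)]
  ring

theorem bb_self (J : ℕ) : bb (J + 1) J = 1 / ((J : ℝ) + 1) := by
  unfold bb
  simp

theorem sum_odd (J : ℕ) : ∑ i ∈ range J, (2 * (i : ℝ) + 1) = (J : ℝ) ^ 2 := by
  induction J with
  | zero => simp
  | succ J ih => rw [sum_range_succ, ih]; push_cast; ring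

theorem m12 (J : ℕ) (hJ : 1 ≤ J) : ∑ i ∈ range J, (2 * (i : ℝ) + 1) * bb J i = (J : ℝ) ^ 2 ∧
    ∑ i ∈ range J, (2 * (i : ℝ) + 1) * bb J i ^ 2 = 2 * (J : ℝ) ^ 2 - 1 := by
  induction J, hJ using Nat.le_induction with
  | base => constructor <;> norm_num [bb]
  | succ J hJ ih =>
    obtain ⟨h1, h2⟩ := ih
    have hJ0 : (0 : ℝ) < (J : ℝ) := by exact_mod_cast hJ
    constructor
    · rw [sum_range_succ, bb_self]
      have e : ∑ i ∈ range J, (2 * (i : ℝ) + 1) * bb (J + 1) i =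
          ∑ i ∈ range J, (2 * (i : ℝ) + 1) * bb J i + dd J * ∑ i ∈ range J, (2 * (i : ℝ) + 1) := by
        rw [mul_sum, ← sum_add_distrib]
        refine sum_congr rfl fun i hi => ?_
        rw [bb_succ J i (mem_range.mp hi)]
        ring
      rw [e, h1, sum_odd]
      unfold dd
      push_cast
      field_simp
      ring
    · rw [sum_range_succ, bb_self]
      have e : ∑ i ∈ range J, (2 * (i : ℝ) + 1) * bb (J + 1) i ^ 2 =
          ∑ i ∈ range J, (2 * (i : ℝ) + 1) * bb J i ^ 2 +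
          (2 * dd J * ∑ i ∈ range J, (2 * (i : ℝ) + 1) * bb J i) +
          dd J ^ 2 * ∑ i ∈ range J, (2 * (i : ℝ) + 1) := by
        rw [mul_sum, mul_sum, ← sum_add_distrib, ← sum_add_distrib]
        refine sum_congr rfl fun i hi => ?_
        rw [bb_succ J i (mem_range.mp hi)]
        ring
      rw [e, h1, h2, sum_odd]
      unfold dd
      push_cast
      field_simp
      ring

section
variable {σ : ℝ} (h0 : 0 < σ) (h1 : σ < 1)
include h0 h1

theorem den_pos (j : ℕ) : 0 < (j : ℝ) + σ ∧ 0 < (j : ℝ) + 1 - σ := by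
  have : (0 : ℝ) ≤ j := Nat.cast_nonneg j
  constructor <;> linarith

theorem kk_pos (j : ℕ) : 0 < kk σ j := by
  obtain ⟨a, b⟩ := den_pos h0 h1 j
  unfold kk
  positivity

theorem kk_th (j : ℕ) : kk σ j * th σ j = 1 / ((j : ℝ) + σ) := by
  obtain ⟨a, b⟩ := den_pos h0 h1 j
  have a' := a.ne'
  have b' := b.ne'
  have c : (2 * (j : ℝ) + 1) ≠ 0 := by positivity
  unfold kk th
  field_simp

theorem kk_th' (j : ℕ) : kk σ j * (1 - th σ j) = 1 / ((j : ℝ) + 1 - σ) := by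
  obtain ⟨a, b⟩ := den_pos h0 h1 j
  have a' := a.ne'
  have b' := b.ne'
  have c : (2 * (j : ℝ) + 1) ≠ 0 := by positivity
  have d : 1 - th σ j = ((j : ℝ) + σ) / (2 * (j : ℝ) + 1) := by
    unfold th
    field_simp
    ring
  rw [d]
  unfold kk
  field_simp

theorem th_mem (j : ℕ) : 0 ≤ th σ j ∧ 0 ≤ 1 - th σ j := by
  obtain ⟨a, b⟩ := den_pos h0 h1 j
  have d : 1 - th σ j = ((j : ℝ) + σ) / (2 * (j : ℝ) + 1) := by
    unfold th
    have c : (2 * (j : ℝ) + 1) ≠ 0 := by positivity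
    field_simp
    ring
  rw [d]
  unfold th
  constructor <;> positivity

theorem kk_le (j : ℕ) (hj : 1 ≤ j) : kk σ j ≤ dd j := by
  obtain ⟨a, b⟩ := den_pos h0 h1 j
  have hj0 : (1 : ℝ) ≤ (j : ℝ) := by exact_mod_cast hj
  have hj1 : (0 : ℝ) < (j : ℝ) := by linarith
  have e : dd j = (2 * (j : ℝ) + 1) / ((j : ℝ) * ((j : ℝ) + 1)) := by
    unfold dd
    field_simp
    ring
  rw [e]
  unfold kk
  apply div_le_div_of_nonneg_left (by positivity) (by positivity)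
  nlinarith

omit h0 h1 in
theorem kk_zero : kk σ 0 = 1 / (σ * (1 - σ)) := by
  unfold kk
  norm_num

theorem KK_ge (J : ℕ) (hJ : 1 ≤ J) : 1 / (σ * (1 - σ)) ≤ KK σ J := by
  rw [← kk_zero]
  unfold KK
  exact single_le_sum (f := kk σ) (fun j _ => (kk_pos h0 h1 j).le) (mem_range.mpr hJ)

theorem KK_le (n J : ℕ) (hJ : 1 ≤ J) (hn : J ≤ n) : KK σ n ≤ KK σ J + 2 * la n J := by
  unfold KK la
  rw [← sum_range_add_sum_Ico (kk σ) hn]
  have : ∑ j ∈ Ico J n, kk σ j ≤ ∑ j ∈ Ico J n, dd j :=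
    sum_le_sum fun j hj => kk_le h0 h1 j (hJ.trans (mem_Ico.mp hj).1)
  linarith

theorem KK_one : KK σ 1 = 1 / (σ * (1 - σ)) := by
  unfold KK
  rw [sum_range_one, kk_zero]

theorem nn_nonneg (J i : ℕ) : 0 ≤ nn σ J i := by
  obtain ⟨a, b⟩ := den_pos h0 h1 i
  unfold nn
  have : 0 ≤ ∑ j ∈ Ico (i + 1) J, kk σ j := sum_nonneg fun j _ => (kk_pos h0 h1 j).le
  positivity

theorem nn_le (J i : ℕ) : (1 - σ) * nn σ J i ≤ bb J i := by
  obtain ⟨a, b⟩ := den_pos h0 h1 i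
  unfold nn bb
  rw [mul_add]
  apply add_le_add
  · rw [mul_one_div, div_le_div_iff₀ b (by positivity)]
    have : (0 : ℝ) ≤ i := Nat.cast_nonneg i
    nlinarith
  · rw [mul_sum]
    refine sum_le_sum fun j hj => ?_
    have h2 := kk_le h0 h1 j (by have := (mem_Ico.mp hj).1; omega)
    have h3 := kk_pos h0 h1 j
    nlinarith

theorem W (γ : ℕ → ℝ) (J : ℕ) : ∑ j ∈ range J, kk σ j * yy σ γ j +
    ∑ i ∈ range J, nn σ J i * (γ i - γ (i + 1)) = KK σ J * γ 0 := by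
  induction J with
  | zero => simp [KK]
  | succ J ih =>
    have e1 : ∑ i ∈ range J, nn σ (J + 1) i * (γ i - γ (i + 1)) =
        ∑ i ∈ range J, nn σ J i * (γ i - γ (i + 1)) + kk σ J * (γ 0 - γ J) := by
      rw [← sum_range_sub', mul_sum, ← sum_add_distrib]
      refine sum_congr rfl fun i hi => ?_
      have : nn σ (J + 1) i = nn σ J i + kk σ J := by
        unfold nn
        rw [sum_Ico_succ_top (by have := mem_range.mp hi; omega)]
        ring
      rw [this]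
      ring
    have e2 : nn σ (J + 1) J = kk σ J * (1 - th σ J) := by
      rw [kk_th' h0 h1]
      unfold nn
      simp
    have e3 : KK σ (J + 1) = KK σ J + kk σ J := by
      unfold KK
      rw [sum_range_succ]
    rw [sum_range_succ, sum_range_succ, e1, e2, e3]
    have e4 : yy σ γ J = th σ J * γ J + (1 - th σ J) * γ (J + 1) := rfl
    rw [e4]
    linear_combination ih

theorem Qle (γ : ℕ → ℝ) (J : ℕ) (hJ : 1 ≤ J) :
    ((1 - σ) * ∑ i ∈ range J, nn σ J i * (γ i - γ (i + 1))) ^ 2 ≤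
      (2 * (J : ℝ) ^ 2 - 1) * TT J γ := by
  have hcs := sum_sq_le_sum_mul_sum_of_sq_eq_mul (range J)
    (r := fun i => (1 - σ) * (nn σ J i * (γ i - γ (i + 1))))
    (f := fun i => (2 * (i : ℝ) + 1) * ((1 - σ) * nn σ J i) ^ 2)
    (g := fun i => (γ i - γ (i + 1)) ^ 2 / (2 * (i : ℝ) + 1))
    (fun i _ => by positivity) (fun i _ => by positivity)
    (fun i _ => by
      have c : (2 * (i : ℝ) + 1) ≠ 0 := by positivity
      field_simp)
  rw [← mul_sum] at hcs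
  refine hcs.trans ?_
  have hT : ∑ i ∈ range J, (γ i - γ (i + 1)) ^ 2 / (2 * (i : ℝ) + 1) = TT J γ := rfl
  rw [hT]
  have hT0 : 0 ≤ TT J γ := by
    unfold TT
    exact sum_nonneg fun i _ => by positivity
  apply mul_le_mul_of_nonneg_right _ hT0
  rw [← (m12 J hJ).2]
  refine sum_le_sum fun i _ => ?_
  have e1 := nn_le h0 h1 J i
  have e2 : 0 ≤ (1 - σ) * nn σ J i := mul_nonneg (by linarith) (nn_nonneg h0 h1 J i)
  gcongr

omit h0 h1 in
theorem TT_mono (γ : ℕ → ℝ) {J n : ℕ} (h : J ≤ n) : TT J γ ≤ TT n γ := by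
  unfold TT
  exact sum_le_sum_of_subset_of_nonneg (range_subset_range.mpr h) (fun i _ _ => by positivity)

/-- the lower bound for `T` for large `γ 0` -/
theorem core (γ : ℕ → ℝ) (n J : ℕ) (hJ : 1 ≤ J) (hn : J ≤ n) (hL : Lam σ n γ = 1) (y : ℝ)
    (hx : 1 + σ * y ≤ γ 0) (hy : la n J ≤ y) :
    (y - la n J) ^ 2 ≤ (2 * (J : ℝ) ^ 2 - 1) * TT n γ := by
  have hK := KK_ge h0 h1 J hJ
  have hs : 0 < σ * (1 - σ) := mul_pos h0 (by linarith)
  have hK0 : 0 < KK σ J := lt_of_lt_of_le (by positivity) hK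
  have hK1 : 1 ≤ σ * (1 - σ) * KK σ J := by
    rw [div_le_iff₀ hs] at hK
    linarith
  have hKn : 0 < KK σ n := by
    refine lt_of_lt_of_le (by positivity) (KK_ge h0 h1 n (hJ.trans hn))
  have hla : 0 ≤ la n J := by
    unfold la
    have : 0 ≤ ∑ j ∈ Ico J n, dd j := sum_nonneg fun j _ => by unfold dd; positivity
    positivity
  have hsum : ∑ j ∈ range n, kk σ j * (yy σ γ j) ^ 2 = KK σ n := by
    unfold Lam at hL
    rwa [div_eq_one_iff_eq hKn.ne'] at hL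
  -- the mean
  have hP : (∑ j ∈ range J, kk σ j * yy σ γ j) ^ 2 ≤ KK σ J * KK σ n := by
    have hcs := sum_sq_le_sum_mul_sum_of_sq_eq_mul (range J)
      (r := fun j => kk σ j * yy σ γ j) (f := fun j => kk σ j)
      (g := fun j => kk σ j * (yy σ γ j) ^ 2)
      (fun j _ => (kk_pos h0 h1 j).le)
      (fun j _ => mul_nonneg (kk_pos h0 h1 j).le (sq_nonneg _))
      (fun j _ => by ring)
    refine hcs.trans ?_
    have e1 : ∑ j ∈ range J, kk σ j * (yy σ γ j) ^ 2 ≤ KK σ n := by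
      rw [← hsum]
      exact sum_le_sum_of_subset_of_nonneg (range_subset_range.mpr hn)
        (fun j _ _ => mul_nonneg (kk_pos h0 h1 j).le (sq_nonneg _))
    exact mul_le_mul_of_nonneg_left e1 hK0.le
  have hKn2 : KK σ n ≤ KK σ J * (1 + σ * la n J) ^ 2 := by
    have e1 := KK_le h0 h1 n J hJ hn
    have e2 : la n J ≤ σ * (1 - σ) * KK σ J * la n J := by nlinarith
    have e3 : σ * (1 - σ) * KK σ J * la n J ≤ σ * KK σ J * la n J := by
      have : 0 ≤ σ * σ * (KK σ J * la n J) := by positivity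
      nlinarith
    have e4 : 0 ≤ KK σ J * (σ * la n J) ^ 2 := by positivity
    nlinarith
  have hP2 : (∑ j ∈ range J, kk σ j * yy σ γ j) ≤ KK σ J * (1 + σ * la n J) := by
    refine (le_abs_self _).trans (abs_le_of_sq_le_sq (hP.trans ?_) (by positivity))
    calc KK σ J * KK σ n ≤ KK σ J * (KK σ J * (1 + σ * la n J) ^ 2) :=
          mul_le_mul_of_nonneg_left hKn2 hK0.le
      _ = (KK σ J * (1 + σ * la n J)) ^ 2 := by ring
  have hW := W h0 h1 γ J
  have hQ := Qle h0 h1 γ J hJ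
  have hT := TT_mono γ hn
  obtain ⟨Q, hQd⟩ : ∃ Q, Q = ∑ i ∈ range J, nn σ J i * (γ i - γ (i + 1)) := ⟨_, rfl⟩
  rw [← hQd] at hW hQ
  have hQ1 : KK σ J * (σ * (y - la n J)) ≤ Q := by
    have e1 : KK σ J * (1 + σ * y) ≤ KK σ J * γ 0 := mul_le_mul_of_nonneg_left hx hK0.le
    nlinarith
  have hQ2 : y - la n J ≤ (1 - σ) * Q := by
    have e1 : (1 - σ) * (KK σ J * (σ * (y - la n J))) ≤ (1 - σ) * Q :=
      mul_le_mul_of_nonneg_left hQ1 (by linarith)
    have e2 : 0 ≤ (σ * (1 - σ) * KK σ J - 1) * (y - la n J) :=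
      mul_nonneg (by linarith) (by linarith)
    nlinarith
  have hJ2 : (0 : ℝ) ≤ 2 * (J : ℝ) ^ 2 - 1 := by
    have : (1 : ℝ) ≤ (J : ℝ) := by exact_mod_cast hJ
    nlinarith
  calc (y - la n J) ^ 2 ≤ ((1 - σ) * Q) ^ 2 := by
        have : 0 ≤ y - la n J := by linarith
        gcongr
    _ ≤ (2 * (J : ℝ) ^ 2 - 1) * TT J γ := hQ
    _ ≤ (2 * (J : ℝ) ^ 2 - 1) * TT n γ := mul_le_mul_of_nonneg_left hT hJ2

end

end Pool.Agent.H41.Beur.P
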