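import Pool.Agent.H41.Beur.P2
import Pool.Graph.R_seed8.Y282.RB.C0
import Pool.Graph.R_seed8.Y282.RB.E0

/-!
# General n, `p ≥ 4 n ^ 2` : the pointwise inequality (helper41)
-/

set_option autoImplicit false

open Finset

namespace Pool.Agent.H41.Beur.P

open Pool.Agent.Y282.RB

/-! ### exponentials -/

theorem exp_mid (t : ℝ) (h0 : 0 < t) (h1 : t < 1) : Real.exp (2 * t) ≤ (1 + t) / (1 - t) := by
  have h := Real.hasSum_log_sub_log_of_abs_lt_one (x := t) (by rw [abs_of_pos h0]; exact h1)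
  have h2 := le_hasSum h 0 (fun j _ => by positivity)
  have h3 : 2 * t ≤ Real.log (1 + t) - Real.log (1 - t) := by
    simpa using h2
  rw [← Real.log_div (by linarith) (by linarith)] at h3
  rwa [← Real.le_log_iff_exp_le (div_pos (by linarith) (by linarith))]

theorem exp_inv (j : ℕ) (hj : 1 ≤ j) : Real.exp (1 / (j : ℝ)) ≤ (2 * j + 1) / (2 * j - 1) := by
  have hj0 : (1 : ℝ) ≤ (j : ℝ) := by exact_mod_cast hj
  have h := exp_mid (1 / (2 * j)) (by positivity) (by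
    rw [div_lt_one (by positivity)]
    linarith)
  have e1 : 2 * (1 / (2 * (j : ℝ))) = 1 / j := by field_simp
  rw [e1] at h
  refine h.trans (le_of_eq ?_)
  have e2 : 1 - 1 / (2 * (j : ℝ)) = (2 * j - 1) / (2 * j) := by field_simp
  have e3 : 1 + 1 / (2 * (j : ℝ)) = (2 * j + 1) / (2 * j) := by field_simp
  rw [e2, e3, div_div_div_cancel_right₀ (by positivity)]

theorem exp_dd (j : ℕ) (hj : 1 ≤ j) : Real.exp (dd j) ≤ (2 * j + 3) / (2 * j - 1) := by
  have hj0 : (1 : ℝ) ≤ (j : ℝ) := by exact_mod_cast hj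
  have h1 := exp_inv j hj
  have h2 := exp_inv (j + 1) (by omega)
  push_cast at h2
  unfold dd
  rw [Real.exp_add]
  have e1 : 0 < 2 * (j : ℝ) - 1 := by linarith
  calc _ ≤ (2 * j + 1) / (2 * j - 1) * ((2 * ((j : ℝ) + 1) + 1) / (2 * (j + 1) - 1)) := by
        gcongr
    _ = _ := by
        have e2 : 2 * ((j : ℝ) + 1) - 1 = 2 * j + 1 := by ring
        rw [e2]
        have : 2 * (j : ℝ) + 1 ≠ 0 := by positivity
        field_simp
        ring

theorem la_self (n : ℕ) : la n n = 0 := by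
  unfold la
  simp

theorem la_succ (n m : ℕ) (h : m ≤ n) : la (n + 1) m = la n m + dd n / 2 := by
  unfold la
  rw [sum_Ico_succ_top h]
  ring

theorem la_pred (n m : ℕ) (h : m < n) : la n m = la n (m + 1) + dd m / 2 := by
  unfold la
  rw [sum_eq_sum_Ico_succ_bot h]
  ring

theorem dd_nonneg (j : ℕ) : 0 ≤ dd j := by
  unfold dd
  positivity

theorem la_nonneg (n m : ℕ) : 0 ≤ la n m := by
  unfold la
  have : 0 ≤ ∑ j ∈ Ico m n, dd j := sum_nonneg fun j _ => dd_nonneg j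
  positivity

theorem la_exp (n m : ℕ) (hm : 1 ≤ m) (hmn : m ≤ n) :
    Real.exp (2 * la n m) * (4 * (m : ℝ) ^ 2 - 1) ≤ 4 * (n : ℝ) ^ 2 - 1 := by
  have hm0 : (1 : ℝ) ≤ (m : ℝ) := by exact_mod_cast hm
  induction n, hmn using Nat.le_induction with
  | base => rw [la_self]; simp
  | succ n hmn ih =>
    have hn0 : (1 : ℝ) ≤ (n : ℝ) := by exact_mod_cast hm.trans hmn
    have e0 : 0 < 2 * (n : ℝ) - 1 := by linarith
    rw [la_succ n m hmn, show 2 * (la n m + dd n / 2) = 2 * la n m + dd n by ring, Real.exp_add]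
    have h1 := exp_dd n (hm.trans hmn)
    calc Real.exp (2 * la n m) * Real.exp (dd n) * (4 * (m : ℝ) ^ 2 - 1)
        = (Real.exp (2 * la n m) * (4 * (m : ℝ) ^ 2 - 1)) * Real.exp (dd n) := by ring
      _ ≤ (4 * (n : ℝ) ^ 2 - 1) * ((2 * n + 3) / (2 * n - 1)) := by
          apply mul_le_mul ih h1 (Real.exp_pos _).le
          nlinarith
      _ = 4 * ((n + 1 : ℕ) : ℝ) ^ 2 - 1 := by
          rw [← mul_div_assoc, div_eq_iff e0.ne']
          push_cast
          ring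

theorem la_bounds (n : ℕ) (hn : 3 ≤ n) : 7 / 6 ≤ la n 1 ∧ la n 1 ≤ 7 / 18 * n := by
  induction n, hn using Nat.le_induction with
  | base =>
    have e : la 3 1 = 7 / 6 := by
      rw [la_succ 2 1 (by norm_num), la_succ 1 1 (by norm_num), la_self]
      unfold dd
      norm_num
    rw [e]
    norm_num
  | succ n hn ih =>
    have hn0 : (3 : ℝ) ≤ (n : ℝ) := by exact_mod_cast hn
    rw [la_succ n 1 (by omega)]
    have h1 := dd_nonneg n
    have h2 : dd n ≤ 7 / 12 := by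
      unfold dd
      have e1 : 1 / (n : ℝ) ≤ 1 / 3 := one_div_le_one_div_of_le (by norm_num) hn0
      have e2 : 1 / ((n : ℝ) + 1) ≤ 1 / 4 := one_div_le_one_div_of_le (by norm_num) (by linarith)
      linarith
    push_cast
    constructor
    · linarith [ih.1]
    · linarith [ih.2]

theorem exp_quad (y : ℝ) (h0 : 0 ≤ y) (h1 : y ≤ 7 / 4) : Real.exp y ≤ 1 + y + y ^ 2 := by
  obtain ⟨z, hz⟩ : ∃ z, z = y / 2 := ⟨_, rfl⟩
  have hy : y = 2 * z := by linarith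
  have z0 : 0 ≤ z := by linarith
  have z1 : z ≤ 7 / 8 := by linarith
  have hb := Real.exp_bound' z0 (by linarith) (n := 4) (by norm_num)
  have hb2 : Real.exp z ≤ 1 + z + z ^ 2 / 2 + z ^ 3 / 6 + 5 / 96 * z ^ 4 := by
    refine hb.trans (le_of_eq ?_)
    rw [sum_range_succ, sum_range_succ, sum_range_succ, sum_range_one]
    norm_num [Nat.factorial]
    ring
  rw [hy, two_mul, Real.exp_add]
  have h2 : Real.exp z * Real.exp z ≤ (1 + z + z ^ 2 / 2 + z ^ 3 / 6 + 5 / 96 * z ^ 4) *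
      (1 + z + z ^ 2 / 2 + z ^ 3 / 6 + 5 / 96 * z ^ 4) := by
    have := (Real.exp_pos z).le
    gcongr
  refine h2.trans ?_
  have p1 : z ^ 2 ≤ (7 / 8) ^ 2 := pow_le_pow_left₀ z0 z1 2
  have p2 : z ^ 3 ≤ (7 / 8) ^ 3 := pow_le_pow_left₀ z0 z1 3
  have p3 : z ^ 4 ≤ (7 / 8) ^ 4 := pow_le_pow_left₀ z0 z1 4
  have p4 : z ^ 5 ≤ (7 / 8) ^ 5 := pow_le_pow_left₀ z0 z1 5
  have p5 : z ^ 6 ≤ (7 / 8) ^ 6 := pow_le_pow_left₀ z0 z1 6
  have key : 0 ≤ 2 - (4 / 3 * z + 11 / 16 * z ^ 2 + 13 / 48 * z ^ 3 + 23 / 288 * z ^ 4 +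
      5 / 288 * z ^ 5 + 25 / 9216 * z ^ 6) := by
    norm_num at p1 p2 p3 p4 p5
    linarith
  have key2 := mul_nonneg (sq_nonneg z) key
  have e : z ^ 2 * (2 - (4 / 3 * z + 11 / 16 * z ^ 2 + 13 / 48 * z ^ 3 + 23 / 288 * z ^ 4 +
      5 / 288 * z ^ 5 + 25 / 9216 * z ^ 6)) = 1 + (z + z) + (2 * z) ^ 2 -
      (1 + z + z ^ 2 / 2 + z ^ 3 / 6 + 5 / 96 * z ^ 4) *
      (1 + z + z ^ 2 / 2 + z ^ 3 / 6 + 5 / 96 * z ^ 4) := by ring
  rw [e] at key2
  linarith

theorem exp_big (y : ℝ) (h : 7 / 4 ≤ y) :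
    Real.exp y - 1 - y ≤ 49 / 16 * Real.exp (2 * (y - 7 / 4)) := by
  obtain ⟨w, hw⟩ : ∃ w, w = y - 7 / 4 := ⟨_, rfl⟩
  have hy : y = 7 / 4 + w := by linarith
  have w0 : 0 ≤ w := by linarith
  have h1 := exp_quad (7 / 4) (by norm_num) le_rfl
  have h2 := Real.add_one_le_exp w
  rw [← hw, hy, Real.exp_add, two_mul, Real.exp_add]
  obtain ⟨E, hE⟩ : ∃ E, E = Real.exp w := ⟨_, rfl⟩
  rw [← hE] at h2 ⊢
  have hE1 : 1 ≤ E := by linarith
  have h3 : Real.exp (7 / 4) * E ≤ (1 + 7 / 4 + (7 / 4) ^ 2) * E :=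
    mul_le_mul_of_nonneg_right h1 (by linarith)
  have h4 : 0 ≤ (E - 1) * (49 * E - 44) := mul_nonneg (by linarith) (by linarith)
  nlinarith

theorem v_exp (v : ℝ) (h1 : 1 ≤ v) (h2 : v ≤ 7 / 4) :
    49 / 16 ≤ v ^ 2 * Real.exp (2 * (7 / 4 - v)) := by
  have h3 := Real.add_one_le_exp (7 / 4 - v)
  rw [two_mul, Real.exp_add]
  have h4 : 7 / 4 ≤ v * Real.exp (7 / 4 - v) := by
    have h5 : v * (7 / 4 - v + 1) ≤ v * Real.exp (7 / 4 - v) :=
      mul_le_mul_of_nonneg_left h3 (by linarith)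
    nlinarith
  have h6 : (7 / 4 : ℝ) * (7 / 4) ≤ (v * Real.exp (7 / 4 - v)) * (v * Real.exp (7 / 4 - v)) := by
    gcongr
  linarith

theorem exp_three : Real.exp 3 ≤ 20.09 := by
  have h := Real.exp_one_lt_d9
  have e : Real.exp 3 = Real.exp 1 ^ 3 := by
    rw [← Real.exp_nat_mul]
    norm_num
  rw [e]
  have h7 : Real.exp 1 ^ 3 ≤ 2.7182818286 ^ 3 := pow_le_pow_left₀ (Real.exp_pos 1).le h.le 3
  refine h7.trans ?_
  norm_num

theorem exp_half : Real.exp (1 / 2) ≤ 1.65 := by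
  have h := Real.exp_one_lt_d9
  have e : Real.exp 1 = Real.exp (1 / 2) ^ 2 := by
    rw [← Real.exp_nat_mul]
    norm_num
  rw [e] at h
  have h2 : Real.exp (1 / 2) ^ 2 ≤ (1.65 : ℝ) ^ 2 := by
    refine h.le.trans ?_
    norm_num
  exact (le_abs_self _).trans (abs_le_of_sq_le_sq h2 (by norm_num))

theorem exp_chord (t : ℝ) (h1 : 1 / 2 ≤ t) (h2 : t ≤ 3) :
    Real.exp t ≤ 51 / 35 * (t + 7 / 6) ^ 2 := by
  have h := convexOn_exp.2 (Set.mem_univ (1 / 2 : ℝ)) (Set.mem_univ (3 : ℝ))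
    (show 0 ≤ (3 - t) / (5 / 2) by apply div_nonneg <;> linarith)
    (show 0 ≤ (t - 1 / 2) / (5 / 2) by apply div_nonneg <;> linarith)
    (by ring)
  simp only [smul_eq_mul] at h
  have e : (3 - t) / (5 / 2) * (1 / 2) + (t - 1 / 2) / (5 / 2) * 3 = t := by ring
  rw [e] at h
  have h3 : (3 - t) / (5 / 2) * Real.exp (1 / 2) ≤ (3 - t) / (5 / 2) * 1.65 :=
    mul_le_mul_of_nonneg_left exp_half (by apply div_nonneg <;> linarith)
  have h4 : (t - 1 / 2) / (5 / 2) * Real.exp 3 ≤ (t - 1 / 2) / (5 / 2) * 20.09 :=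
    mul_le_mul_of_nonneg_left exp_three (by apply div_nonneg <;> linarith)
  nlinarith [sq_nonneg (t - 1.3643)]

/-- the choice of the number of terms -/
theorem pick (n : ℕ) (hn : 3 ≤ n) (y : ℝ) (hy0 : 0 ≤ y) (hy : y ≤ 2 * la n 1 + 3) :
    ∃ J : ℕ, 1 ≤ J ∧ J ≤ n ∧ la n J ≤ y ∧
      (Real.exp y - 1 - y) * (2 * (J : ℝ) ^ 2 - 1) ≤ (2 * (n : ℝ) ^ 2 - 1) * (y - la n J) ^ 2 := by
  have hn0 : (3 : ℝ) ≤ (n : ℝ) := by exact_mod_cast hn
  have hn2 : (9 : ℝ) ≤ (n : ℝ) ^ 2 := by nlinarith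
  rcases le_or_gt y (7 / 4) with h74 | h74
  · refine ⟨n, by omega, le_rfl, by rw [la_self]; exact hy0, ?_⟩
    rw [la_self, sub_zero, mul_comm]
    apply mul_le_mul_of_nonneg_left _ (by linarith)
    linarith [exp_quad y hy0 h74]
  · obtain ⟨J, hJ1, hJn, hJy, hJm⟩ : ∃ J : ℕ, 1 ≤ J ∧ J ≤ n ∧ la n J ≤ y - 1 ∧
        (J = 1 ∨ (2 ≤ J ∧ y - 1 < la n (J - 1))) := by
      classical
      have hex : ∃ J : ℕ, 1 ≤ J ∧ la n J ≤ y - 1 :=
        ⟨n, by omega, by rw [la_self]; linarith⟩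
      have hsp := Nat.find_spec hex
      have hle : Nat.find hex ≤ n := Nat.find_min' hex ⟨by omega, by rw [la_self]; linarith⟩
      refine ⟨Nat.find hex, hsp.1, hle, hsp.2, ?_⟩
      rcases Nat.lt_or_ge (Nat.find hex) 2 with h | h
      · left
        have := hsp.1
        omega
      · right
        refine ⟨h, ?_⟩
        have := Nat.find_min hex (m := Nat.find hex - 1) (by omega)
        by_contra hcon
        push Not at hcon
        exact this ⟨by omega, hcon⟩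
    refine ⟨J, hJ1, hJn, by linarith, ?_⟩
    have hJ0 : (1 : ℝ) ≤ (J : ℝ) := by exact_mod_cast hJ1
    have hJn0 : (J : ℝ) ≤ (n : ℝ) := by exact_mod_cast hJn
    have hJ2 : (J : ℝ) ^ 2 ≤ (n : ℝ) ^ 2 := by gcongr
    have hJ3 : (1 : ℝ) ≤ (J : ℝ) ^ 2 := by nlinarith
    obtain ⟨v, hv⟩ : ∃ v, v = y - la n J := ⟨_, rfl⟩
    rw [← hv]
    have hv1 : 1 ≤ v := by linarith
    have hexp := la_exp n J hJ1 hJn
    have hE0 := Real.exp_pos (2 * la n J)
    rcases le_or_gt v (7 / 4) with hv7 | hv7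
    · -- the main case
      have h1 : Real.exp (2 * la n J) * (2 * (J : ℝ) ^ 2 - 1) ≤ 2 * (n : ℝ) ^ 2 - 1 := by
        have h2 : Real.exp (2 * la n J) * (4 * (J : ℝ) ^ 2 - 1) * (2 * (J : ℝ) ^ 2 - 1) ≤
            (4 * (n : ℝ) ^ 2 - 1) * (2 * (J : ℝ) ^ 2 - 1) :=
          mul_le_mul_of_nonneg_right hexp (by linarith)
        have h3 : (4 * (n : ℝ) ^ 2 - 1) * (2 * (J : ℝ) ^ 2 - 1) ≤
            (2 * (n : ℝ) ^ 2 - 1) * (4 * (J : ℝ) ^ 2 - 1) := by nlinarith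
        have h4 : 0 < 4 * (J : ℝ) ^ 2 - 1 := by linarith
        have h5 : (Real.exp (2 * la n J) * (2 * (J : ℝ) ^ 2 - 1)) * (4 * (J : ℝ) ^ 2 - 1) ≤
            (2 * (n : ℝ) ^ 2 - 1) * (4 * (J : ℝ) ^ 2 - 1) := by
          linarith
        exact le_of_mul_le_mul_right h5 h4
      have h6 : Real.exp y - 1 - y ≤ Real.exp (2 * la n J) * v ^ 2 := by
        refine (exp_big y h74.le).trans ?_
        have h7 := v_exp v hv1 hv7
        have h8 : Real.exp (2 * la n J) = Real.exp (2 * (y - 7 / 4)) * Real.exp (2 * (7 / 4 - v)) := by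
          rw [← Real.exp_add]
          congr 1
          rw [hv]
          ring
        rw [h8]
        have h9 := Real.exp_pos (2 * (y - 7 / 4))
        have h10 := mul_le_mul_of_nonneg_left h7 h9.le
        linarith
      calc (Real.exp y - 1 - y) * (2 * (J : ℝ) ^ 2 - 1)
          ≤ (Real.exp (2 * la n J) * v ^ 2) * (2 * (J : ℝ) ^ 2 - 1) :=
            mul_le_mul_of_nonneg_right h6 (by linarith)
        _ = (Real.exp (2 * la n J) * (2 * (J : ℝ) ^ 2 - 1)) * v ^ 2 := by ring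
        _ ≤ (2 * (n : ℝ) ^ 2 - 1) * v ^ 2 := mul_le_mul_of_nonneg_right h1 (sq_nonneg v)
    · -- here `J = 1`
      have hJ : J = 1 := by
        rcases hJm with h | ⟨h2, h⟩
        · exact h
        · exfalso
          have e1 := la_pred n (J - 1) (by omega)
          rw [show J - 1 + 1 = J by omega] at e1
          have e2 : dd (J - 1) ≤ 3 / 2 := by
            have e3 : (1 : ℝ) ≤ ((J - 1 : ℕ) : ℝ) := by exact_mod_cast (by omega : 1 ≤ J - 1)
            unfold dd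
            have e4 : 1 / ((J - 1 : ℕ) : ℝ) ≤ 1 / 1 := one_div_le_one_div_of_le (by norm_num) e3
            have e5 : 1 / (((J - 1 : ℕ) : ℝ) + 1) ≤ 1 / 2 :=
              one_div_le_one_div_of_le (by norm_num) (by linarith)
            linarith
          linarith
      subst hJ
      obtain ⟨l, hl⟩ : ∃ l, l = la n 1 := ⟨_, rfl⟩
      have hlb := (la_bounds n hn).1
      rw [← hl] at hlb hv hy hexp hE0
      have hvl : v ≤ l + 3 := by linarith
      have h1 : 51 / 35 * Real.exp (2 * l) ≤ 2 * (n : ℝ) ^ 2 - 1 := by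
        push_cast at hexp
        linarith
      have h2 : Real.exp (v - l) ≤ 51 / 35 * v ^ 2 := by
        rcases le_or_gt v (25 / 6) with h | h
        · have h3 := exp_chord (v - 7 / 6) (by linarith) (by linarith)
          have h4 : Real.exp (v - l) ≤ Real.exp (v - 7 / 6) := Real.exp_le_exp.mpr (by linarith)
          refine h4.trans (h3.trans (le_of_eq ?_))
          ring
        · have h4 : Real.exp (v - l) ≤ Real.exp 3 := Real.exp_le_exp.mpr (by linarith)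
          refine h4.trans (exp_three.trans ?_)
          nlinarith
      have h3 : Real.exp y = Real.exp (2 * l) * Real.exp (v - l) := by
        rw [← Real.exp_add]
        congr 1
        linarith
      have h4 : Real.exp (2 * l) * Real.exp (v - l) ≤ Real.exp (2 * l) * (51 / 35 * v ^ 2) :=
        mul_le_mul_of_nonneg_left h2 hE0.le
      have h5 : 51 / 35 * Real.exp (2 * l) * v ^ 2 ≤ (2 * (n : ℝ) ^ 2 - 1) * v ^ 2 :=
        mul_le_mul_of_nonneg_right h1 (sq_nonneg v)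
      push_cast
      linarith

/-- the bound for `γ 0`, second form -/
theorem bm2 (σ : ℝ) (h0 : 0 < σ) (γ : ℕ → ℝ) (n : ℕ) (hn : 3 ≤ n)
    (hσ : 4 * (n : ℝ) ^ 2 * σ ≤ 1) (hL : Lam σ n γ = 1) (hx0 : 0 ≤ γ 0)
    (hxn : γ n ^ 2 ≤ γ 0 ^ 2) : γ 0 ^ 2 ≤ 1 + 2 * σ * (2 * la n 1 + 3) := by
  have hn0 : (3 : ℝ) ≤ (n : ℝ) := by exact_mod_cast hn
  have hn2 : (9 : ℝ) ≤ (n : ℝ) ^ 2 := by nlinarith
  have hσ1 : 36 * σ ≤ 1 := by nlinarith
  have h1 : σ < 1 := by linarith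
  have h := bm1 h0 h1 γ n hn hσ hL hx0 hxn
  obtain ⟨hl1, hl2⟩ := la_bounds n hn
  obtain ⟨l, hl⟩ : ∃ l, l = la n 1 := ⟨_, rfl⟩
  obtain ⟨c, hc⟩ : ∃ c : ℝ, c = 1 / (2 * n) := ⟨_, rfl⟩
  rw [← hl, ← hc] at h
  rw [← hl] at hl1 hl2 ⊢
  have hc0 : 0 < c := by rw [hc]; positivity
  have hcn : 2 * n * c = 1 := by rw [hc]; field_simp
  have hc6 : c ≤ 1 / 6 := by nlinarith
  have hlc : l * c ≤ 7 / 36 := by
    have := mul_le_mul_of_nonneg_right hl2 hc0.le
    linarith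
  have hlσ : l * σ ≤ 7 / 216 := by
    have e1 := mul_le_mul_of_nonneg_right hl2 h0.le
    have e2 : (n : ℝ) * σ * 12 ≤ 4 * (n : ℝ) ^ 2 * σ := by
      have : 0 ≤ (n : ℝ) * σ * ((n : ℝ) - 3) := by
        have : 0 ≤ (n : ℝ) - 3 := by linarith
        positivity
      linarith
    linarith
  have hllσ : l ^ 2 * σ ≤ 49 / 1296 := by
    have e1 : l ^ 2 ≤ (7 / 18 * n) ^ 2 := by gcongr
    have e2 := mul_le_mul_of_nonneg_right e1 h0.le
    linarith
  have h2 : 0 < 1 - σ := by linarith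
  have hcc : (1 + c) ^ 2 ≤ 49 / 36 := by nlinarith
  have hA : 2 * l * (1 + c) ^ 2 ≤ (2 * l + 19 / 20) * (1 - σ) := by
    have e1 : l * c * c ≤ 7 / 36 * (1 / 6) := by gcongr
    nlinarith
  have hR : (1 / (σ * (1 - σ)) + 2 * l) * (σ * (1 - σ) + σ ^ 2 * (1 + c) ^ 2 * (2 * l)) ≤
      1 + 4 * l * σ + 29 / 25 * σ := by
    have e1 : (1 / (σ * (1 - σ)) + 2 * l) * (σ * (1 - σ) + σ ^ 2 * (1 + c) ^ 2 * (2 * l)) =
        1 + 2 * l * σ * (1 - σ) + σ * ((2 * l * (1 + c) ^ 2) / (1 - σ)) +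
          4 * (l ^ 2 * σ) * σ * (1 + c) ^ 2 := by
      have := h2.ne'
      field_simp
      ring
    rw [e1]
    have e2 : (2 * l * (1 + c) ^ 2) / (1 - σ) ≤ 2 * l + 19 / 20 := by
      rw [div_le_iff₀ h2]
      exact hA
    have e3 : σ * ((2 * l * (1 + c) ^ 2) / (1 - σ)) ≤ σ * (2 * l + 19 / 20) :=
      mul_le_mul_of_nonneg_left e2 h0.le
    have e4 : 4 * (l ^ 2 * σ) * σ * (1 + c) ^ 2 ≤ 4 * (49 / 1296) * σ * (49 / 36) := by
      have : 0 ≤ l ^ 2 * σ := by positivity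
      gcongr
    have e5 : 0 ≤ 2 * l * σ * σ := by
      have : 0 ≤ l := by linarith
      positivity
    nlinarith
  have hLow : 1 + 4 * l * σ + 29 / 25 * σ ≤ (1 - 3 / 2 * σ) ^ 2 * (1 + 2 * σ * (2 * l + 3)) := by
    have e1 : (1 - 3 * σ) * (1 + 2 * σ * (2 * l + 3)) ≤
        (1 - 3 / 2 * σ) ^ 2 * (1 + 2 * σ * (2 * l + 3)) := by
      apply mul_le_mul_of_nonneg_right _ (by positivity)
      nlinarith [sq_nonneg σ]
    refine le_trans ?_ e1
    have e2 : 0 ≤ σ * (3 - 12 * (l * σ) - 18 * σ - 29 / 25) := by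
      apply mul_nonneg h0.le
      linarith
    linarith
  have h3 : ((1 - 3 / 2 * σ) * γ 0) ^ 2 ≤ (1 - 3 / 2 * σ) ^ 2 * (1 + 2 * σ * (2 * l + 3)) :=
    h.trans (hR.trans hLow)
  rw [mul_pow] at h3
  exact le_of_mul_le_mul_left h3 (by
    have : 0 < 1 - 3 / 2 * σ := by linarith
    positivity)

theorem star (n : ℕ) (hn : 3 ≤ n) (p : ℝ) (hp : 4 * (n : ℝ) ^ 2 ≤ p) : Star n p := by
  have hn0 : (3 : ℝ) ≤ (n : ℝ) := by exact_mod_cast hn
  have hn2 : (9 : ℝ) ≤ (n : ℝ) ^ 2 := by nlinarith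
  have hp36 : 36 ≤ p := by linarith
  have hp0 : 0 < p := by linarith
  refine C0.main n p (by omega) (by linarith) ?_
  intro γ hL hx0 hor
  obtain ⟨σ, hσd⟩ : ∃ σ, σ = 1 / p := ⟨_, rfl⟩
  rw [← hσd] at hL
  have h0 : 0 < σ := by rw [hσd]; positivity
  have hσp : σ * p = 1 := by rw [hσd]; field_simp
  have hσ : 4 * (n : ℝ) ^ 2 * σ ≤ 1 := by
    have := mul_le_mul_of_nonneg_right hp h0.le
    linarith
  have h1 : σ < 1 := by nlinarith
  obtain ⟨r, hr⟩ : ∃ r, r = p / 2 := ⟨_, rfl⟩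
  rw [← hr]
  have hrσ : 2 * σ * r = 1 := by rw [hr]; linarith
  have hr18 : 2 * (n : ℝ) ^ 2 ≤ r := by rw [hr]; linarith
  have hT0 : 0 ≤ TT n γ := by
    unfold TT
    exact sum_nonneg fun i _ => by positivity
  obtain ⟨b, hb⟩ : ∃ b, b = γ 0 ^ 2 := ⟨_, rfl⟩
  rw [← hb]
  have hb0 : 0 ≤ b := by rw [hb]; positivity
  rcases le_or_gt (γ 0) 1 with hx1 | hx1
  · have hb1 : b ≤ 1 := by rw [hb]; nlinarith
    have hr1 : 0 < r - 1 := by linarith
    have e1 := (E0.main.1 r b (by linarith) hb0 hb1).1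
    have e2 : ph r b ≤ (r - 1) * (1 - b) := by
      unfold ph
      have : b ^ r ≤ b := by
        have := Real.rpow_le_rpow_of_exponent_ge' hb0 hb1 zero_le_one (show 1 ≤ r by linarith)
        rwa [Real.rpow_one] at this
      linarith
    have e3 := small h0 h1 γ n (by omega) hL hσ r hrσ (ph r b / (r - 1))
      (by rw [← hb, div_le_iff₀ hr1]; linarith)
      (by rw [← hb, div_le_iff₀ hr1]; linarith)
    rw [div_le_iff₀ hr1] at e3
    linarith
  · have hxn : γ n ^ 2 ≤ γ 0 ^ 2 := by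
      rcases hor with h | h
      · linarith
      · exact h
    obtain ⟨y, hy⟩ : ∃ y, y = p * Real.log (γ 0) := ⟨_, rfl⟩
    have hx00 : 0 < γ 0 := by linarith
    have hlog : 0 < Real.log (γ 0) := Real.log_pos hx1
    have hσy : σ * y = Real.log (γ 0) := by
      rw [hy, ← mul_assoc, hσp, one_mul]
    have hy0 : 0 ≤ y := by rw [hy]; positivity
    have hbpos : 0 < b := by rw [hb]; positivity
    have hlogb : Real.log b = 2 * (σ * y) := by
      rw [hb, hσy, Real.log_pow]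
      norm_num
    have hbr : b ^ r = Real.exp y := by
      rw [Real.rpow_def_of_pos hbpos, hlogb]
      congr 1
      calc 2 * (σ * y) * r = (2 * σ * r) * y := by ring
        _ = y := by rw [hrσ, one_mul]
    have hlb : Real.log b ≤ b - 1 := Real.log_le_sub_one_of_pos hbpos
    have hph : ph r b ≤ Real.exp y - 1 - y := by
      unfold ph
      rw [hbr]
      have e1 : r * Real.log b ≤ r * (b - 1) := mul_le_mul_of_nonneg_left hlb (by linarith)
      have e2 : r * Real.log b = y := by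
        rw [hlogb]
        calc r * (2 * (σ * y)) = (2 * σ * r) * y := by ring
          _ = y := by rw [hrσ, one_mul]
      linarith
    have hym : y ≤ 2 * la n 1 + 3 := by
      have e1 := bm2 σ h0 γ n hn hσ hL hx0 hxn
      rw [← hb] at e1
      have e2 : 2 * (σ * y) ≤ 2 * σ * (2 * la n 1 + 3) := by
        rw [← hlogb]
        linarith
      have e3 : σ * y ≤ σ * (2 * la n 1 + 3) := by linarith
      exact le_of_mul_le_mul_left e3 h0
    obtain ⟨J, hJ1, hJn, hJy, hJ⟩ := pick n hn y hy0 hym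
    have hx : 1 + σ * y ≤ γ 0 := by
      rw [hσy]
      have := Real.add_one_le_exp (Real.log (γ 0))
      rw [Real.exp_log hx00] at this
      linarith
    have hcore := core h0 h1 γ n J hJ1 hJn hL y hx hJy
    have hJ0 : (1 : ℝ) ≤ (J : ℝ) := by exact_mod_cast hJ1
    have hJ2 : 0 < 2 * (J : ℝ) ^ 2 - 1 := by nlinarith
    have e1 : (Real.exp y - 1 - y) * (2 * (J : ℝ) ^ 2 - 1) ≤
        ((2 * (n : ℝ) ^ 2 - 1) * TT n γ) * (2 * (J : ℝ) ^ 2 - 1) := by
      refine hJ.trans ?_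
      have := mul_le_mul_of_nonneg_left hcore (show 0 ≤ 2 * (n : ℝ) ^ 2 - 1 by linarith)
      linarith
    have e2 := le_of_mul_le_mul_right e1 hJ2
    have e3 : (2 * (n : ℝ) ^ 2 - 1) * TT n γ ≤ (r - 1) * TT n γ :=
      mul_le_mul_of_nonneg_right (by linarith) hT0
    linarith

end Pool.Agent.H41.Beur.P
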