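import Pool.Agent.H41.Beur.Gen2

/-!
# The pointwise inequality for n = 3, p ≥ 6 (helper41)
-/

set_option autoImplicit false
set_option maxHeartbeats 4000000

open Finset Set

namespace Pool.Agent.H41.Beur.T3

open Pool.Agent.H41.Beur Pool.Agent.H41.Beur.Gen Pool.Agent.H41.Beur.Gen2 Pool.Agent.Y282.RB

noncomputable def n1 (p : ℝ) : ℝ :=
    (((((12) * p + 36) * p - 27) * p - 18) * p + 9) * p ^ 2
noncomputable def d0 (p : ℝ) : ℝ :=
    (((((12) * p - 4) * p - 15) * p + 5) * p + 3) * p - 1
theorem f_n1 (u : ℝ) (hu : 0 ≤ u) : 0 < n1 (6 + u) := by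
  have h : n1 (6 + u) =
    ((((((12) * u + 468) * u + 7533) * u + 64134) * u + 304893) * u + 767988) * u + 801252 := by
    unfold n1; ring
  rw [h]; positivity

theorem f_d0 (u : ℝ) (hu : 0 ≤ u) : 0 < d0 (6 + u) := by
  have h : d0 (6 + u) =
    (((((12) * u + 356) * u + 4209) * u + 24791) * u + 72747) * u + 85085 := by
    unfold d0; ring
  rw [h]; positivity

theorem f_nd (u : ℝ) (hu : 0 ≤ u) : 0 < n1 (6 + u) - ((6 + u) + 3) * d0 (6 + u) := by
  have h : n1 (6 + u) - ((6 + u) + 3) * d0 (6 + u) =
    (((((4) * u + 120) * u + 1462) * u + 9027) * u + 28180) * u + 35487 := by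
    unfold n1 d0; ring
  rw [h]; positivity

theorem pos0 (p : ℝ) (hp : 6 ≤ p) : 0 < n1 p ∧ 0 < d0 p ∧ (p + 3) * d0 p ≤ n1 p := by
  obtain ⟨u, rfl⟩ : ∃ u, p = 6 + u := ⟨p - 6, by ring⟩
  have hu : 0 ≤ u := by linarith
  exact ⟨f_n1 u hu, f_d0 u hu, (sub_nonneg.mp (f_nd u hu).le)⟩

theorem KK_eq (p : ℝ) (hp : 6 ≤ p) : KK (1 / p) 3 = n1 p / d0 p := by
  have hd : d0 p = (p - 1) * (2 * p - 1) * (3 * p - 1) * (p + 1) * (2 * p + 1) := by
    unfold d0
    ring
  have ha0 : 0 < p - 1 := by linarith
  have ha1 : 0 < 2 * p - 1 := by linarith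
  have ha2 : 0 < 3 * p - 1 := by linarith
  have hn0 : p - 1 ≠ 0 := by have := ha0.ne'; exact this
  have hn1 : p * 2 - 1 ≠ 0 := by have := ha1.ne'; rwa [mul_comm] at this
  have hn2 : p * 3 - 1 ≠ 0 := by have := ha2.ne'; rwa [mul_comm] at this
  have hp0 : 0 < p := by linarith
  unfold KK
  rw [sum_range_succ, sum_range_succ, sum_range_one, hd]
  simp only [kk_p p (by linarith)]
  unfold n1
  push_cast
  norm_num
  field_simp
  ring

namespace Neg

noncomputable def N3 (p μ : ℝ) : ℝ := -(1 * μ)
noncomputable def D3 (p μ : ℝ) : ℝ := 1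
noncomputable def N2 (p μ : ℝ) : ℝ := 5 * μ * p ^ 2 * D3 p μ + (3 * p - 1) * N3 p μ * ((2 * p + 1) + μ * (3 * p - 1))
noncomputable def E2 (p μ : ℝ) : ℝ := ((3 * p - 1) + μ * (2 * p + 1)) * D3 p μ + 5 * (3 * p - 1) * N3 p μ
noncomputable def D2 (p μ : ℝ) : ℝ := (2 * p + 1) * E2 p μ
noncomputable def N1 (p μ : ℝ) : ℝ := 3 * μ * p ^ 2 * D2 p μ + (2 * p - 1) * N2 p μ * ((p + 1) + μ * (2 * p - 1))
noncomputable def E1 (p μ : ℝ) : ℝ := ((2 * p - 1) + μ * (p + 1)) * D2 p μ + 3 * (2 * p - 1) * N2 p μ
noncomputable def D1 (p μ : ℝ) : ℝ := (p + 1) * E1 p μ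
noncomputable def N0 (p μ : ℝ) : ℝ := 1 * μ * p ^ 2 * D1 p μ + (p - 1) * N1 p μ * (1 + μ * (p - 1))
noncomputable def E0 (p μ : ℝ) : ℝ := ((p - 1) + μ * 1) * D1 p μ + 1 * (p - 1) * N1 p μ
noncomputable def D0 (p μ : ℝ) : ℝ := 1 * E0 p μ

noncomputable def e2_0 (p : ℝ) : ℝ :=
    (3) * p - 1
noncomputable def e2_1 (p : ℝ) : ℝ :=
    ((-13)) * p + 6
noncomputable def m2_1 (p : ℝ) : ℝ :=
    (((-1)) * p - 1) * p + 1
noncomputable def m2_2 (p : ℝ) : ℝ :=
    (((-9)) * p + 6) * p - 1
noncomputable def e1_0 (p : ℝ) : ℝ :=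
    (((12) * p - 4) * p - 3) * p + 1
noncomputable def e1_1 (p : ℝ) : ℝ :=
    ((((-52)) * p + 28) * p + 22) * p - 10
noncomputable def e1_2 (p : ℝ) : ℝ :=
    ((((-80)) * p + 36) * p - 19) * p + 9
noncomputable def m1_1 (p : ℝ) : ℝ :=
    ((((16) * p) * p - 1) * p + 2) * p - 1
noncomputable def m1_2 (p : ℝ) : ℝ :=
    (((((-100)) * p) * p + 38) * p - 12) * p + 2
noncomputable def m1_3 (p : ℝ) : ℝ :=
    (((((-36)) * p + 60) * p - 37) * p + 10) * p - 1
noncomputable def e0_0 (p : ℝ) : ℝ :=
    (((((12) * p - 4) * p - 15) * p + 5) * p + 3) * p - 1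
noncomputable def e0_1 (p : ℝ) : ℝ :=
    ((((((-36)) * p + 24) * p + 81) * p - 42) * p - 27) * p + 12
noncomputable def e0_2 (p : ℝ) : ℝ :=
    ((((((-180)) * p + 84) * p + 75) * p - 27) * p + 45) * p - 21
noncomputable def e0_3 (p : ℝ) : ℝ :=
    ((((((-36)) * p + 16) * p - 141) * p + 64) * p - 21) * p + 10
noncomputable def m0_1 (p : ℝ) : ℝ :=
    ((((((12) * p + 24) * p - 23) * p - 3) * p + 4) * p - 3) * p + 1
noncomputable def m0_2 (p : ℝ) : ℝ :=
    (((((((-36)) * p - 156) * p + 165) * p + 54) * p - 66) * p + 18) * p - 3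
noncomputable def m0_3 (p : ℝ) : ℝ :=
    (((((((-180)) * p + 120) * p + 51) * p - 195) * p + 120) * p - 27) * p + 3
noncomputable def m0_4 (p : ℝ) : ℝ :=
    (((((((-36)) * p + 132) * p - 193) * p + 144) * p - 58) * p + 12) * p - 1

theorem E2_eq (p μ : ℝ) : E2 p μ = e2_0 p + e2_1 p * μ := by
  unfold E2 D3 N3
  unfold e2_0 e2_1 
  ring
theorem N2_eq (p μ : ℝ) : N2 p μ = m2_1 p * μ + m2_2 p * μ ^ 2 := by
  unfold N2 D3 N3
  unfold m2_1 m2_2 
  ring
theorem E1_eq (p μ : ℝ) : E1 p μ = e1_0 p + e1_1 p * μ + e1_2 p * μ ^ 2 := by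
  unfold E1 D2
  rw [E2_eq, N2_eq]
  unfold e1_0 e1_1 e1_2 e2_0 e2_1 m2_1 m2_2
  ring
theorem N1_eq (p μ : ℝ) : N1 p μ = m1_1 p * μ + m1_2 p * μ ^ 2 + m1_3 p * μ ^ 3 := by
  unfold N1 D2
  rw [E2_eq, N2_eq]
  unfold m1_1 m1_2 m1_3 e2_0 e2_1 m2_1 m2_2
  ring
theorem E0_eq (p μ : ℝ) : E0 p μ = e0_0 p + e0_1 p * μ + e0_2 p * μ ^ 2 + e0_3 p * μ ^ 3 := by
  unfold E0 D1
  rw [E1_eq, N1_eq]
  unfold e0_0 e0_1 e0_2 e0_3 e1_0 e1_1 e1_2 m1_1 m1_2 m1_3
  ring
theorem N0_eq (p μ : ℝ) : N0 p μ = m0_1 p * μ + m0_2 p * μ ^ 2 + m0_3 p * μ ^ 3 + m0_4 p * μ ^ 4 := by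
  unfold N0 D1
  rw [E1_eq, N1_eq]
  unfold m0_1 m0_2 m0_3 m0_4 e1_0 e1_1 e1_2 m1_1 m1_2 m1_3
  ring

noncomputable def bE20 (p : ℝ) : ℝ :=
    (3) * p - 1
noncomputable def bE21 (p : ℝ) : ℝ :=
    ((30) * p + 177) * p - 79

theorem fbE20 (u : ℝ) (hu : 0 ≤ u) : 0 < bE20 (6 + u) := by
  have h : bE20 (6 + u) =
    (3) * u + 17 := by
    unfold bE20; ring
  rw [h]; positivity

theorem fbE21 (u : ℝ) (hu : 0 ≤ u) : 0 < bE21 (6 + u) := by
  have h : bE21 (6 + u) =
    ((30) * u + 537) * u + 2063 := by
    unfold bE21; ring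
  rw [h]; positivity

theorem bidE2 (y0 y1 W μ : ℝ) : 10 * (y0 + y1 * μ) =
    (1 * y0) * (10 + W * μ) ^ 1 + (1 * y0 * W - 10 * y1) * (-μ) ^ 1 := by
  ring

theorem hbE20 (p : ℝ) : bE20 p = 1 * e2_0 p := by
  unfold bE20 e2_0
  ring
theorem hbE21 (p : ℝ) : bE21 p = 1 * e2_0 p * (10 * p + 19) - 10 * e2_1 p := by
  unfold bE21 e2_0 e2_1
  ring

theorem idE2 (p μ : ℝ) : 10 * (e2_0 p + e2_1 p * μ) =
    bE20 p * (10 + (10 * p + 19) * μ) ^ 1 + bE21 p * (-μ) ^ 1 := by
  rw [hbE20, hbE21]
  exact bidE2 (e2_0 p) (e2_1 p) (10 * p + 19) μ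

theorem posE2 (p μ : ℝ) (hp : 6 ≤ p) (hm : μ ≤ 0) (hμ : 0 ≤ 10 + (10 * p + 19) * μ) :
    0 < e2_0 p + e2_1 p * μ := by
  have h := idE2 p μ
  obtain ⟨u, rfl⟩ : ∃ u, p = 6 + u := ⟨p - 6, by ring⟩
  have hu : 0 ≤ u := by linarith
  have a0 := fbE20 u hu
  have a1 := fbE21 u hu
  generalize (6 + u) = p at *
  have hn : 0 ≤ -μ := by linarith
  have hone : (-μ) * (10 * p + 19) + (10 + (10 * p + 19) * μ) = 10 := by ring
  generalize hw : 10 + (10 * p + 19) * μ = w at h hμ hone
  have t0 : 0 ≤ bE20 p * w ^ 1 := by positivity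
  have t1 : 0 ≤ bE21 p * (-μ) ^ 1 := by positivity
  rcases hμ.eq_or_lt with h0 | h0
  · have hn2 : 0 < -μ := by
      by_contra hcon
      have : -μ = 0 := by linarith
      rw [this, ← h0] at hone
      norm_num at hone
    have s : 0 < bE21 p * (-μ) ^ 1 := by positivity
    linarith
  · have s : 0 < bE20 p * w ^ 1 := by positivity
    linarith

theorem E2_pos (p μ : ℝ) (hp : 6 ≤ p) (hm : μ ≤ 0) (hμ : 0 ≤ 10 + (10 * p + 19) * μ) : 0 < E2 p μ := by
  rw [E2_eq]
  exact posE2 p μ hp hm hμ

noncomputable def bE10 (p : ℝ) : ℝ :=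
    (((12) * p - 4) * p - 3) * p + 1
noncomputable def bE11 (p : ℝ) : ℝ :=
    ((((240) * p + 896) * p - 492) * p - 314) * p + 138
noncomputable def bE12 (p : ℝ) : ℝ :=
    (((((1200) * p + 9360) * p + 1592) * p - 6404) * p - 5783) * p + 3161

theorem fbE10 (u : ℝ) (hu : 0 ≤ u) : 0 < bE10 (6 + u) := by
  have h : bE10 (6 + u) =
    (((12) * u + 212) * u + 1245) * u + 2431 := by
    unfold bE10; ring
  rw [h]; positivity

theorem fbE11 (u : ℝ) (hu : 0 ≤ u) : 0 < bE11 (6 + u) := by
  have h : bE11 (6 + u) =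
    ((((240) * u + 6656) * u + 67476) * u + 297910) * u + 485118 := by
    unfold bE11; ring
  rw [h]; positivity

theorem fbE12 (u : ℝ) (hu : 0 ≤ u) : 0 < bE12 (6 + u) := by
  have h : bE12 (6 + u) =
    (((((1200) * u + 45360) * u + 658232) * u + 4636012) * u + 15952345) * u + 21543551 := by
    unfold bE12; ring
  rw [h]; positivity

theorem bidE1 (y0 y1 y2 W μ : ℝ) : 100 * (y0 + y1 * μ + y2 * μ ^ 2) =
    (1 * y0) * (10 + W * μ) ^ 2 + (2 * y0 * W - 10 * y1) * (-μ) ^ 1 * (10 + W * μ) ^ 1 + (1 * y0 *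
    W ^ 2 - 10 * y1 * W + 100 * y2) * (-μ) ^ 2 := by
  ring

theorem hbE10 (p : ℝ) : bE10 p = 1 * e1_0 p := by
  unfold bE10 e1_0
  ring
theorem hbE11 (p : ℝ) : bE11 p = 2 * e1_0 p * (10 * p + 19) - 10 * e1_1 p := by
  unfold bE11 e1_0 e1_1
  ring
theorem hbE12 (p : ℝ) : bE12 p = 1 * e1_0 p * (10 * p + 19) ^ 2 - 10 * e1_1 p * (10 * p + 19) + 100 * e1_2 p := by
  unfold bE12 e1_0 e1_1 e1_2
  ring

theorem idE1 (p μ : ℝ) : 100 * (e1_0 p + e1_1 p * μ + e1_2 p * μ ^ 2) =
    bE10 p * (10 + (10 * p + 19) * μ) ^ 2 + bE11 p * (-μ) ^ 1 * (10 + (10 * p + 19) * μ) ^ 1 + bE12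
    p * (-μ) ^ 2 := by
  rw [hbE10, hbE11, hbE12]
  exact bidE1 (e1_0 p) (e1_1 p) (e1_2 p) (10 * p + 19) μ

theorem posE1 (p μ : ℝ) (hp : 6 ≤ p) (hm : μ ≤ 0) (hμ : 0 ≤ 10 + (10 * p + 19) * μ) :
    0 < e1_0 p + e1_1 p * μ + e1_2 p * μ ^ 2 := by
  have h := idE1 p μ
  obtain ⟨u, rfl⟩ : ∃ u, p = 6 + u := ⟨p - 6, by ring⟩
  have hu : 0 ≤ u := by linarith
  have a0 := fbE10 u hu
  have a1 := fbE11 u hu
  have a2 := fbE12 u hu
  generalize (6 + u) = p at *
  have hn : 0 ≤ -μ := by linarith
  have hone : (-μ) * (10 * p + 19) + (10 + (10 * p + 19) * μ) = 10 := by ring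
  generalize hw : 10 + (10 * p + 19) * μ = w at h hμ hone
  have t0 : 0 ≤ bE10 p * w ^ 2 := by positivity
  have t1 : 0 ≤ bE11 p * (-μ) ^ 1 * w ^ 1 := by positivity
  have t2 : 0 ≤ bE12 p * (-μ) ^ 2 := by positivity
  rcases hμ.eq_or_lt with h0 | h0
  · have hn2 : 0 < -μ := by
      by_contra hcon
      have : -μ = 0 := by linarith
      rw [this, ← h0] at hone
      norm_num at hone
    have s : 0 < bE12 p * (-μ) ^ 2 := by positivity
    linarith
  · have s : 0 < bE10 p * w ^ 2 := by positivity
    linarith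

theorem E1_pos (p μ : ℝ) (hp : 6 ≤ p) (hm : μ ≤ 0) (hμ : 0 ≤ 10 + (10 * p + 19) * μ) : 0 < E1 p μ := by
  rw [E1_eq]
  exact posE1 p μ hp hm hμ

noncomputable def bE00 (p : ℝ) : ℝ :=
    (((((12) * p - 4) * p - 15) * p + 5) * p + 3) * p - 1
noncomputable def bE01 (p : ℝ) : ℝ :=
    ((((((360) * p + 924) * p - 918) * p - 1515) * p + 795) * p + 411) * p - 177
noncomputable def bE02 (p : ℝ) : ℝ :=
    (((((((3600) * p + 19680) * p - 5184) * p - 36852) * p - 24525) * p + 27195) * p + 14469) * p -
    7743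
noncomputable def bE03 (p : ℝ) : ℝ :=
    ((((((((12000) * p + 100400) * p + 24960) * p - 305752) * p - 292226) * p + 118055) * p +
    233005) * p + 147117) * p - 100079

theorem fbE00 (u : ℝ) (hu : 0 ≤ u) : 0 < bE00 (6 + u) := by
  have h : bE00 (6 + u) =
    (((((12) * u + 356) * u + 4209) * u + 24791) * u + 72747) * u + 85085 := by
    unfold bE00; ring
  rw [h]; positivity

theorem fbE01 (u : ℝ) (hu : 0 ≤ u) : 0 < bE01 (6 + u) := by
  have h : bE01 (6 + u) =
    ((((((360) * u + 13884) * u + 221202) * u + 1864293) * u + 8769477) * u + 21836859) * u +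
    22495125 := by
    unfold bE01; ring
  rw [h]; positivity

theorem fbE02 (u : ℝ) (hu : 0 ≤ u) : 0 < bE02 (6 + u) := by
  have h : bE02 (6 + u) =
    (((((((3600) * u + 170880) * u + 3424896) * u + 37650828) * u + 245538387) * u + 950873073) * u
    + 2026180941) * u + 1833649395 := by
    unfold bE02; ring
  rw [h]; positivity

theorem fbE03 (u : ℝ) (hu : 0 ≤ u) : 0 < bE03 (6 + u) := by
  have h : bE03 (6 + u) =
    ((((((((12000) * u + 676400) * u + 16337760) * u + 221647208) * u + 1851677614) * u +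
    9770477111) * u + 31835369659) * u + 58610163453) * u + 46703918395 := by
    unfold bE03; ring
  rw [h]; positivity

theorem bidE0 (y0 y1 y2 y3 W μ : ℝ) : 1000 * (y0 + y1 * μ + y2 * μ ^ 2 + y3 * μ ^ 3) =
    (1 * y0) * (10 + W * μ) ^ 3 + (3 * y0 * W - 10 * y1) * (-μ) ^ 1 * (10 + W * μ) ^ 2 + (3 * y0 *
    W ^ 2 - 20 * y1 * W + 100 * y2) * (-μ) ^ 2 * (10 + W * μ) ^ 1 + (1 * y0 * W ^ 3 - 10 * y1 * W ^
    2 + 100 * y2 * W - 1000 * y3) * (-μ) ^ 3 := by
  ring

theorem hbE00 (p : ℝ) : bE00 p = 1 * e0_0 p := by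
  unfold bE00 e0_0
  ring
theorem hbE01 (p : ℝ) : bE01 p = 3 * e0_0 p * (10 * p + 19) - 10 * e0_1 p := by
  unfold bE01 e0_0 e0_1
  ring
theorem hbE02 (p : ℝ) : bE02 p = 3 * e0_0 p * (10 * p + 19) ^ 2 - 20 * e0_1 p * (10 * p + 19) + 100 * e0_2 p := by
  unfold bE02 e0_0 e0_1 e0_2
  ring
theorem hbE03 (p : ℝ) : bE03 p = 1 * e0_0 p * (10 * p + 19) ^ 3 - 10 * e0_1 p * (10 * p + 19) ^ 2 + 100 * e0_2 p * (10 * p + 19)
    - 1000 * e0_3 p := by
  unfold bE03 e0_0 e0_1 e0_2 e0_3
  ring

theorem idE0 (p μ : ℝ) : 1000 * (e0_0 p + e0_1 p * μ + e0_2 p * μ ^ 2 + e0_3 p * μ ^ 3) =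
    bE00 p * (10 + (10 * p + 19) * μ) ^ 3 + bE01 p * (-μ) ^ 1 * (10 + (10 * p + 19) * μ) ^ 2 + bE02
    p * (-μ) ^ 2 * (10 + (10 * p + 19) * μ) ^ 1 + bE03 p * (-μ) ^ 3 := by
  rw [hbE00, hbE01, hbE02, hbE03]
  exact bidE0 (e0_0 p) (e0_1 p) (e0_2 p) (e0_3 p) (10 * p + 19) μ

theorem posE0 (p μ : ℝ) (hp : 6 ≤ p) (hm : μ ≤ 0) (hμ : 0 ≤ 10 + (10 * p + 19) * μ) :
    0 < e0_0 p + e0_1 p * μ + e0_2 p * μ ^ 2 + e0_3 p * μ ^ 3 := by
  have h := idE0 p μ
  obtain ⟨u, rfl⟩ : ∃ u, p = 6 + u := ⟨p - 6, by ring⟩
  have hu : 0 ≤ u := by linarith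
  have a0 := fbE00 u hu
  have a1 := fbE01 u hu
  have a2 := fbE02 u hu
  have a3 := fbE03 u hu
  generalize (6 + u) = p at *
  have hn : 0 ≤ -μ := by linarith
  have hone : (-μ) * (10 * p + 19) + (10 + (10 * p + 19) * μ) = 10 := by ring
  generalize hw : 10 + (10 * p + 19) * μ = w at h hμ hone
  have t0 : 0 ≤ bE00 p * w ^ 3 := by positivity
  have t1 : 0 ≤ bE01 p * (-μ) ^ 1 * w ^ 2 := by positivity
  have t2 : 0 ≤ bE02 p * (-μ) ^ 2 * w ^ 1 := by positivity
  have t3 : 0 ≤ bE03 p * (-μ) ^ 3 := by positivity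
  rcases hμ.eq_or_lt with h0 | h0
  · have hn2 : 0 < -μ := by
      by_contra hcon
      have : -μ = 0 := by linarith
      rw [this, ← h0] at hone
      norm_num at hone
    have s : 0 < bE03 p * (-μ) ^ 3 := by positivity
    linarith
  · have s : 0 < bE00 p * w ^ 3 := by positivity
    linarith

theorem E0_pos (p μ : ℝ) (hp : 6 ≤ p) (hm : μ ≤ 0) (hμ : 0 ≤ 10 + (10 * p + 19) * μ) : 0 < E0 p μ := by
  rw [E0_eq]
  exact posE0 p μ hp hm hμ

theorem minT (p μ x0 x1 x2 x3 : ℝ) (hp : 6 ≤ p) (hm : μ ≤ 0) (hμ : 0 ≤ 10 + (10 * p + 19) * μ) :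
    N0 p μ / D0 p μ * x0 ^ 2 ≤
      1 / 1 * ((x0 - x1) ^ 2 + μ * ((p - 1) / 1) * (x0 + 1 / (p - 1) * x1) ^ 2) +
      1 / 3 * ((x1 - x2) ^ 2 + μ * ((2 * p - 1) / (p + 1)) * (x1 + (p + 1) / (2 * p - 1) * x2) ^ 2) +
      1 / 5 * ((x2 - x3) ^ 2 + μ * ((3 * p - 1) / (2 * p + 1)) * (x2 + (2 * p + 1) / (3 * p - 1) * x3) ^ 2) +
      N3 p μ / D3 p μ * x3 ^ 2 := by
  have hE0 := E0_pos p μ hp hm hμ
  have hE1 := E1_pos p μ hp hm hμ
  have hE2 := E2_pos p μ hp hm hμ
  have ha0 : 0 < p - 1 := by linarith
  have ha1 : 0 < 2 * p - 1 := by linarith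
  have ha2 : 0 < 3 * p - 1 := by linarith
  have hb0 : (0 : ℝ) < 1 := by linarith
  have hb1 : (0 : ℝ) < (p + 1) := by linarith
  have hb2 : (0 : ℝ) < (2 * p + 1) := by linarith
  have hD3 : 0 < D3 p μ := by unfold D3; norm_num
  have hD1 : 0 < D1 p μ := mul_pos hb1 hE1
  have hD2 : 0 < D2 p μ := mul_pos hb2 hE2
  have s2 : N2 p μ / D2 p μ * x2 ^ 2 ≤ 1 / 5 * ((x2 - x3) ^ 2 + μ * ((3 * p - 1) / (2 * p + 1)) * (x2 + (2 * p + 1) / (3 * p - 1) * x3) ^ 2) + N3 p μ / D3 p μ * x3 ^ 2 :=
    gstep 5 p (3 * p - 1) (2 * p + 1) μ (N3 p μ) (D3 p μ) x2 x3 (by norm_num) ha2 hb2 (by ring) hD3 hE2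
  have s1 : N1 p μ / D1 p μ * x1 ^ 2 ≤ 1 / 3 * ((x1 - x2) ^ 2 + μ * ((2 * p - 1) / (p + 1)) * (x1 + (p + 1) / (2 * p - 1) * x2) ^ 2) + N2 p μ / D2 p μ * x2 ^ 2 :=
    gstep 3 p (2 * p - 1) (p + 1) μ (N2 p μ) (D2 p μ) x1 x2 (by norm_num) ha1 hb1 (by ring) hD2 hE1
  have s0 : N0 p μ / D0 p μ * x0 ^ 2 ≤ 1 / 1 * ((x0 - x1) ^ 2 + μ * ((p - 1) / 1) * (x0 + 1 / (p - 1) * x1) ^ 2) + N1 p μ / D1 p μ * x1 ^ 2 :=
    gstep 1 p (p - 1) 1 μ (N1 p μ) (D1 p μ) x0 x1 (by norm_num) ha0 hb0 (by ring) hD1 hE0
  linarith

theorem low (p μ : ℝ) (hp : 6 ≤ p) (hm : μ ≤ 0) (hμ : 0 ≤ 10 + (10 * p + 19) * μ) (γ : ℕ → ℝ) :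
    N0 p μ / D0 p μ * γ 0 ^ 2 ≤
      TT 3 γ + μ * (n1 p / d0 p) * Lam (1 / p) 3 γ + N3 p μ / D3 p μ * γ 3 ^ 2 := by
  obtain ⟨h1, h2, h3⟩ := pos0 p hp
  have hm := minT p μ (γ 0) (γ 1) (γ 2) (γ 3) hp hm hμ
  refine hm.trans (le_of_eq ?_)
  rw [lowgen p (by linarith), KK_eq p hp, show μ * (n1 p / d0 p) / (n1 p / d0 p) = μ by
    field_simp]
  rw [sum_range_succ, sum_range_succ, sum_range_one]
  push_cast
  norm_num

noncomputable def A0 (p : ℝ) : ℝ :=
    ((((((12) * p - 4) * p - 15) * p + 5) * p + 3) * p - 1) * p ^ 1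
noncomputable def A1 (p : ℝ) : ℝ :=
    (((((((12) * p - 36) * p - 47) * p + 124) * p - 32) * p - 38) * p + 19) * p - 2
noncomputable def A2 (p : ℝ) : ℝ :=
    ((((((((-36)) * p - 264) * p + 561) * p - 201) * p - 201) * p + 195) * p - 60) * p + 6
noncomputable def A3 (p : ℝ) : ℝ :=
    ((((((((-180)) * p + 444) * p - 173) * p - 438) * p + 574) * p - 288) * p + 67) * p - 6
noncomputable def A4 (p : ℝ) : ℝ :=
    ((((((((-36)) * p + 204) * p - 457) * p + 530) * p - 346) * p + 128) * p - 25) * p + 2
noncomputable def AA (p μ : ℝ) : ℝ := A0 p + A1 p * μ + A2 p * μ ^ 2 + A3 p * μ ^ 3 + A4 p * μ ^ 4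
noncomputable def AA' (p μ : ℝ) : ℝ := A1 p + 2 * A2 p * μ + 3 * A3 p * μ ^ 2 + 4 * A4 p * μ ^ 3

noncomputable def B0 (p : ℝ) : ℝ :=
    ((((((24) * p - 8) * p - 30) * p + 10) * p + 6) * p - 2) * p ^ 2
noncomputable def B1 (p : ℝ) : ℝ :=
    ((((((((24) * p + 48) * p - 70) * p - 238) * p + 110) * p + 122) * p - 40) * p - 4) * p ^ 1
noncomputable def B2 (p : ℝ) : ℝ :=
    ((((((48) * p - 112) * p - 28) * p + 140) * p - 28) * p - 28) * p + 8
noncomputable def BB (p μ : ℝ) : ℝ := B0 p + B1 p * μ + B2 p * μ ^ 2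
noncomputable def BB' (p μ : ℝ) : ℝ := B1 p + 2 * B2 p * μ

noncomputable def s0 (p : ℝ) : ℝ :=
    (((((24) * p - 8) * p - 30) * p + 10) * p + 6) * p - 2
noncomputable def s1 (p : ℝ) : ℝ :=
    ((((((24) * p + 36) * p - 162) * p + 45) * p + 72) * p - 27) * p ^ 1
noncomputable def SS (p μ : ℝ) : ℝ := s0 p + s1 p * μ
noncomputable def SS' (p μ : ℝ) : ℝ := s1 p

noncomputable def D_0 (p : ℝ) : ℝ :=
    (((((12) * p - 4) * p - 15) * p + 5) * p + 3) * p - 1
noncomputable def D_1 (p : ℝ) : ℝ :=
    ((((((-36)) * p + 24) * p + 81) * p - 42) * p - 27) * p + 12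
noncomputable def D_2 (p : ℝ) : ℝ :=
    ((((((-180)) * p + 84) * p + 75) * p - 27) * p + 45) * p - 21
noncomputable def D_3 (p : ℝ) : ℝ :=
    ((((((-36)) * p + 16) * p - 141) * p + 64) * p - 21) * p + 10
noncomputable def DD (p μ : ℝ) : ℝ := D_0 p + D_1 p * μ + D_2 p * μ ^ 2 + D_3 p * μ ^ 3
noncomputable def DD' (p μ : ℝ) : ℝ := D_1 p + 2 * D_2 p * μ + 3 * D_3 p * μ ^ 2

theorem hd_AA (p μ : ℝ) : HasDerivAt (AA p) (AA' p μ) μ := by
  unfold AA AA'
  refine ((((((hasDerivAt_id μ).const_mul (A1 p)).const_add (A0 p)).add ((hasDerivAt_pow 2 μ).const_mul (A2 p))).add ((hasDerivAt_pow 3 μ).const_mul (A3 p))).add ((hasDerivAt_pow 4 μ).const_mul (A4 p))).congr_deriv ?_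
  norm_num
  try ring

theorem hd_BB (p μ : ℝ) : HasDerivAt (BB p) (BB' p μ) μ := by
  unfold BB BB'
  refine ((((hasDerivAt_id μ).const_mul (B1 p)).const_add (B0 p)).add ((hasDerivAt_pow 2 μ).const_mul (B2 p))).congr_deriv ?_
  norm_num
  try ring

theorem hd_SS (p μ : ℝ) : HasDerivAt (SS p) (SS' p μ) μ := by
  unfold SS SS'
  refine (((hasDerivAt_id μ).const_mul (s1 p)).const_add (s0 p)).congr_deriv ?_
  norm_num
  try ring

theorem hd_DD (p μ : ℝ) : HasDerivAt (DD p) (DD' p μ) μ := by
  unfold DD DD'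
  refine (((((hasDerivAt_id μ).const_mul (D_1 p)).const_add (D_0 p)).add ((hasDerivAt_pow 2 μ).const_mul (D_2 p))).add ((hasDerivAt_pow 3 μ).const_mul (D_3 p))).congr_deriv ?_
  norm_num
  try ring

theorem AA_eq (p μ : ℝ) : AA p μ = (p - 2) * N0 p μ + p * D0 p μ := by
  unfold AA D0
  rw [N0_eq, E0_eq]
  unfold A0 A1 A2 A3 A4 m0_1 m0_2 m0_3 m0_4 e0_0 e0_1 e0_2 e0_3
  ring
theorem DD_eq (p μ : ℝ) : DD p μ = D0 p μ := by
  unfold DD D0
  rw [E0_eq]
  unfold D_0 D_1 D_2 D_3 e0_0 e0_1 e0_2 e0_3
  ring
theorem BB_eq (p μ : ℝ) (hp : 6 ≤ p) : BB p μ = 2 * p * d0 p *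
    (2 * (SS p μ / (2 * d0 p)) + (p - 2) * (1 + μ * (n1 p / d0 p) + ((-(1 * μ) / 1) + 2 * (-(1 * μ) / 1) ^ 2 / p))) := by
  obtain ⟨h1, h2, h3⟩ := pos0 p hp
  have hp0 : 0 < p := by linarith
  have h2' := h2.ne'
  have e : BB p μ = 2 * p * 1 * SS p μ + (p - 2) * 2 * (1 * p * d0 p + 1 * p * n1 p * μ - 1 * p * d0 p * μ + 2 * d0 p * μ ^ 2) := by
    unfold BB SS n1 d0 B0 B1 B2 s0 s1
    ring
  rw [e]
  generalize SS p μ = S
  generalize n1 p = n1 at *
  generalize d0 p = d0 at *
  field_simp
  ring

noncomputable def bAA0 (p : ℝ) : ℝ :=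
    ((((((12) * p - 4) * p - 15) * p + 5) * p + 3) * p - 1) * p ^ 1
noncomputable def bAA1 (p : ℝ) : ℝ :=
    (((((((360) * p + 1112) * p - 434) * p - 2180) * p + 820) * p + 568) * p - 266) * p + 20
noncomputable def bAA2 (p : ℝ) : ℝ :=
    ((((((((3600) * p + 25320) * p + 16092) * p + 5826) * p - 100470) * p + 26610) * p + 39678) * p
    - 18396) * p + 1740
noncomputable def bAA3 (p : ℝ) : ℝ :=
    (((((((((12000) * p + 156800) * p + 305280) * p + 62432) * p + 460666) * p - 1722460) * p +
    19300) * p + 1148928) * p - 493406) * p + 50460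
noncomputable def bAA4 (p : ℝ) : ℝ :=
    (((((((((188000) * p + 1159600) * p - 1250960) * p + 3550352) * p + 2363946) * p - 8134875) * p
    - 5426735) * p + 11680823) * p - 4617931) * p + 487780

theorem fbAA0 (u : ℝ) (hu : 0 ≤ u) : 0 < bAA0 (6 + u) := by
  have h : bAA0 (6 + u) =
    ((((((12) * u + 428) * u + 6345) * u + 50045) * u + 221493) * u + 521567) * u + 510510 := by
    unfold bAA0; ring
  rw [h]; positivity

theorem fbAA1 (u : ℝ) (hu : 0 ≤ u) : 0 < bAA1 (6 + u) := by
  have h : bAA1 (6 + u) =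
    (((((((360) * u + 16232) * u + 311758) * u + 3306880) * u + 20925700) * u + 79010848) * u +
    164853862) * u + 146654360 := by
    unfold bAA1; ring
  rw [h]; positivity

theorem fbAA2 (u : ℝ) (hu : 0 ≤ u) : 0 < bAA2 (6 + u) := by
  have h : bAA2 (6 + u) =
    ((((((((3600) * u + 198120) * u + 4708332) * u + 63272658) * u + 526775190) * u + 2785386930) *
    u + 9141809298) * u + 17036532612) * u + 13807546860 := by
    unfold bAA2; ring
  rw [h]; positivity

theorem fbAA3 (u : ℝ) (hu : 0 ≤ u) : 0 < bAA3 (6 + u) := by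
  have h : bAA3 (6 + u) =
    (((((((((12000) * u + 804800) * u + 23383680) * u + 388666592) * u + 4089704698) * u +
    28335935600) * u + 129550475860) * u + 377460018888) * u + 636677367922) * u + 474060281160 := by
    unfold bAA3; ring
  rw [h]; positivity

theorem fbAA4 (u : ℝ) (hu : 0 ≤ u) : 0 < bAA4 (6 + u) := by
  have h : bAA4 (6 + u) =
    (((((((((188000) * u + 11311600) * u + 298057840) * u + 4530958832) * u + 43910620458) * u +
    281919515985) * u + 1200990661465) * u + 3277476249473) * u + 5203751554037) * u +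
    3664806407110 := by
    unfold bAA4; ring
  rw [h]; positivity

theorem bidAA (y0 y1 y2 y3 y4 W μ : ℝ) : 10000 * (y0 + y1 * μ + y2 * μ ^ 2 + y3 * μ ^ 3 + y4 * μ ^ 4) =
    (1 * y0) * (10 + W * μ) ^ 4 + (4 * y0 * W - 10 * y1) * (-μ) ^ 1 * (10 + W * μ) ^ 3 + (6 * y0 *
    W ^ 2 - 30 * y1 * W + 100 * y2) * (-μ) ^ 2 * (10 + W * μ) ^ 2 + (4 * y0 * W ^ 3 - 30 * y1 * W ^
    2 + 200 * y2 * W - 1000 * y3) * (-μ) ^ 3 * (10 + W * μ) ^ 1 + (1 * y0 * W ^ 4 - 10 * y1 * W ^ 3
    + 100 * y2 * W ^ 2 - 1000 * y3 * W + 10000 * y4) * (-μ) ^ 4 := by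
  ring

theorem hbAA0 (p : ℝ) : bAA0 p = 1 * A0 p := by
  unfold bAA0 A0
  ring
theorem hbAA1 (p : ℝ) : bAA1 p = 4 * A0 p * (10 * p + 19) - 10 * A1 p := by
  unfold bAA1 A0 A1
  ring
theorem hbAA2 (p : ℝ) : bAA2 p = 6 * A0 p * (10 * p + 19) ^ 2 - 30 * A1 p * (10 * p + 19) + 100 * A2 p := by
  unfold bAA2 A0 A1 A2
  ring
theorem hbAA3 (p : ℝ) : bAA3 p = 4 * A0 p * (10 * p + 19) ^ 3 - 30 * A1 p * (10 * p + 19) ^ 2 + 200 * A2 p * (10 * p + 19) -
    1000 * A3 p := by
  unfold bAA3 A0 A1 A2 A3
  ring
theorem hbAA4 (p : ℝ) : bAA4 p = 1 * A0 p * (10 * p + 19) ^ 4 - 10 * A1 p * (10 * p + 19) ^ 3 + 100 * A2 p * (10 * p + 19) ^ 2 -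
    1000 * A3 p * (10 * p + 19) + 10000 * A4 p := by
  unfold bAA4 A0 A1 A2 A3 A4
  ring

theorem idAA (p μ : ℝ) : 10000 * (A0 p + A1 p * μ + A2 p * μ ^ 2 + A3 p * μ ^ 3 + A4 p * μ ^ 4) =
    bAA0 p * (10 + (10 * p + 19) * μ) ^ 4 + bAA1 p * (-μ) ^ 1 * (10 + (10 * p + 19) * μ) ^ 3 + bAA2
    p * (-μ) ^ 2 * (10 + (10 * p + 19) * μ) ^ 2 + bAA3 p * (-μ) ^ 3 * (10 + (10 * p + 19) * μ) ^ 1
    + bAA4 p * (-μ) ^ 4 := by
  rw [hbAA0, hbAA1, hbAA2, hbAA3, hbAA4]
  exact bidAA (A0 p) (A1 p) (A2 p) (A3 p) (A4 p) (10 * p + 19) μ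

theorem posAA (p μ : ℝ) (hp : 6 ≤ p) (hm : μ ≤ 0) (hμ : 0 ≤ 10 + (10 * p + 19) * μ) :
    0 < A0 p + A1 p * μ + A2 p * μ ^ 2 + A3 p * μ ^ 3 + A4 p * μ ^ 4 := by
  have h := idAA p μ
  obtain ⟨u, rfl⟩ : ∃ u, p = 6 + u := ⟨p - 6, by ring⟩
  have hu : 0 ≤ u := by linarith
  have a0 := fbAA0 u hu
  have a1 := fbAA1 u hu
  have a2 := fbAA2 u hu
  have a3 := fbAA3 u hu
  have a4 := fbAA4 u hu
  generalize (6 + u) = p at *
  have hn : 0 ≤ -μ := by linarith
  have hone : (-μ) * (10 * p + 19) + (10 + (10 * p + 19) * μ) = 10 := by ring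
  generalize hw : 10 + (10 * p + 19) * μ = w at h hμ hone
  have t0 : 0 ≤ bAA0 p * w ^ 4 := by positivity
  have t1 : 0 ≤ bAA1 p * (-μ) ^ 1 * w ^ 3 := by positivity
  have t2 : 0 ≤ bAA2 p * (-μ) ^ 2 * w ^ 2 := by positivity
  have t3 : 0 ≤ bAA3 p * (-μ) ^ 3 * w ^ 1 := by positivity
  have t4 : 0 ≤ bAA4 p * (-μ) ^ 4 := by positivity
  rcases hμ.eq_or_lt with h0 | h0
  · have hn2 : 0 < -μ := by
      by_contra hcon
      have : -μ = 0 := by linarith
      rw [this, ← h0] at hone
      norm_num at hone
    have s : 0 < bAA4 p * (-μ) ^ 4 := by positivity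
    linarith
  · have s : 0 < bAA0 p * w ^ 4 := by positivity
    linarith

noncomputable def bSS0 (p : ℝ) : ℝ :=
    (((((24) * p - 8) * p - 30) * p + 10) * p + 6) * p - 2
noncomputable def bSS1 (p : ℝ) : ℝ :=
    (((((16) * p + 1168) * p - 920) * p - 470) * p + 364) * p - 38

theorem fbSS0 (u : ℝ) (hu : 0 ≤ u) : 0 < bSS0 (6 + u) := by
  have h : bSS0 (6 + u) =
    (((((24) * u + 712) * u + 8418) * u + 49582) * u + 145494) * u + 170170 := by
    unfold bSS0; ring
  rw [h]; positivity

theorem fbSS1 (u : ℝ) (hu : 0 ≤ u) : 0 < bSS1 (6 + u) := by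
  have h : bSS1 (6 + u) =
    (((((16) * u + 1648) * u + 32872) * u + 269818) * u + 1008196) * u + 1424650 := by
    unfold bSS1; ring
  rw [h]; positivity

theorem bidSS (y0 y1 W μ : ℝ) : 10 * (y0 + y1 * μ) =
    (1 * y0) * (10 + W * μ) ^ 1 + (1 * y0 * W - 10 * y1) * (-μ) ^ 1 := by
  ring

theorem hbSS0 (p : ℝ) : bSS0 p = 1 * s0 p := by
  unfold bSS0 s0
  ring
theorem hbSS1 (p : ℝ) : bSS1 p = 1 * s0 p * (10 * p + 19) - 10 * s1 p := by
  unfold bSS1 s0 s1
  ring

theorem idSS (p μ : ℝ) : 10 * (s0 p + s1 p * μ) =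
    bSS0 p * (10 + (10 * p + 19) * μ) ^ 1 + bSS1 p * (-μ) ^ 1 := by
  rw [hbSS0, hbSS1]
  exact bidSS (s0 p) (s1 p) (10 * p + 19) μ

theorem posSS (p μ : ℝ) (hp : 6 ≤ p) (hm : μ ≤ 0) (hμ : 0 ≤ 10 + (10 * p + 19) * μ) :
    0 < s0 p + s1 p * μ := by
  have h := idSS p μ
  obtain ⟨u, rfl⟩ : ∃ u, p = 6 + u := ⟨p - 6, by ring⟩
  have hu : 0 ≤ u := by linarith
  have a0 := fbSS0 u hu
  have a1 := fbSS1 u hu
  generalize (6 + u) = p at *
  have hn : 0 ≤ -μ := by linarith
  have hone : (-μ) * (10 * p + 19) + (10 + (10 * p + 19) * μ) = 10 := by ring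
  generalize hw : 10 + (10 * p + 19) * μ = w at h hμ hone
  have t0 : 0 ≤ bSS0 p * w ^ 1 := by positivity
  have t1 : 0 ≤ bSS1 p * (-μ) ^ 1 := by positivity
  rcases hμ.eq_or_lt with h0 | h0
  · have hn2 : 0 < -μ := by
      by_contra hcon
      have : -μ = 0 := by linarith
      rw [this, ← h0] at hone
      norm_num at hone
    have s : 0 < bSS1 p * (-μ) ^ 1 := by positivity
    linarith
  · have s : 0 < bSS0 p * w ^ 1 := by positivity
    linarith

noncomputable def q0 (p : ℝ) : ℝ :=
    ((((((((((((((((((((((((165888) * p - 1105920) * p + 2133504) * p - 276480) * p - 6762240) * p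
    + 16255488) * p - 3011776) * p - 38486272) * p + 31970312) * p + 36553664) * p - 47528194) * p
    - 13018600) * p + 32780102) * p - 2253484) * p - 11597524) * p + 3116768) * p + 1955780) * p -
    875176) * p - 100186) * p + 92552) * p - 5842) * p - 2572) * p + 176) * p + 32) * p ^ 1
noncomputable def q1 (p : ℝ) : ℝ :=
    (((((((((((((((((((((((((165888) * p - 2460672) * p + 8792064) * p - 7405056) * p - 4253184) *
    p + 17065728) * p - 85315008) * p + 60593120) * p + 277614808) * p - 326408708) * p -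
    316734188) * p + 550454104) * p + 84974536) * p - 425573300) * p + 91146100) * p + 154546888) *
    p - 74144456) * p - 19211852) * p + 19239676) * p - 2085176) * p - 1424072) * p + 477412) * p -
    61124) * p + 7480) * p - 1040) * p + 32
noncomputable def q2 (p : ℝ) : ℝ :=
    ((((((((((((((((((((((((((-1658880)) * p + 9400320) * p - 3981312) * p - 51383808) * p +
    62919168) * p + 71406720) * p - 153596544) * p + 259551840) * p - 539938416) * p - 127529256) *
    p + 1699810656) * p - 1260895764) * p - 1212996024) * p + 1807247916) * p - 71724288) * p -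
    891846768) * p + 382971552) * p + 126173616) * p - 131917824) * p + 23321772) * p + 8631528) *
    p - 5023956) * p + 1263456) * p - 234120) * p + 30048) * p - 1632
noncomputable def q3 (p : ℝ) : ℝ :=
    (((((((((((((((((((((((((2820096) * p - 10202112) * p - 39942144) * p + 234514944) * p -
    410870016) * p + 152670336) * p + 887138496) * p - 1580021152) * p - 771314392) * p +
    4545468788) * p - 3163339324) * p - 3088962988) * p + 5502086132) * p - 1463686120) * p -
    2421133000) * p + 2138989904) * p - 241673488) * p - 531358780) * p + 327632948) * p -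
    61344940) * p - 21110572) * p + 20159312) * p - 8327728) * p + 2074856) * p - 285088) * p +
    16032
noncomputable def q4 (p : ℝ) : ℝ :=
    ((((((((((((((((((((((((((-1327104)) * p + 3207168) * p + 1631232) * p + 26666496) * p -
    118941696) * p - 724929792) * p + 3982185984) * p - 5601327424) * p - 708961568) * p +
    8368925968) * p - 6487536716) * p - 105012734) * p + 2228858308) * p - 1469839046) * p +
    1398173500) * p - 1174414844) * p + 189966616) * p + 544669300) * p - 539428196) * p +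
    202261018) * p + 23447236) * p - 62302526) * p + 30889108) * p - 7846496) * p + 1043296) * p -
    57088
noncomputable def q5 (p : ℝ) : ℝ :=
    (((((((((((((((((((((((((28035072) * p - 40504320) * p - 527136768) * p + 1296078336) * p +
    1739281152) * p - 8195064960) * p + 6202201920) * p + 4855081056) * p - 5884595928) * p -
    3881530716) * p + 5240184204) * p + 919167912) * p - 1657675728) * p - 383458428) * p -
    994361436) * p + 2459647704) * p - 1004977896) * p - 915753780) * p + 1149616404) * p -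
    412773192) * p - 84118752) * p + 143392044) * p - 63999108) * p + 15054312) * p - 1888656) * p
    + 99552
noncomputable def q6 (p : ℝ) : ℝ :=
    (((((((((((((((((((((((((3649536) * p - 66465792) * p + 148432896) * p + 631899648) * p -
    3144969216) * p + 4132004736) * p + 2465200896) * p - 13650918880) * p + 14660656592) * p +
    1002779096) * p - 17588412424) * p + 16682924576) * p - 1766659504) * p - 9836642128) * p +
    9928661768) * p - 3635477416) * p - 1509329968) * p + 2761610072) * p - 1585730872) * p +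
    275376080) * p + 225359024) * p - 192544384) * p + 72343736) * p - 15482728) * p + 1827296) * p
    - 92640
noncomputable def q7 (p : ℝ) : ℝ :=
    (((((((((((((((((((((((((1492992) * p - 18828288) * p + 70944768) * p - 54581760) * p -
    546854400) * p + 2977589760) * p - 7863630912) * p + 10674531296) * p - 2647295912) * p -
    14307950420) * p + 21350454268) * p - 7176318404) * p - 12696579308) * p + 17632944232) * p -
    8314585808) * p - 1352366480) * p + 4288182976) * p - 2841306596) * p + 896590876) * p +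
    60991612) * p - 229158956) * p + 130174768) * p - 41740232) * p + 8165176) * p - 909632) * p +
    44384
noncomputable def q8 (p : ℝ) : ℝ :=
    (((((((((((((((((((((((((-1492992)) * p + 13353984) * p - 40725504) * p + 1769472) * p +
    386349312) * p - 1563304320) * p + 3727624320) * p - 5895966912) * p + 5367302136) * p -
    201143340) * p - 6715258908) * p + 9330216588) * p - 5767888428) * p + 390915048) * p +
    2293049736) * p - 2028812904) * p + 872761440) * p - 135127836) * p - 85646988) * p + 78282012)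
    * p - 34326828) * p + 9634464) * p - 1738656) * p + 183744) * p - 8640
noncomputable def QQ (p μ : ℝ) : ℝ := q0 p + q1 p * μ + q2 p * μ ^ 2 + q3 p * μ ^ 3 + q4 p * μ ^ 4 + q5 p * μ ^ 5 + q6 p * μ ^ 6 + q7
    p * μ ^ 7 + q8 p * μ ^ 8

theorem ident (p μ : ℝ) : p * ((AA' p μ * (BB p μ * DD p μ) - AA p μ * (BB' p μ * DD p μ + BB p μ * DD' p μ)) * SS p μ) +
    2 * (AA p μ * (BB p μ * DD p μ) * SS' p μ) = μ * (p ^ 1 * QQ p μ) := by
  unfold AA' BB' DD' SS' AA BB DD SS QQ A0 A1 A2 A3 A4 B0 B1 B2 D_0 D_1 D_2 D_3 s0 s1 q0 q1 q2 q3 q4 q5 q6 q7 q8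
  ring

noncomputable def bQ0 (p : ℝ) : ℝ :=
    ((((((((((((((((((((((((165888) * p - 1105920) * p + 2133504) * p - 276480) * p - 6762240) * p
    + 16255488) * p - 3011776) * p - 38486272) * p + 31970312) * p + 36553664) * p - 47528194) * p
    - 13018600) * p + 32780102) * p - 2253484) * p - 11597524) * p + 3116768) * p + 1955780) * p -
    875176) * p - 100186) * p + 92552) * p - 5842) * p - 2572) * p + 176) * p + 32) * p ^ 1
noncomputable def bQ1 (p : ℝ) : ℝ :=
    (((((((((((((((((((((((((11612160) * p - 38651904) * p - 85340160) * p + 376224768) * p -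
    540472320) * p + 101921280) * p + 3083042176) * p - 4142622912) * p - 6068436464) * p +
    11047867624) * p + 4921243288) * p - 13770314528) * p - 206164400) * p + 9058029784) * p -
    2181792488) * p - 3058951088) * p + 1371655696) * p + 419383000) * p - 333438392) * p +
    13027648) * p + 27841264) * p - 5867864) * p + 234376) * p - 45488) * p + 15264) * p - 320
noncomputable def bQ2 (p : ℝ) : ℝ :=
    ((((((((((((((((((((((((((348364800) * p + 4423680) * p - 6058100736) * p + 3839662080) * p +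
    7377011712) * p - 29226885120) * p + 140336456960) * p + 80197736704) * p - 599384123488) * p -
    141240299136) * p + 1222092543096) * p + 33252034392) * p - 1444824313272) * p + 274464096000)
    * p + 957826144656) * p - 374028484632) * p - 321420095712) * p + 200220875424) * p +
    34877982360) * p - 46974040728) * p + 6058027272) * p + 3289135296) * p - 1180490976) * p +
    178368984) * p - 30512912) * p + 4689056) * p - 205760
noncomputable def bQ3 (p : ℝ) : ℝ :=
    (((((((((((((((((((((((((((5806080000) * p + 19502899200) * p - 99102781440) * p -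
    207547619328) * p + 102167654400) * p - 496766106624) * p + 3121524728320) * p + 8126351084800)
    * p - 11355603741248) * p - 30839422282464) * p + 19116669651792) * p + 61209407539848) * p -
    23827619692584) * p - 73951155664416) * p + 30629214846000) * p + 51076619748888) * p -
    28228040966856) * p - 17393359627536) * p + 14212892594832) * p + 1336793831160) * p -
    3321526751544) * p + 656335090176) * p + 191706690768) * p - 105069493848) * p + 24514192232) *
    p - 4961265136) * p + 706423328) * p - 37062720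
noncomputable def bQ4 (p : ℝ) : ℝ :=
    ((((((((((((((((((((((((((((58060800000) * p + 389836800000) * p - 348346368000) * p -
    4353173913600) * p - 6628031907840) * p - 18350029363200) * p + 42989457505280) * p +
    247571727360000) * p + 10778091113600) * p - 743550013664640) * p - 610093734349120) * p +
    1294007085663360) * p + 1603747569545640) * p - 1540728475484520) * p - 2118918813336780) * p +
    1525625834466000) * p + 1541031575776140) * p - 1188924823415280) * p - 527966822951880) * p +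
    576357187731360) * p + 14026422199200) * p - 134444931985320) * p + 35935103965380) * p +
    5654307753840) * p - 5186011441940) * p + 1652352960960) * p - 383073760880) * p + 54722771040)
    * p - 3054468800
noncomputable def bQ5 (p : ℝ) : ℝ :=
    (((((((((((((((((((((((((((((348364800000) * p + 3514060800000) * p + 5823590400000) * p -
    23013052416000) * p - 112767638630400) * p - 458904073033728) * p - 101994356295680) * p +
    3587641281867776) * p + 4339734099393280) * p - 6408530668600960) * p - 17825098336646528) * p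
    - 2696898056047744) * p + 36764751199718832) * p + 22539637835452728) * p - 46732073906744184)
    * p - 34459445468355936) * p + 42647996997351600) * p + 26642839002585288) * p -
    30069298504445496) * p - 8978033422053456) * p + 14178963227929392) * p - 664242216284280) * p
    - 3294244209975144) * p + 1152422110334016) * p + 66066663743888) * p - 154819536171848) * p +
    63668703195032) * p - 16261458864656) * p + 2352831965408) * p - 135064971200
noncomputable def bQ6 (p : ℝ) : ℝ :=
    ((((((((((((((((((((((((((((((1161216000000) * p + 15681945600000) * p + 62450380800000) * p +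
    67900723200000) * p - 436734379008000) * p - 4370716603023360) * p - 7860756658702336) * p +
    19819447812700160) * p + 60790668654797312) * p + 15536259535313920) * p - 128331209797585280)
    * p - 250490106067750016) * p + 78777632402325792) * p + 624181494693613824) * p +
    107285649904434216) * p - 814674713564062008) * p - 250695169130173752) * p +
    689697010265222400) * p + 229561739971460256) * p - 447153504252493992) * p -
    76897107667713792) * p + 209230745242704864) * p - 24838197782194200) * p - 49136983017325128)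
    * p + 22071417005119432) * p - 475925912949824) * p - 2833109609140976) * p + 1431725062342184)
    * p - 390567885545392) * p + 57149424586976) * p - 3331912553280
noncomputable def bQ7 (p : ℝ) : ℝ :=
    (((((((((((((((((((((((((((((((1658880000000) * p + 28366848000000) * p + 196885094400000) * p
    + 874720972800000) * p + 1143627724800000) * p - 15254063263948800) * p - 56480569536327680) *
    p + 10936342260074496) * p + 255908454370923520) * p + 343902532132602368) * p +
    117895117764939520) * p - 1251951070676997760) * p - 2526215534758954944) * p +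
    1863480906219495968) * p + 6284577638311443696) * p - 1559853351217202856) * p -
    7773313631364581112) * p + 596428490895391392) * p + 5903413269308130000) * p +
    323415112022157384) * p - 3459495904661697048) * p - 208557599522454768) * p +
    1678578699625125936) * p - 307580909703932760) * p - 421195395908410792) * p +
    234609055768891008) * p - 19001393380242256) * p - 29721221255897864) * p + 17529234631091576)
    * p - 4992817847551568) * p + 736735083487584) * p - 43384815554240
noncomputable def bQ8 (p : ℝ) : ℝ :=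
    (((((((((((((((((((((((((((((((1105920000000) * p + 111937536000000) * p + 1671295795200000) *
    p + 6733650124800000) * p - 11928813281280000) * p - 107671345609523200) * p -
    101992527561359360) * p + 217607364947775488) * p + 464417363881164800) * p +
    1691640841683963904) * p + 1811270867115898880) * p - 8024594815530630400) * p -
    12132528934116276992) * p + 15986174377520615744) * p + 26156737016187130368) * p -
    19122105544072150608) * p - 29601927798079266936) * p + 14607646002914295486) * p +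
    19826926349335071000) * p - 5847660678308682498) * p - 9754371209504450724) * p +
    522090050285445756) * p + 5413280071428265728) * p - 1222449902612940260) * p -
    1644697014297197776) * p + 1065387448805645254) * p - 129039486702065528) * p -
    138406542531488842) * p + 90450983357617228) * p - 26468215942454144) * p + 3929182426061312) *
    p - 233081115183680

theorem fbQ0 (u : ℝ) (hu : 0 ≤ u) : 0 < bQ0 (6 + u) := by
  have h : bQ0 (6 + u) =
    ((((((((((((((((((((((((165888) * u + 22781952) * u + 1497779712) * u + 62732206080) * u +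
    1879139158272) * u + 42843002995200) * u + 772461911791424) * u + 11296916543100416) * u +
    136369747092781832) * u + 1375498115418179264) * u + 11691024091603365758) * u +
    84196522089269512304) * u + 515385107747031183614) * u + 2683953295110876591620) * u +
    11877633151703871683300) * u + 44520932331041298317216) * u + 140537359702053810737396) * u +
    370385878419203956847000) * u + 804909678236703316830038) * u + 1417024317879797004400064) * u
    + 1969807356570497397506438) * u + 2080368848716978690112324) * u + 1568064886292523920222408)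
    * u + 751105994409877357531280) * u + 171740312004996754219200 := by
    unfold bQ0; ring
  rw [h]; positivity

theorem fbQ1 (u : ℝ) (hu : 0 ≤ u) : 0 < bQ1 (6 + u) := by
  have h : bQ1 (6 + u) =
    (((((((((((((((((((((((((11612160) * u + 1703172096) * u + 119760113664) * u + 5373475052544) *
    u + 172748244925440) * u + 4235562969967104) * u + 82315518319185280) * u +
    1300953086983268928) * u + 17021098729307517712) * u + 186698381873323067464) * u +
    1732174113876758986648) * u + 13676785140785477801296) * u + 92249267052238684718128) * u +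
    532482243788591139098488) * u + 2630139588169976225473240) * u + 11095400252203941887490880) *
    u + 39818739447747055563809392) * u + 120809686096607106071430712) * u +
    307075154084952431290150600) * u + 645596935035483345731230096) * u +
    1102647314275801588521125008) * u + 1490901200961535371987868936) * u +
    1535222566930063981490807368) * u + 1130779113478085310145687456) * u +
    530429342702835351740064960) * u + 119017216911724743586374400 := by
    unfold bQ1; ring
  rw [h]; positivity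

theorem fbQ2 (u : ℝ) (hu : 0 ≤ u) : 0 < bQ2 (6 + u) := by
  have h : bQ2 (6 + u) =
    ((((((((((((((((((((((((((348364800) * u + 54349332480) * u + 4070473611264) * u +
    194820920580096) * u + 6692179318649856) * u + 175650369614254080) * u + 3661925435608192256) *
    u + 62229152889126826240) * u + 877736254502703600032) * u + 10409891199826656269568) * u +
    104780823277670375588856) * u + 900982845088142685123672) * u + 6647188582929391231694904) * u
    + 42181157476132749156936192) * u + 230404544434523286357270192) * u +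
    1082363919658040927007638760) * u + 4361573896382492634979661040) * u +
    15009365329711275490426862208) * u + 43815979841515555980614411928) * u +
    107487448611611241871325908200) * u + 218702751889570216894766451864) * u +
    362409044455052343890611882752) * u + 476520148739715457769719752384) * u +
    478189526856882917436833348952) * u + 343928898731113080973356436384) * u +
    157833236052213762411230109440) * u + 34709020977426927263961241600 := by
    unfold bQ2; ring
  rw [h]; positivity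

theorem fbQ3 (u : ℝ) (hu : 0 ≤ u) : 0 < bQ3 (6 + u) := by
  have h : bQ3 (6 + u) =
    (((((((((((((((((((((((((((5806080000) * u + 960087859200) * u + 76308976373760) * u +
    3881392299804672) * u + 141910861845639168) * u + 3971394063383405568) * u +
    88446932423819276800) * u + 1609069015532529826048) * u + 24355009496639570476480) * u +
    310794963078113456700576) * u + 3376115100651679459195344) * u + 31436407243526647270263528) *
    u + 252121205701876731216399576) * u + 1746867969385781164717704912) * u +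
    10471568187899831549945957136) * u + 54305645206288200688007124216) * u +
    243273236117067895057874866680) * u + 938441245280101478175348648480) * u +
    3102092627522958442498105085424) * u + 8725319940508203337846804313304) * u +
    20680382205051124804521625552200) * u + 40755976126751846513059566606672) * u +
    65563578458760687651647926010736) * u + 83865335862560697356821512541512) * u +
    82031986797215523811924282629416) * u + 57613275387966942703397464938272) * u +
    25862252864547741018563195107520) * u + 5572260532377547335850621612800 := by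
    unfold bQ3; ring
  rw [h]; positivity

theorem fbQ4 (u : ℝ) (hu : 0 ≤ u) : 0 < bQ4 (6 + u) := by
  have h : bQ4 (6 + u) =
    ((((((((((((((((((((((((((((58060800000) * u + 10144051200000) * u + 852896581632000) * u +
    45952033650278400) * u + 1782241798095452160) * u + 52994672800504227840) * u +
    1256287510704835005440) * u + 24375856074378894028800) * u + 394373895862011045338240) * u +
    5392511642788929831235200) * u + 62938620688666789811564480) * u + 631603100607324402869070720)
    * u + 5478080950132617456376880040) * u + 41208096894111023778859625880) * u +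
    269384701288034633176602263460) * u + 1531342126506843513180333295680) * u +
    7564429607881688221958965885980) * u + 32403112717227996803075479388400) * u +
    119938641458293229552316550270200) * u + 381596802726679450469238291025920) * u +
    1035935888751724509570864394561920) * u + 2375753062627156390813846809255000) * u +
    4540650031464085473909075418692660) * u + 7098777238677446409259660437485280) * u +
    8841730762087770163699705119923260) * u + 8436294574977023442859523926858080) * u +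
    5789405707729143070439447594533360) * u + 2543359188921268012687464735357600) * u +
    537100229080266989466907474864000 := by
    unfold bQ4; ring
  rw [h]; positivity

theorem fbQ5 (u : ℝ) (hu : 0 ≤ u) : 0 < bQ5 (6 + u) := by
  have h : bQ5 (6 + u) =
    (((((((((((((((((((((((((((((348364800000) * u + 64129536000000) * u + 5687885721600000) * u +
    323691543465984000) * u + 13279609756312473600) * u + 418334030159489206272) * u +
    10524428710674212927488) * u + 217123634649082912022528) * u + 3742776881466322513304320) * u +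
    54652288378363522860829568) * u + 682910703922424289859753600) * u +
    7357653336900569343586403456) * u + 68727666067091671753577629104) * u +
    558752007803187722598811723608) * u + 3963374918934709693999295655816) * u +
    24557246933982581916989481271152) * u + 132907016350446019618142300298576) * u +
    627524212829248385077165631480616) * u + 2578307610217247121114604924310280) * u +
    9182334418002516689848241435568000) * u + 28187698647726905799283882823905104) * u +
    74019627001858337006310222733011624) * u + 164578420227852429642049592944191000) * u +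
    305604724030493265859254542020189872) * u + 465088145797696747131163242784117616) * u +
    564903953157510506321392822764470872) * u + 526497398816708247404301692707946456) * u +
    353476726440858284167452235855440352) * u + 152143328261181737858724106973280320) * u +
    31522635832078956187383998180204800 := by
    unfold bQ5; ring
  rw [h]; positivity

theorem fbQ6 (u : ℝ) (hu : 0 ≤ u) : 0 < bQ6 (6 + u) := by
  have h : bQ6 (6 + u) =
    ((((((((((((((((((((((((((((((1161216000000) * u + 224700825600000) * u + 20975751475200000) *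
    u + 1258106864947200000) * u + 54480352402824192000) * u + 1814461393261993328640) * u +
    48344963096620062193664) * u + 1058298293929890470475776) * u + 19396877806983347270160896) * u
    + 301820290025157080920130560) * u + 4028639426942161369726596736) * u +
    46487910981053637457871413120) * u + 466450756320228025312227589152) * u +
    4086666960626696925606232007808) * u + 31351166070592771727284512772776) * u +
    210940769401422999712455282687432) * u + 1245394072899739542335822398064664) * u +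
    6448183946806791454931465072290752) * u + 29228959208522097420884122117737792) * u +
    115657624330983814871861735255987160) * u + 397805376396605720823880385385833520) * u +
    1182375336823173155120172483759462528) * u + 3013124415918142443688940709597589608) * u +
    6515145141913609853629623869498873400) * u + 11787491681950859201881484978689356664) * u +
    17509296724069532631699164614417559872) * u + 20791411772955324739427495765601919024) * u +
    18972962752493841201331791017118383912) * u + 12489348652934844149042603984892886304) * u +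
    5277711921907080878946908770193056640) * u + 1074909963449994940435541861743449600 := by
    unfold bQ6; ring
  rw [h]; positivity

theorem fbQ7 (u : ℝ) (hu : 0 ≤ u) : 0 < bQ7 (6 + u) := by
  have h : bQ7 (6 + u) =
    (((((((((((((((((((((((((((((((1658880000000) * u + 336918528000000) * u + 33072568934400000) *
    u + 2089997336678400000) * u + 95549230636185600000) * u + 3366728068638457651200) * u +
    95111143665859015659520) * u + 2212532365321957401962496) * u + 43195088921015734188626944) * u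
    + 717687197771489998527056384) * u + 10255193493903894330009675520) * u +
    127028196307726414094341645184) * u + 1372117082075322207047161373760) * u +
    12981411663284229886773577036448) * u + 107901662915154442185769435792752) * u +
    789496042202286677307410703185784) * u + 5089515119805375797959453458073608) * u +
    28904573089115263936433334080774256) * u + 144460752329438335726479927320811888) * u +
    634024124491704105085261648964138088) * u + 2435678369562471451464707536026329640) * u +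
    8152886375126357164672494172433436960) * u + 23633082209730628555547914466865452112) * u +
    58848947005181801871308267864773585992) * u + 124552177062666222495603752809403619800) * u +
    220918101416094204302603495375720950896) * u + 322163562667555398183004408121038160528) * u +
    376055012205464408525139918764726700376) * u + 337736870143808478219424455063562169528) * u +
    219046541948699703552338265281224871776) * u + 91293569722585518140163933443355716160) * u +
    18356161895061730166759661756059142400 := by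
    unfold bQ7; ring
  rw [h]; positivity

theorem fbQ8 (u : ℝ) (hu : 0 ≤ u) : 0 < bQ8 (6 + u) := by
  have h : bQ8 (6 + u) =
    (((((((((((((((((((((((((((((((1105920000000) * u + 317638656000000) * u + 40333153075200000) *
    u + 3124240778649600000) * u + 168809638869688320000) * u + 6845529408892634316800) * u +
    218073307757320890941440) * u + 5628315454633941274431488) * u + 120299286964662688874627072) *
    u + 2164062822918937926580867072) * u + 33164508984853377183652198400) * u +
    437002755268571577963578446592) * u + 4985971274467885160220856741120) * u +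
    49517155239279199516505942045504) * u + 429691774314908343755809519416576) * u +
    3266374743411841732809186133736112) * u + 21782419926145629357637550625268104) * u +
    127479576543815576796267767007059598) * u + 654301786295642993905093780316179344) * u +
    2940061013064327695333068318786081014) * u + 11531919192539290618750615434329414220) * u +
    39315008099248604092387010970707407620) * u + 115818860144563842120075893923666080096) * u +
    292521055213768670724788797600600357516) * u + 626856019456468790149296246357145602800) * u +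
    1124000472200243274320870457615569691238) * u + 1654723201499754568565138364065659258144) * u +
    1947495983752343147858239428935169317198) * u + 1761585819085840052149940516694187743964) * u +
    1149586794413285689013714588896744983688) * u + 481677927232944295076294951563219776080) * u +
    97294414403893591344417390701618891200 := by
    unfold bQ8; ring
  rw [h]; positivity

theorem bidQ (y0 y1 y2 y3 y4 y5 y6 y7 y8 W μ : ℝ) : 100000000 * (y0 + y1 * μ + y2 * μ ^ 2 + y3 * μ ^ 3 + y4 * μ ^ 4 + y5 * μ ^ 5 + y6 * μ ^ 6 + y7 * μ ^ 7 + y8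
    * μ ^ 8) =
    (1 * y0) * (10 + W * μ) ^ 8 + (8 * y0 * W - 10 * y1) * (-μ) ^ 1 * (10 + W * μ) ^ 7 + (28 * y0 *
    W ^ 2 - 70 * y1 * W + 100 * y2) * (-μ) ^ 2 * (10 + W * μ) ^ 6 + (56 * y0 * W ^ 3 - 210 * y1 * W
    ^ 2 + 600 * y2 * W - 1000 * y3) * (-μ) ^ 3 * (10 + W * μ) ^ 5 + (70 * y0 * W ^ 4 - 350 * y1 * W
    ^ 3 + 1500 * y2 * W ^ 2 - 5000 * y3 * W + 10000 * y4) * (-μ) ^ 4 * (10 + W * μ) ^ 4 + (56 * y0
    * W ^ 5 - 350 * y1 * W ^ 4 + 2000 * y2 * W ^ 3 - 10000 * y3 * W ^ 2 + 40000 * y4 * W - 100000 *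
    y5) * (-μ) ^ 5 * (10 + W * μ) ^ 3 + (28 * y0 * W ^ 6 - 210 * y1 * W ^ 5 + 1500 * y2 * W ^ 4 -
    10000 * y3 * W ^ 3 + 60000 * y4 * W ^ 2 - 300000 * y5 * W + 1000000 * y6) * (-μ) ^ 6 * (10 + W
    * μ) ^ 2 + (8 * y0 * W ^ 7 - 70 * y1 * W ^ 6 + 600 * y2 * W ^ 5 - 5000 * y3 * W ^ 4 + 40000 *
    y4 * W ^ 3 - 300000 * y5 * W ^ 2 + 2000000 * y6 * W - 10000000 * y7) * (-μ) ^ 7 * (10 + W * μ)
    ^ 1 + (1 * y0 * W ^ 8 - 10 * y1 * W ^ 7 + 100 * y2 * W ^ 6 - 1000 * y3 * W ^ 5 + 10000 * y4 * W
    ^ 4 - 100000 * y5 * W ^ 3 + 1000000 * y6 * W ^ 2 - 10000000 * y7 * W + 100000000 * y8) * (-μ) ^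
    8 := by
  ring

theorem hbQ0 (p : ℝ) : bQ0 p = 1 * q0 p := by
  unfold bQ0 q0
  ring
theorem hbQ1 (p : ℝ) : bQ1 p = 8 * q0 p * (10 * p + 19) - 10 * q1 p := by
  unfold bQ1 q0 q1
  ring
theorem hbQ2 (p : ℝ) : bQ2 p = 28 * q0 p * (10 * p + 19) ^ 2 - 70 * q1 p * (10 * p + 19) + 100 * q2 p := by
  unfold bQ2 q0 q1 q2
  ring
theorem hbQ3 (p : ℝ) : bQ3 p = 56 * q0 p * (10 * p + 19) ^ 3 - 210 * q1 p * (10 * p + 19) ^ 2 + 600 * q2 p * (10 * p + 19) -
    1000 * q3 p := by
  unfold bQ3 q0 q1 q2 q3
  ring
theorem hbQ4 (p : ℝ) : bQ4 p = 70 * q0 p * (10 * p + 19) ^ 4 - 350 * q1 p * (10 * p + 19) ^ 3 + 1500 * q2 p * (10 * p + 19) ^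
    2 - 5000 * q3 p * (10 * p + 19) + 10000 * q4 p := by
  unfold bQ4 q0 q1 q2 q3 q4
  ring
theorem hbQ5 (p : ℝ) : bQ5 p = 56 * q0 p * (10 * p + 19) ^ 5 - 350 * q1 p * (10 * p + 19) ^ 4 + 2000 * q2 p * (10 * p + 19) ^
    3 - 10000 * q3 p * (10 * p + 19) ^ 2 + 40000 * q4 p * (10 * p + 19) - 100000 * q5 p := by
  unfold bQ5 q0 q1 q2 q3 q4 q5
  ring
theorem hbQ6 (p : ℝ) : bQ6 p = 28 * q0 p * (10 * p + 19) ^ 6 - 210 * q1 p * (10 * p + 19) ^ 5 + 1500 * q2 p * (10 * p + 19) ^
    4 - 10000 * q3 p * (10 * p + 19) ^ 3 + 60000 * q4 p * (10 * p + 19) ^ 2 - 300000 * q5 p * (10 *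
    p + 19) + 1000000 * q6 p := by
  unfold bQ6 q0 q1 q2 q3 q4 q5 q6
  ring
theorem hbQ7 (p : ℝ) : bQ7 p = 8 * q0 p * (10 * p + 19) ^ 7 - 70 * q1 p * (10 * p + 19) ^ 6 + 600 * q2 p * (10 * p + 19) ^ 5 -
    5000 * q3 p * (10 * p + 19) ^ 4 + 40000 * q4 p * (10 * p + 19) ^ 3 - 300000 * q5 p * (10 * p +
    19) ^ 2 + 2000000 * q6 p * (10 * p + 19) - 10000000 * q7 p := by
  unfold bQ7 q0 q1 q2 q3 q4 q5 q6 q7
  ring
theorem hbQ8 (p : ℝ) : bQ8 p = 1 * q0 p * (10 * p + 19) ^ 8 - 10 * q1 p * (10 * p + 19) ^ 7 + 100 * q2 p * (10 * p + 19) ^ 6 -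
    1000 * q3 p * (10 * p + 19) ^ 5 + 10000 * q4 p * (10 * p + 19) ^ 4 - 100000 * q5 p * (10 * p +
    19) ^ 3 + 1000000 * q6 p * (10 * p + 19) ^ 2 - 10000000 * q7 p * (10 * p + 19) + 100000000 * q8
    p := by
  unfold bQ8 q0 q1 q2 q3 q4 q5 q6 q7 q8
  ring

theorem idQ (p μ : ℝ) : 100000000 * (q0 p + q1 p * μ + q2 p * μ ^ 2 + q3 p * μ ^ 3 + q4 p * μ ^ 4 + q5 p * μ ^ 5 + q6 p * μ ^ 6 + q7
    p * μ ^ 7 + q8 p * μ ^ 8) =
    bQ0 p * (10 + (10 * p + 19) * μ) ^ 8 + bQ1 p * (-μ) ^ 1 * (10 + (10 * p + 19) * μ) ^ 7 + bQ2 p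
    * (-μ) ^ 2 * (10 + (10 * p + 19) * μ) ^ 6 + bQ3 p * (-μ) ^ 3 * (10 + (10 * p + 19) * μ) ^ 5 +
    bQ4 p * (-μ) ^ 4 * (10 + (10 * p + 19) * μ) ^ 4 + bQ5 p * (-μ) ^ 5 * (10 + (10 * p + 19) * μ) ^
    3 + bQ6 p * (-μ) ^ 6 * (10 + (10 * p + 19) * μ) ^ 2 + bQ7 p * (-μ) ^ 7 * (10 + (10 * p + 19) *
    μ) ^ 1 + bQ8 p * (-μ) ^ 8 := by
  rw [hbQ0, hbQ1, hbQ2, hbQ3, hbQ4, hbQ5, hbQ6, hbQ7, hbQ8]
  exact bidQ (q0 p) (q1 p) (q2 p) (q3 p) (q4 p) (q5 p) (q6 p) (q7 p) (q8 p) (10 * p + 19) μ

theorem posQ (p μ : ℝ) (hp : 6 ≤ p) (hm : μ ≤ 0) (hμ : 0 ≤ 10 + (10 * p + 19) * μ) :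
    0 < q0 p + q1 p * μ + q2 p * μ ^ 2 + q3 p * μ ^ 3 + q4 p * μ ^ 4 + q5 p * μ ^ 5 + q6 p * μ ^ 6 + q7
    p * μ ^ 7 + q8 p * μ ^ 8 := by
  have h := idQ p μ
  obtain ⟨u, rfl⟩ : ∃ u, p = 6 + u := ⟨p - 6, by ring⟩
  have hu : 0 ≤ u := by linarith
  have a0 := fbQ0 u hu
  have a1 := fbQ1 u hu
  have a2 := fbQ2 u hu
  have a3 := fbQ3 u hu
  have a4 := fbQ4 u hu
  have a5 := fbQ5 u hu
  have a6 := fbQ6 u hu
  have a7 := fbQ7 u hu
  have a8 := fbQ8 u hu
  generalize (6 + u) = p at *
  have hn : 0 ≤ -μ := by linarith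
  have hone : (-μ) * (10 * p + 19) + (10 + (10 * p + 19) * μ) = 10 := by ring
  generalize hw : 10 + (10 * p + 19) * μ = w at h hμ hone
  have t0 : 0 ≤ bQ0 p * w ^ 8 := by positivity
  have t1 : 0 ≤ bQ1 p * (-μ) ^ 1 * w ^ 7 := by positivity
  have t2 : 0 ≤ bQ2 p * (-μ) ^ 2 * w ^ 6 := by positivity
  have t3 : 0 ≤ bQ3 p * (-μ) ^ 3 * w ^ 5 := by positivity
  have t4 : 0 ≤ bQ4 p * (-μ) ^ 4 * w ^ 4 := by positivity
  have t5 : 0 ≤ bQ5 p * (-μ) ^ 5 * w ^ 3 := by positivity
  have t6 : 0 ≤ bQ6 p * (-μ) ^ 6 * w ^ 2 := by positivity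
  have t7 : 0 ≤ bQ7 p * (-μ) ^ 7 * w ^ 1 := by positivity
  have t8 : 0 ≤ bQ8 p * (-μ) ^ 8 := by positivity
  rcases hμ.eq_or_lt with h0 | h0
  · have hn2 : 0 < -μ := by
      by_contra hcon
      have : -μ = 0 := by linarith
      rw [this, ← h0] at hone
      norm_num at hone
    have s : 0 < bQ8 p * (-μ) ^ 8 := by positivity
    linarith
  · have s : 0 < bQ0 p * w ^ 8 := by positivity
    linarith

noncomputable def be (p : ℝ) : ℝ :=
    ((((((((1040) * p - 504) * p - 28612) * p - 16590) * p + 30210) * p + 3774) * p - 4478) * p +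
    2040) * p - 800
theorem f_be (u : ℝ) (hu : 0 ≤ u) : 0 < be (6 + u) := by
  have h : be (6 + u) =
    ((((((((1040) * u + 49416) * u + 998540) * u + 11152194) * u + 74620590) * u + 301165374) * u +
    690858670) * u + 748497816) * u + 181605160 := by
    unfold be; ring
  rw [h]; positivity

theorem BB_end (p : ℝ) (hp : 6 ≤ p) : BB p (-(10 / (10 * p + 19))) ≤ 0 := by
  have hW : 0 < (10 * p + 19) := by linarith
  have e : (10 * p + 19) ^ 2 * BB p (-(10 / (10 * p + 19))) = - be p := by
    unfold BB be B0 B1 B2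
    field_simp
    ring
  obtain ⟨u, rfl⟩ : ∃ u, p = 6 + u := ⟨p - 6, by ring⟩
  have hu : 0 ≤ u := by linarith
  have h := f_be u hu
  by_contra hcon
  push Not at hcon
  have := mul_pos (pow_pos hW 2) hcon
  rw [e] at this
  linarith

theorem SS0 (p : ℝ) : s0 p = 2 * d0 p := by unfold s0 d0; ring

theorem f_s1 (u : ℝ) (hu : 0 ≤ u) : 0 < s1 (6 + u) := by
  have h : s1 (6 + u) =
    ((((((24) * u + 900) * u + 13878) * u + 112797) * u + 510210) * u + 1218753) * u + 1201878 := by
    unfold s1; ring
  rw [h]; positivity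

theorem main (p : ℝ) (hp : 6 ≤ p) (s : ℝ) (hs : 0 ≤ s) (hs1 : s ≤ 1) : ∃ H ν m : ℝ,
      (∀ γ : ℕ → ℝ, H * γ 0 ^ 2 ≤ TT 3 γ + ν * Lam (1 / p) 3 γ + m * γ 3 ^ 2) ∧
      0 ≤ 1 + (p - 2) / p * m ∧
      2 * s + (p - 2) * (1 + ν + (m + 2 * m ^ 2 / p)) ≤ ((p - 2) * H + p) * s ^ (2 / p) := by
  obtain ⟨h1, h2, h3⟩ := pos0 p hp
  have hp0 : 0 < p := by linarith
  have hs1p : 0 < s1 p := by
    obtain ⟨u, rfl⟩ : ∃ u, p = 6 + u := ⟨p - 6, by ring⟩
    exact f_s1 u (by linarith)
  have hW : 0 < (10 * p + 19) := by linarith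
  have hND : ∀ μ, N3 p μ / D3 p μ = -(1 * μ) / 1 := fun μ => rfl
  have gen : ∀ μ, μ ≤ 0 → 0 ≤ 10 + (10 * p + 19) * μ →
      (∀ γ : ℕ → ℝ, N0 p μ / D0 p μ * γ 0 ^ 2 ≤ TT 3 γ + μ * (n1 p / d0 p) * Lam (1 / p) 3 γ +
        (-(1 * μ) / 1) * γ 3 ^ 2) ∧
      0 ≤ 1 + (p - 2) / p * (-(1 * μ) / 1) := by
    intro μ hm hμ
    refine ⟨fun γ => ?_, ?_⟩
    · have := low p μ hp hm hμ γ
      rwa [hND] at this
    · have e1 : 0 ≤ (p - 2) / p := div_nonneg (by linarith) hp0.le
      have e2 : 0 ≤ -(1 * μ) / 1 := div_nonneg (by linarith) (by norm_num)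
      have := mul_nonneg e1 e2
      linarith
  have hA : ∀ μ, μ ≤ 0 → 0 ≤ 10 + (10 * p + 19) * μ → 0 < D0 p μ ∧ 0 < (p - 2) * (N0 p μ / D0 p μ) + p ∧
      (p - 2) * (N0 p μ / D0 p μ) + p = AA p μ / D0 p μ := by
    intro μ hm hμ
    have hD : 0 < D0 p μ := by
      unfold D0
      exact mul_pos one_pos (E0_pos p μ hp hm hμ)
    have e : (p - 2) * (N0 p μ / D0 p μ) + p = AA p μ / D0 p μ := by
      rw [AA_eq]
      field_simp
    refine ⟨hD, ?_, e⟩
    rw [e]
    exact div_pos (posAA p μ hp hm hμ) hD
  obtain ⟨μe, hμe⟩ : ∃ μe, μe = -(10 / (10 * p + 19)) := ⟨_, rfl⟩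
  have hme : μe ≤ 0 := by
    rw [hμe]
    have : 0 < 10 / (10 * p + 19) := by positivity
    linarith
  have hwe : 10 + (10 * p + 19) * μe = 0 := by
    rw [hμe]
    field_simp
    try ring
  have hBe : BB p μe ≤ 0 := hμe ▸ BB_end p hp
  by_cases hc : s ≤ SS p μe / (2 * d0 p)
  · refine ⟨N0 p μe / D0 p μe, μe * (n1 p / d0 p), -(1 * μe) / 1, (gen μe hme hwe.ge).1,
      (gen μe hme hwe.ge).2, ?_⟩
    have e1 := BB_eq p μe hp
    have e2 : 0 ≤ ((p - 2) * (N0 p μe / D0 p μe) + p) * s ^ (2 / p) :=
      mul_nonneg (hA μe hme hwe.ge).2.1.le (Real.rpow_nonneg hs _)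
    refine le_trans ?_ e2
    rw [e1] at hBe
    have e3 : 0 < 2 * p * d0 p := by positivity
    have e4 := nonpos_of_mul_nonpos_right hBe e3
    linarith
  · push Not at hc
    obtain ⟨x, hx⟩ : ∃ x, x = (s - 1) * (2 * d0 p) / s1 p := ⟨_, rfl⟩
    have hsx : SS p x = s * (2 * d0 p) := by
      have : SS p x = s0 p + s1 p * x := rfl
      rw [this, SS0, hx]
      field_simp
      ring
    have hsx' : SS p x / (2 * d0 p) = s := by
      rw [hsx]
      field_simp
    have hx0 : x ≤ 0 := by
      rw [hx]
      exact div_nonpos_of_nonpos_of_nonneg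
        (mul_nonpos_of_nonpos_of_nonneg (by linarith) (by positivity)) hs1p.le
    have hxe : μe < x := by
      by_contra hcon
      push Not at hcon
      have e1 : s1 p * x ≤ s1 p * μe := mul_le_mul_of_nonneg_left hcon hs1p.le
      have e2 : SS p x ≤ SS p μe := by
        have : SS p x = s0 p + s1 p * x := rfl
        have : SS p μe = s0 p + s1 p * μe := rfl
        linarith
      have e3 : SS p x / (2 * d0 p) ≤ SS p μe / (2 * d0 p) :=
        div_le_div_of_nonneg_right e2 (by positivity)
      rw [hsx'] at e3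
      linarith
    have hxw : 0 ≤ 10 + (10 * p + 19) * x := by
      have := mul_le_mul_of_nonneg_left hxe.le hW.le
      linarith
    have hreg : ∀ t ∈ uIcc 0 x, t ≤ 0 ∧ 0 ≤ 10 + (10 * p + 19) * t := by
      intro t ht
      rw [uIcc_of_ge hx0] at ht
      refine ⟨ht.2, ?_⟩
      have := mul_le_mul_of_nonneg_left ht.1 hW.le
      linarith
    refine ⟨N0 p x / D0 p x, x * (n1 p / d0 p), -(1 * x) / 1, (gen x hx0 hxw).1,
      (gen x hx0 hxw).2, ?_⟩
    obtain ⟨hD, hA1, hA2⟩ := hA x hx0 hxw
    rw [hA2]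
    obtain ⟨cB, hcB⟩ : ∃ cB, cB = 2 * p * d0 p := ⟨_, rfl⟩
    have hcB0 : 0 < cB := by rw [hcB]; positivity
    have key := cmpW (2 / p) x (fun t => SS p t / (2 * d0 p)) (AA p)
      (fun t => BB p t * DD p t / cB) (fun t => SS' p t / (2 * d0 p)) (AA' p)
      (fun t => (BB' p t * DD p t + BB p t * DD' p t) / cB)
      (by
        have : SS p 0 = s0 p + s1 p * 0 := rfl
        simp only [this, SS0, mul_zero, add_zero]
        exact div_self (by positivity))
      (by
        have e1 := BB_eq p 0 hp
        have e2 : SS p 0 = s0 p + s1 p * 0 := rfl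
        rw [e2, SS0] at e1
        have e3 : BB p 0 = cB * p := by
          rw [e1, hcB]
          field_simp
          ring
        have e4 : AA p 0 = p * DD p 0 := by
          unfold AA DD A0 A1 A2 A3 A4 D_0 D_1 D_2 D_3
          ring
        rw [e3, e4]
        field_simp)
      (fun t ht => div_pos (posSS p t hp (hreg t ht).1 (hreg t ht).2) (by positivity))
      (fun t ht => posAA p t hp (hreg t ht).1 (hreg t ht).2)
      (fun t => (hd_SS p t).div_const _) (fun t => hd_AA p t)
      (fun t => ((hd_BB p t).mul (hd_DD p t)).div_const _)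
      (by
        intro t ht
        have e1 := ident p t
        have e2 := posQ p t hp (hreg t ht).1 (hreg t ht).2
        have e3 : t * ((AA' p t * (BB p t * DD p t / cB) -
            AA p t * ((BB' p t * DD p t + BB p t * DD' p t) / cB)) * (SS p t / (2 * d0 p)) +
            2 / p * (AA p t * (BB p t * DD p t / cB) * (SS' p t / (2 * d0 p)))) =
            t ^ 2 * (p ^ 1 * QQ p t) / (p * cB * (2 * d0 p)) := by
          have : t ^ 2 * (p ^ 1 * QQ p t) = t * (t * (p ^ 1 * QQ p t)) := by ring
          rw [this, ← e1]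
          generalize AA p t = v1
          generalize AA' p t = v2
          generalize BB p t = v3
          generalize BB' p t = v4
          generalize DD p t = v5
          generalize DD' p t = v6
          generalize SS p t = v7
          generalize SS' p t = v8
          generalize d0 p = v9 at *
          field_simp
        rw [e3]
        have e4 : 0 < QQ p t := e2
        positivity)
    try simp only at key
    rw [hsx', DD_eq] at key
    have e1 := BB_eq p x hp
    rw [hsx', ← hcB] at e1
    have e5 : BB p x * D0 p x / cB = (2 * s + (p - 2) * (1 + x * (n1 p / d0 p) +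
        ((-(1 * x) / 1) + 2 * (-(1 * x) / 1) ^ 2 / p))) * D0 p x := by
      rw [e1]
      field_simp
    rw [e5] at key
    rw [div_mul_eq_mul_div, le_div_iff₀ hD]
    exact key

end Neg

namespace Pos

noncomputable def N3 (p μ : ℝ) : ℝ := -(2 * μ)
noncomputable def D3 (p μ : ℝ) : ℝ := 3 + 1 * (p + 3) * μ
noncomputable def N2 (p μ : ℝ) : ℝ := 5 * μ * p ^ 2 * D3 p μ + (3 * p - 1) * N3 p μ * ((2 * p + 1) + μ * (3 * p - 1))
noncomputable def E2 (p μ : ℝ) : ℝ := ((3 * p - 1) + μ * (2 * p + 1)) * D3 p μ + 5 * (3 * p - 1) * N3 p μ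
noncomputable def D2 (p μ : ℝ) : ℝ := (2 * p + 1) * E2 p μ
noncomputable def N1 (p μ : ℝ) : ℝ := 3 * μ * p ^ 2 * D2 p μ + (2 * p - 1) * N2 p μ * ((p + 1) + μ * (2 * p - 1))
noncomputable def E1 (p μ : ℝ) : ℝ := ((2 * p - 1) + μ * (p + 1)) * D2 p μ + 3 * (2 * p - 1) * N2 p μ
noncomputable def D1 (p μ : ℝ) : ℝ := (p + 1) * E1 p μ
noncomputable def N0 (p μ : ℝ) : ℝ := 1 * μ * p ^ 2 * D1 p μ + (p - 1) * N1 p μ * (1 + μ * (p - 1))
noncomputable def E0 (p μ : ℝ) : ℝ := ((p - 1) + μ * 1) * D1 p μ + 1 * (p - 1) * N1 p μ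
noncomputable def D0 (p μ : ℝ) : ℝ := 1 * E0 p μ

noncomputable def e2_0 (p : ℝ) : ℝ :=
    (9) * p - 3
noncomputable def e2_1 (p : ℝ) : ℝ :=
    ((3) * p - 16) * p + 10
noncomputable def e2_2 (p : ℝ) : ℝ :=
    ((2) * p + 7) * p + 3
noncomputable def m2_1 (p : ℝ) : ℝ :=
    ((3) * p - 2) * p + 2
noncomputable def m2_2 (p : ℝ) : ℝ :=
    (((5) * p - 3) * p + 12) * p - 2
noncomputable def e1_0 (p : ℝ) : ℝ :=
    (((36) * p - 12) * p - 9) * p + 3
noncomputable def e1_1 (p : ℝ) : ℝ :=
    ((((12) * p - 28) * p + 37) * p + 34) * p - 19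
noncomputable def e1_2 (p : ℝ) : ℝ :=
    ((((44) * p - 28) * p + 66) * p - 41) * p + 13
noncomputable def e1_3 (p : ℝ) : ℝ :=
    ((((4) * p + 20) * p + 29) * p + 16) * p + 3
noncomputable def m1_1 (p : ℝ) : ℝ :=
    ((((60) * p + 8) * p - 10) * p + 4) * p - 2
noncomputable def m1_2 (p : ℝ) : ℝ :=
    (((((28) * p - 76) * p + 8) * p + 60) * p - 24) * p + 4
noncomputable def m1_3 (p : ℝ) : ℝ :=
    (((((32) * p + 16) * p + 104) * p - 50) * p + 20) * p - 2
noncomputable def e0_0 (p : ℝ) : ℝ :=
    (((((36) * p - 12) * p - 45) * p + 15) * p + 9) * p - 3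
noncomputable def e0_1 (p : ℝ) : ℝ :=
    ((((((12) * p + 32) * p + 9) * p + 68) * p - 63) * p - 46) * p + 24
noncomputable def e0_2 (p : ℝ) : ℝ :=
    ((((((72) * p - 120) * p + 90) * p + 48) * p - 66) * p + 84) * p - 36
noncomputable def e0_3 (p : ℝ) : ℝ :=
    ((((((36) * p + 48) * p + 129) * p - 120) * p + 69) * p - 66) * p + 12
noncomputable def e0_4 (p : ℝ) : ℝ :=
    (((((4) * p + 24) * p + 49) * p + 45) * p + 19) * p + 3
noncomputable def m0_1 (p : ℝ) : ℝ :=
    ((((((36) * p + 84) * p - 73) * p - 24) * p + 17) * p - 6) * p + 2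
noncomputable def m0_2 (p : ℝ) : ℝ :=
    (((((((12) * p + 72) * p - 207) * p + 189) * p + 99) * p - 123) * p + 36) * p - 6
noncomputable def m0_3 (p : ℝ) : ℝ :=
    (((((((72) * p - 84) * p + 210) * p + 81) * p - 318) * p + 195) * p - 54) * p + 6
noncomputable def m0_4 (p : ℝ) : ℝ :=
    (((((((36) * p - 24) * p + 153) * p - 197) * p + 243) * p - 89) * p + 24) * p - 2

theorem E2_eq (p μ : ℝ) : E2 p μ = e2_0 p + e2_1 p * μ + e2_2 p * μ ^ 2 := by
  unfold E2 D3 N3
  unfold e2_0 e2_1 e2_2 
  ring
theorem N2_eq (p μ : ℝ) : N2 p μ = m2_1 p * μ + m2_2 p * μ ^ 2 := by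
  unfold N2 D3 N3
  unfold m2_1 m2_2 
  ring
theorem E1_eq (p μ : ℝ) : E1 p μ = e1_0 p + e1_1 p * μ + e1_2 p * μ ^ 2 + e1_3 p * μ ^ 3 := by
  unfold E1 D2
  rw [E2_eq, N2_eq]
  unfold e1_0 e1_1 e1_2 e1_3 e2_0 e2_1 e2_2 m2_1 m2_2
  ring
theorem N1_eq (p μ : ℝ) : N1 p μ = m1_1 p * μ + m1_2 p * μ ^ 2 + m1_3 p * μ ^ 3 := by
  unfold N1 D2
  rw [E2_eq, N2_eq]
  unfold m1_1 m1_2 m1_3 e2_0 e2_1 e2_2 m2_1 m2_2
  ring
theorem E0_eq (p μ : ℝ) : E0 p μ = e0_0 p + e0_1 p * μ + e0_2 p * μ ^ 2 + e0_3 p * μ ^ 3 + e0_4 p * μ ^ 4 := by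
  unfold E0 D1
  rw [E1_eq, N1_eq]
  unfold e0_0 e0_1 e0_2 e0_3 e0_4 e1_0 e1_1 e1_2 e1_3 m1_1 m1_2 m1_3
  ring
theorem N0_eq (p μ : ℝ) : N0 p μ = m0_1 p * μ + m0_2 p * μ ^ 2 + m0_3 p * μ ^ 3 + m0_4 p * μ ^ 4 := by
  unfold N0 D1
  rw [E1_eq, N1_eq]
  unfold m0_1 m0_2 m0_3 m0_4 e1_0 e1_1 e1_2 e1_3 m1_1 m1_2 m1_3
  ring

theorem fe2_0 (u : ℝ) (hu : 0 ≤ u) : 0 < e2_0 (6 + u) := by
  have h : e2_0 (6 + u) =
    (9) * u + 51 := by
    unfold e2_0; ring
  rw [h]; positivity

theorem fe2_1 (u : ℝ) (hu : 0 ≤ u) : 0 < e2_1 (6 + u) := by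
  have h : e2_1 (6 + u) =
    ((3) * u + 20) * u + 22 := by
    unfold e2_1; ring
  rw [h]; positivity

theorem fe2_2 (u : ℝ) (hu : 0 ≤ u) : 0 < e2_2 (6 + u) := by
  have h : e2_2 (6 + u) =
    ((2) * u + 31) * u + 117 := by
    unfold e2_2; ring
  rw [h]; positivity

theorem posE2 (p μ : ℝ) (hp : 6 ≤ p) (hm : 0 ≤ μ) : 0 < e2_0 p + e2_1 p * μ + e2_2 p * μ ^ 2 := by
  obtain ⟨u, rfl⟩ : ∃ u, p = 6 + u := ⟨p - 6, by ring⟩
  have hu : 0 ≤ u := by linarith
  have a0 := fe2_0 u hu
  have a1 := fe2_1 u hu
  have a2 := fe2_2 u hu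
  generalize (6 + u) = p at *
  positivity

theorem E2_pos (p μ : ℝ) (hp : 6 ≤ p) (hm : 0 ≤ μ) : 0 < E2 p μ := by
  rw [E2_eq]
  exact posE2 p μ hp hm

theorem fe1_0 (u : ℝ) (hu : 0 ≤ u) : 0 < e1_0 (6 + u) := by
  have h : e1_0 (6 + u) =
    (((36) * u + 636) * u + 3735) * u + 7293 := by
    unfold e1_0; ring
  rw [h]; positivity

theorem fe1_1 (u : ℝ) (hu : 0 ≤ u) : 0 < e1_1 (6 + u) := by
  have h : e1_1 (6 + u) =
    ((((12) * u + 260) * u + 2125) * u + 7822) * u + 11021 := by
    unfold e1_1; ring
  rw [h]; positivity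

theorem fe1_2 (u : ℝ) (hu : 0 ≤ u) : 0 < e1_2 (6 + u) := by
  have h : e1_2 (6 + u) =
    ((((44) * u + 1028) * u + 9066) * u + 35743) * u + 53119 := by
    unfold e1_2; ring
  rw [h]; positivity

theorem fe1_3 (u : ℝ) (hu : 0 ≤ u) : 0 < e1_3 (6 + u) := by
  have h : e1_3 (6 + u) =
    ((((4) * u + 116) * u + 1253) * u + 5980) * u + 10647 := by
    unfold e1_3; ring
  rw [h]; positivity

theorem posE1 (p μ : ℝ) (hp : 6 ≤ p) (hm : 0 ≤ μ) : 0 < e1_0 p + e1_1 p * μ + e1_2 p * μ ^ 2 + e1_3 p * μ ^ 3 := by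
  obtain ⟨u, rfl⟩ : ∃ u, p = 6 + u := ⟨p - 6, by ring⟩
  have hu : 0 ≤ u := by linarith
  have a0 := fe1_0 u hu
  have a1 := fe1_1 u hu
  have a2 := fe1_2 u hu
  have a3 := fe1_3 u hu
  generalize (6 + u) = p at *
  positivity

theorem E1_pos (p μ : ℝ) (hp : 6 ≤ p) (hm : 0 ≤ μ) : 0 < E1 p μ := by
  rw [E1_eq]
  exact posE1 p μ hp hm

theorem fe0_0 (u : ℝ) (hu : 0 ≤ u) : 0 < e0_0 (6 + u) := by
  have h : e0_0 (6 + u) =
    (((((36) * u + 1068) * u + 12627) * u + 74373) * u + 218241) * u + 255255 := by
    unfold e0_0; ring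
  rw [h]; positivity

theorem fe0_1 (u : ℝ) (hu : 0 ≤ u) : 0 < e0_1 (6 + u) := by
  have h : e0_1 (6 + u) =
    ((((((12) * u + 464) * u + 7449) * u + 63644) * u + 305505) * u + 781550) * u + 832536 := by
    unfold e0_1; ring
  rw [h]; positivity

theorem fe0_2 (u : ℝ) (hu : 0 ≤ u) : 0 < e0_2 (6 + u) := by
  have h : e0_2 (6 + u) =
    ((((((72) * u + 2472) * u + 35370) * u + 270048) * u + 1160718) * u + 2663868) * u + 2551212 := by
    unfold e0_2; ring
  rw [h]; positivity

theorem fe0_3 (u : ℝ) (hu : 0 ≤ u) : 0 < e0_3 (6 + u) := by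
  have h : e0_3 (6 + u) =
    ((((((36) * u + 1344) * u + 21009) * u + 175776) * u + 829293) * u + 2089914) * u + 2196228 := by
    unfold e0_3; ring
  rw [h]; positivity

theorem fe0_4 (u : ℝ) (hu : 0 ≤ u) : 0 < e0_4 (6 + u) := by
  have h : e0_4 (6 + u) =
    (((((4) * u + 144) * u + 2065) * u + 14751) * u + 52507) * u + 74529 := by
    unfold e0_4; ring
  rw [h]; positivity

theorem posE0 (p μ : ℝ) (hp : 6 ≤ p) (hm : 0 ≤ μ) : 0 < e0_0 p + e0_1 p * μ + e0_2 p * μ ^ 2 + e0_3 p * μ ^ 3 + e0_4 p * μ ^ 4 := by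
  obtain ⟨u, rfl⟩ : ∃ u, p = 6 + u := ⟨p - 6, by ring⟩
  have hu : 0 ≤ u := by linarith
  have a0 := fe0_0 u hu
  have a1 := fe0_1 u hu
  have a2 := fe0_2 u hu
  have a3 := fe0_3 u hu
  have a4 := fe0_4 u hu
  generalize (6 + u) = p at *
  positivity

theorem E0_pos (p μ : ℝ) (hp : 6 ≤ p) (hm : 0 ≤ μ) : 0 < E0 p μ := by
  rw [E0_eq]
  exact posE0 p μ hp hm

theorem minT (p μ x0 x1 x2 x3 : ℝ) (hp : 6 ≤ p) (hm : 0 ≤ μ) :
    N0 p μ / D0 p μ * x0 ^ 2 ≤
      1 / 1 * ((x0 - x1) ^ 2 + μ * ((p - 1) / 1) * (x0 + 1 / (p - 1) * x1) ^ 2) +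
      1 / 3 * ((x1 - x2) ^ 2 + μ * ((2 * p - 1) / (p + 1)) * (x1 + (p + 1) / (2 * p - 1) * x2) ^ 2) +
      1 / 5 * ((x2 - x3) ^ 2 + μ * ((3 * p - 1) / (2 * p + 1)) * (x2 + (2 * p + 1) / (3 * p - 1) * x3) ^ 2) +
      N3 p μ / D3 p μ * x3 ^ 2 := by
  have hE0 := E0_pos p μ hp hm
  have hE1 := E1_pos p μ hp hm
  have hE2 := E2_pos p μ hp hm
  have ha0 : 0 < p - 1 := by linarith
  have ha1 : 0 < 2 * p - 1 := by linarith
  have ha2 : 0 < 3 * p - 1 := by linarith
  have hb0 : (0 : ℝ) < 1 := by linarith
  have hb1 : (0 : ℝ) < (p + 1) := by linarith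
  have hb2 : (0 : ℝ) < (2 * p + 1) := by linarith
  have hD3 : 0 < D3 p μ := by unfold D3; positivity
  have hD1 : 0 < D1 p μ := mul_pos hb1 hE1
  have hD2 : 0 < D2 p μ := mul_pos hb2 hE2
  have s2 : N2 p μ / D2 p μ * x2 ^ 2 ≤ 1 / 5 * ((x2 - x3) ^ 2 + μ * ((3 * p - 1) / (2 * p + 1)) * (x2 + (2 * p + 1) / (3 * p - 1) * x3) ^ 2) + N3 p μ / D3 p μ * x3 ^ 2 :=
    gstep 5 p (3 * p - 1) (2 * p + 1) μ (N3 p μ) (D3 p μ) x2 x3 (by norm_num) ha2 hb2 (by ring) hD3 hE2
  have s1 : N1 p μ / D1 p μ * x1 ^ 2 ≤ 1 / 3 * ((x1 - x2) ^ 2 + μ * ((2 * p - 1) / (p + 1)) * (x1 + (p + 1) / (2 * p - 1) * x2) ^ 2) + N2 p μ / D2 p μ * x2 ^ 2 :=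
    gstep 3 p (2 * p - 1) (p + 1) μ (N2 p μ) (D2 p μ) x1 x2 (by norm_num) ha1 hb1 (by ring) hD2 hE1
  have s0 : N0 p μ / D0 p μ * x0 ^ 2 ≤ 1 / 1 * ((x0 - x1) ^ 2 + μ * ((p - 1) / 1) * (x0 + 1 / (p - 1) * x1) ^ 2) + N1 p μ / D1 p μ * x1 ^ 2 :=
    gstep 1 p (p - 1) 1 μ (N1 p μ) (D1 p μ) x0 x1 (by norm_num) ha0 hb0 (by ring) hD1 hE0
  linarith

theorem low (p μ : ℝ) (hp : 6 ≤ p) (hm : 0 ≤ μ) (γ : ℕ → ℝ) :
    N0 p μ / D0 p μ * γ 0 ^ 2 ≤
      TT 3 γ + μ * (n1 p / d0 p) * Lam (1 / p) 3 γ + N3 p μ / D3 p μ * γ 3 ^ 2 := by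
  obtain ⟨h1, h2, h3⟩ := pos0 p hp
  have hm := minT p μ (γ 0) (γ 1) (γ 2) (γ 3) hp hm
  refine hm.trans (le_of_eq ?_)
  rw [lowgen p (by linarith), KK_eq p hp, show μ * (n1 p / d0 p) / (n1 p / d0 p) = μ by
    field_simp]
  rw [sum_range_succ, sum_range_succ, sum_range_one]
  push_cast
  norm_num

noncomputable def A0 (p : ℝ) : ℝ :=
    ((((((36) * p - 12) * p - 45) * p + 15) * p + 9) * p - 3) * p ^ 1
noncomputable def A1 (p : ℝ) : ℝ :=
    (((((((48) * p + 44) * p - 232) * p + 190) * p + 2) * p - 86) * p + 38) * p - 4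
noncomputable def A2 (p : ℝ) : ℝ :=
    ((((((((12) * p + 120) * p - 471) * p + 693) * p - 231) * p - 387) * p + 366) * p - 114) * p +
    12
noncomputable def A3 (p : ℝ) : ℝ :=
    ((((((((72) * p - 192) * p + 426) * p - 210) * p - 600) * p + 900) * p - 510) * p + 126) * p -
    12
noncomputable def A4 (p : ℝ) : ℝ :=
    ((((((((36) * p - 96) * p + 205) * p - 479) * p + 686) * p - 530) * p + 221) * p - 47) * p + 4
noncomputable def AA (p μ : ℝ) : ℝ := A0 p + A1 p * μ + A2 p * μ ^ 2 + A3 p * μ ^ 3 + A4 p * μ ^ 4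
noncomputable def AA' (p μ : ℝ) : ℝ := A1 p + 2 * A2 p * μ + 3 * A3 p * μ ^ 2 + 4 * A4 p * μ ^ 3

noncomputable def B0 (p : ℝ) : ℝ :=
    ((((((108) * p - 36) * p - 135) * p + 45) * p + 27) * p - 9) * p ^ 2
noncomputable def B1 (p : ℝ) : ℝ :=
    ((((((((180) * p + 444) * p - 237) * p - 360) * p - 21) * p + 90) * p + 24) * p - 12) * p ^ 1
noncomputable def B2 (p : ℝ) : ℝ :=
    (((((((((84) * p + 476) * p + 539) * p - 437) * p - 624) * p - 28) * p + 357) * p - 27) * p -
    68) * p + 16
noncomputable def B3 (p : ℝ) : ℝ :=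
    (((((((12) * p + 108) * p + 297) * p + 144) * p - 342) * p - 108) * p + 81) * p ^ 4
noncomputable def BB (p μ : ℝ) : ℝ := B0 p + B1 p * μ + B2 p * μ ^ 2 + B3 p * μ ^ 3
noncomputable def BB' (p μ : ℝ) : ℝ := B1 p + 2 * B2 p * μ + 3 * B3 p * μ ^ 2

noncomputable def s0 (p : ℝ) : ℝ :=
    (((((12) * p - 4) * p - 15) * p + 5) * p + 3) * p - 1
noncomputable def s1 (p : ℝ) : ℝ :=
    (((((12) * p + 36) * p - 27) * p - 18) * p + 9) * p ^ 2
noncomputable def SS (p μ : ℝ) : ℝ := s0 p + s1 p * μ
noncomputable def SS' (p μ : ℝ) : ℝ := s1 p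

noncomputable def D_0 (p : ℝ) : ℝ :=
    (((((36) * p - 12) * p - 45) * p + 15) * p + 9) * p - 3
noncomputable def D_1 (p : ℝ) : ℝ :=
    ((((((12) * p + 32) * p + 9) * p + 68) * p - 63) * p - 46) * p + 24
noncomputable def D_2 (p : ℝ) : ℝ :=
    ((((((72) * p - 120) * p + 90) * p + 48) * p - 66) * p + 84) * p - 36
noncomputable def D_3 (p : ℝ) : ℝ :=
    ((((((36) * p + 48) * p + 129) * p - 120) * p + 69) * p - 66) * p + 12
noncomputable def D_4 (p : ℝ) : ℝ :=
    (((((4) * p + 24) * p + 49) * p + 45) * p + 19) * p + 3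
noncomputable def DD (p μ : ℝ) : ℝ := D_0 p + D_1 p * μ + D_2 p * μ ^ 2 + D_3 p * μ ^ 3 + D_4 p * μ ^ 4
noncomputable def DD' (p μ : ℝ) : ℝ := D_1 p + 2 * D_2 p * μ + 3 * D_3 p * μ ^ 2 + 4 * D_4 p * μ ^ 3

noncomputable def M0 (p : ℝ) : ℝ :=
    3
noncomputable def M1 (p : ℝ) : ℝ :=
    (1) * p + 3
noncomputable def MM (p μ : ℝ) : ℝ := M0 p + M1 p * μ
noncomputable def MM' (p μ : ℝ) : ℝ := M1 p

theorem hd_AA (p μ : ℝ) : HasDerivAt (AA p) (AA' p μ) μ := by
  unfold AA AA'
  refine ((((((hasDerivAt_id μ).const_mul (A1 p)).const_add (A0 p)).add ((hasDerivAt_pow 2 μ).const_mul (A2 p))).add ((hasDerivAt_pow 3 μ).const_mul (A3 p))).add ((hasDerivAt_pow 4 μ).const_mul (A4 p))).congr_deriv ?_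
  norm_num
  try ring

theorem hd_BB (p μ : ℝ) : HasDerivAt (BB p) (BB' p μ) μ := by
  unfold BB BB'
  refine (((((hasDerivAt_id μ).const_mul (B1 p)).const_add (B0 p)).add ((hasDerivAt_pow 2 μ).const_mul (B2 p))).add ((hasDerivAt_pow 3 μ).const_mul (B3 p))).congr_deriv ?_
  norm_num
  try ring

theorem hd_SS (p μ : ℝ) : HasDerivAt (SS p) (SS' p μ) μ := by
  unfold SS SS'
  refine (((hasDerivAt_id μ).const_mul (s1 p)).const_add (s0 p)).congr_deriv ?_
  norm_num
  try ring

theorem hd_DD (p μ : ℝ) : HasDerivAt (DD p) (DD' p μ) μ := by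
  unfold DD DD'
  refine ((((((hasDerivAt_id μ).const_mul (D_1 p)).const_add (D_0 p)).add ((hasDerivAt_pow 2 μ).const_mul (D_2 p))).add ((hasDerivAt_pow 3 μ).const_mul (D_3 p))).add ((hasDerivAt_pow 4 μ).const_mul (D_4 p))).congr_deriv ?_
  norm_num
  try ring

theorem hd_MM (p μ : ℝ) : HasDerivAt (MM p) (MM' p μ) μ := by
  unfold MM MM'
  refine (((hasDerivAt_id μ).const_mul (M1 p)).const_add (M0 p)).congr_deriv ?_
  norm_num
  try ring

theorem AA_eq (p μ : ℝ) : AA p μ = (p - 2) * N0 p μ + p * D0 p μ := by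
  unfold AA D0
  rw [N0_eq, E0_eq]
  unfold A0 A1 A2 A3 A4 m0_1 m0_2 m0_3 m0_4 e0_0 e0_1 e0_2 e0_3 e0_4
  ring
theorem DD_eq (p μ : ℝ) : DD p μ = D0 p μ := by
  unfold DD D0
  rw [E0_eq]
  unfold D_0 D_1 D_2 D_3 D_4 e0_0 e0_1 e0_2 e0_3 e0_4
  ring
theorem MM_eq (p μ : ℝ) : MM p μ = 3 + 1 * (p + 3) * μ := by
  unfold MM M0 M1
  ring
theorem BB_eq (p μ : ℝ) (hp : 6 ≤ p) (hm : 0 ≤ μ) : BB p μ = p * d0 p * MM p μ ^ 2 *
    (2 * (SS p μ / d0 p) + (p - 2) * (1 + μ * (n1 p / d0 p) +
      ((-(2 * μ) / MM p μ) + 2 * (-(2 * μ) / MM p μ) ^ 2 / p))) := by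
  obtain ⟨h1, h2, h3⟩ := pos0 p hp
  have hp0 : 0 < p := by linarith
  have hM : 0 < MM p μ := by rw [MM_eq]; positivity
  have e0 : SS p μ = d0 p + n1 p * μ := by
    unfold SS s0 s1 d0 n1
    ring
  have e : BB p μ = p * p * (d0 p + n1 p * μ) * MM p μ ^ 2 +
      (p - 2) * d0 p * (2 * 4 * μ ^ 2 - 2 * p * μ * MM p μ) := by
    unfold BB MM M0 M1 n1 d0 B0 B1 B2 B3
    ring
  rw [e, e0]
  generalize MM p μ = M at *
  generalize n1 p = n1 at *
  generalize d0 p = d0 at *
  field_simp
  ring

theorem fA0 (u : ℝ) (hu : 0 ≤ u) : 0 < A0 (6 + u) := by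
  have h : A0 (6 + u) =
    ((((((36) * u + 1284) * u + 19035) * u + 150135) * u + 664479) * u + 1564701) * u + 1531530 := by
    unfold A0; ring
  rw [h]; positivity

theorem fA1 (u : ℝ) (hu : 0 ≤ u) : 0 < A1 (6 + u) := by
  have h : A1 (6 + u) =
    (((((((48) * u + 2060) * u + 37640) * u + 379870) * u + 2288402) * u + 8233438) * u + 16389302)
    * u + 13929560 := by
    unfold A1; ring
  rw [h]; positivity

theorem fA2 (u : ℝ) (hu : 0 ≤ u) : 0 < A2 (6 + u) := by
  have h : A2 (6 + u) =
    ((((((((12) * u + 696) * u + 16665) * u + 219609) * u + 1762059) * u + 8877501) * u + 27556080)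
    * u + 48343458) * u + 36791040 := by
    unfold A2; ring
  rw [h]; positivity

theorem fA3 (u : ℝ) (hu : 0 ≤ u) : 0 < A3 (6 + u) := by
  have h : A3 (6 + u) =
    ((((((((72) * u + 3264) * u + 64938) * u + 740886) * u + 5303460) * u + 24394932) * u +
    70419594) * u + 116624934) * u + 84826320 := by
    unfold A3; ring
  rw [h]; positivity

theorem fA4 (u : ℝ) (hu : 0 ≤ u) : 0 < A4 (6 + u) := by
  have h : A4 (6 + u) =
    ((((((((36) * u + 1632) * u + 32461) * u + 369781) * u + 2637176) * u + 12050950) * u +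
    34442249) * u + 56267365) * u + 40214350 := by
    unfold A4; ring
  rw [h]; positivity

theorem posAA (p μ : ℝ) (hp : 6 ≤ p) (hm : 0 ≤ μ) : 0 < A0 p + A1 p * μ + A2 p * μ ^ 2 + A3 p * μ ^ 3 + A4 p * μ ^ 4 := by
  obtain ⟨u, rfl⟩ : ∃ u, p = 6 + u := ⟨p - 6, by ring⟩
  have hu : 0 ≤ u := by linarith
  have a0 := fA0 u hu
  have a1 := fA1 u hu
  have a2 := fA2 u hu
  have a3 := fA3 u hu
  have a4 := fA4 u hu
  generalize (6 + u) = p at *
  positivity

noncomputable def q0 (p : ℝ) : ℝ :=
    ((((((((((((((((((((((((10077696) * p - 70543872) * p + 160123392) * p - 46842624) * p -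
    321568704) * p + 394979328) * p + 21900672) * p - 263601648) * p + 182248758) * p - 168852870)
    * p + 60088446) * p + 193930254) * p - 193051944) * p - 18352116) * p + 94961052) * p -
    30285684) * p - 14176890) * p + 10549170) * p - 905850) * p - 966762) * p + 310284) * p -
    14040) * p - 6912) * p + 864) * p ^ 1
noncomputable def q1 (p : ℝ) : ℝ :=
    (((((((((((((((((((((((((26873856) * p - 162922752) * p + 201927168) * p + 522018432) * p -
    1380919104) * p + 422188416) * p + 1118626128) * p - 491323896) * p - 230462172) * p -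
    1163629719) * p + 1692021717) * p + 462082401) * p - 2179748745) * p + 1112805972) * p +
    707079942) * p - 910788462) * p + 137497986) * p + 216229905) * p - 107538975) * p - 3254931) *
    p + 14743539) * p - 3550878) * p - 82620) * p + 144936) * p - 18720) * p + 576
noncomputable def q2 (p : ℝ) : ℝ :=
    ((((((((((((((((((((((((((27993600) * p - 155271168) * p - 67495680) * p + 1625920128) * p -
    2924138880) * p + 477288864) * p + 3956088624) * p - 5027592312) * p + 1883761554) * p +
    468640038) * p + 1195008852) * p - 364677315) * p - 5817556410) * p + 6676613463) * p +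
    708402306) * p - 5203969386) * p + 2583867918) * p + 800335740) * p - 1189886064) * p +
    300419409) * p + 115257810) * p - 84319449) * p + 13802106) * p + 2686836) * p - 1366536) * p +
    195744) * p - 9792
noncomputable def q3 (p : ℝ) : ℝ :=
    (((((((((((((((((((((((((((14929920) * p - 74462976) * p - 216255744) * p + 1577988864) * p -
    1774029312) * p - 3770364384) * p + 11065835520) * p - 7830873792) * p - 4724642736) * p +
    6880002741) * p + 4329876249) * p - 2673029907) * p - 16341266691) * p + 20585824272) * p +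
    432436248) * p - 18035897094) * p + 12999285702) * p + 1006451901) * p - 6089861223) * p +
    2865004857) * p + 255329505) * p - 700054506) * p + 231426918) * p + 2072592) * p - 21069252) *
    p + 6058008) * p - 751968) * p + 36288
noncomputable def q4 (p : ℝ) : ℝ :=
    ((((((((((((((((((((((((((((4354560) * p - 16298496) * p - 77442048) * p + 713567232) * p -
    419934912) * p - 5407205952) * p + 11831864736) * p - 3444425088) * p - 15417482886) * p +
    18745561446) * p - 1412475750) * p - 6827479824) * p - 13570736058) * p + 31866277344) * p -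
    7655039586) * p - 35425771914) * p + 39051559386) * p - 4428411870) * p - 18787520898) * p +
    13366497372) * p - 944618238) * p - 3114204564) * p + 1631067810) * p - 182918178) * p -
    132098556) * p + 65626284) * p - 13684248) * p + 1434528) * p - 61632
noncomputable def q5 (p : ℝ) : ℝ :=
    (((((((((((((((((((((((((((((663552) * p + 573696) * p + 41739264) * p + 258427008) * p -
    397017408) * p - 2887363776) * p + 4309599696) * p + 9258154728) * p - 28762125324) * p +
    19637329323) * p + 21361925739) * p - 32975184471) * p - 15150543891) * p + 50026910316) * p -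
    8559043758) * p - 59401787616) * p + 66496174062) * p - 9527703081) * p - 37636697157) * p +
    32881681113) * p - 5423824719) * p - 7959194802) * p + 5756176332) * p - 1213534002) * p -
    365298384) * p + 309303252) * p - 93664164) * p + 15729432) * p - 1464288) * p + 59328
noncomputable def q6 (p : ℝ) : ℝ :=
    ((((((((((((((((((((((((((((((41472) * p + 1022976) * p + 38368512) * p + 153069696) * p -
    271609344) * p - 1327761504) * p + 2000253168) * p + 3347227944) * p - 12320046594) * p -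
    111022038) * p + 44599018860) * p - 50518613763) * p - 21514734360) * p + 71585630955) * p -
    20173274334) * p - 67792305258) * p + 83963084832) * p - 13270503060) * p - 55900773792) * p +
    53988810957) * p - 10521352080) * p - 14956319349) * p + 12165384330) * p - 2934390708) * p -
    783421902) * p + 763179156) * p - 252662616) * p + 49960332) * p - 6912504) * p + 686304) * p -
    36288
noncomputable def q7 (p : ℝ) : ℝ :=
    ((((((((((((((((((((((((((((((145152) * p + 10706688) * p + 64723968) * p + 14742144) * p -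
    492365280) * p + 185329632) * p + 1794003216) * p - 7108781064) * p + 1040628711) * p +
    30065258871) * p - 33773913969) * p - 33379928919) * p + 88754943924) * p - 34685713158) * p -
    68000936466) * p + 82986593928) * p - 5464628565) * p - 58327814403) * p + 52873404723) * p -
    10318894683) * p - 17602783338) * p + 15846296136) * p - 3816223248) * p - 1772112738) * p +
    1423696332) * p - 318895110) * p - 12836832) * p + 17968164) * p - 2661336) * p + 33120) * p +
    14400
noncomputable def q8 (p : ℝ) : ℝ :=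
    ((((((((((((((((((((((((((((((1078272) * p + 11860992) * p + 38827008) * p - 6200064) * p -
    206798400) * p - 124585152) * p - 420042048) * p - 617774928) * p + 7479098616) * p -
    6859543008) * p - 23538702366) * p + 59165659212) * p - 22987090050) * p - 64499571402) * p +
    72391222980) * p + 6004826214) * p - 52925838348) * p + 33669815760) * p + 295714218) * p -
    15266002956) * p + 11583416430) * p - 2030974986) * p - 2745223824) * p + 2048393310) * p -
    369018000) * p - 190090620) * p + 124716192) * p - 30590100) * p + 3566616) * p - 146688) * p -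
    2880
noncomputable def q9 (p : ℝ) : ℝ :=
    ((((((((((((((((((((((((((((((539136) * p + 7188480) * p + 28975104) * p + 12013056) * p -
    140726592) * p - 171070560) * p + 28709424) * p - 102080880) * p - 340836678) * p - 987866874)
    * p + 8420351841) * p + 3691729521) * p - 38483587143) * p + 35774598249) * p + 10454219199) *
    p - 32343852483) * p + 13063575141) * p + 6874752897) * p - 9323050455) * p + 4625675235) * p -
    475374285) * p - 1711058949) * p + 1625246253) * p - 530428257) * p - 95262795) * p +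
    139746357) * p - 50266278) * p + 8871552) * p - 749952) * p + 20736) * p ^ 1
noncomputable def q10 (p : ℝ) : ℝ :=
    ((((((((((((((((((((((((((((((290304) * p + 3456000) * p + 13927680) * p + 15921792) * p -
    36867840) * p - 165599904) * p - 327581136) * p + 20547144) * p + 1411345794) * p + 1202243406)
    * p - 2195309640) * p - 3865406415) * p + 2755682550) * p + 8288172153) * p - 11179497894) * p
    + 2298960285) * p + 4555055058) * p - 3824840031) * p + 1162317330) * p - 182949309) * p -
    13621902) * p + 205451115) * p - 219595074) * p + 87249831) * p - 4101948) * p - 6659955) * p +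
    1210734) * p + 307008) * p - 117504) * p + 10368) * p ^ 1
noncomputable def q11 (p : ℝ) : ℝ :=
    (((((((((((((((((((((((((((-20736)) * p - 338688) * p - 2089728) * p - 5219712) * p + 1431072)
    * p + 36285120) * p + 69623136) * p + 939528) * p - 207985473) * p - 314671401) * p +
    179050293) * p + 836123571) * p + 37731429) * p - 1116067149) * p - 114531327) * p + 886458087)
    * p + 11921175) * p - 425470131) * p + 46749231) * p + 117414441) * p - 27404649) * p -
    16063839) * p + 5993595) * p + 557685) * p - 468018) * p + 52488) * p ^ 5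
noncomputable def QQ (p μ : ℝ) : ℝ := q0 p + q1 p * μ + q2 p * μ ^ 2 + q3 p * μ ^ 3 + q4 p * μ ^ 4 + q5 p * μ ^ 5 + q6 p * μ ^ 6 + q7
    p * μ ^ 7 + q8 p * μ ^ 8 + q9 p * μ ^ 9 + q10 p * μ ^ 10 + q11 p * μ ^ 11

theorem ident (p μ : ℝ) : p * (((AA' p μ * MM p μ + 2 * AA p μ * MM' p μ) * (BB p μ * DD p μ) -
    AA p μ * MM p μ * (BB' p μ * DD p μ + BB p μ * DD' p μ)) * SS p μ) +
    2 * (AA p μ * MM p μ * (BB p μ * DD p μ) * SS' p μ) = μ * (p ^ 1 * QQ p μ) := by
  unfold AA' BB' DD' SS' MM' AA BB DD SS MM QQ A0 A1 A2 A3 A4 B0 B1 B2 B3 D_0 D_1 D_2 D_3 D_4 s0 s1 M0 M1 q0 q1 q2 q3 q4 q5 q6 q7 q8 q9 q10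
    q11
  ring

theorem f_q0 (u : ℝ) (hu : 0 ≤ u) : 0 < q0 (6 + u) := by
  have h : q0 (6 + u) =
    ((((((((((((((((((((((((10077696) * u + 1380644352) * u + 90557056512) * u + 3784383307008) * u
    + 113122726383168) * u + 2574094433766912) * u + 46329284636687232) * u + 676499967650044944) *
    u + 8155827371895013782) * u + 82183543877545568442) * u + 698084251225182595746) * u +
    5026450088248674063822) * u + 30776701211208389336724) * u + 160410468786246311370300) * u +
    710947988423749311992820) * u + 2670841694850745844667276) * u + 8457198819324789943743390) * u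
    + 22380549754119686246587410) * u + 48892190547914758518578010) * u +
    86638915358706164710581270) * u + 121409845385399251305540120) * u +
    129482981318989345145119704) * u + 98750318239624832698552560) * u +
    47969897864814121629232800) * u + 11152650516810464149488000 := by
    unfold q0; ring
  rw [h]; positivity

theorem f_q1 (u : ℝ) (hu : 0 ≤ u) : 0 < q1 (6 + u) := by
  have h : q1 (6 + u) =
    (((((((((((((((((((((((((26873856) * u + 3868155648) * u + 266978695680) * u + 11760519164544)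
    * u + 371260202556096) * u + 8940389268994560) * u + 170685505330359120) * u +
    2650569300995236776) * u + 34082107669161665604) * u + 367491462224052839265) * u +
    3352606655152288170933) * u + 26036842630879733172003) * u + 172792255868233945232607) * u +
    981714323408170082473386) * u + 4774851972939668119373214) * u + 19844127289866794990710302) *
    u + 70197143035644539819466354) * u + 210060352073963979052088085) * u +
    526989989961883115771724657) * u + 1094416260106394115658785735) * u +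
    1848071290497876447480365499) * u + 2473129136131469031718897200) * u +
    2523515836097141437573944252) * u + 1844365021246250620904323584) * u +
    859841033077584861730129440) * u + 192094084431131215334601600 := by
    unfold q1; ring
  rw [h]; positivity

theorem f_q2 (u : ℝ) (hu : 0 ≤ u) : 0 < q2 (6 + u) := by
  have h : q2 (6 + u) =
    ((((((((((((((((((((((((((27993600) * u + 4211730432) * u + 304166949120) * u + 14036183687808)
    * u + 464793698219904) * u + 11758211909666208) * u + 236216018836198896) * u +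
    3867206095558961928) * u + 52535741658919159458) * u + 599923669139759649054) * u +
    5812321497831249608064) * u + 48089293042187310647421) * u + 341244960511147107770424) * u +
    2081904339782386965983619) * u + 10928210303959052215506708) * u + 49309555836729455134028094)
    * u + 190750226036599571967586938) * u + 629781546474868761578350524) * u +
    1762713203959740950036054112) * u + 4142989443647395842075584337) * u +
    8069875976269417563132902364) * u + 12790132247326796097854456163) * u +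
    16068524589066632759551637004) * u + 15388848288667954647178202028) * u +
    10548762144173501150286619872) * u + 4606569388350907842844161120) * u +
    962203305036941680741084800 := by
    unfold q2; ring
  rw [h]; positivity

theorem f_q3 (u : ℝ) (hu : 0 ≤ u) : 0 < q3 (6 + u) := by
  have h : q3 (6 + u) =
    (((((((((((((((((((((((((((14929920) * u + 2344184064) * u + 176821989120) * u + 8530646264064)
    * u + 295649531426304) * u + 7837613430610464) * u + 165231427013730432) * u +
    2843278578988744896) * u + 40673168334989217360) * u + 490095430165292108373) * u +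
    5022176232514028610357) * u + 44067874984785394598583) * u + 332675301727519309849725) * u +
    2166986882669804754411618) * u + 12195645744868328235027276) * u + 59290797131365631968423314)
    * u + 248581277664641797445569638) * u + 895803527533887811369775673) * u +
    2760533138567065090584911949) * u + 7221602853512475751781033139) * u +
    15876716925241216013272796961) * u + 28933406972302865754425766768) * u +
    42885360486944876224949079186) * u + 50328651666402713421911025684) * u +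
    44935126269301279226645175708) * u + 28628688182890319913415609584) * u +
    11568827523476312900637672240) * u + 2222238894545615313677457600 := by
    unfold q3; ring
  rw [h]; positivity

theorem f_q4 (u : ℝ) (hu : 0 ≤ u) : 0 < q4 (6 + u) := by
  have h : q4 (6 + u) =
    ((((((((((((((((((((((((((((4354560) * u + 715267584) * u + 56539054080) * u + 2864041141248) *
    u + 104454015751488) * u + 2921307997571520) * u + 65158542929718048) * u +
    1190105028351805440) * u + 18136172511516263418) * u + 233765682137105315478) * u +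
    2574415834025682810294) * u + 24405360084803063989104) * u + 200241105762685126718718) * u +
    1427252024395716321213600) * u + 8857419662833937514597150) * u + 47903427794281098862348494) *
    u + 225684813587146298024479542) * u + 924591537361096833932491650) * u +
    3283237698362798181253941330) * u + 10055672655980425473761631420) * u +
    26377052777737804372311281106) * u + 58687315385980047417954106188) * u +
    109296864796041801029823644922) * u + 167280475969135871845283426454) * u +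
    204982079050123836756891677664) * u + 193420004210008821134953449276) * u +
    131979559103035744476781365984) * u + 57975087548868255178296758640) * u +
    12312966227196203898323025600 := by
    unfold q4; ring
  rw [h]; positivity

theorem f_q5 (u : ℝ) (hu : 0 ≤ u) : 0 < q5 (6 + u) := by
  have h : q5 (6 + u) =
    (((((((((((((((((((((((((((((663552) * u + 116031744) * u + 9836596224) * u + 538544748672) * u
    + 21398281927872) * u + 657305106293184) * u + 16234210723806672) * u + 330985955183978760) * u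
    + 5674706252886056916) * u + 82915915916868207267) * u + 1042630816602077044275) * u +
    11363213285391397337463) * u + 107878473685641316036125) * u + 895145999436350591186166) * u +
    6504737098686927581561778) * u + 41423874623880825558991860) * u + 231076431996435681855942390)
    * u + 1127294244086207166771691179) * u + 4795737873443420525856408675) * u +
    17716431423180393901369138983) * u + 56502615526419699485439714657) * u +
    154361964407282349257948049936) * u + 357506765313605102193767418780) * u +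
    692270790928866313348808005926) * u + 1099796943186999008372934295800) * u +
    1395904865067021770608803585372) * u + 1360895543660293746638438338620) * u +
    956741749560985849846515478032) * u + 431695967860029647445075682320) * u +
    93878335440204705124480180800 := by
    unfold q5; ring
  rw [h]; positivity

theorem f_q6 (u : ℝ) (hu : 0 ≤ u) : 0 < q6 (6 + u) := by
  have h : q6 (6 + u) =
    ((((((((((((((((((((((((((((((41472) * u + 8487936) * u + 865817856) * u + 57920082048) * u +
    2826998569728) * u + 106485418581408) * u + 3205027456310448) * u + 78943513572133416) * u +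
    1619253547291725966) * u + 28026002885008814658) * u + 413503927104079686240) * u +
    5242035252044575960749) * u + 57445773632158031531442) * u + 546675041254333294017351) * u +
    4532270703723880328060316) * u + 32802241839222082275988470) * u + 207439677309061567880387676)
    * u + 1146047053465285227999037188) * u + 5524151219605362873578701752) * u +
    23172972761270081335494348621) * u + 84266336500557597671461537482) * u +
    264167991257596921029926007063) * u + 708575335066342953359467633908) * u +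
    1609795849507100216303767347708) * u + 3055656832480912672871042842602) * u +
    4756279320881400486064987322028) * u + 5912802825923618629988593687128) * u +
    5644999203735008531226678066540) * u + 3886042195262486272420895716800) * u +
    1717046585404435865410715754000) * u + 365693107635421234368481800000 := by
    unfold q6; ring
  rw [h]; positivity

theorem f_q7 (u : ℝ) (hu : 0 ≤ u) : 0 < q7 (6 + u) := by
  have h : q7 (6 + u) =
    ((((((((((((((((((((((((((((((145152) * u + 36834048) * u + 4200768000) * u + 294669818496) * u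
    + 14488409181984) * u + 536321906297184) * u + 15629214316034256) * u + 369533279156066040) * u
    + 7242379716002653335) * u + 119523263555765567475) * u + 1680666193420050685125) * u +
    20315493617748006191625) * u + 212514362539681486613598) * u + 1933275736924606440335910) * u +
    15347279375952425458313154) * u + 106543539012904206403806024) * u +
    647429097637733600033653179) * u + 3443038999933868372032877241) * u +
    16002533074518479243216780109) * u + 64834875070418791928453268981) * u +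
    228074418285680878301224854456) * u + 692723404406416270082635371948) * u +
    1802826386117818151821471107744) * u + 3979490647257862353976573456062) * u +
    7348878239065825316705149409976) * u + 11142587353381219979640408490434) * u +
    13509194667268318894930111312044) * u + 12592341577749087368245289463252) * u +
    8472688398746120276586308473488) * u + 3662757674843027187944615550480) * u +
    763966891034818994271366619200 := by
    unfold q7; ring
  rw [h]; positivity

theorem f_q8 (u : ℝ) (hu : 0 ≤ u) : 0 < q8 (6 + u) := by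
  have h : q8 (6 + u) =
    ((((((((((((((((((((((((((((((1078272) * u + 205949952) * u + 18988379136) * u + 1125478409472)
    * u + 48185457937344) * u + 1587322534172736) * u + 41848391912584512) * u +
    906784074451032240) * u + 16456923684443981784) * u + 253652129478906514368) * u +
    3354886093354904198466) * u + 38375372631761914164540) * u + 381844889456292381429318) * u +
    3319015673337618931967406) * u + 25273232722554529430140416) * u + 168874273762335904640080038)
    * u + 990735344461649528379024720) * u + 5100511347063174287266824312) * u +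
    23004898281975766901936966634) * u + 90645625523779656381262054308) * u +
    310724484167440703798698499622) * u + 921282147104824151271119497902) * u +
    2344350608464188288557698206252) * u + 5067234916496942610012495024318) * u +
    9175349645806364599164917552604) * u + 13657741931900177090496473343516) * u +
    16274296083843837149257710529224) * u + 14924770127707735863616002686892) * u +
    9889245417178830479927777148336) * u + 4213767690468518121048167790960) * u +
    866977011182687760575112830400 := by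
    unfold q8; ring
  rw [h]; positivity

theorem f_q9 (u : ℝ) (hu : 0 ≤ u) : 0 < q9 (6 + u) := by
  have h : q9 (6 + u) =
    ((((((((((((((((((((((((((((((539136) * u + 104232960) * u + 9722640384) * u + 582747360768) *
    u + 25218135698112) * u + 839334623228064) * u + 22348685725815024) * u + 488901006609553296) *
    u + 8954876784084708186) * u + 139252261729363665966) * u + 1857639095115431848173) * u +
    21425482341042404975577) * u + 214902329637822114374595) * u + 1882469314862913375845505) * u +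
    14442367703241932358895521) * u + 97207658381667255737320125) * u +
    574327929319713070620803703) * u + 2977093115673544873344160665) * u +
    13517348684878443494827751931) * u + 53608212536065896468617992467) * u +
    184926212441290802687834633985) * u + 551675467325743320517756925427) * u +
    1412261541259899161649413158611) * u + 3070453608966690982513923142239) * u +
    5591574085883201093525340231099) * u + 8369794753453294699365386071317) * u +
    10027907572650024140058965488884) * u + 9245678923865445894699861594024) * u +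
    6158445503004340826964830115696) * u + 2637617319696516913545217022160) * u +
    545432502220630347707520206400 := by
    unfold q9; ring
  rw [h]; positivity

theorem f_q10 (u : ℝ) (hu : 0 ≤ u) : 0 < q10 (6 + u) := by
  have h : q10 (6 + u) =
    ((((((((((((((((((((((((((((((290304) * u + 55710720) * u + 5161432320) * u + 307453663872) * u
    + 13230459047424) * u + 438124479711072) * u + 11612927000164464) * u + 253019620215583560) * u
    + 4617876695811707730) * u + 71586353576220854262) * u + 952402607897529540948) * u +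
    10959669641489177038881) * u + 109719181663683280705800) * u + 959625213465492869900013) * u +
    7353483405390060733709760) * u + 49451098033391598806410941) * u + 292002890151300732147352452)
    * u + 1513191200545044375656889981) * u + 6870384617739542044490649024) * u +
    27253022581552055905983229083) * u + 94053110735538928455742663896) * u +
    280762587946112100128968267527) * u + 719338468533299189885710453728) * u +
    1565515391696598045741557919063) * u + 2854250742645503205894984345066) * u +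
    4277946934869029317685113958889) * u + 5132697626212663226998927228956) * u +
    4739519282870684709961964813736) * u + 3162025913353500306073606926048) * u +
    1356554445156137934838260683280) * u + 281011234790200899767629147200 := by
    unfold q10; ring
  rw [h]; positivity

theorem f_q11 (u : ℝ) (hu : 0 ≤ u) : 0 < -q11 (6 + u) := by
  have h : -q11 (6 + u) =
    ((((((((((((((((((((((((((((((20736) * u + 4071168) * u + 385747200) * u + 23491200384) * u +
    1033073450208) * u + 34947791635392) * u + 945938270284704) * u + 21038038638442488) * u +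
    391789547201902833) * u + 6194817322966985229) * u + 84029921843873480757) * u +
    985491134295881698845) * u + 10050926977884840626349) * u + 89519959905530884118973) * u +
    698284809793102712469345) * u + 4778193134437501395279897) * u + 28697952705002182072498131) *
    u + 151203626795413937727424395) * u + 697724273207918787022286703) * u +
    2811790036531388423861360631) * u + 9854607636086440361026679487) * u +
    29863282876773992009934805647) * u + 77642534619757457652620150811) * u +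
    171407477861389811033860890123) * u + 316891431313598236413501700272) * u +
    481439611704192291916876161756) * u + 585308074770635041121102858880) * u +
    547459791098910513651706687632) * u + 369838014145032610022829801984) * u +
    160606493528046943402022437440) * u + 33665368350440718072422841600 := by
    unfold q11; ring
  rw [h]; positivity

theorem h_q (u : ℝ) (hu : 0 ≤ u) : 0 < ((6 + u) + 3) * q10 (6 + u) + 75 * q11 (6 + u) := by
  have h : ((6 + u) + 3) * q10 (6 + u) + 75 * q11 (6 + u) =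
    (((((((((((((((((((((((((((((((290304) * u + 56768256) * u + 5357491200) * u + 324975514752) *
    u + 14235701993472) * u + 479718102372288) * u + 12934962944909712) * u + 286590592945710936) *
    u + 5317200379868773170) * u + 83763027798383511357) * u + 1132068490860993337131) * u +
    13229048974276431850638) * u + 134444373364894746642354) * u + 1193278325097279349276038) * u +
    9276113333664680253886902) * u + 63261087947419441974597906) * u + 378698287369012516759058646)
    * u + 1988870759031587309545702224) * u + 9148833412988896095845829228) * u +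
    36757163650614025279727567574) * u + 128446061229653299819989678318) * u +
    388145011859479429153651281066) * u + 1006455544290258690301314437946) * u +
    2216371512014481430766440691790) * u + 4088328428310649790029438857408) * u +
    6199346270158690439727345544083) * u + 7526249162219505192399240727257) * u +
    7035692310987025668869595458340) * u + 4758215126771374171853288677272) * u +
    2076936604460194937788487868912) * u + 444514226591921558160292488720) * u +
    4198486828754242476949204800 := by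
    unfold q10 q11; ring
  rw [h]; positivity

theorem posQ (p μ : ℝ) (hp : 6 ≤ p) (hm : 0 ≤ μ) (hV : (p + 3) * μ ≤ 75) :
    0 ≤ QQ p μ := by
  unfold QQ
  obtain ⟨u, rfl⟩ : ∃ u, p = 6 + u := ⟨p - 6, by ring⟩
  have hu : 0 ≤ u := by linarith
  have a0 := f_q0 u hu
  have a1 := f_q1 u hu
  have a2 := f_q2 u hu
  have a3 := f_q3 u hu
  have a4 := f_q4 u hu
  have a5 := f_q5 u hu
  have a6 := f_q6 u hu
  have a7 := f_q7 u hu
  have a8 := f_q8 u hu
  have a9 := f_q9 u hu
  have a10 := f_q10 u hu
  have a11 := f_q11 u hu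
  have b := h_q u hu
  generalize (6 + u) = p at *
  have hq : 0 < p + 3 := by linarith
  have c : 0 < q10 p + q11 p * μ := by
    refine pos_of_mul_pos_right (a := p + 3) ?_ hq.le
    have : (p + 3) * (q10 p + q11 p * μ) = ((p + 3) * q10 p + 75 * q11 p) +
        (-q11 p) * (75 - (p + 3) * μ) := by ring
    rw [this]
    have := mul_nonneg a11.le (sub_nonneg.mpr hV)
    linarith
  have t : 0 ≤ (q10 p + q11 p * μ) * μ ^ 10 := mul_nonneg c.le (by positivity)
  have s : 0 ≤ q0 p + q1 p * μ + q2 p * μ ^ 2 + q3 p * μ ^ 3 + q4 p * μ ^ 4 + q5 p * μ ^ 5 + q6 p * μ ^ 6 + q7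
    p * μ ^ 7 + q8 p * μ ^ 8 + q9 p * μ ^ 9 := by positivity
  linarith

theorem main (p : ℝ) (hp : 6 ≤ p) (s : ℝ) (hs : 1 ≤ s) (hsV : s ≤ 75) : ∃ H ν m : ℝ,
      (∀ γ : ℕ → ℝ, H * γ 0 ^ 2 ≤ TT 3 γ + ν * Lam (1 / p) 3 γ + m * γ 3 ^ 2) ∧
      0 ≤ 1 + (p - 2) / p * m ∧
      2 * s + (p - 2) * (1 + ν + (m + 2 * m ^ 2 / p)) ≤ ((p - 2) * H + p) * s ^ (2 / p) := by
  obtain ⟨h1, h2, h3⟩ := pos0 p hp
  have hp0 : 0 < p := by linarith
  obtain ⟨x, hx⟩ : ∃ x, x = (s - 1) * d0 p / n1 p := ⟨_, rfl⟩
  have hx0 : 0 ≤ x := by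
    rw [hx]
    exact div_nonneg (mul_nonneg (by linarith) h2.le) h1.le
  have hx1 : n1 p * x = (s - 1) * d0 p := by
    rw [hx]
    field_simp
  have hxV : (p + 3) * x ≤ 75 := by
    have e1 : (p + 3) * d0 p * x ≤ n1 p * x := mul_le_mul_of_nonneg_right h3 hx0
    have e3 : (s - 1) * d0 p ≤ 75 * d0 p := mul_le_mul_of_nonneg_right (by linarith) h2.le
    have e2 : (p + 3) * x * d0 p ≤ 75 * d0 p := by linarith
    exact le_of_mul_le_mul_right e2 h2
  have hSS : ∀ t, SS p t = d0 p + n1 p * t := by
    intro t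
    unfold SS s0 s1 d0 n1
    ring
  have hsx' : SS p x / d0 p = s := by
    rw [hSS, hx1]
    field_simp
    ring
  have hreg : ∀ t ∈ uIcc 0 x, 0 ≤ t ∧ (p + 3) * t ≤ 75 := by
    intro t ht
    rw [uIcc_of_le hx0] at ht
    refine ⟨ht.1, ?_⟩
    have := mul_le_mul_of_nonneg_left ht.2 (show 0 ≤ p + 3 by linarith)
    linarith
  have hM : ∀ t, 0 ≤ t → 0 < MM p t := by
    intro t ht
    rw [MM_eq]
    positivity
  have hMx := hM x hx0
  have hND : N3 p x / D3 p x = -(2 * x) / MM p x := by
    rw [MM_eq]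
    rfl
  have hD : 0 < D0 p x := by
    unfold D0
    exact mul_pos one_pos (E0_pos p x hp hx0)
  refine ⟨N0 p x / D0 p x, x * (n1 p / d0 p), -(2 * x) / MM p x, fun γ => ?_, ?_, ?_⟩
  · have := low p x hp hx0 γ
    rwa [hND] at this
  · have e1 : 0 ≤ (p - 2) / p := div_nonneg (by linarith) hp0.le
    have e2 : (p - 2) / p ≤ 1 := by rw [div_le_one hp0]; linarith
    have e3 : -1 ≤ -(2 * x) / MM p x := by
      rw [le_div_iff₀ hMx, MM_eq]
      nlinarith
    nlinarith
  · have hA2 : (p - 2) * (N0 p x / D0 p x) + p = AA p x / D0 p x := by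
      rw [AA_eq]
      field_simp
    rw [hA2]
    obtain ⟨cB, hcB⟩ : ∃ cB, cB = p * d0 p := ⟨_, rfl⟩
    have hcB0 : 0 < cB := by rw [hcB]; positivity
    have key := cmpW (2 / p) x (fun t => SS p t / d0 p) (fun t => AA p t * MM p t ^ 2)
      (fun t => BB p t * DD p t / cB) (fun t => SS' p t / d0 p)
      (fun t => AA' p t * MM p t ^ 2 + AA p t * (2 * MM p t * MM' p t))
      (fun t => (BB' p t * DD p t + BB p t * DD' p t) / cB)
      (by
        simp only [hSS, mul_zero, add_zero]
        exact div_self h2.ne')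
      (by
        have e1 := BB_eq p 0 hp le_rfl
        rw [hSS] at e1
        have hM0 := hM 0 le_rfl
        have e3 : BB p 0 = cB * p * MM p 0 ^ 2 := by
          rw [e1, hcB]
          field_simp
          ring
        have e4 : AA p 0 = p * DD p 0 := by
          unfold AA DD A0 A1 A2 A3 A4 D_0 D_1 D_2 D_3 D_4
          ring
        simp only [e3, e4]
        field_simp)
      (fun t ht => by
        have := (hreg t ht).1
        simp only [hSS]
        positivity)
      (fun t ht => mul_pos (posAA p t hp (hreg t ht).1) (pow_pos (hM t (hreg t ht).1) 2))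
      (fun t => (hd_SS p t).div_const _)
      (fun t => by
        have e := (hd_AA p t).mul ((hd_MM p t).pow 2)
        refine e.congr_deriv ?_
        norm_num)
      (fun t => ((hd_BB p t).mul (hd_DD p t)).div_const _)
      (by
        intro t ht
        have e1 := ident p t
        have e2 := posQ p t hp (hreg t ht).1 (hreg t ht).2
        have hMt := hM t (hreg t ht).1
        have e3 : t * (((AA' p t * MM p t ^ 2 + AA p t * (2 * MM p t * MM' p t)) *
            (BB p t * DD p t / cB) - AA p t * MM p t ^ 2 *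
            ((BB' p t * DD p t + BB p t * DD' p t) / cB)) * (SS p t / d0 p) +
            2 / p * (AA p t * MM p t ^ 2 * (BB p t * DD p t / cB) * (SS' p t / d0 p))) =
            t ^ 2 * (p ^ 1 * QQ p t) * MM p t / (p * cB * d0 p) := by
          have : t ^ 2 * (p ^ 1 * QQ p t) = t * (t * (p ^ 1 * QQ p t)) := by ring
          rw [this, ← e1]
          generalize AA p t = v1
          generalize AA' p t = v2
          generalize BB p t = v3
          generalize BB' p t = v4
          generalize DD p t = v5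
          generalize DD' p t = v6
          generalize SS p t = v7
          generalize SS' p t = v8
          generalize d0 p = v9 at *
          generalize MM p t = v10 at *
          generalize MM' p t = v11
          field_simp
          try ring
        rw [e3]
        positivity)
    try simp only at key
    rw [hsx', DD_eq] at key
    have e1 := BB_eq p x hp hx0
    rw [hsx', ← hcB] at e1
    have e5 : BB p x * D0 p x / cB = (2 * s + (p - 2) * (1 + x * (n1 p / d0 p) +
        ((-(2 * x) / MM p x) + 2 * (-(2 * x) / MM p x) ^ 2 / p))) * D0 p x * MM p x ^ 2 := by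
      rw [e1]
      generalize (2 * s + (p - 2) * (1 + x * (n1 p / d0 p) +
        ((-(2 * x) / MM p x) + 2 * (-(2 * x) / MM p x) ^ 2 / p))) = Z
      field_simp
    rw [e5] at key
    rw [div_mul_eq_mul_div, le_div_iff₀ hD]
    have e6 : AA p x * MM p x ^ 2 * s ^ (2 / p) = AA p x * s ^ (2 / p) * MM p x ^ 2 := by ring
    rw [e6] at key
    exact le_of_mul_le_mul_right key (pow_pos hMx 2)

end Pos

noncomputable def aA (p : ℝ) : ℝ :=
    ((((12) * p) * p + 51) * p) * p + 9
noncomputable def bB (p : ℝ) : ℝ :=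
    (((6) * p - 13) * p + 3) * p - 2
theorem f_bB (u : ℝ) (hu : 0 ≤ u) : 0 < bB (6 + u) := by
  have h : bB (6 + u) =
    (((6) * u + 95) * u + 495) * u + 844 := by
    unfold bB; ring
  rw [h]; positivity

theorem f_bm (u : ℝ) (hu : 0 ≤ u) : 0 < (750 * (6 + u) ^ 3 + 6450 * (6 + u) ^ 2 + 27735 * (6 + u) + 79507) * d0 (6 + u) * bB (6 + u) ^ 2 -
    750 * (6 + u) ^ 3 * (n1 (6 + u) * aA (6 + u) * (3 * (6 + u) - 1)) := by
  have h : (750 * (6 + u) ^ 3 + 6450 * (6 + u) ^ 2 + 27735 * (6 + u) + 79507) * d0 (6 + u) * bB (6 + u) ^ 2 -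
    750 * (6 + u) ^ 3 * (n1 (6 + u) * aA (6 + u) * (3 * (6 + u) - 1)) =
    (((((((((((((410400) * u + 32573520) * u + 1184660304) * u + 26060980872) * u + 385832430318) *
    u + 4048030830029) * u + 30861290926680) * u + 172347460597879) * u + 700575084322590) * u +
    2026548821970459) * u + 3982285595091588) * u + 4849459334417977) * u + 2967377629701864) * u +
    407865348925520 := by
    unfold bB d0 n1 aA; ring
  rw [h]; positivity

theorem up (p : ℝ) (hp : 6 ≤ p) (γ : ℕ → ℝ) (h0 : 0 ≤ γ 0) (hn : γ 3 ^ 2 ≤ γ 0 ^ 2)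
    (hΛ : Lam (1 / p) 3 γ = 1) : γ 0 ^ 2 ≤ 1 + 43/5 / p + (43/5 / p) ^ 2 / 2 + (43/5 / p) ^ 3 / 6 := by
  obtain ⟨h1, h2, h3⟩ := pos0 p hp
  have ha0 : 0 < p - 1 := by linarith
  have ha1 : 0 < 2 * p - 1 := by linarith
  have ha2 : 0 < 3 * p - 1 := by linarith
  have hn0 : p - 1 ≠ 0 := by have := ha0.ne'; exact this
  have hn1 : p * 2 - 1 ≠ 0 := by have := ha1.ne'; rwa [mul_comm] at this
  have hn2 : p * 3 - 1 ≠ 0 := by have := ha2.ne'; rwa [mul_comm] at this
  have hb1 : 0 < p + 1 := by linarith
  have hb2 : 0 < 2 * p + 1 := by linarith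
  have hp0 : 0 < p := by linarith
  have hB : 0 < bB p := by
    obtain ⟨u, rfl⟩ : ∃ u, p = 6 + u := ⟨p - 6, by ring⟩
    exact f_bB u (by linarith)
  have hP : 0 < (750 * p ^ 3 + 6450 * p ^ 2 + 27735 * p + 79507) * d0 p * bB p ^ 2 -
    750 * p ^ 3 * (n1 p * aA p * (3 * p - 1)) := by
    obtain ⟨u, rfl⟩ : ∃ u, p = 6 + u := ⟨p - 6, by ring⟩
    exact f_bm u (by linarith)
  have c0 : P.cc (1 / p) 0 = (p - 1) / p := by
    have : P.cc (1 / p) 0 = 1 - 1 / p := rfl
    rw [this]
    field_simp
  have c1 : P.cc (1 / p) 1 = 1 / (p) := by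
    rw [cc_step p (by linarith), c0]
    push_cast
    norm_num
    field_simp
    try ring
  have c2 : P.cc (1 / p) 2 = (p + 1) / (p * (2 * p - 1)) := by
    rw [cc_step p (by linarith), c1]
    push_cast
    norm_num
    field_simp
    try ring
  have c3 : P.cc (1 / p) 3 = ((p + 1) * (2 * p + 1)) / (p * (2 * p - 1) * (3 * p - 1)) := by
    rw [cc_step p (by linarith), c2]
    push_cast
    norm_num
    field_simp
    try ring
  have hσ0 : 0 < 1 / p := by positivity
  have hσ1 : 1 / p < 1 := by rw [div_lt_one hp0]; linarith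
  have hdiff : P.cc (1 / p) 0 - P.cc (1 / p) 3 = bB p / (p * ((2 * p - 1) * (3 * p - 1))) := by
    rw [c0, c3]
    unfold bB
    field_simp
    ring
  have hcc : P.cc (1 / p) 3 ≤ P.cc (1 / p) 0 := by
    have : 0 < bB p / (p * ((2 * p - 1) * (3 * p - 1))) := by positivity
    linarith
  have hb := bm0 (1 / p) hσ0 hσ1 γ 3 (by norm_num) hΛ h0 hn hcc
  have hS : ∑ j ∈ range 3, P.cc (1 / p) j ^ 2 * ((2 * (j : ℝ) + 1) *
      (((j : ℝ) + 1 / p) / ((j : ℝ) + 1 - 1 / p))) = aA p / (p ^ 2 * (2 * p - 1) ^ 2 * (3 * p - 1)) := by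
    simp only [frac_p p (show 2 < p by linarith)]
    rw [sum_range_succ, sum_range_succ, sum_range_one, c0, c1, c2]
    unfold aA
    push_cast
    norm_num
    field_simp
    ring
  rw [hS, KK_eq p hp, hdiff] at hb
  obtain ⟨x, hx⟩ : ∃ x, x = γ 0 := ⟨_, rfl⟩
  rw [← hx] at hb ⊢
  obtain ⟨a, ha⟩ : ∃ a, a = 3 * p - 1 := ⟨_, rfl⟩
  obtain ⟨r, hr⟩ : ∃ r, r = (2 * p - 1) := ⟨_, rfl⟩
  have ha0 : 0 < a := by rw [ha]; linarith
  have hr0 : 0 < r := by rw [hr]; positivity
  have e1 : (p * ((2 * p - 1) * (3 * p - 1))) = p * r * a := by rw [ha, hr]; try ring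
  have e2 : p ^ 2 * (2 * p - 1) ^ 2 * (3 * p - 1) = p ^ 2 * r ^ 2 * a := by rw [ha, hr]; try ring
  rw [e1, e2] at hb
  rw [← ha] at hP
  have e3 : (bB p / (p * r * a) * x) ^ 2 = bB p ^ 2 * x ^ 2 / (p ^ 2 * r ^ 2 * a ^ 2) := by
    field_simp
  have e4 : n1 p / d0 p * (aA p / (p ^ 2 * r ^ 2 * a)) =
      (n1 p * aA p * a / d0 p) / (p ^ 2 * r ^ 2 * a ^ 2) := by
    field_simp
  rw [e3, e4, div_le_div_iff_of_pos_right (by positivity), le_div_iff₀ h2] at hb
  have hrw : 1 + 43/5 / p + (43/5 / p) ^ 2 / 2 + (43/5 / p) ^ 3 / 6 = (750 * p ^ 3 + 6450 * p ^ 2 + 27735 * p + 79507) / (750 * p ^ 3) := by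
    field_simp
    ring
  rw [hrw, le_div_iff₀ (by positivity)]
  have hX : 0 < d0 p * bB p ^ 2 := by positivity
  have h9 : x ^ 2 * (750 * p ^ 3) * (d0 p * bB p ^ 2) ≤ (750 * p ^ 3 + 6450 * p ^ 2 + 27735 * p + 79507) * (d0 p * bB p ^ 2) := by
    have h10 := mul_le_mul_of_nonneg_left hb (show 0 ≤ 750 * p ^ 3 by positivity)
    linarith
  exact le_of_mul_le_mul_right h9 hX

theorem exp_bd : Real.exp (43/5 / 2) ≤ 75 := by
  have h4 : Real.exp (43/5 / 2) ^ 10 ≤ (75 : ℝ) ^ 10 := by
    rw [← Real.exp_nat_mul]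
    have h5 : ((10 : ℕ) : ℝ) * (43/5 / 2) = ((43 : ℕ) : ℝ) * 1 := by norm_num
    rw [h5, Real.exp_nat_mul]
    have h6 := Real.exp_one_lt_d9
    have h7 : Real.exp 1 ^ 43 ≤ 2.7182818286 ^ 43 := pow_le_pow_left₀ (Real.exp_pos 1).le h6.le 43
    refine h7.trans ?_
    norm_num
  exact le_of_pow_le_pow_left₀ (by norm_num) (by norm_num) h4

theorem tay (x : ℝ) (hx : 0 ≤ x) : 1 + x + x ^ 2 / 2 + x ^ 3 / 6 ≤ Real.exp x := by
  have h := Real.sum_le_exp_of_nonneg hx 4
  simp only [sum_range_succ, sum_range_zero, Nat.factorial] at h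
  norm_num at h
  linarith

theorem main (p : ℝ) (hp : 6 ≤ p) : Star 3 p := by
  refine fin2 3 (by norm_num) p 75 (by linarith) (fun s hs hs1 => ?_) (by norm_num)
    (fun γ h0 hn hΛ => ?_)
  · rcases le_total s 1 with h | h
    · exact Neg.main p hp s hs h
    · exact Pos.main p hp s h hs1
  · have hp0 : 0 < p := by linarith
    have h1 := up p hp γ h0 hn hΛ
    have hx : 0 ≤ (43/5 : ℝ) / p := by positivity
    have h2 : γ 0 ^ 2 ≤ Real.exp (43/5 / p) := by
      have h3 := tay _ hx
      have h4 : 0 ≤ ((43/5 : ℝ) / p) ^ 3 / 6 := by positivity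
      linarith
    have h5 : (γ 0 ^ 2) ^ (p / 2) ≤ Real.exp (43/5 / p) ^ (p / 2) :=
      Real.rpow_le_rpow (sq_nonneg _) h2 (by positivity)
    rw [← Real.exp_mul, show 43/5 / p * (p / 2) = 43/5 / 2 by field_simp] at h5
    exact h5.trans exp_bd

end Pool.Agent.H41.Beur.T3

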