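import Pool.Agent.H41.Beur.T4N
import Pool.Agent.H41.Beur.T4P

/-!
# The pointwise inequality for n = 4, p ≥ 10 (helper41)
-/

set_option autoImplicit false
set_option maxHeartbeats 4000000
set_option maxRecDepth 100000

open Finset Set

namespace Pool.Agent.H41.Beur.T4

open Pool.Agent.H41.Beur Pool.Agent.H41.Beur.Gen Pool.Agent.H41.Beur.Gen2 Pool.Agent.Y282.RB

noncomputable def aA (p : ℝ) : ℝ :=
    ((((((144) * p) * p + 904) * p) * p + 376) * p) * p + 16
noncomputable def bB (p : ℝ) : ℝ :=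
    ((((24) * p - 56) * p + 24) * p - 16) * p ^ 1
theorem f_bB (u : ℝ) (hu : 0 ≤ u) : 0 < bB (10 + u) := by
  have h : bB (10 + u) =
    ((((24) * u + 904) * u + 12744) * u + 79664) * u + 186240 := by
    unfold bB; ring
  rw [h]; positivity

theorem f_bm (u : ℝ) (hu : 0 ≤ u) : 0 < (2 * (10 + u) ^ 2 + 20 * (10 + u) + 100) * d0 (10 + u) * bB (10 + u) ^ 2 -
    2 * (10 + u) ^ 2 * (n1 (10 + u) * aA (10 + u) * (4 * (10 + u) - 1)) := by
  have h : (2 * (10 + u) ^ 2 + 20 * (10 + u) + 100) * d0 (10 + u) * bB (10 + u) ^ 2 -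
    2 * (10 + u) ^ 2 * (n1 (10 + u) * aA (10 + u) * (4 * (10 + u) - 1)) =
    ((((((((((((((((276480) * u + 45066240) * u + 3410017920) * u + 159095642880) * u +
    5124456275200) * u + 120847511668480) * u + 2158229431927040) * u + 29766531322677760) * u +
    320244447327384320) * u + 2694220937978110720) * u + 17644141243711177600) * u +
    88842995919831717120) * u + 336327915135046805760) * u + 921909973603306936320) * u +
    1715775726696807859200) * u + 1919200499838563328000) * u + 956221751573038080000 := by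
    unfold bB d0 n1 aA; ring
  rw [h]; positivity

theorem up (p : ℝ) (hp : 10 ≤ p) (γ : ℕ → ℝ) (h0 : 0 ≤ γ 0) (hn : γ 4 ^ 2 ≤ γ 0 ^ 2)
    (hΛ : Lam (1 / p) 4 γ = 1) : γ 0 ^ 2 ≤ 1 + 10 / p + (10 / p) ^ 2 / 2 := by
  obtain ⟨h1, h2, h3⟩ := pos0 p hp
  have ha0 : 0 < p - 1 := by linarith
  have ha1 : 0 < 2 * p - 1 := by linarith
  have ha2 : 0 < 3 * p - 1 := by linarith
  have ha3 : 0 < 4 * p - 1 := by linarith
  have hn0 : p - 1 ≠ 0 := by have := ha0.ne'; exact this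
  have hn1 : p * 2 - 1 ≠ 0 := by have := ha1.ne'; rwa [mul_comm] at this
  have hn2 : p * 3 - 1 ≠ 0 := by have := ha2.ne'; rwa [mul_comm] at this
  have hn3 : p * 4 - 1 ≠ 0 := by have := ha3.ne'; rwa [mul_comm] at this
  have hb1 : 0 < p + 1 := by linarith
  have hb2 : 0 < 2 * p + 1 := by linarith
  have hb3 : 0 < 3 * p + 1 := by linarith
  have hp0 : 0 < p := by linarith
  have hB : 0 < bB p := by
    obtain ⟨u, rfl⟩ : ∃ u, p = 10 + u := ⟨p - 10, by ring⟩
    exact f_bB u (by linarith)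
  have hP : 0 < (2 * p ^ 2 + 20 * p + 100) * d0 p * bB p ^ 2 -
    2 * p ^ 2 * (n1 p * aA p * (4 * p - 1)) := by
    obtain ⟨u, rfl⟩ : ∃ u, p = 10 + u := ⟨p - 10, by ring⟩
    exact f_bm u (by linarith)
  have c0 : P.cc (1 / p) 0 = (p - 1) / p := by
    have : P.cc (1 / p) 0 = 1 - 1 / p := rfl
    rw [this]
    field_simp
  have c1 : P.cc (1 / p) 1 = 1 / (p) := by
    rw [cc_step p (by linarith), c0]
    push_cast
    norm_num
    field_simp
    try ring
  have c2 : P.cc (1 / p) 2 = (p + 1) / (p * (2 * p - 1)) := by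
    rw [cc_step p (by linarith), c1]
    push_cast
    norm_num
    field_simp
    try ring
  have c3 : P.cc (1 / p) 3 = ((p + 1) * (2 * p + 1)) / (p * (2 * p - 1) * (3 * p - 1)) := by
    rw [cc_step p (by linarith), c2]
    push_cast
    norm_num
    field_simp
    try ring
  have c4 : P.cc (1 / p) 4 = ((p + 1) * (2 * p + 1) * (3 * p + 1)) / (p * (2 * p - 1) * (3 * p - 1) * (4 * p - 1)) := by
    rw [cc_step p (by linarith), c3]
    push_cast
    norm_num
    field_simp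
    try ring
  have hσ0 : 0 < 1 / p := by positivity
  have hσ1 : 1 / p < 1 := by rw [div_lt_one hp0]; linarith
  have hdiff : P.cc (1 / p) 0 - P.cc (1 / p) 4 = bB p / (p * ((2 * p - 1) * (3 * p - 1) * (4 * p - 1))) := by
    rw [c0, c4]
    unfold bB
    field_simp
    ring
  have hcc : P.cc (1 / p) 4 ≤ P.cc (1 / p) 0 := by
    have : 0 < bB p / (p * ((2 * p - 1) * (3 * p - 1) * (4 * p - 1))) := by positivity
    linarith
  have hb := bm0 (1 / p) hσ0 hσ1 γ 4 (by norm_num) hΛ h0 hn hcc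
  have hS : ∑ j ∈ range 4, P.cc (1 / p) j ^ 2 * ((2 * (j : ℝ) + 1) *
      (((j : ℝ) + 1 / p) / ((j : ℝ) + 1 - 1 / p))) = aA p / (p ^ 2 * (2 * p - 1) ^ 2 * (3 * p - 1) ^ 2 * (4 * p - 1)) := by
    simp only [frac_p p (show 2 < p by linarith)]
    rw [sum_range_succ, sum_range_succ, sum_range_succ, sum_range_one, c0, c1, c2, c3]
    unfold aA
    push_cast
    norm_num
    field_simp
    ring
  rw [hS, KK_eq p hp, hdiff] at hb
  obtain ⟨x, hx⟩ : ∃ x, x = γ 0 := ⟨_, rfl⟩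
  rw [← hx] at hb ⊢
  obtain ⟨a, ha⟩ : ∃ a, a = 4 * p - 1 := ⟨_, rfl⟩
  obtain ⟨r, hr⟩ : ∃ r, r = (2 * p - 1) * (3 * p - 1) := ⟨_, rfl⟩
  have ha0 : 0 < a := by rw [ha]; linarith
  have hr0 : 0 < r := by rw [hr]; positivity
  have e1 : (p * ((2 * p - 1) * (3 * p - 1) * (4 * p - 1))) = p * r * a := by rw [ha, hr]; try ring
  have e2 : p ^ 2 * (2 * p - 1) ^ 2 * (3 * p - 1) ^ 2 * (4 * p - 1) = p ^ 2 * r ^ 2 * a := by rw [ha, hr]; try ring
  rw [e1, e2] at hb
  rw [← ha] at hP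
  have e3 : (bB p / (p * r * a) * x) ^ 2 = bB p ^ 2 * x ^ 2 / (p ^ 2 * r ^ 2 * a ^ 2) := by
    field_simp
  have e4 : n1 p / d0 p * (aA p / (p ^ 2 * r ^ 2 * a)) =
      (n1 p * aA p * a / d0 p) / (p ^ 2 * r ^ 2 * a ^ 2) := by
    field_simp
  rw [e3, e4, div_le_div_iff_of_pos_right (by positivity), le_div_iff₀ h2] at hb
  have hrw : 1 + 10 / p + (10 / p) ^ 2 / 2 = (2 * p ^ 2 + 20 * p + 100) / (2 * p ^ 2) := by
    field_simp
    ring
  rw [hrw, le_div_iff₀ (by positivity)]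
  have hX : 0 < d0 p * bB p ^ 2 := by positivity
  have h9 : x ^ 2 * (2 * p ^ 2) * (d0 p * bB p ^ 2) ≤ (2 * p ^ 2 + 20 * p + 100) * (d0 p * bB p ^ 2) := by
    have h10 := mul_le_mul_of_nonneg_left hb (show 0 ≤ 2 * p ^ 2 by positivity)
    linarith
  exact le_of_mul_le_mul_right h9 hX

theorem exp_bd : Real.exp (10 / 2) ≤ 150 := by
  have h4 : Real.exp (10 / 2) ^ 1 ≤ (150 : ℝ) ^ 1 := by
    rw [← Real.exp_nat_mul]
    have h5 : ((1 : ℕ) : ℝ) * (10 / 2) = ((5 : ℕ) : ℝ) * 1 := by norm_num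
    rw [h5, Real.exp_nat_mul]
    have h6 := Real.exp_one_lt_d9
    have h7 : Real.exp 1 ^ 5 ≤ 2.7182818286 ^ 5 := pow_le_pow_left₀ (Real.exp_pos 1).le h6.le 5
    refine h7.trans ?_
    norm_num
  exact le_of_pow_le_pow_left₀ (by norm_num) (by norm_num) h4

theorem tay (x : ℝ) (hx : 0 ≤ x) : 1 + x + x ^ 2 / 2 + x ^ 3 / 6 ≤ Real.exp x := by
  have h := Real.sum_le_exp_of_nonneg hx 4
  simp only [sum_range_succ, sum_range_zero, Nat.factorial] at h
  norm_num at h
  linarith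

theorem main (p : ℝ) (hp : 10 ≤ p) : Star 4 p := by
  refine fin2 4 (by norm_num) p 150 (by linarith) (fun s hs hs1 => ?_) (by norm_num)
    (fun γ h0 hn hΛ => ?_)
  · rcases le_total s 1 with h | h
    · exact Neg.main p hp s hs h
    · exact Pos.main p hp s h hs1
  · have hp0 : 0 < p := by linarith
    have h1 := up p hp γ h0 hn hΛ
    have hx : 0 ≤ (10 : ℝ) / p := by positivity
    have h2 : γ 0 ^ 2 ≤ Real.exp (10 / p) := by
      have h3 := tay _ hx
      have h4 : 0 ≤ ((10 : ℝ) / p) ^ 3 / 6 := by positivity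
      linarith
    have h5 : (γ 0 ^ 2) ^ (p / 2) ≤ Real.exp (10 / p) ^ (p / 2) :=
      Real.rpow_le_rpow (sq_nonneg _) h2 (by positivity)
    rw [← Real.exp_mul, show 10 / p * (p / 2) = 10 / 2 by field_simp] at h5
    exact h5.trans exp_bd


end Pool.Agent.H41.Beur.T4
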