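import Pool.Agent.H41.Beur.Gen2

/-!
# The pointwise inequality for n = 4, p ≥ 10 (helper41)
-/

set_option autoImplicit false
set_option maxHeartbeats 4000000
set_option maxRecDepth 100000

open Finset Set

namespace Pool.Agent.H41.Beur.T4

open Pool.Agent.H41.Beur Pool.Agent.H41.Beur.Gen Pool.Agent.H41.Beur.Gen2 Pool.Agent.Y282.RB

noncomputable def n1 (p : ℝ) : ℝ :=
    (((((((144) * p + 528) * p - 328) * p - 384) * p + 152) * p + 48) * p - 16) * p ^ 2
noncomputable def d0 (p : ℝ) : ℝ :=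
    (((((((144) * p - 36) * p - 196) * p + 49) * p + 56) * p - 14) * p - 4) * p + 1
theorem f_n1 (u : ℝ) (hu : 0 ≤ u) : 0 < n1 (10 + u) := by
  have h : n1 (10 + u) =
    ((((((((144) * u + 12048) * u + 439832) * u + 9152736) * u + 118768952) * u + 984262128) * u +
    5087852624) * u + 15000622080) * u + 19315166400 := by
    unfold n1; ring
  rw [h]; positivity

theorem f_d0 (u : ℝ) (hu : 0 ≤ u) : 0 < d0 (10 + u) := by
  have h : d0 (10 + u) =
    (((((((144) * u + 10044) * u + 300044) * u + 4976249) * u + 49486016) * u + 295071066) * u +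
    976812516) * u + 1384944561 := by
    unfold d0; ring
  rw [h]; positivity

theorem f_nd (u : ℝ) (hu : 0 ≤ u) : 0 < n1 (10 + u) - ((10 + u) + 3) * d0 (10 + u) := by
  have h : n1 (10 + u) - ((10 + u) + 3) * d0 (10 + u) =
    (((((((132) * u + 9216) * u + 275915) * u + 4591699) * u + 45872854) * u + 275116250) * u +
    917114811) * u + 1310887107 := by
    unfold n1 d0; ring
  rw [h]; positivity

theorem pos0 (p : ℝ) (hp : 10 ≤ p) : 0 < n1 p ∧ 0 < d0 p ∧ (p + 3) * d0 p ≤ n1 p := by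
  obtain ⟨u, rfl⟩ : ∃ u, p = 10 + u := ⟨p - 10, by ring⟩
  have hu : 0 ≤ u := by linarith
  exact ⟨f_n1 u hu, f_d0 u hu, (sub_nonneg.mp (f_nd u hu).le)⟩

theorem KK_eq (p : ℝ) (hp : 10 ≤ p) : KK (1 / p) 4 = n1 p / d0 p := by
  have hd : d0 p = (p - 1) * (2 * p - 1) * (3 * p - 1) * (4 * p - 1) * (p + 1) * (2 * p + 1) * (3 * p + 1) := by
    unfold d0
    ring
  have ha0 : 0 < p - 1 := by linarith
  have ha1 : 0 < 2 * p - 1 := by linarith
  have ha2 : 0 < 3 * p - 1 := by linarith
  have ha3 : 0 < 4 * p - 1 := by linarith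
  have hn0 : p - 1 ≠ 0 := by have := ha0.ne'; exact this
  have hn1 : p * 2 - 1 ≠ 0 := by have := ha1.ne'; rwa [mul_comm] at this
  have hn2 : p * 3 - 1 ≠ 0 := by have := ha2.ne'; rwa [mul_comm] at this
  have hn3 : p * 4 - 1 ≠ 0 := by have := ha3.ne'; rwa [mul_comm] at this
  have hp0 : 0 < p := by linarith
  unfold KK
  rw [sum_range_succ, sum_range_succ, sum_range_succ, sum_range_one, hd]
  simp only [kk_p p (by linarith)]
  unfold n1
  push_cast
  norm_num
  field_simp
  ring


end Pool.Agent.H41.Beur.T4
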