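import Pool.Agent.H41.Beur.T4A

/-!
# The case n = 4, p ≥ 10: first variable below one (helper41)
-/

set_option autoImplicit false
set_option maxHeartbeats 4000000
set_option maxRecDepth 100000

open Finset Set

namespace Pool.Agent.H41.Beur.T4

open Pool.Agent.H41.Beur Pool.Agent.H41.Beur.Gen Pool.Agent.H41.Beur.Gen2 Pool.Agent.Y282.RB

namespace Neg

noncomputable def N4 (p μ : ℝ) : ℝ := -(1 * μ)
noncomputable def D4 (p μ : ℝ) : ℝ := 1
noncomputable def N3 (p μ : ℝ) : ℝ := 7 * μ * p ^ 2 * D4 p μ + (4 * p - 1) * N4 p μ * ((3 * p + 1) + μ * (4 * p - 1))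
noncomputable def E3 (p μ : ℝ) : ℝ := ((4 * p - 1) + μ * (3 * p + 1)) * D4 p μ + 7 * (4 * p - 1) * N4 p μ
noncomputable def D3 (p μ : ℝ) : ℝ := (3 * p + 1) * E3 p μ
noncomputable def N2 (p μ : ℝ) : ℝ := 5 * μ * p ^ 2 * D3 p μ + (3 * p - 1) * N3 p μ * ((2 * p + 1) + μ * (3 * p - 1))
noncomputable def E2 (p μ : ℝ) : ℝ := ((3 * p - 1) + μ * (2 * p + 1)) * D3 p μ + 5 * (3 * p - 1) * N3 p μ
noncomputable def D2 (p μ : ℝ) : ℝ := (2 * p + 1) * E2 p μ
noncomputable def N1 (p μ : ℝ) : ℝ := 3 * μ * p ^ 2 * D2 p μ + (2 * p - 1) * N2 p μ * ((p + 1) + μ * (2 * p - 1))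
noncomputable def E1 (p μ : ℝ) : ℝ := ((2 * p - 1) + μ * (p + 1)) * D2 p μ + 3 * (2 * p - 1) * N2 p μ
noncomputable def D1 (p μ : ℝ) : ℝ := (p + 1) * E1 p μ
noncomputable def N0 (p μ : ℝ) : ℝ := 1 * μ * p ^ 2 * D1 p μ + (p - 1) * N1 p μ * (1 + μ * (p - 1))
noncomputable def E0 (p μ : ℝ) : ℝ := ((p - 1) + μ * 1) * D1 p μ + 1 * (p - 1) * N1 p μ
noncomputable def D0 (p μ : ℝ) : ℝ := 1 * E0 p μ

noncomputable def e3_0 (p : ℝ) : ℝ :=
    (4) * p - 1
noncomputable def e3_1 (p : ℝ) : ℝ :=
    ((-25)) * p + 8
noncomputable def m3_1 (p : ℝ) : ℝ :=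
    (((-5)) * p - 1) * p + 1
noncomputable def m3_2 (p : ℝ) : ℝ :=
    (((-16)) * p + 8) * p - 1
noncomputable def e2_0 (p : ℝ) : ℝ :=
    (((36) * p - 9) * p - 4) * p + 1
noncomputable def e2_1 (p : ℝ) : ℝ :=
    ((((-276)) * p + 96) * p + 44) * p - 14
noncomputable def e2_2 (p : ℝ) : ℝ :=
    ((((-390)) * p + 123) * p - 40) * p + 13
noncomputable def m2_1 (p : ℝ) : ℝ :=
    ((((30) * p - 6) * p + 5) * p + 2) * p - 1
noncomputable def m2_2 (p : ℝ) : ℝ :=
    (((((-516)) * p + 48) * p + 68) * p - 16) * p + 2
noncomputable def m2_3 (p : ℝ) : ℝ :=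
    (((((-144)) * p + 168) * p - 73) * p + 14) * p - 1
noncomputable def e1_0 (p : ℝ) : ℝ :=
    (((((144) * p - 36) * p - 52) * p + 13) * p + 4) * p - 1
noncomputable def e1_1 (p : ℝ) : ℝ :=
    ((((((-852)) * p + 348) * p + 501) * p - 174) * p - 57) * p + 18
noncomputable def e1_2 (p : ℝ) : ℝ :=
    ((((((-5208)) * p + 1692) * p + 594) * p - 171) * p + 102) * p - 33
noncomputable def e1_3 (p : ℝ) : ℝ :=
    ((((((-1644)) * p + 516) * p - 1043) * p + 332) * p - 49) * p + 16
noncomputable def m1_1 (p : ℝ) : ℝ :=
    ((((((276) * p + 72) * p - 77) * p + 9) * p - 2) * p - 3) * p + 1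
noncomputable def m1_2 (p : ℝ) : ℝ :=
    (((((((-2568)) * p - 816) * p + 1326) * p + 18) * p - 129) * p + 24) * p - 3
noncomputable def m1_3 (p : ℝ) : ℝ :=
    (((((((-4692)) * p + 2016) * p - 141) * p - 543) * p + 264) * p - 39) * p + 3
noncomputable def m1_4 (p : ℝ) : ℝ :=
    (((((((-576)) * p + 1248) * p - 1108) * p + 516) * p - 133) * p + 18) * p - 1
noncomputable def e0_0 (p : ℝ) : ℝ :=
    (((((((144) * p - 36) * p - 196) * p + 49) * p + 56) * p - 14) * p - 4) * p + 1
noncomputable def e0_1 (p : ℝ) : ℝ :=
    ((((((((-576)) * p + 288) * p + 1312) * p - 524) * p - 608) * p + 208) * p + 64) * p - 20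
noncomputable def e0_2 (p : ℝ) : ℝ :=
    ((((((((-7776)) * p + 2592) * p + 7440) * p - 2322) * p - 312) * p + 60) * p - 168) * p + 54
noncomputable def e0_3 (p : ℝ) : ℝ :=
    ((((((((-6336)) * p + 2016) * p - 5072) * p + 1700) * p + 2224) * p - 688) * p + 160) * p - 52
noncomputable def e0_4 (p : ℝ) : ℝ :=
    ((((((((-576)) * p + 180) * p - 3484) * p + 1097) * p - 1360) * p + 434) * p - 52) * p + 17
noncomputable def m0_1 (p : ℝ) : ℝ :=
    ((((((((144) * p + 384) * p - 292) * p - 188) * p + 103) * p - 8) * p - 2) * p + 4) * p - 1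
noncomputable def m0_2 (p : ℝ) : ℝ :=
    (((((((((-576)) * p - 3552) * p + 2656) * p + 2704) * p - 1636) * p - 176) * p + 176) * p - 32)
    * p + 4
noncomputable def m0_3 (p : ℝ) : ℝ :=
    (((((((((-7776)) * p - 3888) * p + 9384) * p - 5184) * p + 690) * p + 1176) * p - 516) * p +
    72) * p - 6
noncomputable def m0_4 (p : ℝ) : ℝ :=
    (((((((((-6336)) * p + 9696) * p - 7568) * p - 1312) * p + 3116) * p - 1792) * p + 512) * p -
    64) * p + 4
noncomputable def m0_5 (p : ℝ) : ℝ :=
    (((((((((-576)) * p + 2400) * p - 4180) * p + 3980) * p - 2273) * p + 800) * p - 170) * p + 20)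
    * p - 1

theorem E3_eq (p μ : ℝ) : E3 p μ = e3_0 p + e3_1 p * μ := by
  unfold E3 D4 N4
  unfold e3_0 e3_1 
  ring
theorem N3_eq (p μ : ℝ) : N3 p μ = m3_1 p * μ + m3_2 p * μ ^ 2 := by
  unfold N3 D4 N4
  unfold m3_1 m3_2 
  ring
theorem E2_eq (p μ : ℝ) : E2 p μ = e2_0 p + e2_1 p * μ + e2_2 p * μ ^ 2 := by
  unfold E2 D3
  rw [E3_eq, N3_eq]
  unfold e2_0 e2_1 e2_2 e3_0 e3_1 m3_1 m3_2
  ring
theorem N2_eq (p μ : ℝ) : N2 p μ = m2_1 p * μ + m2_2 p * μ ^ 2 + m2_3 p * μ ^ 3 := by
  unfold N2 D3
  rw [E3_eq, N3_eq]
  unfold m2_1 m2_2 m2_3 e3_0 e3_1 m3_1 m3_2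
  ring
theorem E1_eq (p μ : ℝ) : E1 p μ = e1_0 p + e1_1 p * μ + e1_2 p * μ ^ 2 + e1_3 p * μ ^ 3 := by
  unfold E1 D2
  rw [E2_eq, N2_eq]
  unfold e1_0 e1_1 e1_2 e1_3 e2_0 e2_1 e2_2 m2_1 m2_2 m2_3
  ring
theorem N1_eq (p μ : ℝ) : N1 p μ = m1_1 p * μ + m1_2 p * μ ^ 2 + m1_3 p * μ ^ 3 + m1_4 p * μ ^ 4 := by
  unfold N1 D2
  rw [E2_eq, N2_eq]
  unfold m1_1 m1_2 m1_3 m1_4 e2_0 e2_1 e2_2 m2_1 m2_2 m2_3
  ring
theorem E0_eq (p μ : ℝ) : E0 p μ = e0_0 p + e0_1 p * μ + e0_2 p * μ ^ 2 + e0_3 p * μ ^ 3 + e0_4 p * μ ^ 4 := by
  unfold E0 D1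
  rw [E1_eq, N1_eq]
  unfold e0_0 e0_1 e0_2 e0_3 e0_4 e1_0 e1_1 e1_2 e1_3 m1_1 m1_2 m1_3 m1_4
  ring
theorem N0_eq (p μ : ℝ) : N0 p μ = m0_1 p * μ + m0_2 p * μ ^ 2 + m0_3 p * μ ^ 3 + m0_4 p * μ ^ 4 + m0_5 p * μ ^ 5 := by
  unfold N0 D1
  rw [E1_eq, N1_eq]
  unfold m0_1 m0_2 m0_3 m0_4 m0_5 e1_0 e1_1 e1_2 e1_3 m1_1 m1_2 m1_3 m1_4
  ring

noncomputable def bE30 (p : ℝ) : ℝ :=
    (4) * p - 1
noncomputable def bE31 (p : ℝ) : ℝ :=
    ((8) * p + 68) * p - 21

theorem fbE30 (u : ℝ) (hu : 0 ≤ u) : 0 < bE30 (10 + u) := by
  have h : bE30 (10 + u) =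
    (4) * u + 39 := by
    unfold bE30; ring
  rw [h]; positivity

theorem fbE31 (u : ℝ) (hu : 0 ≤ u) : 0 < bE31 (10 + u) := by
  have h : bE31 (10 + u) =
    ((8) * u + 228) * u + 1459 := by
    unfold bE31; ring
  rw [h]; positivity

theorem bidE3 (y0 y1 W μ : ℝ) : 2 * (y0 + y1 * μ) =
    (1 * y0) * (2 + W * μ) ^ 1 + (1 * y0 * W - 2 * y1) * (-μ) ^ 1 := by
  ring

theorem hbE30 (p : ℝ) : bE30 p = 1 * e3_0 p := by
  unfold bE30 e3_0
  ring
theorem hbE31 (p : ℝ) : bE31 p = 1 * e3_0 p * (2 * p + 5) - 2 * e3_1 p := by
  unfold bE31 e3_0 e3_1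
  ring

theorem idE3 (p μ : ℝ) : 2 * (e3_0 p + e3_1 p * μ) =
    bE30 p * (2 + (2 * p + 5) * μ) ^ 1 + bE31 p * (-μ) ^ 1 := by
  rw [hbE30, hbE31]
  exact bidE3 (e3_0 p) (e3_1 p) (2 * p + 5) μ

theorem posE3 (p μ : ℝ) (hp : 10 ≤ p) (hm : μ ≤ 0) (hμ : 0 ≤ 2 + (2 * p + 5) * μ) :
    0 < e3_0 p + e3_1 p * μ := by
  have h := idE3 p μ
  obtain ⟨u, rfl⟩ : ∃ u, p = 10 + u := ⟨p - 10, by ring⟩
  have hu : 0 ≤ u := by linarith
  have a0 := fbE30 u hu
  have a1 := fbE31 u hu
  generalize (10 + u) = p at *
  have hn : 0 ≤ -μ := by linarith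
  have hone : (-μ) * (2 * p + 5) + (2 + (2 * p + 5) * μ) = 2 := by ring
  generalize hw : 2 + (2 * p + 5) * μ = w at h hμ hone
  have t0 : 0 ≤ bE30 p * w ^ 1 := by positivity
  have t1 : 0 ≤ bE31 p * (-μ) ^ 1 := by positivity
  rcases hμ.eq_or_lt with h0 | h0
  · have hn2 : 0 < -μ := by
      by_contra hcon
      have : -μ = 0 := by linarith
      rw [this, ← h0] at hone
      norm_num at hone
    have s : 0 < bE31 p * (-μ) ^ 1 := by positivity
    linarith
  · have s : 0 < bE30 p * w ^ 1 := by positivity
    linarith

theorem E3_pos (p μ : ℝ) (hp : 10 ≤ p) (hm : μ ≤ 0) (hμ : 0 ≤ 2 + (2 * p + 5) * μ) : 0 < E3 p μ := by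
  rw [E3_eq]
  exact posE3 p μ hp hm hμ

noncomputable def bE20 (p : ℝ) : ℝ :=
    (((36) * p - 9) * p - 4) * p + 1
noncomputable def bE21 (p : ℝ) : ℝ :=
    ((((144) * p + 876) * p - 298) * p - 124) * p + 38
noncomputable def bE22 (p : ℝ) : ℝ :=
    (((((144) * p + 1788) * p + 1520) * p - 945) * p - 624) * p + 217

theorem fbE20 (u : ℝ) (hu : 0 ≤ u) : 0 < bE20 (10 + u) := by
  have h : bE20 (10 + u) =
    (((36) * u + 1071) * u + 10616) * u + 35061 := by
    unfold bE20; ring
  rw [h]; positivity

theorem fbE21 (u : ℝ) (hu : 0 ≤ u) : 0 < bE21 (10 + u) := by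
  have h : bE21 (10 + u) =
    ((((144) * u + 6636) * u + 112382) * u + 832716) * u + 2284998 := by
    unfold bE21; ring
  rw [h]; positivity

theorem fbE22 (u : ℝ) (hu : 0 ≤ u) : 0 < bE22 (10 + u) := by
  have h : bE22 (10 + u) =
    (((((144) * u + 8988) * u + 217040) * u + 2557455) * u + 14788476) * u + 33699477 := by
    unfold bE22; ring
  rw [h]; positivity

theorem bidE2 (y0 y1 y2 W μ : ℝ) : 4 * (y0 + y1 * μ + y2 * μ ^ 2) =
    (1 * y0) * (2 + W * μ) ^ 2 + (2 * y0 * W - 2 * y1) * (-μ) ^ 1 * (2 + W * μ) ^ 1 + (1 * y0 * W ^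
    2 - 2 * y1 * W + 4 * y2) * (-μ) ^ 2 := by
  ring

theorem hbE20 (p : ℝ) : bE20 p = 1 * e2_0 p := by
  unfold bE20 e2_0
  ring
theorem hbE21 (p : ℝ) : bE21 p = 2 * e2_0 p * (2 * p + 5) - 2 * e2_1 p := by
  unfold bE21 e2_0 e2_1
  ring
theorem hbE22 (p : ℝ) : bE22 p = 1 * e2_0 p * (2 * p + 5) ^ 2 - 2 * e2_1 p * (2 * p + 5) + 4 * e2_2 p := by
  unfold bE22 e2_0 e2_1 e2_2
  ring

theorem idE2 (p μ : ℝ) : 4 * (e2_0 p + e2_1 p * μ + e2_2 p * μ ^ 2) =
    bE20 p * (2 + (2 * p + 5) * μ) ^ 2 + bE21 p * (-μ) ^ 1 * (2 + (2 * p + 5) * μ) ^ 1 + bE22 p *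
    (-μ) ^ 2 := by
  rw [hbE20, hbE21, hbE22]
  exact bidE2 (e2_0 p) (e2_1 p) (e2_2 p) (2 * p + 5) μ

theorem posE2 (p μ : ℝ) (hp : 10 ≤ p) (hm : μ ≤ 0) (hμ : 0 ≤ 2 + (2 * p + 5) * μ) :
    0 < e2_0 p + e2_1 p * μ + e2_2 p * μ ^ 2 := by
  have h := idE2 p μ
  obtain ⟨u, rfl⟩ : ∃ u, p = 10 + u := ⟨p - 10, by ring⟩
  have hu : 0 ≤ u := by linarith
  have a0 := fbE20 u hu
  have a1 := fbE21 u hu
  have a2 := fbE22 u hu
  generalize (10 + u) = p at *
  have hn : 0 ≤ -μ := by linarith
  have hone : (-μ) * (2 * p + 5) + (2 + (2 * p + 5) * μ) = 2 := by ring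
  generalize hw : 2 + (2 * p + 5) * μ = w at h hμ hone
  have t0 : 0 ≤ bE20 p * w ^ 2 := by positivity
  have t1 : 0 ≤ bE21 p * (-μ) ^ 1 * w ^ 1 := by positivity
  have t2 : 0 ≤ bE22 p * (-μ) ^ 2 := by positivity
  rcases hμ.eq_or_lt with h0 | h0
  · have hn2 : 0 < -μ := by
      by_contra hcon
      have : -μ = 0 := by linarith
      rw [this, ← h0] at hone
      norm_num at hone
    have s : 0 < bE22 p * (-μ) ^ 2 := by positivity
    linarith
  · have s : 0 < bE20 p * w ^ 2 := by positivity
    linarith

theorem E2_pos (p μ : ℝ) (hp : 10 ≤ p) (hm : μ ≤ 0) (hμ : 0 ≤ 2 + (2 * p + 5) * μ) : 0 < E2 p μ := by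
  rw [E2_eq]
  exact posE2 p μ hp hm hμ

noncomputable def bE10 (p : ℝ) : ℝ :=
    (((((144) * p - 36) * p - 52) * p + 13) * p + 4) * p - 1
noncomputable def bE11 (p : ℝ) : ℝ :=
    ((((((864) * p + 3648) * p - 1548) * p - 1704) * p + 567) * p + 168) * p - 51
noncomputable def bE12 (p : ℝ) : ℝ :=
    (((((((1728) * p + 15024) * p + 1440) * p - 9864) * p - 9324) * p + 4455) * p + 1644) * p - 567
noncomputable def bE13 (p : ℝ) : ℝ :=
    ((((((((1152) * p + 15168) * p + 8656) * p - 43216) * p - 13072) * p - 3096) * p + 7741) * p +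
    4648) * p - 1813

theorem fbE10 (u : ℝ) (hu : 0 ≤ u) : 0 < bE10 (10 + u) := by
  have h : bE10 (10 + u) =
    (((((144) * u + 7164) * u + 142508) * u + 1416853) * u + 7040664) * u + 13989339 := by
    unfold bE10; ring
  rw [h]; positivity

theorem fbE11 (u : ℝ) (hu : 0 ≤ u) : 0 < bE11 (10 + u) := by
  have h : bE11 (10 + u) =
    ((((((864) * u + 55488) * u + 1476852) * u + 20864376) * u + 165100647) * u + 694108308) * u +
    1211674329 := by
    unfold bE11; ring
  rw [h]; positivity

theorem fbE12 (u : ℝ) (hu : 0 ≤ u) : 0 < bE12 (10 + u) := by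
  have h : bE12 (10 + u) =
    (((((((1728) * u + 135984) * u + 4531680) * u + 83078136) * u + 906316116) * u + 5890606335) *
    u + 21140237544) * u + 32340497373 := by
    unfold bE12; ring
  rw [h]; positivity

theorem fbE13 (u : ℝ) (hu : 0 ≤ u) : 0 < bE13 (10 + u) := by
  have h : bE13 (10 + u) =
    ((((((((1152) * u + 107328) * u + 4296016) * u + 96840944) * u + 1348090128) * u + 11889378024)
    * u + 64967111661) * u + 201315742668) * u + 271081402767 := by
    unfold bE13; ring
  rw [h]; positivity

theorem bidE1 (y0 y1 y2 y3 W μ : ℝ) : 8 * (y0 + y1 * μ + y2 * μ ^ 2 + y3 * μ ^ 3) =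
    (1 * y0) * (2 + W * μ) ^ 3 + (3 * y0 * W - 2 * y1) * (-μ) ^ 1 * (2 + W * μ) ^ 2 + (3 * y0 * W ^
    2 - 4 * y1 * W + 4 * y2) * (-μ) ^ 2 * (2 + W * μ) ^ 1 + (1 * y0 * W ^ 3 - 2 * y1 * W ^ 2 + 4 *
    y2 * W - 8 * y3) * (-μ) ^ 3 := by
  ring

theorem hbE10 (p : ℝ) : bE10 p = 1 * e1_0 p := by
  unfold bE10 e1_0
  ring
theorem hbE11 (p : ℝ) : bE11 p = 3 * e1_0 p * (2 * p + 5) - 2 * e1_1 p := by
  unfold bE11 e1_0 e1_1
  ring
theorem hbE12 (p : ℝ) : bE12 p = 3 * e1_0 p * (2 * p + 5) ^ 2 - 4 * e1_1 p * (2 * p + 5) + 4 * e1_2 p := by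
  unfold bE12 e1_0 e1_1 e1_2
  ring
theorem hbE13 (p : ℝ) : bE13 p = 1 * e1_0 p * (2 * p + 5) ^ 3 - 2 * e1_1 p * (2 * p + 5) ^ 2 + 4 * e1_2 p * (2 * p + 5) - 8 *
    e1_3 p := by
  unfold bE13 e1_0 e1_1 e1_2 e1_3
  ring

theorem idE1 (p μ : ℝ) : 8 * (e1_0 p + e1_1 p * μ + e1_2 p * μ ^ 2 + e1_3 p * μ ^ 3) =
    bE10 p * (2 + (2 * p + 5) * μ) ^ 3 + bE11 p * (-μ) ^ 1 * (2 + (2 * p + 5) * μ) ^ 2 + bE12 p *
    (-μ) ^ 2 * (2 + (2 * p + 5) * μ) ^ 1 + bE13 p * (-μ) ^ 3 := by
  rw [hbE10, hbE11, hbE12, hbE13]
  exact bidE1 (e1_0 p) (e1_1 p) (e1_2 p) (e1_3 p) (2 * p + 5) μ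

theorem posE1 (p μ : ℝ) (hp : 10 ≤ p) (hm : μ ≤ 0) (hμ : 0 ≤ 2 + (2 * p + 5) * μ) :
    0 < e1_0 p + e1_1 p * μ + e1_2 p * μ ^ 2 + e1_3 p * μ ^ 3 := by
  have h := idE1 p μ
  obtain ⟨u, rfl⟩ : ∃ u, p = 10 + u := ⟨p - 10, by ring⟩
  have hu : 0 ≤ u := by linarith
  have a0 := fbE10 u hu
  have a1 := fbE11 u hu
  have a2 := fbE12 u hu
  have a3 := fbE13 u hu
  generalize (10 + u) = p at *
  have hn : 0 ≤ -μ := by linarith
  have hone : (-μ) * (2 * p + 5) + (2 + (2 * p + 5) * μ) = 2 := by ring
  generalize hw : 2 + (2 * p + 5) * μ = w at h hμ hone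
  have t0 : 0 ≤ bE10 p * w ^ 3 := by positivity
  have t1 : 0 ≤ bE11 p * (-μ) ^ 1 * w ^ 2 := by positivity
  have t2 : 0 ≤ bE12 p * (-μ) ^ 2 * w ^ 1 := by positivity
  have t3 : 0 ≤ bE13 p * (-μ) ^ 3 := by positivity
  rcases hμ.eq_or_lt with h0 | h0
  · have hn2 : 0 < -μ := by
      by_contra hcon
      have : -μ = 0 := by linarith
      rw [this, ← h0] at hone
      norm_num at hone
    have s : 0 < bE13 p * (-μ) ^ 3 := by positivity
    linarith
  · have s : 0 < bE10 p * w ^ 3 := by positivity
    linarith

theorem E1_pos (p μ : ℝ) (hp : 10 ≤ p) (hm : μ ≤ 0) (hμ : 0 ≤ 2 + (2 * p + 5) * μ) : 0 < E1 p μ := by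
  rw [E1_eq]
  exact posE1 p μ hp hm hμ

noncomputable def bE00 (p : ℝ) : ℝ :=
    (((((((144) * p - 36) * p - 196) * p + 49) * p + 56) * p - 14) * p - 4) * p + 1
noncomputable def bE01 (p : ℝ) : ℝ :=
    ((((((((1152) * p + 3744) * p - 2864) * p - 6152) * p + 2476) * p + 2224) * p - 728) * p - 200)
    * p + 60
noncomputable def bE02 (p : ℝ) : ℝ :=
    (((((((((3456) * p + 23328) * p - 4704) * p - 41760) * p - 25488) * p + 27462) * p + 21120) * p
    - 9324) * p - 2832) * p + 966
noncomputable def bE03 (p : ℝ) : ℝ :=
    ((((((((((4608) * p + 47232) * p + 9280) * p - 193600) * p - 103520) * p + 126088) * p + 89708)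
    * p + 54064) * p - 42344) * p - 15736) * p + 6076
noncomputable def bE04 (p : ℝ) : ℝ :=
    (((((((((((2304) * p + 31680) * p + 17600) * p - 270160) * p - 385552) * p + 247284) * p +
    529812) * p + 22785) * p - 27800) * p - 55622) * p - 30380) * p + 13377

theorem fbE00 (u : ℝ) (hu : 0 ≤ u) : 0 < bE00 (10 + u) := by
  have h : bE00 (10 + u) =
    (((((((144) * u + 10044) * u + 300044) * u + 4976249) * u + 49486016) * u + 295071066) * u +
    976812516) * u + 1384944561 := by
    unfold bE00; ring
  rw [h]; positivity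

theorem fbE01 (u : ℝ) (hu : 0 ≤ u) : 0 < bE01 (10 + u) := by
  have h : bE01 (10 + u) =
    ((((((((1152) * u + 95904) * u + 3484816) * u + 72196408) * u + 932838876) * u + 7698269264) *
    u + 39628831592) * u + 116352556440) * u + 149187709260 := by
    unfold bE01; ring
  rw [h]; positivity

theorem fbE02 (u : ℝ) (hu : 0 ≤ u) : 0 < bE02 (10 + u) := by
  have h : bE02 (10 + u) =
    (((((((((3456) * u + 334368) * u + 14303136) * u + 355251360) * u + 5648518512) * u +
    59646673062) * u + 418434831600) * u + 1880963821476) * u + 4917497594688) * u + 5697745980246 := by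
    unfold bE02; ring
  rw [h]; positivity

theorem fbE03 (u : ℝ) (hu : 0 ≤ u) : 0 < bE03 (10 + u) := by
  have h : bE03 (10 + u) =
    ((((((((((4608) * u + 508032) * u + 24996160) * u + 723544000) * u + 13656616480) * u +
    175740954888) * u + 1562374314108) * u + 9479355330384) * u + 37578588284376) * u +
    87920566588584) * u + 92214035558316 := by
    unfold bE03; ring
  rw [h]; positivity

theorem fbE04 (u : ℝ) (hu : 0 ≤ u) : 0 < bE04 (10 + u) := by
  have h : bE04 (10 + u) =
    (((((((((((2304) * u + 285120) * u + 15857600) * u + 524033840) * u + 11446161648) * u +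
    173668010644) * u + 1869036747652) * u + 14275551119385) * u + 75868037175600) * u +
    267284264301378) * u + 561943278657180) * u + 534228939397377 := by
    unfold bE04; ring
  rw [h]; positivity

theorem bidE0 (y0 y1 y2 y3 y4 W μ : ℝ) : 16 * (y0 + y1 * μ + y2 * μ ^ 2 + y3 * μ ^ 3 + y4 * μ ^ 4) =
    (1 * y0) * (2 + W * μ) ^ 4 + (4 * y0 * W - 2 * y1) * (-μ) ^ 1 * (2 + W * μ) ^ 3 + (6 * y0 * W ^
    2 - 6 * y1 * W + 4 * y2) * (-μ) ^ 2 * (2 + W * μ) ^ 2 + (4 * y0 * W ^ 3 - 6 * y1 * W ^ 2 + 8 *
    y2 * W - 8 * y3) * (-μ) ^ 3 * (2 + W * μ) ^ 1 + (1 * y0 * W ^ 4 - 2 * y1 * W ^ 3 + 4 * y2 * W ^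
    2 - 8 * y3 * W + 16 * y4) * (-μ) ^ 4 := by
  ring

theorem hbE00 (p : ℝ) : bE00 p = 1 * e0_0 p := by
  unfold bE00 e0_0
  ring
theorem hbE01 (p : ℝ) : bE01 p = 4 * e0_0 p * (2 * p + 5) - 2 * e0_1 p := by
  unfold bE01 e0_0 e0_1
  ring
theorem hbE02 (p : ℝ) : bE02 p = 6 * e0_0 p * (2 * p + 5) ^ 2 - 6 * e0_1 p * (2 * p + 5) + 4 * e0_2 p := by
  unfold bE02 e0_0 e0_1 e0_2
  ring
theorem hbE03 (p : ℝ) : bE03 p = 4 * e0_0 p * (2 * p + 5) ^ 3 - 6 * e0_1 p * (2 * p + 5) ^ 2 + 8 * e0_2 p * (2 * p + 5) - 8 *
    e0_3 p := by
  unfold bE03 e0_0 e0_1 e0_2 e0_3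
  ring
theorem hbE04 (p : ℝ) : bE04 p = 1 * e0_0 p * (2 * p + 5) ^ 4 - 2 * e0_1 p * (2 * p + 5) ^ 3 + 4 * e0_2 p * (2 * p + 5) ^ 2 - 8
    * e0_3 p * (2 * p + 5) + 16 * e0_4 p := by
  unfold bE04 e0_0 e0_1 e0_2 e0_3 e0_4
  ring

theorem idE0 (p μ : ℝ) : 16 * (e0_0 p + e0_1 p * μ + e0_2 p * μ ^ 2 + e0_3 p * μ ^ 3 + e0_4 p * μ ^ 4) =
    bE00 p * (2 + (2 * p + 5) * μ) ^ 4 + bE01 p * (-μ) ^ 1 * (2 + (2 * p + 5) * μ) ^ 3 + bE02 p *
    (-μ) ^ 2 * (2 + (2 * p + 5) * μ) ^ 2 + bE03 p * (-μ) ^ 3 * (2 + (2 * p + 5) * μ) ^ 1 + bE04 p *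
    (-μ) ^ 4 := by
  rw [hbE00, hbE01, hbE02, hbE03, hbE04]
  exact bidE0 (e0_0 p) (e0_1 p) (e0_2 p) (e0_3 p) (e0_4 p) (2 * p + 5) μ

theorem posE0 (p μ : ℝ) (hp : 10 ≤ p) (hm : μ ≤ 0) (hμ : 0 ≤ 2 + (2 * p + 5) * μ) :
    0 < e0_0 p + e0_1 p * μ + e0_2 p * μ ^ 2 + e0_3 p * μ ^ 3 + e0_4 p * μ ^ 4 := by
  have h := idE0 p μ
  obtain ⟨u, rfl⟩ : ∃ u, p = 10 + u := ⟨p - 10, by ring⟩
  have hu : 0 ≤ u := by linarith
  have a0 := fbE00 u hu
  have a1 := fbE01 u hu
  have a2 := fbE02 u hu
  have a3 := fbE03 u hu
  have a4 := fbE04 u hu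
  generalize (10 + u) = p at *
  have hn : 0 ≤ -μ := by linarith
  have hone : (-μ) * (2 * p + 5) + (2 + (2 * p + 5) * μ) = 2 := by ring
  generalize hw : 2 + (2 * p + 5) * μ = w at h hμ hone
  have t0 : 0 ≤ bE00 p * w ^ 4 := by positivity
  have t1 : 0 ≤ bE01 p * (-μ) ^ 1 * w ^ 3 := by positivity
  have t2 : 0 ≤ bE02 p * (-μ) ^ 2 * w ^ 2 := by positivity
  have t3 : 0 ≤ bE03 p * (-μ) ^ 3 * w ^ 1 := by positivity
  have t4 : 0 ≤ bE04 p * (-μ) ^ 4 := by positivity
  rcases hμ.eq_or_lt with h0 | h0
  · have hn2 : 0 < -μ := by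
      by_contra hcon
      have : -μ = 0 := by linarith
      rw [this, ← h0] at hone
      norm_num at hone
    have s : 0 < bE04 p * (-μ) ^ 4 := by positivity
    linarith
  · have s : 0 < bE00 p * w ^ 4 := by positivity
    linarith

theorem E0_pos (p μ : ℝ) (hp : 10 ≤ p) (hm : μ ≤ 0) (hμ : 0 ≤ 2 + (2 * p + 5) * μ) : 0 < E0 p μ := by
  rw [E0_eq]
  exact posE0 p μ hp hm hμ

theorem minT (p μ x0 x1 x2 x3 x4 : ℝ) (hp : 10 ≤ p) (hm : μ ≤ 0) (hμ : 0 ≤ 2 + (2 * p + 5) * μ) :
    N0 p μ / D0 p μ * x0 ^ 2 ≤
      1 / 1 * ((x0 - x1) ^ 2 + μ * ((p - 1) / 1) * (x0 + 1 / (p - 1) * x1) ^ 2) +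
      1 / 3 * ((x1 - x2) ^ 2 + μ * ((2 * p - 1) / (p + 1)) * (x1 + (p + 1) / (2 * p - 1) * x2) ^ 2) +
      1 / 5 * ((x2 - x3) ^ 2 + μ * ((3 * p - 1) / (2 * p + 1)) * (x2 + (2 * p + 1) / (3 * p - 1) * x3) ^ 2) +
      1 / 7 * ((x3 - x4) ^ 2 + μ * ((4 * p - 1) / (3 * p + 1)) * (x3 + (3 * p + 1) / (4 * p - 1) * x4) ^ 2) +
      N4 p μ / D4 p μ * x4 ^ 2 := by
  have hE0 := E0_pos p μ hp hm hμ
  have hE1 := E1_pos p μ hp hm hμ
  have hE2 := E2_pos p μ hp hm hμ
  have hE3 := E3_pos p μ hp hm hμ
  have ha0 : 0 < p - 1 := by linarith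
  have ha1 : 0 < 2 * p - 1 := by linarith
  have ha2 : 0 < 3 * p - 1 := by linarith
  have ha3 : 0 < 4 * p - 1 := by linarith
  have hb0 : (0 : ℝ) < 1 := by linarith
  have hb1 : (0 : ℝ) < (p + 1) := by linarith
  have hb2 : (0 : ℝ) < (2 * p + 1) := by linarith
  have hb3 : (0 : ℝ) < (3 * p + 1) := by linarith
  have hD4 : 0 < D4 p μ := by unfold D4; norm_num
  have hD1 : 0 < D1 p μ := mul_pos hb1 hE1
  have hD2 : 0 < D2 p μ := mul_pos hb2 hE2
  have hD3 : 0 < D3 p μ := mul_pos hb3 hE3
  have s3 : N3 p μ / D3 p μ * x3 ^ 2 ≤ 1 / 7 * ((x3 - x4) ^ 2 + μ * ((4 * p - 1) / (3 * p + 1)) * (x3 + (3 * p + 1) / (4 * p - 1) * x4) ^ 2) + N4 p μ / D4 p μ * x4 ^ 2 :=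
    gstep 7 p (4 * p - 1) (3 * p + 1) μ (N4 p μ) (D4 p μ) x3 x4 (by norm_num) ha3 hb3 (by ring) hD4 hE3
  have s2 : N2 p μ / D2 p μ * x2 ^ 2 ≤ 1 / 5 * ((x2 - x3) ^ 2 + μ * ((3 * p - 1) / (2 * p + 1)) * (x2 + (2 * p + 1) / (3 * p - 1) * x3) ^ 2) + N3 p μ / D3 p μ * x3 ^ 2 :=
    gstep 5 p (3 * p - 1) (2 * p + 1) μ (N3 p μ) (D3 p μ) x2 x3 (by norm_num) ha2 hb2 (by ring) hD3 hE2
  have s1 : N1 p μ / D1 p μ * x1 ^ 2 ≤ 1 / 3 * ((x1 - x2) ^ 2 + μ * ((2 * p - 1) / (p + 1)) * (x1 + (p + 1) / (2 * p - 1) * x2) ^ 2) + N2 p μ / D2 p μ * x2 ^ 2 :=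
    gstep 3 p (2 * p - 1) (p + 1) μ (N2 p μ) (D2 p μ) x1 x2 (by norm_num) ha1 hb1 (by ring) hD2 hE1
  have s0 : N0 p μ / D0 p μ * x0 ^ 2 ≤ 1 / 1 * ((x0 - x1) ^ 2 + μ * ((p - 1) / 1) * (x0 + 1 / (p - 1) * x1) ^ 2) + N1 p μ / D1 p μ * x1 ^ 2 :=
    gstep 1 p (p - 1) 1 μ (N1 p μ) (D1 p μ) x0 x1 (by norm_num) ha0 hb0 (by ring) hD1 hE0
  linarith

theorem low (p μ : ℝ) (hp : 10 ≤ p) (hm : μ ≤ 0) (hμ : 0 ≤ 2 + (2 * p + 5) * μ) (γ : ℕ → ℝ) :
    N0 p μ / D0 p μ * γ 0 ^ 2 ≤
      TT 4 γ + μ * (n1 p / d0 p) * Lam (1 / p) 4 γ + N4 p μ / D4 p μ * γ 4 ^ 2 := by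
  obtain ⟨h1, h2, h3⟩ := pos0 p hp
  have hm := minT p μ (γ 0) (γ 1) (γ 2) (γ 3) (γ 4) hp hm hμ
  refine hm.trans (le_of_eq ?_)
  rw [lowgen p (by linarith), KK_eq p hp, show μ * (n1 p / d0 p) / (n1 p / d0 p) = μ by
    field_simp]
  rw [sum_range_succ, sum_range_succ, sum_range_succ, sum_range_one]
  push_cast
  norm_num

noncomputable def A0 (p : ℝ) : ℝ :=
    ((((((((144) * p - 36) * p - 196) * p + 49) * p + 56) * p - 14) * p - 4) * p + 1) * p ^ 1
noncomputable def A1 (p : ℝ) : ℝ :=
    (((((((((144) * p - 480) * p - 772) * p + 1708) * p - 45) * p - 822) * p + 222) * p + 72) * p -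
    29) * p + 2
noncomputable def A2 (p : ℝ) : ℝ :=
    ((((((((((-576)) * p - 10176) * p + 12352) * p + 4832) * p - 9366) * p + 2784) * p + 588) * p -
    552) * p + 122) * p - 8
noncomputable def A3 (p : ℝ) : ℝ :=
    ((((((((((-7776)) * p + 5328) * p + 19176) * p - 29024) * p + 12758) * p + 2020) * p - 3556) *
    p + 1264) * p - 202) * p + 12
noncomputable def A4 (p : ℝ) : ℝ :=
    ((((((((((-6336)) * p + 21792) * p - 26780) * p + 10340) * p + 6837) * p - 9384) * p + 4530) *
    p - 1140) * p + 149) * p - 8
noncomputable def A5 (p : ℝ) : ℝ :=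
    ((((((((((-576)) * p + 3552) * p - 8980) * p + 12340) * p - 10233) * p + 5346) * p - 1770) * p
    + 360) * p - 41) * p + 2
noncomputable def AA (p μ : ℝ) : ℝ := A0 p + A1 p * μ + A2 p * μ ^ 2 + A3 p * μ ^ 3 + A4 p * μ ^ 4 + A5 p * μ ^ 5
noncomputable def AA' (p μ : ℝ) : ℝ := A1 p + 2 * A2 p * μ + 3 * A3 p * μ ^ 2 + 4 * A4 p * μ ^ 3 + 5 * A5 p * μ ^ 4

noncomputable def B0 (p : ℝ) : ℝ :=
    ((((((((144) * p - 36) * p - 196) * p + 49) * p + 56) * p - 14) * p - 4) * p + 1) * p ^ 2
noncomputable def B1 (p : ℝ) : ℝ :=
    ((((((((((144) * p + 384) * p - 580) * p - 2372) * p + 1023) * p + 1626) * p - 498) * p - 216)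
    * p + 55) * p + 2) * p ^ 1
noncomputable def B2 (p : ℝ) : ℝ :=
    ((((((((288) * p - 648) * p - 248) * p + 882) * p - 84) * p - 252) * p + 48) * p + 18) * p - 4
noncomputable def BB (p μ : ℝ) : ℝ := B0 p + B1 p * μ + B2 p * μ ^ 2
noncomputable def BB' (p μ : ℝ) : ℝ := B1 p + 2 * B2 p * μ

noncomputable def s0 (p : ℝ) : ℝ :=
    (((((((144) * p - 36) * p - 196) * p + 49) * p + 56) * p - 14) * p - 4) * p + 1
noncomputable def s1 (p : ℝ) : ℝ :=
    ((((((((144) * p + 240) * p - 1384) * p + 272) * p + 920) * p - 256) * p - 112) * p + 32) * p ^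
    1
noncomputable def SS (p μ : ℝ) : ℝ := s0 p + s1 p * μ
noncomputable def SS' (p μ : ℝ) : ℝ := s1 p

noncomputable def D_0 (p : ℝ) : ℝ :=
    (((((((144) * p - 36) * p - 196) * p + 49) * p + 56) * p - 14) * p - 4) * p + 1
noncomputable def D_1 (p : ℝ) : ℝ :=
    ((((((((-576)) * p + 288) * p + 1312) * p - 524) * p - 608) * p + 208) * p + 64) * p - 20
noncomputable def D_2 (p : ℝ) : ℝ :=
    ((((((((-7776)) * p + 2592) * p + 7440) * p - 2322) * p - 312) * p + 60) * p - 168) * p + 54
noncomputable def D_3 (p : ℝ) : ℝ :=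
    ((((((((-6336)) * p + 2016) * p - 5072) * p + 1700) * p + 2224) * p - 688) * p + 160) * p - 52
noncomputable def D_4 (p : ℝ) : ℝ :=
    ((((((((-576)) * p + 180) * p - 3484) * p + 1097) * p - 1360) * p + 434) * p - 52) * p + 17
noncomputable def DD (p μ : ℝ) : ℝ := D_0 p + D_1 p * μ + D_2 p * μ ^ 2 + D_3 p * μ ^ 3 + D_4 p * μ ^ 4
noncomputable def DD' (p μ : ℝ) : ℝ := D_1 p + 2 * D_2 p * μ + 3 * D_3 p * μ ^ 2 + 4 * D_4 p * μ ^ 3

theorem hd_AA (p μ : ℝ) : HasDerivAt (AA p) (AA' p μ) μ := by
  unfold AA AA'
  refine (((((((hasDerivAt_id μ).const_mul (A1 p)).const_add (A0 p)).add ((hasDerivAt_pow 2 μ).const_mul (A2 p))).add ((hasDerivAt_pow 3 μ).const_mul (A3 p))).add ((hasDerivAt_pow 4 μ).const_mul (A4 p))).add ((hasDerivAt_pow 5 μ).const_mul (A5 p))).congr_deriv ?_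
  norm_num
  try ring

theorem hd_BB (p μ : ℝ) : HasDerivAt (BB p) (BB' p μ) μ := by
  unfold BB BB'
  refine ((((hasDerivAt_id μ).const_mul (B1 p)).const_add (B0 p)).add ((hasDerivAt_pow 2 μ).const_mul (B2 p))).congr_deriv ?_
  norm_num
  try ring

theorem hd_SS (p μ : ℝ) : HasDerivAt (SS p) (SS' p μ) μ := by
  unfold SS SS'
  refine (((hasDerivAt_id μ).const_mul (s1 p)).const_add (s0 p)).congr_deriv ?_
  norm_num
  try ring

theorem hd_DD (p μ : ℝ) : HasDerivAt (DD p) (DD' p μ) μ := by
  unfold DD DD'
  refine ((((((hasDerivAt_id μ).const_mul (D_1 p)).const_add (D_0 p)).add ((hasDerivAt_pow 2 μ).const_mul (D_2 p))).add ((hasDerivAt_pow 3 μ).const_mul (D_3 p))).add ((hasDerivAt_pow 4 μ).const_mul (D_4 p))).congr_deriv ?_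
  norm_num
  try ring

theorem AA_eq (p μ : ℝ) : AA p μ = (p - 2) * N0 p μ + p * D0 p μ := by
  unfold AA D0
  rw [N0_eq, E0_eq]
  unfold A0 A1 A2 A3 A4 A5 m0_1 m0_2 m0_3 m0_4 m0_5 e0_0 e0_1 e0_2 e0_3 e0_4
  ring
theorem DD_eq (p μ : ℝ) : DD p μ = D0 p μ := by
  unfold DD D0
  rw [E0_eq]
  unfold D_0 D_1 D_2 D_3 D_4 e0_0 e0_1 e0_2 e0_3 e0_4
  ring
theorem BB_eq (p μ : ℝ) (hp : 10 ≤ p) : BB p μ = 1 * p * d0 p *
    (2 * (SS p μ / (1 * d0 p)) + (p - 2) * (1 + μ * (n1 p / d0 p) + ((-(1 * μ) / 1) + 2 * (-(1 * μ) / 1) ^ 2 / p))) := by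
  obtain ⟨h1, h2, h3⟩ := pos0 p hp
  have hp0 : 0 < p := by linarith
  have h2' := h2.ne'
  have e : BB p μ = 2 * p * 1 * SS p μ + (p - 2) * 1 * (1 * p * d0 p + 1 * p * n1 p * μ - 1 * p * d0 p * μ + 2 * d0 p * μ ^ 2) := by
    unfold BB SS n1 d0 B0 B1 B2 s0 s1
    ring
  rw [e]
  generalize SS p μ = S
  generalize n1 p = n1 at *
  generalize d0 p = d0 at *
  field_simp
  ring

noncomputable def bAA0 (p : ℝ) : ℝ :=
    ((((((((144) * p - 36) * p - 196) * p + 49) * p + 56) * p - 14) * p - 4) * p + 1) * p ^ 1
noncomputable def bAA1 (p : ℝ) : ℝ :=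
    (((((((((1152) * p + 4200) * p - 1316) * p - 7826) * p + 1875) * p + 2904) * p - 834) * p -
    234) * p + 83) * p - 4
noncomputable def bAA2 (p : ℝ) : ℝ :=
    ((((((((((3456) * p + 26976) * p + 11808) * p + 6720) * p - 85232) * p + 378) * p + 51504) * p
    - 11940) * p - 5424) * p + 1866) * p - 112
noncomputable def bAA3 (p : ℝ) : ℝ :=
    (((((((((((4608) * p + 58176) * p + 71200) * p - 97120) * p + 222400) * p - 303836) * p -
    260554) * p + 401536) * p - 54908) * p - 58540) * p + 18214) * p - 1176
noncomputable def bAA4 (p : ℝ) : ℝ :=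
    ((((((((((((2304) * p + 46272) * p + 116672) * p - 519568) * p - 232464) * p + 1276708) * p -
    70172) * p - 1781067) * p + 1368568) * p + 10930) * p - 295260) * p + 82565) * p - 5488
noncomputable def bAA5 (p : ℝ) : ℝ :=
    ((((((((((((7296) * p + 57792) * p - 470112) * p - 1465840) * p + 250968) * p + 2665380) * p +
    645598) * p - 3238761) * p + 1539720) * p + 438718) * p - 564186) * p + 143031) * p - 9604

theorem fbAA0 (u : ℝ) (hu : 0 ≤ u) : 0 < bAA0 (10 + u) := by
  have h : bAA0 (10 + u) =
    ((((((((144) * u + 11484) * u + 400484) * u + 7976689) * u + 99248506) * u + 789931226) * u +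
    3927523176) * u + 11153069721) * u + 13849445610 := by
    unfold bAA0; ring
  rw [h]; positivity

theorem fbAA1 (u : ℝ) (hu : 0 ≤ u) : 0 < bAA1 (10 + u) := by
  have h : bAA1 (10 + u) =
    (((((((((1152) * u + 107880) * u + 4481884) * u + 108428054) * u + 1683488715) * u +
    17397497654) * u + 119672870326) * u + 528402967146) * u + 1358997511203) * u + 1551229683426 := by
    unfold bAA1; ring
  rw [h]; positivity

theorem fbAA2 (u : ℝ) (hu : 0 ≤ u) : 0 < bAA2 (10 + u) := by
  have h : bAA2 (10 + u) =
    ((((((((((3456) * u + 372576) * u + 17991648) * u + 512784960) * u + 9557031568) * u +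
    121751206458) * u + 1074030622404) * u + 6479958586220) * u + 25595345518776) * u +
    59779162027386) * u + 62699308376148 := by
    unfold bAA2; ring
  rw [h]; positivity

theorem fbAA3 (u : ℝ) (hu : 0 ≤ u) : 0 < bAA3 (10 + u) := by
  have h : bAA3 (10 + u) =
    (((((((((((4608) * u + 565056) * u + 31232800) * u + 1028422880) * u + 22436292800) * u +
    340783328164) * u + 3679653029286) * u + 28259811619836) * u + 151351646732532) * u +
    538563738275820) * u + 1146313459219014) * u + 1105946063378964 := by
    unfold bAA3; ring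
  rw [h]; positivity

theorem fbAA4 (u : ℝ) (hu : 0 ≤ u) : 0 < bAA4 (10 + u) := by
  have h : bAA4 (10 + u) =
    ((((((((((((2304) * u + 322752) * u + 20412992) * u + 772523632) * u + 19517710416) * u +
    347287274788) * u + 4467468288188) * u + 41900479831413) * u + 284581930237218) * u +
    1365872607646650) * u + 4399724099503440) * u + 8544042951178365) * u + 7567638069204162 := by
    unfold bAA4; ring
  rw [h]; positivity

theorem fbAA5 (u : ℝ) (hu : 0 ≤ u) : 0 < bAA5 (10 + u) := by
  have h : bAA5 (10 + u) =
    ((((((((((((7296) * u + 933312) * u + 54040608) * u + 1874498960) * u + 43403701368) * u +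
    706889078820) * u + 8302018572598) * u + 70810130203119) * u + 434942269898670) * u +
    1873771079026518) * u + 5363403390519354) * u + 9130910800104711) * u + 6960328102820106 := by
    unfold bAA5; ring
  rw [h]; positivity

theorem bidAA (y0 y1 y2 y3 y4 y5 W μ : ℝ) : 32 * (y0 + y1 * μ + y2 * μ ^ 2 + y3 * μ ^ 3 + y4 * μ ^ 4 + y5 * μ ^ 5) =
    (1 * y0) * (2 + W * μ) ^ 5 + (5 * y0 * W - 2 * y1) * (-μ) ^ 1 * (2 + W * μ) ^ 4 + (10 * y0 * W
    ^ 2 - 8 * y1 * W + 4 * y2) * (-μ) ^ 2 * (2 + W * μ) ^ 3 + (10 * y0 * W ^ 3 - 12 * y1 * W ^ 2 +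
    12 * y2 * W - 8 * y3) * (-μ) ^ 3 * (2 + W * μ) ^ 2 + (5 * y0 * W ^ 4 - 8 * y1 * W ^ 3 + 12 * y2
    * W ^ 2 - 16 * y3 * W + 16 * y4) * (-μ) ^ 4 * (2 + W * μ) ^ 1 + (1 * y0 * W ^ 5 - 2 * y1 * W ^
    4 + 4 * y2 * W ^ 3 - 8 * y3 * W ^ 2 + 16 * y4 * W - 32 * y5) * (-μ) ^ 5 := by
  ring

theorem hbAA0 (p : ℝ) : bAA0 p = 1 * A0 p := by
  unfold bAA0 A0
  ring
theorem hbAA1 (p : ℝ) : bAA1 p = 5 * A0 p * (2 * p + 5) - 2 * A1 p := by
  unfold bAA1 A0 A1
  ring
theorem hbAA2 (p : ℝ) : bAA2 p = 10 * A0 p * (2 * p + 5) ^ 2 - 8 * A1 p * (2 * p + 5) + 4 * A2 p := by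
  unfold bAA2 A0 A1 A2
  ring
theorem hbAA3 (p : ℝ) : bAA3 p = 10 * A0 p * (2 * p + 5) ^ 3 - 12 * A1 p * (2 * p + 5) ^ 2 + 12 * A2 p * (2 * p + 5) - 8 * A3 p := by
  unfold bAA3 A0 A1 A2 A3
  ring
theorem hbAA4 (p : ℝ) : bAA4 p = 5 * A0 p * (2 * p + 5) ^ 4 - 8 * A1 p * (2 * p + 5) ^ 3 + 12 * A2 p * (2 * p + 5) ^ 2 - 16 * A3
    p * (2 * p + 5) + 16 * A4 p := by
  unfold bAA4 A0 A1 A2 A3 A4
  ring
theorem hbAA5 (p : ℝ) : bAA5 p = 1 * A0 p * (2 * p + 5) ^ 5 - 2 * A1 p * (2 * p + 5) ^ 4 + 4 * A2 p * (2 * p + 5) ^ 3 - 8 * A3 p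
    * (2 * p + 5) ^ 2 + 16 * A4 p * (2 * p + 5) - 32 * A5 p := by
  unfold bAA5 A0 A1 A2 A3 A4 A5
  ring

theorem idAA (p μ : ℝ) : 32 * (A0 p + A1 p * μ + A2 p * μ ^ 2 + A3 p * μ ^ 3 + A4 p * μ ^ 4 + A5 p * μ ^ 5) =
    bAA0 p * (2 + (2 * p + 5) * μ) ^ 5 + bAA1 p * (-μ) ^ 1 * (2 + (2 * p + 5) * μ) ^ 4 + bAA2 p *
    (-μ) ^ 2 * (2 + (2 * p + 5) * μ) ^ 3 + bAA3 p * (-μ) ^ 3 * (2 + (2 * p + 5) * μ) ^ 2 + bAA4 p *
    (-μ) ^ 4 * (2 + (2 * p + 5) * μ) ^ 1 + bAA5 p * (-μ) ^ 5 := by
  rw [hbAA0, hbAA1, hbAA2, hbAA3, hbAA4, hbAA5]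
  exact bidAA (A0 p) (A1 p) (A2 p) (A3 p) (A4 p) (A5 p) (2 * p + 5) μ

theorem posAA (p μ : ℝ) (hp : 10 ≤ p) (hm : μ ≤ 0) (hμ : 0 ≤ 2 + (2 * p + 5) * μ) :
    0 < A0 p + A1 p * μ + A2 p * μ ^ 2 + A3 p * μ ^ 3 + A4 p * μ ^ 4 + A5 p * μ ^ 5 := by
  have h := idAA p μ
  obtain ⟨u, rfl⟩ : ∃ u, p = 10 + u := ⟨p - 10, by ring⟩
  have hu : 0 ≤ u := by linarith
  have a0 := fbAA0 u hu
  have a1 := fbAA1 u hu
  have a2 := fbAA2 u hu
  have a3 := fbAA3 u hu
  have a4 := fbAA4 u hu
  have a5 := fbAA5 u hu
  generalize (10 + u) = p at *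
  have hn : 0 ≤ -μ := by linarith
  have hone : (-μ) * (2 * p + 5) + (2 + (2 * p + 5) * μ) = 2 := by ring
  generalize hw : 2 + (2 * p + 5) * μ = w at h hμ hone
  have t0 : 0 ≤ bAA0 p * w ^ 5 := by positivity
  have t1 : 0 ≤ bAA1 p * (-μ) ^ 1 * w ^ 4 := by positivity
  have t2 : 0 ≤ bAA2 p * (-μ) ^ 2 * w ^ 3 := by positivity
  have t3 : 0 ≤ bAA3 p * (-μ) ^ 3 * w ^ 2 := by positivity
  have t4 : 0 ≤ bAA4 p * (-μ) ^ 4 * w ^ 1 := by positivity
  have t5 : 0 ≤ bAA5 p * (-μ) ^ 5 := by positivity
  rcases hμ.eq_or_lt with h0 | h0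
  · have hn2 : 0 < -μ := by
      by_contra hcon
      have : -μ = 0 := by linarith
      rw [this, ← h0] at hone
      norm_num at hone
    have s : 0 < bAA5 p * (-μ) ^ 5 := by positivity
    linarith
  · have s : 0 < bAA0 p * w ^ 5 := by positivity
    linarith

noncomputable def bSS0 (p : ℝ) : ℝ :=
    (((((((144) * p - 36) * p - 196) * p + 49) * p + 56) * p - 14) * p - 4) * p + 1
noncomputable def bSS1 (p : ℝ) : ℝ :=
    (((((((168) * p + 2196) * p - 1426) * p - 1483) * p + 764) * p + 146) * p - 82) * p + 5

theorem fbSS0 (u : ℝ) (hu : 0 ≤ u) : 0 < bSS0 (10 + u) := by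
  have h : bSS0 (10 + u) =
    (((((((144) * u + 10044) * u + 300044) * u + 4976249) * u + 49486016) * u + 295071066) * u +
    976812516) * u + 1384944561 := by
    unfold bSS0; ring
  rw [h]; positivity

theorem fbSS1 (u : ℝ) (hu : 0 ≤ u) : 0 < bSS1 (10 + u) := by
  have h : bSS1 (10 + u) =
    (((((((168) * u + 13956) * u + 483134) * u + 9101217) * u + 101235444) * u + 667073266) * u +
    2416600038) * u + 3719347785 := by
    unfold bSS1; ring
  rw [h]; positivity

theorem bidSS (y0 y1 W μ : ℝ) : 2 * (y0 + y1 * μ) =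
    (1 * y0) * (2 + W * μ) ^ 1 + (1 * y0 * W - 2 * y1) * (-μ) ^ 1 := by
  ring

theorem hbSS0 (p : ℝ) : bSS0 p = 1 * s0 p := by
  unfold bSS0 s0
  ring
theorem hbSS1 (p : ℝ) : bSS1 p = 1 * s0 p * (2 * p + 5) - 2 * s1 p := by
  unfold bSS1 s0 s1
  ring

theorem idSS (p μ : ℝ) : 2 * (s0 p + s1 p * μ) =
    bSS0 p * (2 + (2 * p + 5) * μ) ^ 1 + bSS1 p * (-μ) ^ 1 := by
  rw [hbSS0, hbSS1]
  exact bidSS (s0 p) (s1 p) (2 * p + 5) μ

theorem posSS (p μ : ℝ) (hp : 10 ≤ p) (hm : μ ≤ 0) (hμ : 0 ≤ 2 + (2 * p + 5) * μ) :
    0 < s0 p + s1 p * μ := by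
  have h := idSS p μ
  obtain ⟨u, rfl⟩ : ∃ u, p = 10 + u := ⟨p - 10, by ring⟩
  have hu : 0 ≤ u := by linarith
  have a0 := fbSS0 u hu
  have a1 := fbSS1 u hu
  generalize (10 + u) = p at *
  have hn : 0 ≤ -μ := by linarith
  have hone : (-μ) * (2 * p + 5) + (2 + (2 * p + 5) * μ) = 2 := by ring
  generalize hw : 2 + (2 * p + 5) * μ = w at h hμ hone
  have t0 : 0 ≤ bSS0 p * w ^ 1 := by positivity
  have t1 : 0 ≤ bSS1 p * (-μ) ^ 1 := by positivity
  rcases hμ.eq_or_lt with h0 | h0
  · have hn2 : 0 < -μ := by
      by_contra hcon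
      have : -μ = 0 := by linarith
      rw [this, ← h0] at hone
      norm_num at hone
    have s : 0 < bSS1 p * (-μ) ^ 1 := by positivity
    linarith
  · have s : 0 < bSS0 p * w ^ 1 := by positivity
    linarith

noncomputable def q0 (p : ℝ) : ℝ :=
    ((((((((((((((((((((((((((((((((859963392) * p - 10462887936) * p + 25852649472) * p +
    686776320) * p - 112004591616) * p + 219147337728) * p + 73334232576) * p - 685689838080) * p +
    311401508864) * p + 939846328320) * p - 740153752832) * p - 681280075520) * p + 749400323392) *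
    p + 254421763168) * p - 432180843204) * p - 26830066104) * p + 153119389728) * p - 16208769408)
    * p - 33814793712) * p + 7798895136) * p + 4491752544) * p - 1597225536) * p - 310331160) * p +
    178042608) * p + 3693792) * p - 10545792) * p + 838672) * p + 265632) * p - 40096) * p - 544) *
    p + 188) * p + 8) * p ^ 1
noncomputable def q1 (p : ℝ) : ℝ :=
    (((((((((((((((((((((((((((((((((859963392) * p - 22144057344) * p + 138179395584) * p -
    185521176576) * p - 229649541120) * p + 868733862912) * p - 1423690633728) * p - 733314131712)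
    * p + 6637089433088) * p - 3210452577600) * p - 11550711429664) * p + 9519959558832) * p +
    10087640196072) * p - 11526709220656) * p - 4347856229872) * p + 7756491450178) * p +
    424739783832) * p - 3129564522120) * p + 444044880432) * p + 760382595288) * p - 224861453904)
    * p - 103787770224) * p + 49698544176) * p + 5657547468) * p - 5808650832) * p + 324581376) * p
    + 330851440) * p - 58249368) * p - 4930136) * p + 2103648) * p - 178368) * p + 5890) * p - 392)
    * p + 8
noncomputable def q2 (p : ℝ) : ℝ :=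
    ((((((((((((((((((((((((((((((((((-13329432576)) * p + 132004380672) * p - 106259226624) * p -
    1674053111808) * p + 4315607175168) * p + 3730140979200) * p - 24144047474688) * p +
    15029489408256) * p + 39035522476160) * p - 56016260045056) * p - 6620522115840) * p +
    61985191598336) * p - 40299951733840) * p - 20051052466928) * p + 43821667538240) * p -
    13043277763856) * p - 18763150755168) * p + 14225280537744) * p + 2477219842080) * p -
    5423957645520) * p + 781903362720) * p + 1003994490480) * p - 357868888992) * p - 74533842672)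
    * p + 56003253312) * p - 2855121936) * p - 3676447520) * p + 758938768) * p + 37552560) * p -
    29073344) * p + 3893344) * p - 301504) * p + 21664) * p - 832
noncomputable def q3 (p : ℝ) : ℝ :=
    (((((((((((((((((((((((((((((((((17629249536) * p - 134942588928) * p - 2616008638464) * p +
    13178524925952) * p - 14106570163200) * p - 40271216891904) * p + 114264585609984) * p +
    22812770025216) * p - 354971317968448) * p + 220763742557184) * p + 463048656983760) * p -
    550333936577072) * p - 205971588914168) * p + 542557143923776) * p - 86504947298944) * p -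
    256073030984776) * p + 130266065691216) * p + 46870517832192) * p - 54690046537248) * p +
    6133022982816) * p + 9685905055008) * p - 4138648544736) * p - 266822139744) * p +
    632126042160) * p - 142515729264) * p - 23066200032) * p + 16473697552) * p - 2393481264) * p -
    221583720) * p + 132618272) * p - 26396896) * p + 3786968) * p - 356960) * p + 14176
noncomputable def q4 (p : ℝ) : ℝ :=
    ((((((((((((((((((((((((((((((((((-11609505792)) * p - 772282957824) * p - 380160552960) * p +
    34413948334080) * p - 126864959090688) * p - 48762289944576) * p + 899359952115456) * p -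
    962716308281856) * p - 1414545006526720) * p + 2876519669865472) * p + 43324247730688) * p -
    2996116451339392) * p + 1516397219616416) * p + 1167500082337888) * p - 1307140865548256) * p +
    100853855364152) * p + 404671327199856) * p - 208271434092864) * p - 9956931478848) * p +
    50757731999904) * p - 19807151732736) * p - 732242116800) * p + 3314341706496) * p -
    1129397339568) * p + 27292065312) * p + 96250848768) * p - 33533938880) * p + 4613272352) * p +
    380387552) * p - 387463328) * p + 117966304) * p - 20809672) * p + 1986800) * p - 76736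
noncomputable def q5 (p : ℝ) : ℝ :=
    (((((((((((((((((((((((((((((((((1657579438080) * p - 1492394803200) * p - 36106984341504) * p
    + 64318917500928) * p + 135336716421120) * p - 346587414451200) * p + 213781087411200) * p -
    670180008773376) * p + 1531074370880000) * p + 241134676649792) * p - 3688052551180224) * p +
    2815181256851120) * p + 1921411780444760) * p - 3430477036014944) * p + 644250430332656) * p +
    1366832205030700) * p - 855671498232048) * p - 68124320880528) * p + 237894814080240) * p -
    76585844084304) * p - 9387463355760) * p + 13429997646912) * p - 4162437000144) * p +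
    430077329352) * p + 190767604896) * p - 137570903520) * p + 50968733392) * p - 10545290432) * p
    - 316410600) * p + 1036948384) * p - 353635616) * p + 61436012) * p - 5590448) * p + 208304
noncomputable def q6 (p : ℝ) : ℝ :=
    (((((((((((((((((((((((((((((((((1807213068288) * p - 4473672892416) * p - 37003167719424) * p
    + 127082649931776) * p + 58893634897920) * p - 625798278438912) * p + 599639556699648) * p +
    218400557928192) * p + 26874721588352) * p - 1383429110175360) * p + 996363397397184) * p +
    1369913601692128) * p - 2323723321935152) * p + 629542365126016) * p + 1138056178185152) * p -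
    1068148692103168) * p + 117955507107168) * p + 311322528013920) * p - 182481718935072) * p +
    14666524471392) * p + 23845090749984) * p - 11706192760416) * p + 2828019413664) * p -
    398609488608) * p - 151173593088) * p + 194613842784) * p - 90972870560) * p + 18724423488) * p
    + 1688541456) * p - 2236386208) * p + 672629408) * p - 107255200) * p + 9175072) * p - 329408
noncomputable def q7 (p : ℝ) : ℝ :=
    (((((((((((((((((((((((((((((((((1165680377856) * p - 5636845043712) * p - 11523819995136) * p
    + 99000330375168) * p - 162153005718528) * p + 78504045004800) * p - 98799134913792) * p +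
    150687727041024) * p + 425498644888640) * p - 1048437220959104) * p + 422970343695760) * p +
    716775028629104) * p - 785221710891880) * p + 58177768988608) * p + 283904411782240) * p -
    93132896030344) * p - 79868218317552) * p + 37709019533376) * p + 39176301013440) * p -
    39110168004000) * p + 6444900974400) * p + 8532864380640) * p - 6202157392128) * p +
    1475486803632) * p + 319128974928) * p - 364564124064) * p + 126408384880) * p - 15639491728) *
    p - 5163068440) * p + 3139900384) * p - 792575264) * p + 114677144) * p - 9219424) * p + 319072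
noncomputable def q8 (p : ℝ) : ℝ :=
    (((((((((((((((((((((((((((((((((102765625344) * p - 2661371707392) * p + 9261420539904) * p +
    15132017369088) * p - 158539638528000) * p + 440685065078784) * p - 691936898229504) * p +
    621673415299584) * p - 13826815190272) * p - 894632119304704) * p + 1236645768734400) * p -
    421657562953408) * p - 775492457602432) * p + 1029252961504864) * p - 267689821714816) * p -
    415364561126804) * p + 397241657373384) * p - 54211841433312) * p - 115468279190592) * p +
    74357064041424) * p - 3653196295968) * p - 15886227728544) * p + 7944974673984) * p -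
    862460421240) * p - 736104562896) * p + 410385552672) * p - 94509391232) * p + 1897811344) * p
    + 6583567200) * p - 2603774912) * p + 560577856) * p - 74019988) * p + 5613640) * p - 187456
noncomputable def q9 (p : ℝ) : ℝ :=
    (((((((((((((((((((((((((((((((((13759414272) * p - 332232523776) * p + 1715388088320) * p -
    2443560099840) * p - 12792049016832) * p + 94534009583616) * p - 310730170208256) * p +
    583992624784896) * p - 566000642252800) * p + 5593479657088) * p + 721342028401152) * p -
    916558356827808) * p + 428936736284064) * p + 210928516113552) * p - 472473634450784) * p +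
    309052434712418) * p - 24217936847496) * p - 116364231286056) * p + 90000375208128) * p -
    18786154577544) * p - 14287425352224) * p + 12192173709360) * p - 3378781282176) * p -
    357385240692) * p + 602007666768) * p - 213838473888) * p + 31268568640) * p + 4470692888) * p
    - 3839986752) * p + 1159158528) * p - 218325024) * p + 26555682) * p - 1909000) * p + 61576
noncomputable def q10 (p : ℝ) : ℝ :=
    (((((((((((((((((((((((((((((((((-13759414272)) * p + 124694691840) * p - 374920151040) * p -
    162308136960) * p + 5336429008896) * p - 23850198171648) * p + 65649687206400) * p -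
    120056582507520) * p + 130644846653824) * p - 36390539969536) * p - 125463370607008) * p +
    219219092346080) * p - 165891646349968) * p + 34285291327616) * p + 58973577984304) * p -
    72430611525888) * p + 40166414069520) * p - 7407486471552) * p - 6748249833744) * p +
    6597648951744) * p - 2596626272016) * p + 232629590400) * p + 279348941328) * p - 159775071744)
    * p + 40316304048) * p - 2747041920) * p - 1829464720) * p + 855665248) * p - 213991328) * p +
    36044800) * p - 4075520) * p + 279040) * p - 8704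
noncomputable def QQ (p μ : ℝ) : ℝ := q0 p + q1 p * μ + q2 p * μ ^ 2 + q3 p * μ ^ 3 + q4 p * μ ^ 4 + q5 p * μ ^ 5 + q6 p * μ ^ 6 + q7
    p * μ ^ 7 + q8 p * μ ^ 8 + q9 p * μ ^ 9 + q10 p * μ ^ 10

theorem ident (p μ : ℝ) : p * ((AA' p μ * (BB p μ * DD p μ) - AA p μ * (BB' p μ * DD p μ + BB p μ * DD' p μ)) * SS p μ) +
    2 * (AA p μ * (BB p μ * DD p μ) * SS' p μ) = μ * (p ^ 1 * QQ p μ) := by
  unfold AA' BB' DD' SS' AA BB DD SS QQ A0 A1 A2 A3 A4 A5 B0 B1 B2 D_0 D_1 D_2 D_3 D_4 s0 s1 q0 q1 q2 q3 q4 q5 q6 q7 q8 q9 q10
  ring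

noncomputable def bQ0 (p : ℝ) : ℝ :=
    ((((((((((((((((((((((((((((((((859963392) * p - 10462887936) * p + 25852649472) * p +
    686776320) * p - 112004591616) * p + 219147337728) * p + 73334232576) * p - 685689838080) * p +
    311401508864) * p + 939846328320) * p - 740153752832) * p - 681280075520) * p + 749400323392) *
    p + 254421763168) * p - 432180843204) * p - 26830066104) * p + 153119389728) * p - 16208769408)
    * p - 33814793712) * p + 7798895136) * p + 4491752544) * p - 1597225536) * p - 310331160) * p +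
    178042608) * p + 3693792) * p - 10545792) * p + 838672) * p + 265632) * p - 40096) * p - 544) *
    p + 188) * p + 8) * p ^ 1
noncomputable def bQ1 (p : ℝ) : ℝ :=
    (((((((((((((((((((((((((((((((((15479341056) * p - 121971474432) * p - 282450198528) * p +
    1677410353152) * p - 1746453934080) * p - 2954750552064) * p + 15271432805376) * p -
    8580456869376) * p - 41330640592896) * p + 40787907164800) * p + 55290664218688) * p -
    69673208269664) * p - 39251277700304) * p + 65611869874272) * p + 12773183754064) * p -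
    37658626382636) * p + 871404921696) * p + 13590923142480) * p - 2374824105504) * p -
    3055526973456) * p + 929502715488) * p + 400218656928) * p - 185464988352) * p - 23270800776) *
    p + 20593307904) * p - 675388992) * p - 1172219040) * p + 163744976) * p + 22339952) * p -
    6222976) * p + 333296) * p - 2220) * p + 1184) * p - 16
noncomputable def bQ2 (p : ℝ) : ℝ :=
    ((((((((((((((((((((((((((((((((((123834728448) * p - 442881146880) * p - 6249138978816) * p +
    5437835182080) * p + 27809579778048) * p - 53928519966720) * p + 72414979319808) * p +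
    247072669286400) * p - 591386561132544) * p - 647587037044480) * p + 1543662020721920) * p +
    938921724306048) * p - 2282943622653568) * p - 700309769175184) * p + 2107984843157200) * p +
    179792351416712) * p - 1248336991736456) * p + 104091187125528) * p + 474161071554864) * p -
    104693312101248) * p - 112249373663136) * p + 39630337751424) * p + 15127588712544) * p -
    8152145343216) * p - 786422538096) * p + 936830762832) * p - 57728199264) * p - 53446839872) *
    p + 9631040608) * p + 780842832) * p - 344764208) * p + 30973096) * p - 1503304) * p + 130648)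
    * p - 4048
noncomputable def bQ3 (p : ℝ) : ℝ :=
    (((((((((((((((((((((((((((((((((((577895399424) * p + 433421549568) * p - 38316528893952) * p
    - 78923426955264) * p + 187178596761600) * p + 121460366868480) * p + 256974736564224) * p +
    2205688717541376) * p - 2138938358433792) * p - 10690403678414848) * p + 2879534670515712) * p
    + 24122786432202752) * p - 30186959366272) * p - 34326752026084096) * p - 1703647631376512) * p
    + 32714218860269248) * p - 605905516569088) * p - 20789931809859504) * p + 2684874365292672) *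
    p + 8603477559005760) * p - 2134063066065024) * p - 2217887403433536) * p + 837801801472128) *
    p + 321030172121856) * p - 184084858584960) * p - 16744551747360) * p + 22472810460288) * p -
    1679603214080) * p - 1322899451136) * p + 271396067008) * p + 15075762688) * p - 9604790720) *
    p + 1122789248) * p - 84225712) * p + 7082752) * p - 260928
noncomputable def bQ4 (p : ℝ) : ℝ :=
    ((((((((((((((((((((((((((((((((((((1733686198272) * p + 8861062791168) * p - 113199274524672)
    * p - 649556913291264) * p - 318519133470720) * p + 1172364613189632) * p + 4965560884150272) *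
    p + 18661834071465984) * p - 4534216657809408) * p - 79431379678222336) * p -
    47618169374062592) * p + 144711524542232064) * p + 162028115448549632) * p -
    140481642087460224) * p - 267259817456162432) * p + 80481954303641472) * p +
    282442908990736000) * p - 42824058734018528) * p - 199817186493569816) * p + 35117257458165840)
    * p + 92497052895124608) * p - 24576933650252544) * p - 26587084781064096) * p +
    10297283577935808) * p + 4252093583952960) * p - 2467365699483072) * p - 243005514668688) * p +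
    325080691453408) * p - 25911312221248) * p - 20067336303744) * p + 4452225702112) * p +
    173736290880) * p - 158288885440) * p + 22660479648) * p - 2236920088) * p + 198025808) * p -
    7694656
noncomputable def bQ5 (p : ℝ) : ℝ :=
    (((((((((((((((((((((((((((((((((((((3467372396544) * p + 33036353667072) * p -
    161521764139008) * p - 2105086041391104) * p - 5110220183961600) * p - 4465438610227200) * p +
    19229067505041408) * p + 122937255409434624) * p + 97722035409641472) * p - 383712382654013440)
    * p - 573455941818339328) * p + 323430197562470400) * p + 1279863935671825920) * p +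
    381931917066005760) * p - 1580869667774421248) * p - 1189459035406174272) * p +
    1158190124399623520) * p + 1487183698525808000) * p - 578968226458523744) * p -
    1188988441275272104) * p + 298213391849068608) * p + 625463310268863072) * p -
    178304898749737920) * p - 204207404004607200) * p + 79657215339786816) * p + 36815893096917312)
    * p - 21088204250371584) * p - 2415416868784112) * p + 3033180996233344) * p - 243918349824384)
    * p - 198266043823680) * p + 46594974893664) * p + 1166059298912) * p - 1674056001984) * p +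
    288045515104) * p - 34683369896) * p + 3214086464) * p - 127594208
noncomputable def bQ6 (p : ℝ) : ℝ :=
    ((((((((((((((((((((((((((((((((((((((4623163195392) * p + 64916916535296) * p -
    39152413310976) * p - 3512292297670656) * p - 16264136640430080) * p - 40353266807341056) * p -
    9848163314368512) * p + 379206964489715712) * p + 781774293780529152) * p - 621057512526438400)
    * p - 2611952005269123072) * p - 1138091052690006016) * p + 2880714164481116160) * p +
    5750376999700631552) * p + 444349919188629248) * p - 9827456314759382656) * p -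
    4092404416458936576) * p + 8948116678035280352) * p + 5238424464762937376) * p -
    4813301112152834384) * p - 4438872310537819296) * p + 1920221717517959088) * p +
    2669780603071477536) * p - 877929961446723840) * p - 1015984199415849984) * p +
    401148643822864512) * p + 211187113060704576) * p - 118338569394276512) * p -
    16282002903774528) * p + 18788545840580896) * p - 1480985104492992) * p - 1310105971873280) * p
    + 323997623580160) * p + 3600817356832) * p - 11798471851872) * p + 2418872651632) * p -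
    337597210400) * p + 32324170928) * p - 1296201312
noncomputable def bQ7 (p : ℝ) : ℝ :=
    (((((((((((((((((((((((((((((((((((((((3962711310336) * p + 74300837068800) * p +
    210115428876288) * p - 2889492285358080) * p - 23984048522133504) * p - 102037123090612224) * p
    - 174803399210041344) * p + 503475214566555648) * p + 2135225694964580352) * p +
    555607777632321536) * p - 4693503199085281280) * p - 4010976754997772288) * p -
    2137057458041757696) * p + 2121799396564527104) * p + 25427944823307927040) * p +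
    9036999851792656384) * p - 49853628787117878656) * p - 15933812619649294080) * p +
    49832532283913597440) * p + 12925068279882100544) * p - 28058395502958095488) * p -
    9264021867359644144) * p + 9691629560858377344) * p + 6611924328535784256) * p -
    3085049566175188608) * p - 3163457958637009728) * p + 1309647618141724800) * p +
    791571871461097984) * p - 433931221677506176) * p - 73167980822502048) * p + 77176633884832128)
    * p - 5844440821619456) * p - 5786114202767872) * p + 1505187690625472) * p - 5206633524352) *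
    p - 55745969929536) * p + 13487493677312) * p - 2099614120688) * p + 205486951936) * p -
    8282555456
noncomputable def bQ8 (p : ℝ) : ℝ :=
    ((((((((((((((((((((((((((((((((((((((((1981355655168) * p + 47442460409856) * p +
    296831844089856) * p - 614711005544448) * p - 16746151217725440) * p - 120225724709732352) * p
    - 353428355470196736) * p + 193527078400032768) * p + 2735682065085431808) * p +
    2042011196982984704) * p - 5217373512342347776) * p + 1261760403795075072) * p +
    6742382920598007808) * p - 40780001701605564416) * p - 21177368924069726720) * p +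
    128395215082726225920) * p + 45735796020542797568) * p - 205302422405812537472) * p -
    43662927013530620288) * p + 193973430567524641536) * p + 15230070475873409728) * p -
    107790967247132790208) * p - 2614949156626795652) * p + 34393147175807662056) * p +
    6072442981545857760) * p - 7685008353864544128) * p - 5495436840406988016) * p +
    2622467593682165536) * p + 1847825782123880800) * p - 993529037589177984) * p -
    211387832564030104) * p + 202895725759152176) * p - 14394367399647904) * p - 16532680504939776)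
    * p + 4526694875428240) * p - 83378334460000) * p - 171516425823520) * p + 48244672531776) * p
    - 8129256652804) * p + 806823289384) * p - 32608883776
noncomputable def bQ9 (p : ℝ) : ℝ :=
    (((((((((((((((((((((((((((((((((((((((((440301256704) * p + 13686030729216) * p +
    150362879164416) * p + 578467179528192) * p - 3895089309941760) * p - 67140134197788672) * p -
    291933221136629760) * p - 103767180014125056) * p + 1920809342111973376) * p +
    1552535211198414848) * p - 7943193036085903360) * p + 2123094024767905792) * p +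
    47496616739838246912) * p - 10987747977395001344) * p - 176676294350903264256) * p -
    3878938727074700800) * p + 378483497043590491648) * p + 36319170260615915648) * p -
    507496376500825753920) * p - 24220829699269339744) * p + 439310858152513691120) * p -
    26040846201814410208) * p - 235058449151625614448) * p + 35838824712254384244) * p +
    71462351003397130080) * p - 9953350386109728048) * p - 12034931209758056224) * p -
    3541991641548046736) * p + 2739133115241424480) * p + 2403366656371104032) * p -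
    1261542391969116480) * p - 359954813023886536) * p + 310145521623052416) * p -
    19584507373682240) * p - 27909305052503584) * p + 8023645064146000) * p - 263180929230672) * p
    - 313980499501760) * p + 100482998637616) * p - 17901072825356) * p + 1791518865696) * p -
    72507011472
noncomputable def bQ10 (p : ℝ) : ℝ :=
    (((((((((((((((((((((((((((((((((((((((((513684799488) * p + 20993808531456) * p +
    269252372201472) * p + 466519226056704) * p - 14332067221340160) * p - 91376926550654976) * p -
    66131091418251264) * p + 745732968960491520) * p + 791346767870230528) * p -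
    5837533871941386240) * p - 7676646815418155008) * p + 31879853512089157632) * p +
    58326035970909122560) * p - 81288498469010282496) * p - 206962972442514862080) * p +
    107922411291771367424) * p + 409846108073766423296) * p - 90085952318834048000) * p -
    509788540270705778176) * p + 76330669376011230336) * p + 415981965608700429104) * p -
    81773937457356205424) * p - 214796870208835209976) * p + 61515342241020690824) * p +
    63047329913548326072) * p - 22407014829941120976) * p - 8468852356897517440) * p +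
    1443542045699720736) * p + 868556787443918080) * p + 1295253819699588192) * p -
    641026670743907824) * p - 279453075715746576) * p + 210074148601938576) * p -
    10392922249804256) * p - 21370401388326848) * p + 6396486643145504) * p - 289509666936560) * p
    - 261880056029424) * p + 92802186607144) * p - 17162598914104) * p + 1724903889016) * p -
    69853387856

theorem fbQ0 (u : ℝ) (hu : 0 ≤ u) : 0 < bQ0 (10 + u) := by
  have h : bQ0 (10 + u) =
    ((((((((((((((((((((((((((((((((859963392) * u + 264725397504) * u + 39436541632512) * u +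
    3786650616913920) * u + 263336831903453184) * u + 14130409611513397248) * u +
    608599224451921614336) * u + 21609723501249581268480) * u + 644742332194793939108864) * u +
    16392628946081297379655680) * u + 358950704723166770978407168) * u +
    6824027221235506437629533440) * u + 113323339909470368152077404992) * u +
    1651396570345087823641820841568) * u + 21186499579522081506696908206716) * u +
    239818183547067892147511374409976) * u + 2397856012821813546750409095322848) * u +
    21182331926111480527993833928588672) * u + 165203775801889513576446726223811088) * u +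
    1135610026850145911717524542010271456) * u + 6861490384117878640371338858323101024) * u +
    36299321609275842665319564268191172544) * u + 167258556381508348051352358411995026280) * u +
    666634049961992505703612403501204158608) * u + 2277648474443143921154298553110483868512) * u +
    6592991084208862065298836265968251146368) * u + 15919647414185761707136805364420801122832) * u
    + 31400626878636485849014365954863258854752) * u + 49134376368259479118487282515790283729504) *
    u + 58423550714667900778836603045694317467616) * u + 49295185187024566004389924829887325846268)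
    * u + 26054312842075438823194638480786340256568) * u + 6388762270819789967032157146194113714880 := by
    unfold bQ0; ring
  rw [h]; positivity

theorem fbQ1 (u : ℝ) (hu : 0 ≤ u) : 0 < bQ1 (10 + u) := by
  have h : bQ1 (10 + u) =
    (((((((((((((((((((((((((((((((((15479341056) * u + 4986211074048) * u + 777995885740032) * u +
    78319617518518272) * u + 5716535389352939520) * u + 322322390962521716736) * u +
    14606075664168481299456) * u + 546409371259076545042944) * u + 17201891852487519342802944) * u
    + 462247502394461745885020800) * u + 10717161117024491823115290688) * u +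
    216154868203021340027025708576) * u + 3816553756083478658996678980016) * u +
    59276233741091820729923340020032) * u + 812702808232021942312921312064464) * u +
    9860520280995487353184078623337524) * u + 106034455273921524744290690684621616) * u +
    1011237699548476798268602243790316000) * u + 8551249242500074423202586865196220896) * u +
    64049479243562051260636051345797840944) * u + 424093289270724862890485678979095439648) * u +
    2475092060561215340047850314848345700768) * u + 12680795448425169248830353880772607065408) * u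
    + 56728075177973885421788066982829320013304) * u + 220049685398554015658652720436310929454304)
    * u + 733510761928956170514358820392215371950368) * u +
    2076752355957286544111434395438575235996000) * u + 4918006529651309243266119081381140143170576)
    * u + 9542316279825339576678409581592639543342512) * u +
    14739913641049435055496168723533697797838624) * u +
    17378209844167179835412000061081406707686256) * u +
    14624819439319602314160703965963103102131060) * u +
    7776101604970004309826686964930920151241584) * u + 1944954750097576289464482669577771474525824 := by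
    unfold bQ1; ring
  rw [h]; positivity

theorem fbQ2 (u : ℝ) (hu : 0 ≤ u) : 0 < bQ2 (10 + u) := by
  have h : bQ2 (10 + u) =
    ((((((((((((((((((((((((((((((((((123834728448) * u + 41660926525440) * u + 6794728348483584) *
    u + 715648603839528960) * u + 54704990372804149248) * u + 3233814073545825607680) * u +
    153813104483263574059008) * u + 6047290970717063335280640) * u + 200353666036786715710457856) *
    u + 5674434446085449945393742080) * u + 138887382445846768807199921920) * u +
    2962498639446289152436572766848) * u + 55427529033521783284104380729472) * u +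
    914182530052466995473325404134256) * u + 13341918867327863843333883889155760) * u +
    172770914560978072859895831127672712) * u + 1988770157528910004183734763505518824) * u +
    20370200722703549684101992624630738648) * u + 185693703184937733394736082054703445824) * u +
    1505735785522435451847338062193436881792) * u + 10845869164709094343499355809575788557664) * u
    + 69245458665510111976987392224377735248384) * u + 390634850147520650637139677974013721220064)
    * u + 1939006440974736395051693559666137627765264) * u +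
    8422461446724749275913981108397394786002544) * u +
    31790245745509022388676433024631478163345232) * u +
    103329205128978000463056215219965971141983616) * u +
    285867816540476979541350430133264343407894208) * u +
    662965328503974786525402222089542992587398368) * u +
    1262722945612606556858621420100580901757884112) * u +
    1919825822687473234094338953073511833101169392) * u +
    2234899385675535570417057166653026296749796776) * u +
    1864476233101835658886060089688210862985484776) * u +
    988039503409589766492408995244509105287561368) * u +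
    248254541492387043673874115878661654953188032 := by
    unfold bQ2; ring
  rw [h]; positivity

theorem fbQ3 (u : ℝ) (hu : 0 ≤ u) : 0 < bQ3 (10 + u) := by
  have h : bQ3 (10 + u) =
    (((((((((((((((((((((((((((((((((((577895399424) * u + 202696811347968) * u +
    34493823063687168) * u + 3793916960198885376) * u + 303131444647391723520) * u +
    18748426071611832238080) * u + 934015067877450124468224) * u + 38506678782603118642446336) * u
    + 1339472535241662604347045888) * u + 39885449700047925392538970112) * u +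
    1027914288180440345139294572032) * u + 23123856618111484431317584970752) * u +
    457096340733947909339830947854208) * u + 7980725328194261667065081101228544) * u +
    123562685719483472327830648937488768) * u + 1701489419344572407085692033704392128) * u +
    20882151562899250864569001943037888512) * u + 228713086633279469422728839486313565776) * u +
    2236782734427803282055893634542048297152) * u + 19530468396018769505862618565771470876800) * u
    + 152120281002666519773787982925631040251776) * u +
    1055247039947716545915748437443070304092864) * u + 6503874756322601078402885749813583414025088)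
    * u + 35498477866255468330450903081633086102000896) * u +
    170837916824971191623510052555338259973932160) * u +
    720898361659478780487548772651248371074204640) * u +
    2648449060436180873740980511641172304914764288) * u +
    8394598035858257266146939085094422507009491840) * u +
    22690170693312538897434847607476334569572459264) * u +
    51510560471213212903014863437688373894115255488) * u +
    96234601523752796300489381800910793506094797568) * u +
    143837630336288255623754389697238530625666895680) * u +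
    165031525600616461452756789857702443799480408448) * u +
    136114453492135869276371108653688652740457499728) * u +
    71594454551211079588463213816755446319183662912) * u +
    17952729138579839488319509879783519478446843392 := by
    unfold bQ3; ring
  rw [h]; positivity

theorem fbQ4 (u : ℝ) (hu : 0 ≤ u) : 0 < bQ4 (10 + u) := by
  have h : bQ4 (10 + u) =
    ((((((((((((((((((((((((((((((((((((1733686198272) * u + 632988094169088) * u +
    112210403193520128) * u + 12866615381484896256) * u + 1072658359458962472960) * u +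
    69286453385815833772032) * u + 3608461852883952243720192) * u + 155688338462274439911235584) *
    u + 5674289791551680967929597952) * u + 177255003936787819444923213824) * u +
    4798915990746285663033572620288) * u + 113578788896354499340755076396544) * u +
    2365934182475621656034231143525632) * u + 43608228302203662304376303675171456) * u +
    714154780879931907229354405393029248) * u + 10424270754034320807944272797019407232) * u +
    135935376965138038451556367622314881920) * u + 1586098286165395607697304938417156413472) * u +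
    16573537287560934752003597443368218269864) * u + 155123774639764552203180746761554761170160) *
    u + 1299953635592173939625833302843372488300608) * u +
    9742799474709715121669041112909444837972736) * u +
    65187053220048339764362922704189478819550304) * u +
    388367263672970997465589247333074831304930368) * u +
    2053208544079947510129440985916805962918414400) * u +
    9589574086348396273262913495102248928892030528) * u +
    39344174836396717789306212968899551607972657392) * u +
    140786628473801094047730628871092723313206888608) * u +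
    435401375658437739687601943706620126355156209472) * u +
    1150278663793353837562256980504383458864778105216) * u +
    2556863787792958754876560038540216358115900017632) * u +
    4685931756078723969019538505561241076638543147200) * u +
    6884366677169115697300524488619477226572434986560) * u +
    7781559825535016361881169100768555552448810982048) * u +
    6339661039249535970749588036857332993660545405352) * u +
    3304705102993249558746046803851683163275024958448) * u +
    824818353094444552283915321406697353046865802624 := by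
    unfold bQ4; ring
  rw [h]; positivity

theorem fbQ5 (u : ℝ) (hu : 0 ≤ u) : 0 < bQ5 (10 + u) := by
  have h : bQ5 (10 + u) =
    (((((((((((((((((((((((((((((((((((((3467372396544) * u + 1315964140388352) * u +
    242658567165837312) * u + 28964136098682372096) * u + 2515574280039850967040) * u +
    169424840569911592550400) * u + 9208895113780957343121408) * u + 415082434804526430020911104) *
    u + 15821744102739853517891100672) * u + 517507307596344574259181117440) * u +
    14688910129629685241461942300672) * u + 364983011925418444377169017507840) * u +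
    7993925466097493874079956611397120) * u + 155174204922706068303832703272085760) * u +
    2681109268635023848274756266940561152) * u + 41370488871467194068518165943707914688) * u +
    571526519707416764725402634594641949280) * u + 7081504036715688341660102373918408456000) * u +
    78785410377518172403641953816115211716256) * u + 787438416832017806811706788935428806816536) *
    u + 7069631848557247877038563076210550995267488) * u +
    56974970982902480082474185953466781791399232) * u +
    411628549676236236797507380430229714847118400) * u +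
    2660712313342872581359357405580587512639408800) * u +
    15345391272386838931912980974970414977722138816) * u +
    78685943372730637391355940750408865891754883392) * u +
    357090833713061379213141224656395852022785670656) * u +
    1426029097375447520509968738537012673768041976848) * u +
    4975172144788990423349123922339235360948377150144) * u +
    15026339931778458120576383584659110719904784912576) * u +
    38833012155704313737475646207594469554695456024000) * u +
    84580953644200577802941399266570732400821031856864) * u +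
    152157408199053090733881484990037113330735180726752) * u +
    219844556522812101225777212008087893942713766239616) * u +
    244898883876104109185050582444119406758458635227744) * u +
    197110663833745974752374989543692669492987479612824) * u +
    101806518644721834117855442208784299661733457283744) * u +
    25270911668857732978897342814503136410021526744832 := by
    unfold bQ5; ring
  rw [h]; positivity

theorem fbQ6 (u : ℝ) (hu : 0 ≤ u) : 0 < bQ6 (10 + u) := by
  have h : bQ6 (10 + u) =
    ((((((((((((((((((((((((((((((((((((((4623163195392) * u + 1821718930784256) * u +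
    348988479340806144) * u + 43306864196488003584) * u + 3913280185678438072320) * u +
    274436255805405043359744) * u + 15545811283475751282475008) * u + 730958330521539620368515072)
    * u + 29094341200898892264880668672) * u + 994822342223294971853670195200) * u +
    29553657870181392946176090492928) * u + 769568592585677374139431835213824) * u +
    17688674868777613925340402498570240) * u + 360890187668013592767811218254999552) * u +
    6564605353579601313605299537632917248) * u + 106833412293359205232545002972050196864) * u +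
    1559670817739340810724025141441091897344) * u + 20466519223436798195180800497717133988832) * u
    + 241726387306906863362683080715539721609696) * u +
    2571597711453700615072914053164659705392816) * u +
    24647220466293560510029342391936617201151744) * u +
    212748411473768131476221876947249068367959408) * u +
    1652348923868451935744835590376325625915197696) * u +
    11529796777850978282051901257614271801802302720) * u +
    72126680237829614820427308149840431048673046016) * u +
    403352859196190620537364372709041587952417306752) * u +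
    2009067990277633871586829717944793104092396636736) * u +
    8871779970065255524699411898152334532899396090208) * u +
    34531178252088388229991360736612213375789862602752) * u +
    117608746529961817125124199693928166363443613032096) * u +
    347313463091261617585934881545084935547194331531648) * u +
    879015394738620972401257195081207820371040458152960) * u +
    1878017154994171142601185964727846758039733388136960) * u +
    3319606480499645507121559442045198974131899290086432) * u +
    4721301277583001487201097921415791049991447916629728) * u +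
    5187407703451425122531670807042693940418806219408752) * u +
    4127388316963158441636579953495629721263464959535360) * u +
    2113024411532062349317727674667695892725924785564528) * u +
    521609217852645647647036741190830718418416200579968 := by
    unfold bQ6; ring
  rw [h]; positivity

theorem fbQ7 (u : ℝ) (hu : 0 ≤ u) : 0 < bQ7 (10 + u) := by
  have h : bQ7 (10 + u) =
    (((((((((((((((((((((((((((((((((((((((3962711310336) * u + 1619758248099840) * u +
    322081341610917888) * u + 41513420727496212480) * u + 3899101027668769898496) * u +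
    284443102887132516581376) * u + 16774981981232703044714496) * u + 821917095332155783253065728)
    * u + 34123404788929255792892608512) * u + 1218292926923950688672184467456) * u +
    37832826389384958842280872427520) * u + 1031059179799892646653026706112512) * u +
    24835895211903577035834131287793664) * u + 531770247804171915556197565204342784) * u +
    10166934126005036381065548033875156480) * u + 174199438720221569219489141150436496384) * u +
    2682388399252192263162597138311689253504) * u + 37200255897193958488279854120089866813440) * u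
    + 465357503242579967082760715960487772119040) * u +
    5256167302071164993194723976372211948378944) * u +
    53627805783232909807102286348620261689853312) * u +
    494224122265207513281122462250427764445349136) * u +
    4111716549009859352727784590942845215949746624) * u +
    30846821572920484584589719471021630084829457536) * u +
    208336055719115232313273279674937593532723386752) * u +
    1263854688972493454176984597235870165254276891072) * u +
    6866263726422924334540177930675951859415255338880) * u +
    33281270340080038811468224128502421378081550557184) * u +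
    143248435391682151190012375867749243495087272299904) * u +
    544307596884373520849560394527687842659248799632992) * u +
    1812552465153766457826420900860565667225999041539328) * u +
    5241399092471195206526042384716228076124389831816064) * u +
    13009345367052160395344723899184592781521899009576448) * u +
    27300058163440247802449987532505036711887806045149632) * u +
    47473768252291887211880642541016659921617099141616768) * u +
    66538519159514755885450761135564451039679229730140864) * u +
    72179316531287498773017858029695654473575607124783872) * u +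
    56818677391751798298319137798103371335113154596557072) * u +
    28847953344918445059860719173663019155864224271187776) * u +
    7082621797732826117693433253438798533035576273647104 := by
    unfold bQ7; ring
  rw [h]; positivity

theorem fbQ8 (u : ℝ) (hu : 0 ≤ u) : 0 < bQ8 (10 + u) := by
  have h : bQ8 (10 + u) =
    ((((((((((((((((((((((((((((((((((((((((1981355655168) * u + 839984722477056) * u +
    173345132507037696) * u + 23203461579178770432) * u + 2264960668359956889600) * u +
    171853670149898867048448) * u + 10549961468746620205400064) * u + 538548503036999442258198528)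
    * u + 23316640205637555976053915648) * u + 868998966896712498222555889664) * u +
    28200585395285111918765009035264) * u + 804074309505732003221302751158272) * u +
    20288689272368059251053922303602688) * u + 455657766519646393593530838272385024) * u +
    9151017915638362136907205156933711360) * u + 164954867453948865106354786973654405120) * u +
    2676761322234537456476319824829888077568) * u + 39192006261090314445897818491937220478848) * u
    + 518641878714742961652135055145142926637952) * u +
    6210502044917628983868901174009577627768576) * u +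
    67338764361741493962312279449026270992247488) * u +
    661249584430691675444562585302078931659491392) * u +
    5879021024794090657075578579506278745098776828) * u +
    47288248310640426439650645739646242393608207896) * u +
    343685982206467044972626406889504934241307379680) * u +
    2252936507834594177288693121735490661700237747072) * u +
    13288472581371060014705135359255533749581668992784) * u +
    70308646195476578949347770665064336327887779299296) * u +
    332414152011717752487438378177417903514306353014880) * u +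
    1397696829058592938008151649268942669789283726674816) * u +
    5195663655988077641378080721845103164946825264407656) * u +
    16950230878207666695967154102286602411785504792429776) * u +
    48086980661029600853816758489125609043151184016419936) * u +
    117256694539541187886288840956220527480807511527381504) * u +
    242082331350212008757754373552178850329172635379096720) * u +
    414767904802508788954901714587952168099962165248040800) * u +
    573644907573460968163237841712145882939481781946176480) * u +
    615058421711114020175645308295286161230774486544390976) * u +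
    479416616816214984533861949357842728267749805579588476) * u +
    241512053439064251678850669628737096128793721747686104) * u +
    58971534106089027105026739440282948151916054335305664 := by
    unfold bQ8; ring
  rw [h]; positivity

theorem fbQ9 (u : ℝ) (hu : 0 ≤ u) : 0 < bQ9 (10 + u) := by
  have h : bQ9 (10 + u) =
    (((((((((((((((((((((((((((((((((((((((((440301256704) * u + 194209545977856) * u +
    41729478220578816) * u + 5820341783397138432) * u + 592468878053788876800) * u +
    46917075872802475081728) * u + 3008588103374230494904320) * u + 160570097599535482899922944) *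
    u + 7275108375087096596983054336) * u + 284021632668644911773513187328) * u +
    9664860778203282182997947596800) * u + 289274356237383133666464427220992) * u +
    7670829446981110788330329375424512) * u + 181272080825327916247421545345755136) * u +
    3835566864092156038298579504305306624) * u + 72945277902665078094360097171307194880) * u +
    1250727203013087193346837092003054274048) * u + 19380802960886506139680335409825586027648) * u
    + 271908235459346755295232125440328143441600) * u +
    3458506140438233484303359117892267621543456) * u +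
    39915181982117440175314811086092873868323440) * u +
    418160637181227447010471367426575923900798592) * u +
    3976355199320381487262838356796877991243303952) * u +
    34304805076845344421462936216977087965309687124) * u +
    268254560952848456998541018930445033466904513200) * u +
    1898668122551343840747852105038105326195919606752) * u +
    12140135483734057264312302958238674418621029968096) * u +
    69949308317605658377894331514605904198170113343664) * u +
    362040204153910202688301580445755553107462644849440) * u +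
    1676637264578709479105709350937327894058909355468832) * u +
    6913976072261280208234879874510204207010614878407360) * u +
    25236700353196065617741891407673476336561756382631864) * u +
    80937249746003141032116216465083326865633488145598816) * u +
    225982726328116314968075721914280661830187803918823200) * u +
    542936374449487154016668116290861482522649600767694816) * u +
    1105676743021513552287471613108868144896333059947967120) * u +
    1870782337435677079566115407389650626514209195473522928) * u +
    2558180901038733359510654261153549924218895481946124640) * u +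
    2715311574863422787363707058510571625385440699653495216) * u +
    2098061456325205900227722673729023519433317436292127124) * u +
    1049278612435840732924440445153710361691704007825003376) * u +
    254781229386283105248588646943539260941754758111925888 := by
    unfold bQ9; ring
  rw [h]; positivity

theorem fbQ10 (u : ℝ) (hu : 0 ≤ u) : 0 < bQ10 (10 + u) := by
  have h : bQ10 (10 + u) =
    (((((((((((((((((((((((((((((((((((((((((513684799488) * u + 231604576321536) * u +
    50788929342799872) * u + 7218871972380278784) * u + 747741970751092162560) * u +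
    60169777242911053185024) * u + 3915546411965735489765376) * u + 211798138865025064233861120) *
    u + 9713925213446977725859299328) * u + 383440888821743502172385280000) * u +
    13178064246553387052322116206592) * u + 397937746743231207342383902769152) * u +
    10635530848666181450351677627740160) * u + 253071688469714548187509070948091904) * u +
    5386953431503378798440209776180695040) * u + 102976356354859232950109627473895297024) * u +
    1773270734727542304006929225284162849536) * u + 27575341732815124082978137521265653056000) * u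
    + 387963834840063392912843439328518595981824) * u +
    4945134195399899405033075040934110546249856) * u +
    57156603163748074254944425754591604647250224) * u +
    599300901408534297672550268981482922692972016) * u +
    5700476558676006457612352129179292840567529224) * u +
    49166729379753368845736585464993243503792059384) * u +
    384180136692274966017018433013382831657023524792) * u +
    2715837141481873159564102476393371969125961974464) * u +
    17336220846280743466449371074103958370366326729600) * u +
    99681233518836687823777659724890878801787430952736) * u +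
    514661664872009754504432493079332071679294609941120) * u +
    2376774168593418924168509441071765979511557878836192) * u +
    9770611237085277798445225988723694866003192374803216) * u +
    35542265376459231258711564654130585915241235594699984) * u +
    113570493895573073781889587996245238222735690955688976) * u +
    315860252147678428260351877999881622699923238928515584) * u +
    755756447497645061005401538016921428996830549804286272) * u +
    1532489521335996622698609478507189051142165726578333344) * u +
    2581460294416299131787773101130303649445451847239636880) * u +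
    3513959000095163701230801710298597638797881036794118576) * u +
    3712562929939242221835950827906434165263045270872550184) * u +
    2855243536559173695801798528850332089382743361652845816) * u +
    1421305497363645423938691514953854121569107535248454136) * u +
    343525016126706005059628798359330340665397719374995904 := by
    unfold bQ10; ring
  rw [h]; positivity

theorem bidQ (y0 y1 y2 y3 y4 y5 y6 y7 y8 y9 y10 W μ : ℝ) : 1024 * (y0 + y1 * μ + y2 * μ ^ 2 + y3 * μ ^ 3 + y4 * μ ^ 4 + y5 * μ ^ 5 + y6 * μ ^ 6 + y7 * μ ^ 7 + y8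
    * μ ^ 8 + y9 * μ ^ 9 + y10 * μ ^ 10) =
    (1 * y0) * (2 + W * μ) ^ 10 + (10 * y0 * W - 2 * y1) * (-μ) ^ 1 * (2 + W * μ) ^ 9 + (45 * y0 *
    W ^ 2 - 18 * y1 * W + 4 * y2) * (-μ) ^ 2 * (2 + W * μ) ^ 8 + (120 * y0 * W ^ 3 - 72 * y1 * W ^
    2 + 32 * y2 * W - 8 * y3) * (-μ) ^ 3 * (2 + W * μ) ^ 7 + (210 * y0 * W ^ 4 - 168 * y1 * W ^ 3 +
    112 * y2 * W ^ 2 - 56 * y3 * W + 16 * y4) * (-μ) ^ 4 * (2 + W * μ) ^ 6 + (252 * y0 * W ^ 5 -
    252 * y1 * W ^ 4 + 224 * y2 * W ^ 3 - 168 * y3 * W ^ 2 + 96 * y4 * W - 32 * y5) * (-μ) ^ 5 * (2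
    + W * μ) ^ 5 + (210 * y0 * W ^ 6 - 252 * y1 * W ^ 5 + 280 * y2 * W ^ 4 - 280 * y3 * W ^ 3 + 240
    * y4 * W ^ 2 - 160 * y5 * W + 64 * y6) * (-μ) ^ 6 * (2 + W * μ) ^ 4 + (120 * y0 * W ^ 7 - 168 *
    y1 * W ^ 6 + 224 * y2 * W ^ 5 - 280 * y3 * W ^ 4 + 320 * y4 * W ^ 3 - 320 * y5 * W ^ 2 + 256 *
    y6 * W - 128 * y7) * (-μ) ^ 7 * (2 + W * μ) ^ 3 + (45 * y0 * W ^ 8 - 72 * y1 * W ^ 7 + 112 * y2
    * W ^ 6 - 168 * y3 * W ^ 5 + 240 * y4 * W ^ 4 - 320 * y5 * W ^ 3 + 384 * y6 * W ^ 2 - 384 * y7
    * W + 256 * y8) * (-μ) ^ 8 * (2 + W * μ) ^ 2 + (10 * y0 * W ^ 9 - 18 * y1 * W ^ 8 + 32 * y2 * W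
    ^ 7 - 56 * y3 * W ^ 6 + 96 * y4 * W ^ 5 - 160 * y5 * W ^ 4 + 256 * y6 * W ^ 3 - 384 * y7 * W ^
    2 + 512 * y8 * W - 512 * y9) * (-μ) ^ 9 * (2 + W * μ) ^ 1 + (1 * y0 * W ^ 10 - 2 * y1 * W ^ 9 +
    4 * y2 * W ^ 8 - 8 * y3 * W ^ 7 + 16 * y4 * W ^ 6 - 32 * y5 * W ^ 5 + 64 * y6 * W ^ 4 - 128 *
    y7 * W ^ 3 + 256 * y8 * W ^ 2 - 512 * y9 * W + 1024 * y10) * (-μ) ^ 10 := by
  ring

theorem hbQ0 (p : ℝ) : bQ0 p = 1 * q0 p := by
  unfold bQ0 q0
  ring
theorem hbQ1 (p : ℝ) : bQ1 p = 10 * q0 p * (2 * p + 5) - 2 * q1 p := by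
  unfold bQ1 q0 q1
  ring
theorem hbQ2 (p : ℝ) : bQ2 p = 45 * q0 p * (2 * p + 5) ^ 2 - 18 * q1 p * (2 * p + 5) + 4 * q2 p := by
  unfold bQ2 q0 q1 q2
  ring
theorem hbQ3 (p : ℝ) : bQ3 p = 120 * q0 p * (2 * p + 5) ^ 3 - 72 * q1 p * (2 * p + 5) ^ 2 + 32 * q2 p * (2 * p + 5) - 8 * q3 p := by
  unfold bQ3 q0 q1 q2 q3
  ring
theorem hbQ4 (p : ℝ) : bQ4 p = 210 * q0 p * (2 * p + 5) ^ 4 - 168 * q1 p * (2 * p + 5) ^ 3 + 112 * q2 p * (2 * p + 5) ^ 2 - 56
    * q3 p * (2 * p + 5) + 16 * q4 p := by
  unfold bQ4 q0 q1 q2 q3 q4
  ring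
theorem hbQ5 (p : ℝ) : bQ5 p = 252 * q0 p * (2 * p + 5) ^ 5 - 252 * q1 p * (2 * p + 5) ^ 4 + 224 * q2 p * (2 * p + 5) ^ 3 -
    168 * q3 p * (2 * p + 5) ^ 2 + 96 * q4 p * (2 * p + 5) - 32 * q5 p := by
  unfold bQ5 q0 q1 q2 q3 q4 q5
  ring
theorem hbQ6 (p : ℝ) : bQ6 p = 210 * q0 p * (2 * p + 5) ^ 6 - 252 * q1 p * (2 * p + 5) ^ 5 + 280 * q2 p * (2 * p + 5) ^ 4 -
    280 * q3 p * (2 * p + 5) ^ 3 + 240 * q4 p * (2 * p + 5) ^ 2 - 160 * q5 p * (2 * p + 5) + 64 *
    q6 p := by
  unfold bQ6 q0 q1 q2 q3 q4 q5 q6
  ring
theorem hbQ7 (p : ℝ) : bQ7 p = 120 * q0 p * (2 * p + 5) ^ 7 - 168 * q1 p * (2 * p + 5) ^ 6 + 224 * q2 p * (2 * p + 5) ^ 5 -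
    280 * q3 p * (2 * p + 5) ^ 4 + 320 * q4 p * (2 * p + 5) ^ 3 - 320 * q5 p * (2 * p + 5) ^ 2 +
    256 * q6 p * (2 * p + 5) - 128 * q7 p := by
  unfold bQ7 q0 q1 q2 q3 q4 q5 q6 q7
  ring
theorem hbQ8 (p : ℝ) : bQ8 p = 45 * q0 p * (2 * p + 5) ^ 8 - 72 * q1 p * (2 * p + 5) ^ 7 + 112 * q2 p * (2 * p + 5) ^ 6 - 168
    * q3 p * (2 * p + 5) ^ 5 + 240 * q4 p * (2 * p + 5) ^ 4 - 320 * q5 p * (2 * p + 5) ^ 3 + 384 *
    q6 p * (2 * p + 5) ^ 2 - 384 * q7 p * (2 * p + 5) + 256 * q8 p := by
  unfold bQ8 q0 q1 q2 q3 q4 q5 q6 q7 q8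
  ring
theorem hbQ9 (p : ℝ) : bQ9 p = 10 * q0 p * (2 * p + 5) ^ 9 - 18 * q1 p * (2 * p + 5) ^ 8 + 32 * q2 p * (2 * p + 5) ^ 7 - 56 *
    q3 p * (2 * p + 5) ^ 6 + 96 * q4 p * (2 * p + 5) ^ 5 - 160 * q5 p * (2 * p + 5) ^ 4 + 256 * q6
    p * (2 * p + 5) ^ 3 - 384 * q7 p * (2 * p + 5) ^ 2 + 512 * q8 p * (2 * p + 5) - 512 * q9 p := by
  unfold bQ9 q0 q1 q2 q3 q4 q5 q6 q7 q8 q9
  ring
theorem hbQ10 (p : ℝ) : bQ10 p = 1 * q0 p * (2 * p + 5) ^ 10 - 2 * q1 p * (2 * p + 5) ^ 9 + 4 * q2 p * (2 * p + 5) ^ 8 - 8 * q3
    p * (2 * p + 5) ^ 7 + 16 * q4 p * (2 * p + 5) ^ 6 - 32 * q5 p * (2 * p + 5) ^ 5 + 64 * q6 p *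
    (2 * p + 5) ^ 4 - 128 * q7 p * (2 * p + 5) ^ 3 + 256 * q8 p * (2 * p + 5) ^ 2 - 512 * q9 p * (2
    * p + 5) + 1024 * q10 p := by
  unfold bQ10 q0 q1 q2 q3 q4 q5 q6 q7 q8 q9 q10
  ring

theorem idQ (p μ : ℝ) : 1024 * (q0 p + q1 p * μ + q2 p * μ ^ 2 + q3 p * μ ^ 3 + q4 p * μ ^ 4 + q5 p * μ ^ 5 + q6 p * μ ^ 6 + q7
    p * μ ^ 7 + q8 p * μ ^ 8 + q9 p * μ ^ 9 + q10 p * μ ^ 10) =
    bQ0 p * (2 + (2 * p + 5) * μ) ^ 10 + bQ1 p * (-μ) ^ 1 * (2 + (2 * p + 5) * μ) ^ 9 + bQ2 p *
    (-μ) ^ 2 * (2 + (2 * p + 5) * μ) ^ 8 + bQ3 p * (-μ) ^ 3 * (2 + (2 * p + 5) * μ) ^ 7 + bQ4 p *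
    (-μ) ^ 4 * (2 + (2 * p + 5) * μ) ^ 6 + bQ5 p * (-μ) ^ 5 * (2 + (2 * p + 5) * μ) ^ 5 + bQ6 p *
    (-μ) ^ 6 * (2 + (2 * p + 5) * μ) ^ 4 + bQ7 p * (-μ) ^ 7 * (2 + (2 * p + 5) * μ) ^ 3 + bQ8 p *
    (-μ) ^ 8 * (2 + (2 * p + 5) * μ) ^ 2 + bQ9 p * (-μ) ^ 9 * (2 + (2 * p + 5) * μ) ^ 1 + bQ10 p *
    (-μ) ^ 10 := by
  rw [hbQ0, hbQ1, hbQ2, hbQ3, hbQ4, hbQ5, hbQ6, hbQ7, hbQ8, hbQ9, hbQ10]
  exact bidQ (q0 p) (q1 p) (q2 p) (q3 p) (q4 p) (q5 p) (q6 p) (q7 p) (q8 p) (q9 p) (q10 p) (2 * p + 5) μ

theorem posQ (p μ : ℝ) (hp : 10 ≤ p) (hm : μ ≤ 0) (hμ : 0 ≤ 2 + (2 * p + 5) * μ) :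
    0 < q0 p + q1 p * μ + q2 p * μ ^ 2 + q3 p * μ ^ 3 + q4 p * μ ^ 4 + q5 p * μ ^ 5 + q6 p * μ ^ 6 + q7
    p * μ ^ 7 + q8 p * μ ^ 8 + q9 p * μ ^ 9 + q10 p * μ ^ 10 := by
  have h := idQ p μ
  obtain ⟨u, rfl⟩ : ∃ u, p = 10 + u := ⟨p - 10, by ring⟩
  have hu : 0 ≤ u := by linarith
  have a0 := fbQ0 u hu
  have a1 := fbQ1 u hu
  have a2 := fbQ2 u hu
  have a3 := fbQ3 u hu
  have a4 := fbQ4 u hu
  have a5 := fbQ5 u hu
  have a6 := fbQ6 u hu
  have a7 := fbQ7 u hu
  have a8 := fbQ8 u hu
  have a9 := fbQ9 u hu
  have a10 := fbQ10 u hu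
  generalize (10 + u) = p at *
  have hn : 0 ≤ -μ := by linarith
  have hone : (-μ) * (2 * p + 5) + (2 + (2 * p + 5) * μ) = 2 := by ring
  generalize hw : 2 + (2 * p + 5) * μ = w at h hμ hone
  have t0 : 0 ≤ bQ0 p * w ^ 10 := by positivity
  have t1 : 0 ≤ bQ1 p * (-μ) ^ 1 * w ^ 9 := by positivity
  have t2 : 0 ≤ bQ2 p * (-μ) ^ 2 * w ^ 8 := by positivity
  have t3 : 0 ≤ bQ3 p * (-μ) ^ 3 * w ^ 7 := by positivity
  have t4 : 0 ≤ bQ4 p * (-μ) ^ 4 * w ^ 6 := by positivity
  have t5 : 0 ≤ bQ5 p * (-μ) ^ 5 * w ^ 5 := by positivity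
  have t6 : 0 ≤ bQ6 p * (-μ) ^ 6 * w ^ 4 := by positivity
  have t7 : 0 ≤ bQ7 p * (-μ) ^ 7 * w ^ 3 := by positivity
  have t8 : 0 ≤ bQ8 p * (-μ) ^ 8 * w ^ 2 := by positivity
  have t9 : 0 ≤ bQ9 p * (-μ) ^ 9 * w ^ 1 := by positivity
  have t10 : 0 ≤ bQ10 p * (-μ) ^ 10 := by positivity
  rcases hμ.eq_or_lt with h0 | h0
  · have hn2 : 0 < -μ := by
      by_contra hcon
      have : -μ = 0 := by linarith
      rw [this, ← h0] at hone
      norm_num at hone
    have s : 0 < bQ10 p * (-μ) ^ 10 := by positivity
    linarith
  · have s : 0 < bQ0 p * w ^ 10 := by positivity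
    linarith

noncomputable def be (p : ℝ) : ℝ :=
    ((((((((((240) * p - 576) * p - 11816) * p - 13340) * p + 15437) * p + 9636) * p - 5082) * p -
    852) * p + 341) * p - 52) * p + 16
theorem f_be (u : ℝ) (hu : 0 ≤ u) : 0 < be (10 + u) := by
  have h : be (10 + u) =
    ((((((((((240) * u + 23424) * u + 1016344) * u + 25767780) * u + 421612837) * u + 4633465856) *
    u + 34427932218) * u + 169095571868) * u + 516186835581) * u + 852663423168) * u + 525348961596 := by
    unfold be; ring
  rw [h]; positivity

theorem BB_end (p : ℝ) (hp : 10 ≤ p) : BB p (-(2 / (2 * p + 5))) ≤ 0 := by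
  have hW : 0 < (2 * p + 5) := by linarith
  have e : (2 * p + 5) ^ 2 * BB p (-(2 / (2 * p + 5))) = - be p := by
    unfold BB be B0 B1 B2
    field_simp
    ring
  obtain ⟨u, rfl⟩ : ∃ u, p = 10 + u := ⟨p - 10, by ring⟩
  have hu : 0 ≤ u := by linarith
  have h := f_be u hu
  by_contra hcon
  push Not at hcon
  have := mul_pos (pow_pos hW 2) hcon
  rw [e] at this
  linarith

theorem SS0 (p : ℝ) : s0 p = 1 * d0 p := by unfold s0 d0; ring

theorem f_s1 (u : ℝ) (hu : 0 ≤ u) : 0 < s1 (10 + u) := by
  have h : s1 (10 + u) =
    ((((((((144) * u + 11760) * u + 418616) * u + 8485232) * u + 107138520) * u + 863028544) * u +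
    4331664208) * u + 12386800992) * u + 15452133120 := by
    unfold s1; ring
  rw [h]; positivity

theorem main (p : ℝ) (hp : 10 ≤ p) (s : ℝ) (hs : 0 ≤ s) (hs1 : s ≤ 1) : ∃ H ν m : ℝ,
      (∀ γ : ℕ → ℝ, H * γ 0 ^ 2 ≤ TT 4 γ + ν * Lam (1 / p) 4 γ + m * γ 4 ^ 2) ∧
      0 ≤ 1 + (p - 2) / p * m ∧
      2 * s + (p - 2) * (1 + ν + (m + 2 * m ^ 2 / p)) ≤ ((p - 2) * H + p) * s ^ (2 / p) := by
  obtain ⟨h1, h2, h3⟩ := pos0 p hp
  have hp0 : 0 < p := by linarith
  have hs1p : 0 < s1 p := by
    obtain ⟨u, rfl⟩ : ∃ u, p = 10 + u := ⟨p - 10, by ring⟩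
    exact f_s1 u (by linarith)
  have hW : 0 < (2 * p + 5) := by linarith
  have hND : ∀ μ, N4 p μ / D4 p μ = -(1 * μ) / 1 := fun μ => rfl
  have gen : ∀ μ, μ ≤ 0 → 0 ≤ 2 + (2 * p + 5) * μ →
      (∀ γ : ℕ → ℝ, N0 p μ / D0 p μ * γ 0 ^ 2 ≤ TT 4 γ + μ * (n1 p / d0 p) * Lam (1 / p) 4 γ +
        (-(1 * μ) / 1) * γ 4 ^ 2) ∧
      0 ≤ 1 + (p - 2) / p * (-(1 * μ) / 1) := by
    intro μ hm hμ
    refine ⟨fun γ => ?_, ?_⟩
    · have := low p μ hp hm hμ γ
      rwa [hND] at this
    · have e1 : 0 ≤ (p - 2) / p := div_nonneg (by linarith) hp0.le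
      have e2 : 0 ≤ -(1 * μ) / 1 := div_nonneg (by linarith) (by norm_num)
      have := mul_nonneg e1 e2
      linarith
  have hA : ∀ μ, μ ≤ 0 → 0 ≤ 2 + (2 * p + 5) * μ → 0 < D0 p μ ∧ 0 < (p - 2) * (N0 p μ / D0 p μ) + p ∧
      (p - 2) * (N0 p μ / D0 p μ) + p = AA p μ / D0 p μ := by
    intro μ hm hμ
    have hD : 0 < D0 p μ := by
      unfold D0
      exact mul_pos one_pos (E0_pos p μ hp hm hμ)
    have e : (p - 2) * (N0 p μ / D0 p μ) + p = AA p μ / D0 p μ := by
      rw [AA_eq]
      field_simp
    refine ⟨hD, ?_, e⟩
    rw [e]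
    exact div_pos (posAA p μ hp hm hμ) hD
  obtain ⟨μe, hμe⟩ : ∃ μe, μe = -(2 / (2 * p + 5)) := ⟨_, rfl⟩
  have hme : μe ≤ 0 := by
    rw [hμe]
    have : 0 < 2 / (2 * p + 5) := by positivity
    linarith
  have hwe : 2 + (2 * p + 5) * μe = 0 := by
    rw [hμe]
    field_simp
    try ring
  have hBe : BB p μe ≤ 0 := hμe ▸ BB_end p hp
  by_cases hc : s ≤ SS p μe / (1 * d0 p)
  · refine ⟨N0 p μe / D0 p μe, μe * (n1 p / d0 p), -(1 * μe) / 1, (gen μe hme hwe.ge).1,
      (gen μe hme hwe.ge).2, ?_⟩
    have e1 := BB_eq p μe hp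
    have e2 : 0 ≤ ((p - 2) * (N0 p μe / D0 p μe) + p) * s ^ (2 / p) :=
      mul_nonneg (hA μe hme hwe.ge).2.1.le (Real.rpow_nonneg hs _)
    refine le_trans ?_ e2
    rw [e1] at hBe
    have e3 : 0 < 1 * p * d0 p := by positivity
    have e4 := nonpos_of_mul_nonpos_right hBe e3
    linarith
  · push Not at hc
    obtain ⟨x, hx⟩ : ∃ x, x = (s - 1) * (1 * d0 p) / s1 p := ⟨_, rfl⟩
    have hsx : SS p x = s * (1 * d0 p) := by
      have : SS p x = s0 p + s1 p * x := rfl
      rw [this, SS0, hx]
      field_simp
      ring
    have hsx' : SS p x / (1 * d0 p) = s := by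
      rw [hsx]
      field_simp
    have hx0 : x ≤ 0 := by
      rw [hx]
      exact div_nonpos_of_nonpos_of_nonneg
        (mul_nonpos_of_nonpos_of_nonneg (by linarith) (by positivity)) hs1p.le
    have hxe : μe < x := by
      by_contra hcon
      push Not at hcon
      have e1 : s1 p * x ≤ s1 p * μe := mul_le_mul_of_nonneg_left hcon hs1p.le
      have e2 : SS p x ≤ SS p μe := by
        have : SS p x = s0 p + s1 p * x := rfl
        have : SS p μe = s0 p + s1 p * μe := rfl
        linarith
      have e3 : SS p x / (1 * d0 p) ≤ SS p μe / (1 * d0 p) :=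
        div_le_div_of_nonneg_right e2 (by positivity)
      rw [hsx'] at e3
      linarith
    have hxw : 0 ≤ 2 + (2 * p + 5) * x := by
      have := mul_le_mul_of_nonneg_left hxe.le hW.le
      linarith
    have hreg : ∀ t ∈ uIcc 0 x, t ≤ 0 ∧ 0 ≤ 2 + (2 * p + 5) * t := by
      intro t ht
      rw [uIcc_of_ge hx0] at ht
      refine ⟨ht.2, ?_⟩
      have := mul_le_mul_of_nonneg_left ht.1 hW.le
      linarith
    refine ⟨N0 p x / D0 p x, x * (n1 p / d0 p), -(1 * x) / 1, (gen x hx0 hxw).1,
      (gen x hx0 hxw).2, ?_⟩
    obtain ⟨hD, hA1, hA2⟩ := hA x hx0 hxw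
    rw [hA2]
    obtain ⟨cB, hcB⟩ : ∃ cB, cB = 1 * p * d0 p := ⟨_, rfl⟩
    have hcB0 : 0 < cB := by rw [hcB]; positivity
    have key := cmpW (2 / p) x (fun t => SS p t / (1 * d0 p)) (AA p)
      (fun t => BB p t * DD p t / cB) (fun t => SS' p t / (1 * d0 p)) (AA' p)
      (fun t => (BB' p t * DD p t + BB p t * DD' p t) / cB)
      (by
        have : SS p 0 = s0 p + s1 p * 0 := rfl
        simp only [this, SS0, mul_zero, add_zero]
        exact div_self (by positivity))
      (by
        have e1 := BB_eq p 0 hp
        have e2 : SS p 0 = s0 p + s1 p * 0 := rfl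
        rw [e2, SS0] at e1
        have e3 : BB p 0 = cB * p := by
          rw [e1, hcB]
          field_simp
          ring
        have e4 : AA p 0 = p * DD p 0 := by
          unfold AA DD A0 A1 A2 A3 A4 A5 D_0 D_1 D_2 D_3 D_4
          ring
        rw [e3, e4]
        field_simp)
      (fun t ht => div_pos (posSS p t hp (hreg t ht).1 (hreg t ht).2) (by positivity))
      (fun t ht => posAA p t hp (hreg t ht).1 (hreg t ht).2)
      (fun t => (hd_SS p t).div_const _) (fun t => hd_AA p t)
      (fun t => ((hd_BB p t).mul (hd_DD p t)).div_const _)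
      (by
        intro t ht
        have e1 := ident p t
        have e2 := posQ p t hp (hreg t ht).1 (hreg t ht).2
        have e3 : t * ((AA' p t * (BB p t * DD p t / cB) -
            AA p t * ((BB' p t * DD p t + BB p t * DD' p t) / cB)) * (SS p t / (1 * d0 p)) +
            2 / p * (AA p t * (BB p t * DD p t / cB) * (SS' p t / (1 * d0 p)))) =
            t ^ 2 * (p ^ 1 * QQ p t) / (p * cB * (1 * d0 p)) := by
          have : t ^ 2 * (p ^ 1 * QQ p t) = t * (t * (p ^ 1 * QQ p t)) := by ring
          rw [this, ← e1]
          generalize AA p t = v1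
          generalize AA' p t = v2
          generalize BB p t = v3
          generalize BB' p t = v4
          generalize DD p t = v5
          generalize DD' p t = v6
          generalize SS p t = v7
          generalize SS' p t = v8
          generalize d0 p = v9 at *
          field_simp
        rw [e3]
        have e4 : 0 < QQ p t := e2
        positivity)
    try simp only at key
    rw [hsx', DD_eq] at key
    have e1 := BB_eq p x hp
    rw [hsx', ← hcB] at e1
    have e5 : BB p x * D0 p x / cB = (2 * s + (p - 2) * (1 + x * (n1 p / d0 p) +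
        ((-(1 * x) / 1) + 2 * (-(1 * x) / 1) ^ 2 / p))) * D0 p x := by
      rw [e1]
      field_simp
    rw [e5] at key
    rw [div_mul_eq_mul_div, le_div_iff₀ hD]
    exact key

end Neg

end Pool.Agent.H41.Beur.T4
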